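import Mathlib
import Pool.Agent.Lib.MP_ca1492_al.P.Frob
import Pool.Agent.Lib.MP_ca1492_al.P.HatInj

/-!
# MP_ca1492_al, D5, module Ord: orders of the blocks, normalised parabolic induction

`c : κ → ι` the colouring of the Levi subgroup `M = lev F c`, `β : ι → ι'` the merging of blocks which
gives the ambient group `H = lev F (β ∘ c)` (two cases: `β` constant, `H = GL κ F`; `β = mrg a b`, the
rank one Levi subgroup `M_ab`), `τ : ι → ℤ` injective: the order of the blocks. Normalisation: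
`dh c β τ m = δ_P(m)^(1/2) = (√q)^(- Σ_{β x = β y, τ x < τ y} (n_y vl_x(m) - n_x vl_y(m)))`.

`ISp c β τ hτ σ` = functions `f : H → E` with `f (m n g) = dh(m) • σ(m) (f g)`, right invariant under an
open subgroup; `IRp` = right translation.

* `ex_mul`, `ex_one`: `vl_mul`, `vl_one`, linearity of the sum.
* `dh_eq_one`: `ex = 0` if all `vl c m x = 0`.
* `ex_congr`: clear. `uni_congr`: entries with `β (c i) = β (c j)`, compare `τ (c j) < τ (c i)`; for
  `τ (c i) = τ (c j)` use that `τ` and `τ'` are injective (`c i = c j`).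
* `ISp_congr`: the two conditions in `IndSp` are the same by `uni_congr`, `ex_congr`.
* `dh_opp`: `ex c β τ m + ex c β τ' m = 0` if `τ'` is opposite to `τ` on all classes of `β`: exchange
  the summation variables.
-/

set_option autoImplicit false

namespace Pool.Agent.Lib.MP_ca1492_al.P

open Topology Matrix ValuativeRel TensorProduct

noncomputable section

variable {F : Type} [Field F] [ValuativeRel F] [TopologicalSpace F]
  [IsNonarchimedeanLocalField F]
variable {κ : Type} [Fintype κ] [DecidableEq κ]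
variable {ι ι' : Type} [Fintype ι] [DecidableEq ι]
variable {E E' : Type} [AddCommGroup E] [Module ℂ E] [AddCommGroup E'] [Module ℂ E']

/-- size of the block `x` -/
def nb (c : κ → ι) (x : ι) : ℤ := ((Finset.univ.filter fun i => c i = x).card : ℤ)

theorem sqF_ne : ((Real.sqrt (qF F) : ℝ) : ℂ) ≠ 0 := by
  have h1 : 0 < Real.sqrt (qF F) := Real.sqrt_pos.2 (by
    have := one_lt_qF (F := F)
    exact_mod_cast (by omega : 0 < qF F))
  exact_mod_cast h1.ne'

variable (F) in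
/-- `√q` -/
def sqF : ℂˣ := Units.mk0 ((Real.sqrt (qF F) : ℝ) : ℂ) sqF_ne

open Classical in
/-- exponent of the normalisation -/
def ex (c : κ → ι) (β : ι → ι') (τ : ι → ℤ) (m : GL κ F) : ℤ :=
  ∑ x, ∑ y, if β x = β y ∧ τ x < τ y then nb c y * vl c m x - nb c x * vl c m y else 0

theorem ex_one (c : κ → ι) (β : ι → ι') (τ : ι → ℤ) : ex c β τ (1 : GL κ F) = 0 := by
  unfold ex
  refine Finset.sum_eq_zero fun x _ => Finset.sum_eq_zero fun y _ => ?_
  split_ifs
  · rw [vl_one, vl_one]; ring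
  · rfl

theorem ex_mul (c : κ → ι) (β : ι → ι') (τ : ι → ℤ) (g h : GL κ F) (hg : g ∈ lev F c)
    (hh : h ∈ lev F c) : ex c β τ (g * h) = ex c β τ g + ex c β τ h := by
  unfold ex
  rw [← Finset.sum_add_distrib]
  refine Finset.sum_congr rfl fun x _ => ?_
  rw [← Finset.sum_add_distrib]
  refine Finset.sum_congr rfl fun y _ => ?_
  split_ifs
  · rw [vl_mul c g h hg hh, vl_mul c g h hg hh]; ring
  · rfl

/-- the square root of the modulus character -/
def dh (c : κ → ι) (β : ι → ι') (τ : ι → ℤ) : lev F c →* ℂˣ where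
  toFun m := sqF F ^ (- ex c β τ m.1)
  map_one' := by
    show sqF F ^ (- ex c β τ (1 : GL κ F)) = 1
    rw [ex_one, neg_zero, zpow_zero]
  map_mul' := by
    intro a b
    show sqF F ^ (- ex c β τ (a.1 * b.1)) = _
    rw [ex_mul c β τ a.1 b.1 a.2 b.2, neg_add, _root_.zpow_add]

theorem dh_apply (c : κ → ι) (β : ι → ι') (τ : ι → ℤ) (m : lev F c) :
    dh c β τ m = sqF F ^ (- ex c β τ m.1) := rfl

theorem ordD_cond (c : κ → ι) (β : ι → ι') (τ : ι → ℤ) (hτ : Function.Injective τ) :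
    ∀ i j, c i = c j ↔ β (c i) = β (c j) ∧ τ (c i) = τ (c j) :=
  fun _ _ => ⟨fun h => ⟨by rw [h], by rw [h]⟩, fun h => hτ h.2⟩

/-- the parabolic datum of the order `τ` -/
def ordD (c : κ → ι) (β : ι → ι') (τ : ι → ℤ) (hτ : Function.Injective τ) :
    PD (lev F (fun i => β (c i))) (lev F c) :=
  parD c (fun i => β (c i)) (fun i => τ (c i)) (ordD_cond c β τ hτ)

/-- normalised parabolic induction for the order `τ` -/
abbrev ISp (c : κ → ι) (β : ι → ι') (τ : ι → ℤ) (hτ : Function.Injective τ)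
    (σ : Representation ℂ (lev F c) E) : Submodule ℂ (lev F (fun i => β (c i)) → E) :=
  (ordD c β τ hτ).IndSp (twist (dh c β τ) σ)

/-- right translation on `ISp` -/
abbrev IRp (c : κ → ι) (β : ι → ι') (τ : ι → ℤ) (hτ : Function.Injective τ)
    (σ : Representation ℂ (lev F c) E) :
    Representation ℂ (lev F (fun i => β (c i))) (ISp c β τ hτ σ) :=
  (ordD c β τ hτ).Ind (twist (dh c β τ) σ)

theorem dh_eq_one (c : κ → ι) (β : ι → ι') (τ : ι → ℤ) (m : lev F c)
    (hm : ∀ x, vl c m.1 x = 0) : dh c β τ m = 1 := by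
  have h0 : ex c β τ m.1 = 0 := by
    unfold ex
    refine Finset.sum_eq_zero fun x _ => Finset.sum_eq_zero fun y _ => ?_
    split_ifs
    · rw [hm, hm]; ring
    · rfl
  rw [dh_apply, h0, neg_zero, zpow_zero]

theorem ex_congr (c : κ → ι) (β : ι → ι') (τ τ' : ι → ℤ)
    (h : ∀ x y, β x = β y → (τ x < τ y ↔ τ' x < τ' y)) (m : GL κ F) :
    ex c β τ m = ex c β τ' m := by
  unfold ex
  refine Finset.sum_congr rfl fun x _ => Finset.sum_congr rfl fun y _ => ?_
  by_cases hxy : β x = β y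
  · have h1 := h x y hxy
    by_cases h2 : τ x < τ y
    · rw [if_pos ⟨hxy, h2⟩, if_pos ⟨hxy, h1.1 h2⟩]
    · rw [if_neg (fun h3 => h2 h3.2), if_neg (fun h3 => h2 (h1.2 h3.2))]
  · rw [if_neg (fun h3 => hxy h3.1), if_neg (fun h3 => hxy h3.1)]

theorem Ord_upp_le (c : κ → ι) (β : ι → ι') (τ τ' : ι → ℤ)
    (h : ∀ x y, β x = β y → (τ x < τ y ↔ τ' x < τ' y)) :
    upp F (fun i => β (c i)) (fun i => τ (c i)) ≤
      upp F (fun i => β (c i)) (fun i => τ' (c i)) := by
  intro g hg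
  refine ⟨hg.1, fun i j hij => ?_⟩
  by_cases hb : β (c j) = β (c i)
  · exact hg.2 i j ((h (c j) (c i) hb).2 hij)
  · exact hg.1 i j (fun h' => hb h'.symm)

theorem Ord_uni_le (c : κ → ι) (β : ι → ι') (τ τ' : ι → ℤ)
    (hτ' : Function.Injective τ') (h : ∀ x y, β x = β y → (τ x < τ y ↔ τ' x < τ' y)) :
    uni F (fun i => β (c i)) (fun i => τ (c i)) ≤
      uni F (fun i => β (c i)) (fun i => τ' (c i)) := by
  intro g hg
  refine ⟨Ord_upp_le c β τ τ' h hg.1, fun i j hij => ?_⟩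
  refine hg.2 i j ?_
  show τ (c i) = τ (c j)
  rw [hτ' hij]

theorem uni_congr (c : κ → ι) (β : ι → ι') (τ τ' : ι → ℤ) (hτ : Function.Injective τ)
    (hτ' : Function.Injective τ') (h : ∀ x y, β x = β y → (τ x < τ y ↔ τ' x < τ' y)) :
    uni F (fun i => β (c i)) (fun i => τ (c i)) =
      uni F (fun i => β (c i)) (fun i => τ' (c i)) :=
  le_antisymm (Ord_uni_le c β τ τ' hτ' h)
    (Ord_uni_le c β τ' τ hτ (fun x y hxy => (h x y hxy).symm))

theorem upp_congr (c : κ → ι) (β : ι → ι') (τ τ' : ι → ℤ) (hτ : Function.Injective τ)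
    (hτ' : Function.Injective τ') (h : ∀ x y, β x = β y → (τ x < τ y ↔ τ' x < τ' y)) :
    upp F (fun i => β (c i)) (fun i => τ (c i)) =
      upp F (fun i => β (c i)) (fun i => τ' (c i)) := by
  have _ := hτ
  have _ := hτ'
  exact le_antisymm (Ord_upp_le c β τ τ' h)
    (Ord_upp_le c β τ' τ (fun x y hxy => (h x y hxy).symm))

theorem Ord_ISp_le (c : κ → ι) (β : ι → ι') (τ τ' : ι → ℤ) (hτ : Function.Injective τ)
    (hτ' : Function.Injective τ') (h : ∀ x y, β x = β y → (τ x < τ y ↔ τ' x < τ' y))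
    (σ : Representation ℂ (lev F c) E) : ISp c β τ hτ σ ≤ ISp c β τ' hτ' σ := by
  intro f hf
  refine ⟨fun m hm n hn g => ?_, hf.2⟩
  have hn' : n ∈ uni F (fun i => β (c i)) (fun i => τ (c i)) :=
    Ord_uni_le c β τ' τ hτ (fun x y hxy => (h x y hxy).symm) hn
  have h1 := hf.1 m hm n hn' g
  have h2 : dh (F := F) c β τ' = dh c β τ := by
    ext m'
    rw [dh_apply, dh_apply, ex_congr c β τ τ' h]
  rw [h2]
  exact h1

/-- `ISp` only depends on the order of the blocks inside the classes of `β` -/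
theorem ISp_congr (c : κ → ι) (β : ι → ι') (τ τ' : ι → ℤ) (hτ : Function.Injective τ)
    (hτ' : Function.Injective τ') (h : ∀ x y, β x = β y → (τ x < τ y ↔ τ' x < τ' y))
    (σ : Representation ℂ (lev F c) E) : ISp c β τ hτ σ = ISp c β τ' hτ' σ :=
  le_antisymm (Ord_ISp_le c β τ τ' hτ hτ' h σ)
    (Ord_ISp_le c β τ' τ hτ' hτ (fun x y hxy => (h x y hxy).symm) σ)

theorem dh_opp (c : κ → ι) (β : ι → ι') (τ τ' : ι → ℤ)
    (h : ∀ x y, β x = β y → (τ x < τ y ↔ τ' y < τ' x)) (m : lev F c) :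
    dh c β τ m * dh c β τ' m = 1 := by
  have h0 : ex c β τ m.1 + ex c β τ' m.1 = 0 := by
    classical
    unfold ex
    rw [Finset.sum_comm (f := fun x y => if β x = β y ∧ τ' x < τ' y then
      nb c y * vl c m.1 x - nb c x * vl c m.1 y else 0), ← Finset.sum_add_distrib]
    refine Finset.sum_eq_zero fun x _ => ?_
    rw [← Finset.sum_add_distrib]
    refine Finset.sum_eq_zero fun y _ => ?_
    by_cases hxy : β x = β y
    · have h1 := h x y hxy
      by_cases h2 : τ x < τ y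
      · rw [if_pos ⟨hxy, h2⟩, if_pos ⟨hxy.symm, h1.1 h2⟩]
        ring
      · rw [if_neg (fun h3 => h2 h3.2), if_neg (fun h3 => h2 (h1.2 h3.2)), add_zero]
    · rw [if_neg (fun h3 => hxy h3.1), if_neg (fun h3 => hxy h3.1.symm), add_zero]
  rw [dh_apply, dh_apply, ← _root_.zpow_add, ← neg_add, h0, neg_zero, zpow_zero]

theorem mem_ISp (c : κ → ι) (β : ι → ι') (τ : ι → ℤ) (hτ : Function.Injective τ)
    (σ : Representation ℂ (lev F c) E) (f : lev F (fun i => β (c i)) → E) :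
    f ∈ ISp c β τ hτ σ ↔
      (∀ (m : GL κ F) (hm : m ∈ lev F c) (n : GL κ F)
        (hn : n ∈ uni F (fun i => β (c i)) (fun i => τ (c i))) (g : lev F (fun i => β (c i))),
        f (⟨m, (ordD (F := F) c β τ hτ).hM hm⟩ * ⟨n, (ordD (F := F) c β τ hτ).hN hn⟩ * g) =
          (dh c β τ ⟨m, hm⟩ : ℂ) • σ ⟨m, hm⟩ (f g)) ∧
      ∃ U : Subgroup (lev F (fun i => β (c i))),
        IsOpen (U : Set (lev F (fun i => β (c i)))) ∧ ∀ g, ∀ u ∈ U, f (g * u) = f g := Iff.rfl

/-- postcomposition with an equivariant map -/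
theorem ISp_map (c : κ → ι) (β : ι → ι') (τ : ι → ℤ) (hτ : Function.Injective τ)
    (σ : Representation ℂ (lev F c) E) (σ' : Representation ℂ (lev F c) E') (L : E →ₗ[ℂ] E')
    (hL : Equi σ σ' L) (f : lev F (fun i => β (c i)) → E) (hf : f ∈ ISp c β τ hτ σ) :
    (fun g => L (f g)) ∈ ISp c β τ hτ σ' := by
  rw [mem_ISp] at hf ⊢
  obtain ⟨h1, U, hU, h2⟩ := hf
  refine ⟨fun m hm n hn g => ?_, U, hU, fun g u hu => ?_⟩
  · show L _ = _
    rw [h1 m hm n hn g, map_smul, hL]
  · show L _ = L _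
    rw [h2 g u hu]

theorem Ord_dh_open (c : κ → ι) (β : ι → ι') (τ : ι → ℤ) :
    IsOpen {m : lev F c | dh c β τ m = 1} := by
  have h2 : IsOpen (((dh c β τ).ker : Subgroup (lev F c)) : Set (lev F c)) := by
    refine Subgroup.isOpen_mono (H₁ := (Kc F κ 0).subgroupOf (lev F c)) ?_ ?_
    · intro g hg
      rw [Subgroup.mem_subgroupOf] at hg
      exact dh_eq_one c β τ g (fun x => vl_Kc c g.1 g.2 hg x)
    · exact (Kc_isOpen (F := F) (κ := κ) 0).preimage continuous_subtype_val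
  exact h2

/-- twisting does not change smoothness and the cuspidality -/
theorem sm_twist (c : κ → ι) (β : ι → ι') (τ : ι → ℤ) (σ : Representation ℂ (lev F c) E)
    (hσ : IsSm σ) : IsSm (twist (dh c β τ) σ) :=
  smooth_twist σ hσ _ (Ord_dh_open c β τ)

theorem cusp_twist (c : κ → ι) (β : ι → ι') (τ : ι → ℤ) (σ : Representation ℂ (lev F c) E)
    (hσ : Cusp c σ) : Cusp c (twist (dh c β τ) σ) := by
  intro o ho
  rw [eq_top_iff, ← hσ o ho]
  refine Submodule.span_mono ?_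
  rintro x ⟨n, hn, v, rfl⟩
  refine ⟨n, hn, v, ?_⟩
  have h1 : dh c β τ ⟨n, (stdD F c o).hN hn⟩ = 1 :=
    dh_eq_one c β τ _ (fun x => vl_uni c o n hn x)
  show _ = ((dh c β τ ⟨n, (stdD F c o).hN hn⟩ : ℂ) • σ ⟨n, (stdD F c o).hN hn⟩) v - v
  rw [LinearMap.smul_apply, h1, Units.val_one, one_smul]

theorem inj_twist (c : κ → ι) (β : ι → ι') (τ : ι → ℤ) (σ : Representation ℂ (lev F c) E)
    (hσ : IsInjSm σ) : IsInjSm (twist (dh c β τ) σ) := by
  intro E' _ _ π hπ U hU f hf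
  set χ : lev F c →* ℂˣ := dh c β τ with hχ
  have ho : IsOpen {m : lev F c | (χ⁻¹) m = 1} := by
    have e : {m : lev F c | (χ⁻¹) m = 1} = {m : lev F c | dh c β τ m = 1} := by
      ext m
      show (χ⁻¹) m = 1 ↔ dh c β τ m = 1
      rw [MonoidHom.inv_apply, inv_eq_one]
    rw [e]
    exact Ord_dh_open c β τ
  have hc1 : ∀ g : lev F c, (((χ⁻¹) g : ℂˣ) : ℂ) * ((χ g : ℂˣ) : ℂ) = 1 := by
    intro g
    rw [← Units.val_mul, MonoidHom.inv_apply, inv_mul_cancel, Units.val_one]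
  have hπ' : IsSm (twist χ⁻¹ π) := smooth_twist π hπ _ ho
  have hU' : Stab (twist χ⁻¹ π) U := fun g v hv => U.smul_mem _ (hU g v hv)
  obtain ⟨G, hG, hGU⟩ := hσ E' (twist χ⁻¹ π) hπ' U hU' f (by
    intro g v
    have h1 : (subRep (twist χ⁻¹ π) U hU') g v =
        (((χ⁻¹) g : ℂˣ) : ℂ) • (subRep π U hU) g v := rfl
    have h2 : f ((subRep π U hU) g v) = ((χ g : ℂˣ) : ℂ) • σ g (f v) := hf g v
    rw [h1, map_smul, h2, smul_smul, hc1, one_smul])
  refine ⟨G, fun g v => ?_, hGU⟩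
  have h1 : G ((((χ⁻¹) g : ℂˣ) : ℂ) • π g v) = σ g (G v) := hG g v
  show G (π g v) = ((χ g : ℂˣ) : ℂ) • σ g (G v)
  rw [← h1, map_smul, smul_smul, mul_comm, hc1, one_smul]

/-- the representation `hat c ρ` is of cuspidal type -/
theorem cusp_hat {V : Type} [AddCommGroup V] [Module ℂ V] (c : κ → ι)
    (ρ : Representation ℂ (lev F c) V) (hc : Cusp c ρ) : Cusp c (hat c ρ) := by
  intro o ho
  rw [eq_top_iff]
  intro t _
  induction t using TensorProduct.induction_on with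
  | zero => exact Submodule.zero_mem _
  | add a b ha hb => exact Submodule.add_mem _ (ha trivial) (hb trivial)
  | tmul v p =>
    have hv : v ∈ (stdD F c o).kerJ ρ := by
      rw [hc o ho]
      exact Submodule.mem_top
    refine Submodule.span_induction
      (p := fun v _ => (v ⊗ₜ[ℂ] p) ∈ (stdD F c o).kerJ (hat c ρ)) ?_ ?_ ?_ ?_ hv
    · rintro x ⟨n, hn, w, rfl⟩
      refine Submodule.subset_span ⟨n, hn, w ⊗ₜ p, ?_⟩
      have h4 : vl c n = 0 := by
        funext x
        exact vl_uni c o n hn x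
      rw [hat_apply, TensorProduct.map_tmul, TensorProduct.sub_tmul]
      show _ = ρ ⟨n, (stdD F c o).hN hn⟩ w ⊗ₜ[ℂ] shiftP (vl c n) p - _
      rw [h4, shiftP_zero, LinearMap.id_apply]
    · rw [TensorProduct.zero_tmul]
      exact Submodule.zero_mem _
    · intro x y _ _ hx hy
      rw [TensorProduct.add_tmul]
      exact Submodule.add_mem _ hx hy
    · intro a x _ hx
      have h5 : (a • x) ⊗ₜ[ℂ] p = a • (x ⊗ₜ[ℂ] p) := (TensorProduct.smul_tmul' a x p).symm
      rw [h5]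
      exact Submodule.smul_mem _ _ hx

theorem ISp_smooth (c : κ → ι) (β : ι → ι') (τ : ι → ℤ) (hτ : Function.Injective τ)
    (σ : Representation ℂ (lev F c) E) : IsSm (IRp c β τ hτ σ) :=
  (ordD c β τ hτ).ind_smooth _

/-- `I_τ(hat ρ)` is injective -/
theorem ISp_inj {V : Type} [AddCommGroup V] [Module ℂ V] (c : κ → ι)
    (hcs : Function.Surjective c) (β : ι → ι') (τ : ι → ℤ)
    (hτ : Function.Injective τ) (ρ : Representation ℂ (lev F c) V) (hρ : IsSm ρ) (hi : Irr ρ)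
    (hc : Cusp c ρ) : IsInjSm (IRp c β τ hτ (hat c ρ)) :=
  (ordD c β τ hτ).ind_inj _ (sm_twist c β τ _ (hat_smooth c ρ hρ))
    (inj_twist c β τ _ (hat_inj c ρ hcs hρ hi hc))

end

end Pool.Agent.Lib.MP_ca1492_al.P
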