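import Mathlib
import Pool.Agent.Lib.MP_ca1492_al.D5.Ord
import Pool.Agent.Lib.MP_ca1492_al.P.HatLead
import Pool.Agent.Lib.MP_ca1492_al.P.PInt

/-!
# MP_ca1492_al, D5, module Tst: test functions

`KS τ r f`: `f : H → E` is right invariant under `K_r = Kc r` and supported in `P_τ K_r`.

* `sm_fix`: `{m | σ m e = e}` is open in `lev F c`, `Kc_basis`.
* `tst_exists`: define `f (m n k) = dh(m) • σ(m) e` for `m ∈ M`, `n ∈ N_τ`, `k ∈ K_r ∩ H`, and `f g = 0` off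
  `P_τ K_r`. Well defined: if `m n k = m' n' k'` then `x = m'⁻¹ ... ∈ P_τ ∩ K_r`, its block part (`upp_decomp`,
  `prL`) is in `M ∩ K_r` (the entries of the block part of `x - 1` are entries of `x - 1` or `0`, the same for
  the inverse), `σ` of it fixes `e` and `dh` of it is `1` (`vl_Kc`, `dh_eq_one`).
* `KS_ext`: `f (m n k) = dh(m) • σ(m) (f 1)`.
* `KS_zero`: the support and the value on it.
* `opp_KS`: `n ∈ uni (-o₁)`-part: if `n = p k`, `p ∈ P_τ`, `k ∈ K_r`, `n ∈ N_τ⁻`, `r ≥ 1`, then `k = p⁻¹ n` and the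
  Iwahori factorization of `K_r` (`P/Cell0.lean`: `k = k_P k_-`, `k_P ∈ P_τ ∩ K_r`, `k_- ∈ N_τ⁻ ∩ K_r`) with
  `P_τ ∩ N_τ⁻ = 1` gives `n = k_- ∈ K_r`.
* `lam_KS`: `lam_eq_intS` needs `Csupp`: for `f` with `KS`, in the cell `P 1 P_τ₂ = P_τ₁ (lev c) N_τ₂`, the
  support is `P K_r ∩ cell`, and for `n ∈ N_τ₂`, `n = b n'` with `b ∈ N_τ₂ ∩ P_τ₁`, `n' ∈ N_τ₂ ∩ N_τ₁⁻`
  (`uni_split`), `f (n) ≠ 0` iff `n' ∈ K_r` by `opp_KS`, so `CM = {1}`, `CN = N_τ₂ ∩ K_r` work. (If the Levi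
  component is needed: `g = p m n`, `p m ∈ P_τ₁`.) Then `Lam f 1` is the integral over the pattern
  group `N_τ₂ ∩ N_τ₁⁻` of the function `f 1` on `K_r`, `0` off `K_r`: `intS_ind`.
* `KS_IndOn`: `Ω` is open and contains `1`, so it contains `Kc r ∩ H` for large `r` (`Kc_basis`), and it is left
  `P_τ`-stable.
* `one_cell`: if `c (w i) = c i` then `permG w ∈ lev F c` and the cell of `w` is the cell of `1`,
  `Lam_w f 1 = σ_τ(w) (Lam_1 f 1)` up to the modulus `|..| = 1`: directly `lam_left`/`lam_eq_intS`: the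
  integrand of `Lam_w f 1` is `n ↦ f (w n) = dh(w) • σ(w) (f n)`, `dh(w) = 1` (`vl` of a permutation matrix is
  `0`).
-/

set_option autoImplicit false

namespace Pool.Agent.Lib.MP_ca1492_al.P

open Topology Matrix ValuativeRel TensorProduct

noncomputable section

variable {F : Type} [Field F] [ValuativeRel F] [TopologicalSpace F]
  [IsNonarchimedeanLocalField F]
variable {κ : Type} [Fintype κ] [DecidableEq κ]
variable {ι ι' : Type} [Fintype ι] [DecidableEq ι]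
variable {V E E' : Type} [AddCommGroup V] [Module ℂ V] [AddCommGroup E] [Module ℂ E]
  [AddCommGroup E'] [Module ℂ E']

/-- right `K_r`-invariant, supported in `P_τ K_r` -/
def KS (c : κ → ι) (β : ι → ι') (τ : ι → ℤ) (r : ℕ)
    (f : lev F (fun i => β (c i)) → E) : Prop :=
  (∀ g k : lev F (fun i => β (c i)), k.1 ∈ Kc F κ r → f (g * k) = f g) ∧
  ∀ g, f g ≠ 0 → ∃ p ∈ upp F (fun i => β (c i)) (fun i => τ (c i)), ∃ k ∈ Kc F κ r,
    g.1 = p * k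

open Classical in
/-- the number of pairs of indices in `N_τ₂ ∩ N_τ₁⁻` -/
def npair (c : κ → ι) (β : ι → ι') (τ₁ τ₂ : ι → ℤ) : ℕ :=
  (Finset.univ.filter fun p : κ × κ => β (c p.1) = β (c p.2) ∧ τ₂ (c p.1) < τ₂ (c p.2) ∧
    τ₁ (c p.2) < τ₁ (c p.1)).card

variable (F) in
/-- the volume of `K_r ∩ N_τ₂ ∩ N_τ₁⁻` -/
def Cr (c : κ → ι) (β : ι → ι') (τ₁ τ₂ : ι → ℤ) (r : ℕ) : ℂ :=
  ((qF F : ℂ) ^ (r * npair c β τ₁ τ₂))⁻¹

theorem Cr_ne (c : κ → ι) (β : ι → ι') (τ₁ τ₂ : ι → ℤ) (r : ℕ) : Cr F c β τ₁ τ₂ r ≠ 0 := by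
  have h1 := one_lt_qF (F := F)
  have h2 : (qF F : ℂ) ≠ 0 := Nat.cast_ne_zero.2 (by omega)
  exact inv_ne_zero (pow_ne_zero _ h2)

/-- elements of `M ∩ K_r` have `dh = 1` -/
theorem Tst_dh (c : κ → ι) (β : ι → ι') (τ : ι → ℤ) (r : ℕ) (m : lev F c)
    (hm : m.1 ∈ Kc F κ r) : dh c β τ m = 1 :=
  dh_eq_one c β τ m fun x => vl_Kc c m.1 m.2 (Kc_anti (Nat.zero_le r) hm) x

theorem sm_fix (c : κ → ι) (σ : Representation ℂ (lev F c) E) (hσ : IsSm σ) (e : E) :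
    ∃ r₀ : ℕ, ∀ r : ℕ, r₀ ≤ r → ∀ (m : GL κ F) (hm : m ∈ lev F c), m ∈ Kc F κ r →
      σ ⟨m, hm⟩ e = e := by
  obtain ⟨U, hU, hUe⟩ := isOpen_induced_iff.1 (hσ e)
  have h1U : (1 : GL κ F) ∈ U := by
    have h2 : (1 : lev F c) ∈ Subtype.val ⁻¹' U := by
      rw [hUe]
      show σ 1 e = e
      rw [map_one, Module.End.one_apply]
    exact h2
  obtain ⟨r₀, hr₀⟩ := Kc_basis U (hU.mem_nhds h1U)
  refine ⟨r₀, fun r hr m hm hmr => ?_⟩
  have h3 : (⟨m, hm⟩ : lev F c) ∈ Subtype.val ⁻¹' U := hr₀ (Kc_anti hr hmr)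
  rw [hUe] at h3
  exact h3

/-- functions with `KS` are test functions at `1` -/
theorem KS_isTest (c : κ → ι) (β : ι → ι') (τ : ι → ℤ) (hτ : Function.Injective τ)
    (σ : Representation ℂ (lev F c) E) (r : ℕ) (f : ISp c β τ hτ σ) (e : E) :
    (KS c β τ r f.1 ∧ f.1 1 = e) ↔
      IsTest (fun i => β (c i)) c (fun i => τ (c i)) (ordD_cond c β τ hτ) (twist (dh c β τ) σ) 1
        (fun _ => rfl) r e f := by
  have h1 : (⟨permG F 1, permG_mem_lev' (fun i => β (c i)) 1 (fun _ => rfl)⟩ :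
      lev F (fun i => β (c i))) = 1 := Subtype.ext permG_one
  constructor
  · rintro ⟨⟨h2, h3⟩, h4⟩
    refine ⟨fun g hg => ?_, h2, ?_⟩
    · obtain ⟨p, hp, k, hk, he⟩ := h3 g hg
      exact ⟨p, hp, k, hk, by rw [permG_one, mul_one]; exact he⟩
    · rw [h1]
      exact h4
  · rintro ⟨h3, h2, h4⟩
    rw [h1] at h4
    refine ⟨⟨h2, fun g hg => ?_⟩, h4⟩
    obtain ⟨p, hp, k, hk, he⟩ := h3 g hg
    rw [permG_one, mul_one] at he
    exact ⟨p, hp, k, hk, he⟩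

theorem tst_exists (c : κ → ι) (β : ι → ι') (τ : ι → ℤ) (hτ : Function.Injective τ)
    (σ : Representation ℂ (lev F c) E) (r : ℕ) (e : E)
    (he : ∀ (m : GL κ F) (hm : m ∈ lev F c), m ∈ Kc F κ r → σ ⟨m, hm⟩ e = e) :
    ∃ f : ISp c β τ hτ σ, KS c β τ r f.1 ∧ f.1 1 = e := by
  obtain ⟨f, hf⟩ := test_exists (fun i => β (c i)) c (fun i => τ (c i)) (ordD_cond c β τ hτ)
    (twist (dh c β τ) σ) 1 (fun _ => rfl) r e (fun k hk => by
      show ((dh c β τ k : ℂˣ) : ℂ) • σ k e = e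
      rw [Tst_dh c β τ r k hk, Units.val_one, one_smul]
      exact he k.1 k.2 hk)
  exact ⟨f, (KS_isTest c β τ hτ σ r f e).2 hf⟩

theorem KS_ext (c : κ → ι) (β : ι → ι') (τ : ι → ℤ) (hτ : Function.Injective τ)
    (σ : Representation ℂ (lev F c) E) (r : ℕ) (f f' : ISp c β τ hτ σ)
    (hf : KS c β τ r f.1) (hf' : KS c β τ r f'.1) (h : f.1 1 = f'.1 1) : f = f' :=
  test_uniq ((KS_isTest c β τ hτ σ r f _).1 ⟨hf, rfl⟩)
    ((KS_isTest c β τ hτ σ r f' _).1 ⟨hf', h.symm⟩)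

/-- the value on the Levi subgroup -/
theorem Tst_lev (c : κ → ι) (β : ι → ι') (τ : ι → ℤ) (hτ : Function.Injective τ)
    (σ : Representation ℂ (lev F c) E) (f : ISp c β τ hτ σ) (m : GL κ F) (hm : m ∈ lev F c)
    (hm' : m ∈ lev F (fun i => β (c i))) (g : lev F (fun i => β (c i))) :
    f.1 (⟨m, hm'⟩ * g) = (dh c β τ ⟨m, hm⟩ : ℂ) • σ ⟨m, hm⟩ (f.1 g) := by
  have h1 := f.2.1 m hm 1 (ordD c β τ hτ).N.one_mem g
  have h2 : (⟨m, (ordD c β τ hτ).hM hm⟩ *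
      ⟨1, (ordD c β τ hτ).hN (ordD c β τ hτ).N.one_mem⟩ * g : lev F (fun i => β (c i))) =
      ⟨m, hm'⟩ * g := by
    apply Subtype.ext
    show m * (1 : GL κ F) * g.1 = m * g.1
    rw [mul_one]
  rw [h2] at h1
  exact h1

/-- the value at `1` of a function with `KS` is fixed by `M ∩ K_r` -/
theorem KS_fix (c : κ → ι) (β : ι → ι') (τ : ι → ℤ) (hτ : Function.Injective τ)
    (σ : Representation ℂ (lev F c) E) (r : ℕ) (f : ISp c β τ hτ σ)
    (hf : KS c β τ r f.1) (m : GL κ F) (hm : m ∈ lev F c) (hr : m ∈ Kc F κ r) :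
    σ ⟨m, hm⟩ (f.1 1) = f.1 1 := by
  have hm' : m ∈ lev F (fun i => β (c i)) := lev_le c _ (fun i j h => by rw [h]) hm
  have h1 := hf.1 1 ⟨m, hm'⟩ hr
  have h2 := Tst_lev c β τ hτ σ f m hm hm' 1
  rw [mul_one] at h2
  rw [one_mul, h2, Tst_dh c β τ r ⟨m, hm⟩ hr, Units.val_one, one_smul] at h1
  exact h1

/-- on `P_τ K_r` -/
theorem KS_val (c : κ → ι) (β : ι → ι') (τ : ι → ℤ) (hτ : Function.Injective τ)
    (σ : Representation ℂ (lev F c) E) (r : ℕ) (f : ISp c β τ hτ σ)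
    (hf : KS c β τ r f.1) (k : lev F (fun i => β (c i))) (hk : k.1 ∈ Kc F κ r) :
    f.1 k = f.1 1 := by
  have h1 := hf.1 1 k hk
  rwa [one_mul] at h1

theorem opp_KS (c : κ → ι) (β : ι → ι') (τ : ι → ℤ) (r : ℕ) (hr : 1 ≤ r) (n p k : GL κ F)
    (hn : n ∈ uni F (fun i => β (c i)) (fun i => - τ (c i)))
    (hp : p ∈ upp F (fun i => β (c i)) (fun i => τ (c i))) (hk : k ∈ Kc F κ r)
    (h : n = p * k) : n ∈ Kc F κ r := by
  have hkl : k ∈ lev F (fun i => β (c i)) := by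
    have h1 : k = p⁻¹ * n := by
      rw [h]
      group
    rw [h1]
    exact (lev F _).mul_mem ((lev F _).inv_mem hp.1) hn.1.1
  obtain ⟨q, hq, y, hy, -, hyK, hqy⟩ := iwahori (fun i => β (c i)) (fun i => τ (c i)) r hr k hk hkl
  have h2 := upp_opp_unique (fun i => β (c i)) (fun i => τ (c i)) 1 (p * q) n y
    (Subgroup.one_mem _) ((upp F _ _).mul_mem hp hq) hn hy (by
      rw [one_mul, h, hqy]
      group)
  rw [h2.2]
  exact hyK

theorem KS_map (c : κ → ι) (β : ι → ι') (τ : ι → ℤ) (r : ℕ)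
    (f : lev F (fun i => β (c i)) → E) (hf : KS c β τ r f) (L : E →ₗ[ℂ] E') :
    KS c β τ r (fun g => L (f g)) := by
  refine ⟨fun g k hk => ?_, fun g hg => hf.2 g fun h0 => hg ?_⟩
  · show L (f (g * k)) = L (f g)
    rw [hf.1 g k hk]
  · show L (f g) = 0
    rw [h0, map_zero]

/-- a step for the cell of `w`, `w` preserving `c` -/
theorem Tst_step (c : κ → ι) (β : ι → ι') (τ₁ τ₂ : ι → ℤ) (hτ₁ : Function.Injective τ₁)
    (w : Equiv.Perm κ) (hw : ∀ i, c (w i) = c i) :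
    ∃ Ω' Ω : Set (lev F (fun i => β (c i))),
      CStep (F := F) (fun i => β (c i)) (fun i => τ₁ (c i)) (fun i => τ₂ (c i)) 1 Ω' Ω ∧
      CStep (F := F) (fun i => β (c i)) (fun i => τ₁ (c i)) (fun i => τ₂ (c i)) w Ω' Ω := by
  obtain ⟨Ω', Ω, hs, -⟩ := cell_lead (F := F) (fun i => β (c i)) (fun i => τ₁ (c i))
    (fun i => τ₂ (c i)) 1 (fun _ => rfl)
  refine ⟨Ω', Ω, hs, hs.congr (fun i => by rw [hw]) ?_⟩
  exact gcell_eq_of_blocks (fun i => β (c i)) c (fun i => τ₁ (c i)) (ordD_cond c β τ₁ hτ₁)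
    (fun i => τ₂ (c i)) w 1 fun i => (hw i).symm

/-- the functional of the cell `w`, `w` preserving `c`, on test functions -/
theorem lam_KS_w (c : κ → ι) (β : ι → ι') (τ₁ τ₂ : ι → ℤ) (hτ₁ : Function.Injective τ₁)
    (hτ₂ : Function.Injective τ₂) (σ : Representation ℂ (lev F c) E) (hσ : IsSm σ)
    (w : Equiv.Perm κ) (hw : ∀ i, c (w i) = c i) (hwb : ∀ i, β (c (w i)) = β (c i))
    (hwl : permG F w ∈ lev F c) (r : ℕ)
    (hr : 1 ≤ r) (f : ISp c β τ₁ hτ₁ σ) (hf : KS c β τ₁ r f.1) :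
    (glCD (F := F) (fun i => β (c i)) (fun i => τ₁ (c i)) c (fun i => τ₂ (c i))
      (ordD_cond c β τ₂ hτ₂) w hwb).Lam f.1 1 =
        Cr F c β τ₁ τ₂ r • σ ⟨permG F w, hwl⟩ (f.1 1) := by
  classical
  obtain ⟨Ω', Ω, hs1, hs⟩ := Tst_step (F := F) c β τ₁ τ₂ hτ₁ w hw
  have hmem := test_mem hr ((KS_isTest c β τ₁ hτ₁ σ r f _).1 ⟨hf, rfl⟩) (fun i => τ₂ (c i)) Ω' Ω hs1
  have hcs := gl_csupp (fun i => β (c i)) c (fun i => τ₁ (c i)) (ordD_cond c β τ₁ hτ₁) c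
    (fun i => τ₂ (c i)) (ordD_cond c β τ₂ hτ₂) w Ω' Ω hs (twist (dh c β τ₁) σ)
    (sm_twist c β τ₁ σ hσ) f hmem
  obtain ⟨hL, hI⟩ := lam_eq_intS (fun i => β (c i)) c (fun i => τ₁ (c i)) (ordD_cond c β τ₁ hτ₁) c
    (fun i => τ₂ (c i)) (ordD_cond c β τ₂ hτ₂) w hwb (twist (dh c β τ₁) σ)
    (fun i j h => by rwa [hw, hw] at h) f hcs 1 (lev F c).one_mem
  rw [hI]
  have hdw : dh c β τ₁ ⟨permG F w, hwl⟩ = 1 := Tst_dh c β τ₁ 0 ⟨permG F w, hwl⟩ (permG_mem_Kc w)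
  have h1 : intS (patDn (fun i => β (c i)) (fun i => τ₂ (c i)) (fun i => τ₁ (c (w i))))
      (fun n => if h : n ∈ lev F (fun i => β (c i)) then
        f.1 (⟨permG F w, permG_mem_lev' (fun i => β (c i)) w hwb⟩ * ⟨n, h⟩ * 1) else 0) =
      intS (patDn (fun i => β (c i)) (fun i => τ₂ (c i)) (fun i => τ₁ (c (w i))))
        (fun x : GL κ F => if x ∈ Kc F κ r then σ ⟨permG F w, hwl⟩ (f.1 1) else 0) := by
    refine iq_congr (iq_uniS _) _ _ hL fun n hn => ?_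
    have hn' := hn
    rw [uniS_patDn, Subgroup.mem_inf] at hn'
    have hnl : n ∈ lev F (fun i => β (c i)) := hn'.1.1.1
    have hop : n ∈ uni F (fun i => β (c i)) (fun i => - τ₁ (c i)) := by
      have h2 := hn'.2
      have h3 : (fun i => - τ₁ (c (w i))) = fun i => - τ₁ (c i) := by
        funext i
        rw [hw]
      rw [h3] at h2
      exact h2
    rw [dif_pos hnl, mul_one, Tst_lev c β τ₁ hτ₁ σ f (permG F w) hwl
      (permG_mem_lev' (fun i => β (c i)) w hwb) ⟨n, hnl⟩, hdw, Units.val_one, one_smul]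
    by_cases hk : n ∈ Kc F κ r
    · rw [if_pos hk, KS_val c β τ₁ hτ₁ σ r f hf ⟨n, hnl⟩ hk]
    · rw [if_neg hk]
      have h2 : f.1 ⟨n, hnl⟩ = 0 := by
        by_contra hne
        obtain ⟨p, hp, k, hk', he⟩ := hf.2 _ hne
        exact hk (opp_KS c β τ₁ r hr n p k hop hp hk' he)
      rw [h2, map_zero]
  rw [h1, intS_ind]
  unfold Cr
  congr 4
  unfold npair
  refine Finset.card_bij' (fun p _ => p) (fun p _ => p) ?_ ?_ (fun _ _ => rfl) (fun _ _ => rfl)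
  · intro p hp
    rw [Finset.mem_filter] at hp ⊢
    obtain ⟨h2, h3, h4⟩ := hp.2
    have h5 : τ₁ (c (w p.2)) < τ₁ (c (w p.1)) := h4
    rw [hw, hw] at h5
    exact ⟨hp.1, h2, h3, h5⟩
  · intro p hp
    rw [Finset.mem_filter] at hp ⊢
    obtain ⟨h2, h3, h4⟩ := hp.2
    have h5 : τ₁ (c (w p.2)) < τ₁ (c (w p.1)) := by
      rw [hw, hw]
      exact h4
    exact ⟨hp.1, h2, h3, h5⟩

/-- the functional of the cell `1` on test functions -/
theorem lam_KS (c : κ → ι) (β : ι → ι') (τ₁ τ₂ : ι → ℤ) (hτ₁ : Function.Injective τ₁)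
    (hτ₂ : Function.Injective τ₂) (σ : Representation ℂ (lev F c) E) (hσ : IsSm σ) (r : ℕ)
    (hr : 1 ≤ r) (f : ISp c β τ₁ hτ₁ σ) (hf : KS c β τ₁ r f.1) :
    (glCD (F := F) (fun i => β (c i)) (fun i => τ₁ (c i)) c (fun i => τ₂ (c i))
      (ordD_cond c β τ₂ hτ₂) 1 (fun _ => rfl)).Lam f.1 1 = Cr F c β τ₁ τ₂ r • f.1 1 := by
  have h1 : permG F (1 : Equiv.Perm κ) ∈ lev F c := by
    rw [permG_one]
    exact (lev F c).one_mem
  have h2 := lam_KS_w c β τ₁ τ₂ hτ₁ hτ₂ σ hσ 1 (fun _ => rfl) (fun _ => rfl) h1 r hr f hf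
  have h3 : (⟨permG F 1, h1⟩ : lev F c) = 1 := Subtype.ext permG_one
  rw [h3, map_one, Module.End.one_apply] at h2
  exact h2

/-- test functions of large level are supported in a given open set containing `1` -/
theorem KS_IndOn (c : κ → ι) (β : ι → ι') (τ : ι → ℤ) (hτ : Function.Injective τ)
    (σ : Representation ℂ (lev F c) E) (Ω : Set (lev F (fun i => β (c i)))) (ho : IsOpen Ω)
    (h1 : (1 : lev F (fun i => β (c i))) ∈ Ω)
    (hl : ∀ g p : lev F (fun i => β (c i)),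
      p.1 ∈ upp F (fun i => β (c i)) (fun i => τ (c i)) → g ∈ Ω → p * g ∈ Ω) :
    ∃ r₀ : ℕ, ∀ r : ℕ, r₀ ≤ r → ∀ f : ISp c β τ hτ σ, KS c β τ r f.1 →
      f ∈ IndOn (ordD c β τ hτ) (twist (dh c β τ) σ) Ω := by
  obtain ⟨U, hU, hUe⟩ := isOpen_induced_iff.1 ho
  have h1U : (1 : GL κ F) ∈ U := by
    have h2 : (1 : lev F (fun i => β (c i))) ∈ Subtype.val ⁻¹' U := by
      rw [hUe]
      exact h1
    exact h2
  obtain ⟨r₀, hr₀⟩ := Kc_basis U (hU.mem_nhds h1U)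
  refine ⟨r₀, fun r hr f hf g hg => ?_⟩
  by_contra hne
  obtain ⟨p, hp, k, hk, he⟩ := hf.2 g hne
  have hkl : k ∈ lev F (fun i => β (c i)) := by
    have h2 : k = p⁻¹ * g.1 := by
      rw [he]
      group
    rw [h2]
    exact (lev F _).mul_mem ((lev F _).inv_mem hp.1) g.2
  have h3 : (⟨k, hkl⟩ : lev F (fun i => β (c i))) ∈ Ω := by
    rw [← hUe]
    exact hr₀ (Kc_anti hr hk)
  have h4 : g = ⟨p, hp.1⟩ * ⟨k, hkl⟩ := Subtype.ext he
  apply hg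
  rw [h4]
  exact hl _ _ hp h3

/-- in the open cell: test functions of level `≥ 1` are supported in `P_τ P_τ⁻` -/
theorem KS_open (c : κ → ι) (β : ι → ι') (τ τ₂ : ι → ℤ) (hτ : Function.Injective τ)
    (hτ₂ : Function.Injective τ₂) (ho : ∀ x y, β x = β y → (τ x < τ y ↔ τ₂ y < τ₂ x))
    (σ : Representation ℂ (lev F c) E) (r : ℕ) (hr : 1 ≤ r) (f : ISp c β τ hτ σ)
    (hf : KS c β τ r f.1) :
    f ∈ IndOn (ordD c β τ hτ) (twist (dh c β τ) σ)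
      (gcell (F := F) (fun i => β (c i)) (fun i => τ (c i)) (fun i => τ₂ (c i)) 1) := by
  intro g hg
  by_contra hne
  obtain ⟨p, hp, k, hk, he⟩ := hf.2 g hne
  have hkl : k ∈ lev F (fun i => β (c i)) := by
    have h2 : k = p⁻¹ * g.1 := by
      rw [he]
      group
    rw [h2]
    exact (lev F _).mul_mem ((lev F _).inv_mem hp.1) g.2
  obtain ⟨q, hq, y, hy, -, -, hqy⟩ := iwahori (fun i => β (c i)) (fun i => τ (c i)) r hr k hk hkl
  refine hg ⟨p * q, (upp F _ _).mul_mem hp hq, y, ⟨hy.1.1, fun i j hij => ?_⟩, ?_⟩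
  · by_cases hb : β (c i) = β (c j)
    · have h5 : τ (c i) < τ (c j) := (ho (c i) (c j) hb).2 hij
      exact hy.1.2 i j (neg_lt_neg h5)
    · exact hy.1.1 i j hb
  · rw [permG_one, he, hqy]
    group

end

end Pool.Agent.Lib.MP_ca1492_al.P
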