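import Mathlib
import Pool.Agent.Lib.MP_ca1492_al.D5.Ord
import Pool.Agent.Lib.MP_ca1492_al.P.CNorm

/-!
# MP_ca1492_al, D5, module CellN: the cell functionals for normalised induction

* `cfac_dh`: `cfac m` is the modulus of `n ↦ m n m⁻¹` on `N₂ ∩ w⁻¹ N₁⁻ w`
  (`P/ModCell.lean`, `P/ModMain.lean`), `δ₂(m) = δ(N₂ ∩ w⁻¹ N₁ w) δ(N₂ ∩ w⁻¹ N₁⁻ w)` and
  `δ₁(w m w⁻¹) = δ(w⁻¹ N₁ w ∩ N₂) δ(w⁻¹ N₁ w ∩ N₂⁻) = δ(N₂ ∩ w⁻¹ N₁ w) δ(N₂ ∩ w⁻¹ N₁⁻ w)⁻¹`, so
  `cfac² = δ₂(m) / δ₁(w m w⁻¹)`, both sides positive powers of `√q`.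
* `lam_norm`: `lam_equi` for the representation `twist (dh c β τ₁) σ`, and `cfac_dh`.
-/

set_option autoImplicit false

namespace Pool.Agent.Lib.MP_ca1492_al.P

open Topology Matrix ValuativeRel TensorProduct

noncomputable section

variable {F : Type} [Field F] [ValuativeRel F] [TopologicalSpace F]
  [IsNonarchimedeanLocalField F]
variable {κ : Type} [Fintype κ] [DecidableEq κ]
variable {ι ι' : Type} [Fintype ι] [DecidableEq ι]
variable {E E' : Type} [AddCommGroup E] [Module ℂ E] [AddCommGroup E'] [Module ℂ E']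

/-- an empty block has valuation `0` -/
theorem CellN_vl_empty (c : κ → ι) (m : GL κ F) (x : ι) (hx : x ∉ Finset.univ.image c) :
    vl c m x = 0 := by
  have h1 : IsEmpty {i // c i = x} :=
    ⟨fun i => hx (Finset.mem_image.2 ⟨i.1, Finset.mem_univ _, i.2⟩)⟩
  unfold vl bdet
  rw [Matrix.det_isEmpty, ordF_one]

open Classical in
/-- the exponent of the block `x` -/
def CellN_e (c : κ → ι) (β : ι → ι') (τ : ι → ℤ) (x : ι) : ℤ :=
  (∑ y, if β x = β y ∧ τ x < τ y then nb c y else 0) -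
    ∑ y, if β y = β x ∧ τ y < τ x then nb c y else 0

theorem CellN_ex (c : κ → ι) (β : ι → ι') (τ : ι → ℤ) (m : GL κ F) :
    ex c β τ m = ∑ x ∈ Finset.univ.image c, CellN_e c β τ x * vl c m x := by
  classical
  have h1 : ∑ x ∈ Finset.univ.image c, CellN_e c β τ x * vl c m x =
      ∑ x, CellN_e c β τ x * vl c m x := by
    refine Finset.sum_subset (Finset.subset_univ _) fun x _ hx => ?_
    rw [CellN_vl_empty c m x hx, mul_zero]
  rw [h1]
  have h2 : ex c β τ m = ∑ x, ∑ y, (if β x = β y ∧ τ x < τ y then nb c y * vl c m x else 0) -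
      ∑ x, ∑ y, (if β x = β y ∧ τ x < τ y then nb c x * vl c m y else 0) := by
    unfold ex
    rw [← Finset.sum_sub_distrib]
    refine Finset.sum_congr rfl fun x _ => ?_
    rw [← Finset.sum_sub_distrib]
    refine Finset.sum_congr rfl fun y _ => ?_
    split_ifs
    · rfl
    · rw [sub_zero]
  rw [h2, Finset.sum_comm (f := fun x y => if β x = β y ∧ τ x < τ y then nb c x * vl c m y else 0),
    ← Finset.sum_sub_distrib]
  refine Finset.sum_congr rfl fun x _ => ?_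
  unfold CellN_e
  rw [sub_mul, Finset.sum_mul, Finset.sum_mul]
  congr 1
  · refine Finset.sum_congr rfl fun y _ => ?_
    split_ifs
    · rfl
    · rw [zero_mul]
  · refine Finset.sum_congr rfl fun y _ => ?_
    split_ifs
    · rfl
    · rw [zero_mul]

open Classical in
theorem CellN_count (c : κ → ι) (P : ι → Prop) :
    ((Finset.univ.filter fun j => P (c j)).card : ℤ) = ∑ y, if P y then nb c y else 0 := by
  have h1 : ∀ y, ((Finset.univ.filter fun j => P (c j)).filter fun j => c j = y).card =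
      if P y then (Finset.univ.filter fun j => c j = y).card else 0 := by
    intro y
    by_cases hy : P y
    · rw [if_pos hy]
      congr 1
      ext j
      simp only [Finset.mem_filter, Finset.mem_univ, true_and]
      exact ⟨fun h => h.2, fun h => ⟨by rw [h]; exact hy, h⟩⟩
    · rw [if_neg hy, Finset.card_eq_zero]
      ext j
      simp only [Finset.mem_filter, Finset.mem_univ, true_and, Finset.notMem_empty, iff_false]
      rintro ⟨h2, h3⟩
      rw [h3] at h2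
      exact hy h2
  have h2 := Finset.card_eq_sum_card_fiberwise (s := Finset.univ.filter fun j => P (c j))
    (t := Finset.univ) (f := c) (fun j _ => Finset.mem_coe.2 (Finset.mem_univ (c j)))
  rw [h2, Nat.cast_sum]
  refine Finset.sum_congr rfl fun y _ => ?_
  rw [h1]
  unfold nb
  by_cases hy : P y
  · rw [if_pos hy, if_pos hy]
  · rw [if_neg hy, if_neg hy, Nat.cast_zero]

open Classical in
theorem CellN_dg (c : κ → ι) (β : ι → ι') (τ : ι → ℤ) (i : κ) :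
    CellN_e c β τ (c i) = dg (patO (fun i => β (c i)) (fun i => τ (c i))) i := by
  have h1 := CellN_count c (fun y => β (c i) = β y ∧ τ (c i) < τ y)
  have h2 := CellN_count c (fun y => β y = β (c i) ∧ τ y < τ (c i))
  unfold CellN_e dg
  refine (congrArg₂ (fun a b : ℤ => a - b) ?_ ?_)
  · refine (Eq.trans ?_ h1.symm).trans ?_
    · refine Finset.sum_congr rfl fun y _ => ?_
      by_cases hy : β (c i) = β y ∧ τ (c i) < τ y
      · rw [if_pos hy, if_pos hy]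
      · rw [if_neg hy, if_neg hy]
    · congr 2
  · refine (Eq.trans ?_ h2.symm).trans ?_
    · refine Finset.sum_congr rfl fun y _ => ?_
      by_cases hy : β y = β (c i) ∧ τ y < τ (c i)
      · rw [if_pos hy, if_pos hy]
      · rw [if_neg hy, if_neg hy]
    · congr 2

theorem dlh_eq_dh (c : κ → ι) (β : ι → ι') (τ : ι → ℤ) (hτ : Function.Injective τ)
    (m : lev F c) :
    (dlh c (fun i => β (c i)) (fun i => τ (c i)) (ordD_cond c β τ hτ) m : ℂ) =
      (dh c β τ m : ℂ) := by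
  rw [dlh_vl c (fun i => β (c i)) (fun i => τ (c i)) (ordD_cond c β τ hτ) (CellN_e c β τ)
    (CellN_dg c β τ) m, ← CellN_ex, dh_apply]
  have h1 : ((sqF F ^ (-ex c β τ m.1) : ℂˣ) : ℂ) =
      ((Real.sqrt (qF F) ^ (-ex c β τ m.1) : ℝ) : ℂ) := by
    rw [Units.val_zpow_eq_zpow_val, Complex.ofReal_zpow]
    rfl
  rw [h1]
  congr 1
  have hq : (0 : ℝ) ≤ (qF F : ℝ) := Nat.cast_nonneg _
  rw [Real.sqrt_eq_rpow, ← Real.rpow_intCast, ← Real.rpow_mul hq]
  congr 1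
  ring

theorem cfac_dh (c : κ → ι) (β : ι → ι') (τ₁ τ₂ : ι → ℤ) (hτ₂ : Function.Injective τ₂)
    (hτ₁ : Function.Injective τ₁) (w : Equiv.Perm κ) (hw : ∀ i, β (c (w i)) = β (c i))
    (hl : ∀ i j, c (w i) = c (w j) ↔ c i = c j) (m : GL κ F) (hm : m ∈ lev F c)
    (hm' : m ∈ lev F (fun i => β (c i))) :
    cfac (F := F) (fun i => β (c i)) (fun i => τ₁ (c i)) c (fun i => τ₂ (c i))
        (ordD_cond c β τ₂ hτ₂) w hw ⟨m, hm'⟩ *
      (dh c β τ₁ ⟨permG F w * m * (permG F w)⁻¹, permG_conj_mem c c w hl m hm⟩ : ℂ) =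
      (dh c β τ₂ ⟨m, hm⟩ : ℂ) := by
  rw [← dlh_eq_dh c β τ₁ hτ₁, ← dlh_eq_dh c β τ₂ hτ₂]
  exact cfac_half (fun i => β (c i)) c (fun i => τ₁ (c i)) (ordD_cond c β τ₁ hτ₁) c
    (fun i => τ₂ (c i)) (ordD_cond c β τ₂ hτ₂) w hw hl ⟨m, hm'⟩ hm

/-- the cell functional is equivariant for the normalised actions -/
theorem lam_norm (c : κ → ι) (β : ι → ι') (τ₁ τ₂ : ι → ℤ) (hτ₁ : Function.Injective τ₁)
    (hτ₂ : Function.Injective τ₂) (w : Equiv.Perm κ)
    (Ω' Ω : Set (lev F (fun i => β (c i))))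
    (hs : CStep (fun i => β (c i)) (fun i => τ₁ (c i)) (fun i => τ₂ (c i)) w Ω' Ω)
    (σ : Representation ℂ (lev F c) E) (hσ : IsSm σ)
    (hl : ∀ i j, c (w i) = c (w j) ↔ c i = c j) (f : ISp c β τ₁ hτ₁ σ)
    (hf : f ∈ IndOn (ordD c β τ₁ hτ₁) (twist (dh c β τ₁) σ) Ω) (m : GL κ F) (hm : m ∈ lev F c)
    (hm' : m ∈ lev F (fun i => β (c i))) :
    IRp c β τ₁ hτ₁ σ ⟨m, hm'⟩ f ∈ IndOn (ordD c β τ₁ hτ₁) (twist (dh c β τ₁) σ) Ω ∧
    (glCD (F := F) (fun i => β (c i)) (fun i => τ₁ (c i)) c (fun i => τ₂ (c i))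
        (ordD_cond c β τ₂ hτ₂) w hs.hw).Lam (IRp c β τ₁ hτ₁ σ ⟨m, hm'⟩ f).1 1 =
      (dh c β τ₂ ⟨m, hm⟩ : ℂ) •
        σ ⟨permG F w * m * (permG F w)⁻¹, permG_conj_mem c c w hl m hm⟩
          ((glCD (F := F) (fun i => β (c i)) (fun i => τ₁ (c i)) c (fun i => τ₂ (c i))
            (ordD_cond c β τ₂ hτ₂) w hs.hw).Lam f.1 1) := by
  obtain ⟨h1, h2⟩ := lam_equi (fun i => β (c i)) c (fun i => τ₁ (c i)) (ordD_cond c β τ₁ hτ₁) c
    (fun i => τ₂ (c i)) (ordD_cond c β τ₂ hτ₂) w Ω' Ω hs (twist (dh c β τ₁) σ)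
    (sm_twist c β τ₁ σ hσ) hl f hf ⟨m, hm'⟩ hm
  refine ⟨h1, ?_⟩
  refine h2.trans ?_
  rw [← cfac_dh c β τ₁ τ₂ hτ₂ hτ₁ w hs.hw hl m hm hm']
  exact smul_smul _ _ _

end

end Pool.Agent.Lib.MP_ca1492_al.P
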