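import Mathlib
import Pool.Agent.Lib.MP_ca1492_al.P.CFun
import Pool.Agent.Lib.MP_ca1492_al.P.IsoHat

/-!
# MP_ca1492_al, D5, module Mhom: homomorphisms between conjugates of `ρ` and `hat c ρ`

`w : Perm κ` with `c (w i) = ω (c i)` for a permutation `ω` of the blocks; `cjR w hl σ` is the
representation `m ↦ σ (w m w⁻¹)` of `lev F c`; `ren ω` renames the variables `u_x ↦ u_{ω x}`.

* `hl_of`: clear. `vl_cj`: the block `ω x` of `w m w⁻¹` is the block `x` of `m` reindexed by `w`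
  (`permG_conj`), so the determinants agree (`Matrix.det_submatrix_equiv_self`).
* `cj_smooth`: `cjH` is continuous. `cj_irr`: `cjH` is bijective (inverse: conjugation by `w⁻¹`).
  `cj_cusp`: for an order function `o` not constant on a `c`-class, conjugation by `w` maps `uni F c o`
  onto `uni F c (o ∘ w⁻¹)` (as in `uni_perm` of `P/Pat.lean`), and `o ∘ w⁻¹` is not constant on some
  class.
* `ren_shift`: on the variables. `hat_cj`: `ren_shift` with `vl_cj`.
* `cell_hom`: `a ∘ (id ⊗ ren ω) : hat c (cjR w ρ) → hat c ρ` is equivariant (`hat_cj`). If it is nonzero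
  then `cjR w ρ` and `ρ` are isomorphic (`hat_hom_zero`), by some `A`; then
  `a ∘ (id ⊗ ren ω) ∘ (A⁻¹ ⊗ id)` is an endomorphism of `hat c ρ`, apply `hat_end`. At the end
  `(id ⊗ psEnd f) ∘ (A ⊗ id) = (id ⊗ psEnd f) ∘ ...`, and `ren ω⁻¹` is the inverse of `ren ω`.
* `cell_hom0`: the image of `a : V → V ⊗ Pol` spans a finite dimensional space of polynomials for each
  `v`; consider `(id ⊗ ℓ_γ) ∘ a : V → V` where `ℓ_γ` = coefficient of the monomial `γ`. Choose `v` and `γ`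
  with nonzero coefficient; for top degree `γ` (total degree of the polynomials occurring in `a`, which
  does not depend on `v ≠ 0`: the set of the `v` such that all the polynomials in `a v` have degree
  `≤ d` is stable and so `0` or everything) the map `(id ⊗ ℓ_γ) ∘ a` is equivariant
  `cjR w ρ → ρ`; so it is an isomorphism `A` or `0`. Simplest: embed `V = V ⊗ ℂ ⊆ V ⊗ Pol`,
  `v ↦ v ⊗ 1`, it is a stable subspace of `hat c (cjR w ρ)`, and `hat c ρ` is injective (`hat_inj`), so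
  `a` extends to an equivariant map `hat c (cjR w ρ) → hat c ρ`; apply `cell_hom` to (its composition with
  `ren ω⁻¹`): it is `(A ⊗ psEnd f) ∘ ...` and on `v ⊗ 1` this is `f_0 • (A v ⊗ 1)`.
* `schur_A`: two such `A` are proportional: `cusp_scalar` for `A'⁻¹ A`.
-/

set_option autoImplicit false

namespace Pool.Agent.Lib.MP_ca1492_al.P

open Topology Matrix ValuativeRel TensorProduct

noncomputable section

variable {F : Type} [Field F] [ValuativeRel F] [TopologicalSpace F]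
  [IsNonarchimedeanLocalField F]
variable {κ : Type} [Fintype κ] [DecidableEq κ]
variable {ι : Type} [DecidableEq ι]
variable {V E : Type} [AddCommGroup V] [Module ℂ V] [AddCommGroup E] [Module ℂ E]

/-- conjugation by the permutation matrix of `w` -/
def cjH (c : κ → ι) (w : Equiv.Perm κ) (hl : ∀ i j, c (w i) = c (w j) ↔ c i = c j) :
    lev F c →* lev F c where
  toFun m := ⟨permG F w * m.1 * (permG F w)⁻¹, permG_conj_mem c c w hl m.1 m.2⟩
  map_one' := by
    apply Subtype.ext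
    simp
  map_mul' := by
    intro a b
    apply Subtype.ext
    simp [mul_assoc]

/-- the representation `m ↦ σ (w m w⁻¹)` -/
def cjR (c : κ → ι) (w : Equiv.Perm κ) (hl : ∀ i j, c (w i) = c (w j) ↔ c i = c j)
    (σ : Representation ℂ (lev F c) E) : Representation ℂ (lev F c) E :=
  σ.comp (cjH c w hl)

/-- renaming of the variables, `u_x ↦ u_{ω x}` -/
def ren (ω : Equiv.Perm ι) : MvPolynomial ι ℂ →ₗ[ℂ] MvPolynomial ι ℂ :=
  (MvPolynomial.rename ω).toLinearMap

variable (V) in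
/-- `id ⊗ ren ω` -/
def renE (ω : Equiv.Perm ι) : V ⊗[ℂ] MvPolynomial ι ℂ →ₗ[ℂ] V ⊗[ℂ] MvPolynomial ι ℂ :=
  TensorProduct.map LinearMap.id (ren ω)

variable (V) in
/-- the action of a power series on `V ⊗ ℂ[u]` -/
def opE (f : MvPowerSeries ι ℂ) : V ⊗[ℂ] MvPolynomial ι ℂ →ₗ[ℂ] V ⊗[ℂ] MvPolynomial ι ℂ :=
  TensorProduct.map LinearMap.id (psEnd f)

theorem hl_of (c : κ → ι) (w : Equiv.Perm κ) (ω : Equiv.Perm ι)
    (hω : ∀ i, c (w i) = ω (c i)) : ∀ i j, c (w i) = c (w j) ↔ c i = c j := by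
  intro i j
  rw [hω, hω]
  exact ω.injective.eq_iff

theorem vl_cj (c : κ → ι) (w : Equiv.Perm κ) (ω : Equiv.Perm ι)
    (hω : ∀ i, c (w i) = ω (c i)) (m : GL κ F) (hm : m ∈ lev F c) (x : ι) :
    vl c (permG F w * m * (permG F w)⁻¹) (ω x) = vl c m x := by
  unfold vl bdet
  congr 1
  have hi : ∀ i : κ, c i = x ↔ c (w i) = ω x := fun i => by
    rw [hω]
    exact ω.injective.eq_iff.symm
  rw [← Matrix.det_submatrix_equiv_self (w.subtypeEquiv hi)]
  congr 1
  ext i j
  exact permG_conj w m i.1 j.1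

theorem cj_smooth (c : κ → ι) (w : Equiv.Perm κ) (hl : ∀ i j, c (w i) = c (w j) ↔ c i = c j)
    (σ : Representation ℂ (lev F c) E) (hσ : IsSm σ) : IsSm (cjR c w hl σ) := by
  intro v
  have hc : Continuous (cjH (F := F) c w hl) := by
    refine Continuous.subtype_mk ?_ _
    exact (continuous_const.mul continuous_subtype_val).mul continuous_const
  exact (hσ v).preimage hc

theorem Mhom_cjH_surj (c : κ → ι) (w : Equiv.Perm κ)
    (hl : ∀ i j, c (w i) = c (w j) ↔ c i = c j) :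
    Function.Surjective (cjH (F := F) c w hl) := by
  intro g
  refine ⟨⟨(permG F w)⁻¹ * g.1 * permG F w, fun i j hij => ?_⟩, ?_⟩
  · rw [permG_conj_apply]
    exact g.2 _ _ fun h => hij ((hl i j).1 h)
  · apply Subtype.ext
    show permG F w * ((permG F w)⁻¹ * g.1 * permG F w) * (permG F w)⁻¹ = g.1
    group

theorem cj_irr (c : κ → ι) (w : Equiv.Perm κ) (hl : ∀ i j, c (w i) = c (w j) ↔ c i = c j)
    (σ : Representation ℂ (lev F c) E) (hσ : Irr σ) : Irr (cjR c w hl σ) := by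
  refine ⟨hσ.1, fun U hU => hσ.2 U fun g v hv => ?_⟩
  obtain ⟨m, rfl⟩ := Mhom_cjH_surj c w hl g
  exact hU m v hv

theorem cj_cusp (c : κ → ι) (w : Equiv.Perm κ) (hl : ∀ i j, c (w i) = c (w j) ↔ c i = c j)
    (σ : Representation ℂ (lev F c) E) (hσ : Cusp c σ) : Cusp c (cjR c w hl σ) := by
  rintro o ⟨i, j, hij, hoij⟩
  have h1 := hσ (fun k => o (w.symm k)) ⟨w i, w j, (hl i j).2 hij, by
    simpa using hoij⟩
  rw [eq_top_iff, ← h1]
  unfold PD.kerJ
  rw [Submodule.span_le]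
  rintro x ⟨n, hn, v, rfl⟩
  have hn' : n ∈ uni F c (fun k => o (w.symm k)) := hn
  have h2 : (permG F w)⁻¹ * n * permG F w ∈ uni F (c ∘ w) ((fun k => o (w.symm k)) ∘ w) :=
    (uni_perm c _ w n).2 hn'
  have h3 : ((fun k => o (w.symm k)) ∘ w) = o := by
    funext k
    simp
  rw [h3] at h2
  have h4 : (permG F w)⁻¹ * n * permG F w ∈ uni F c o := by
    refine ⟨⟨fun i j hij => ?_, h2.1.2⟩, h2.2⟩
    exact h2.1.1 i j fun h => hij ((hl i j).1 h)
  refine Submodule.subset_span ⟨_, h4, v, ?_⟩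
  congr 1
  show σ _ v = σ _ v
  congr 2
  apply Subtype.ext
  show n = permG F w * ((permG F w)⁻¹ * n * permG F w) * (permG F w)⁻¹
  group

theorem ren_shift (ω : Equiv.Perm ι) (v : ι → ℤ) (p : MvPolynomial ι ℂ) :
    ren ω (shiftP v p) = shiftP (fun x => v (ω.symm x)) (ren ω p) := by
  have h : (MvPolynomial.rename ω).comp (MvPolynomial.aeval (fun i =>
        (MvPolynomial.X i + MvPolynomial.C ((v i : ℤ) : ℂ) : MvPolynomial ι ℂ))) =
      (MvPolynomial.aeval (fun i => (MvPolynomial.X i + MvPolynomial.C ((v (ω.symm i) : ℤ) : ℂ) :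
        MvPolynomial ι ℂ))).comp (MvPolynomial.rename ω) := by
    refine MvPolynomial.algHom_ext fun i => ?_
    rw [AlgHom.comp_apply, AlgHom.comp_apply, MvPolynomial.aeval_X, MvPolynomial.rename_X,
      MvPolynomial.aeval_X, map_add, MvPolynomial.rename_X, MvPolynomial.rename_C,
      Equiv.symm_apply_apply]
  exact DFunLike.congr_fun h p

theorem ren_ren (ω ω' : Equiv.Perm ι) (p : MvPolynomial ι ℂ) :
    ren ω (ren ω' p) = ren (ω * ω') p := by
  exact MvPolynomial.rename_rename ω' ω p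

theorem Mhom_ren_symm (ω : Equiv.Perm ι) (p : MvPolynomial ι ℂ) : ren ω.symm (ren ω p) = p := by
  rw [ren_ren]
  have h : (ω.symm * ω : Equiv.Perm ι) = 1 := by
    ext x
    simp
  rw [h]
  show MvPolynomial.rename (⇑(1 : Equiv.Perm ι)) p = p
  rw [Equiv.Perm.coe_one, MvPolynomial.rename_id_apply]

theorem Mhom_ren_symm' (ω : Equiv.Perm ι) (p : MvPolynomial ι ℂ) : ren ω (ren ω.symm p) = p :=
  Mhom_ren_symm ω.symm p

theorem Mhom_ren_pderiv (ω : Equiv.Perm ι) (x : ι) (q : MvPolynomial ι ℂ) :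
    ren ω (MvPolynomial.pderiv x q) = MvPolynomial.pderiv (ω x) (ren ω q) :=
  (MvPolynomial.pderiv_rename ω.injective x q).symm

theorem Mhom_ren_e (ω : Equiv.Perm ι) (β : ι →₀ ℕ) :
    ren ω (IsoPs_e β) = IsoPs_e (β.mapDomain ω) := by
  have h1 : fac (β.mapDomain ω) = fac β := by
    unfold fac
    rw [Finsupp.prod_mapDomain_index_inj ω.injective]
  unfold IsoPs_e
  rw [h1]
  exact MvPolynomial.rename_monomial ω β _

theorem ren_psEnd (ω : Equiv.Perm ι) (f : MvPowerSeries ι ℂ) (p : MvPolynomial ι ℂ) :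
    ren ω (psEnd f p) = psEnd (MvPowerSeries.rename ω f) (ren ω p) := by
  classical
  obtain ⟨g, hg⟩ := psEnd_of_pderiv (ren ω ∘ₗ psEnd f ∘ₗ ren ω.symm) (by
    intro x q
    show ren ω (psEnd f (ren ω.symm (MvPolynomial.pderiv x q))) =
      MvPolynomial.pderiv x (ren ω (psEnd f (ren ω.symm q)))
    obtain ⟨y, rfl⟩ := ω.surjective x
    rw [Mhom_ren_pderiv ω.symm, ω.symm_apply_apply, IsoPs_comm, Mhom_ren_pderiv ω])
  have hgf : g = MvPowerSeries.rename ω f := by
    ext β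
    obtain ⟨γ, rfl⟩ : ∃ γ : ι →₀ ℕ, γ.mapDomain ω = β := ⟨β.mapDomain ω.symm, by
      rw [← Finsupp.mapDomain_comp]
      simp⟩
    have h1 := MvPowerSeries.coeff_embDomain_rename (R := ℂ) ω.toEmbedding f γ
    rw [Finsupp.embDomain_eq_mapDomain] at h1
    have h2 : MvPowerSeries.coeff (γ.mapDomain ω) (MvPowerSeries.rename ω f) =
        MvPowerSeries.coeff γ f := h1
    rw [h2, ← IsoPs_cc_psEnd, ← hg]
    show MvPolynomial.constantCoeff (ren ω (psEnd f (ren ω.symm (IsoPs_e (γ.mapDomain ω))))) = _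
    rw [Mhom_ren_e, ← Finsupp.mapDomain_comp, Equiv.symm_comp_self, Finsupp.mapDomain_id]
    have h3 : ∀ q : MvPolynomial ι ℂ, MvPolynomial.constantCoeff (ren ω q) =
        MvPolynomial.constantCoeff q := fun q => MvPolynomial.constantCoeff_rename ω q
    rw [h3, IsoPs_cc_psEnd]
  have h4 := DFunLike.congr_fun hg (ren ω p)
  rw [hgf] at h4
  rw [← h4]
  show ren ω (psEnd f p) = ren ω (psEnd f (ren ω.symm (ren ω p)))
  rw [Mhom_ren_symm]

theorem hat_cj (c : κ → ι) (w : Equiv.Perm κ) (ω : Equiv.Perm ι)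
    (hω : ∀ i, c (w i) = ω (c i)) (hl : ∀ i j, c (w i) = c (w j) ↔ c i = c j)
    (ρ : Representation ℂ (lev F c) V) :
    Equi (hat c (cjR c w hl ρ)) (cjR c w hl (hat c ρ)) (renE V ω) := by
  intro m t
  show renE V ω (hat c (cjR c w hl ρ) m t) = hat c ρ (cjH c w hl m) (renE V ω t)
  rw [hat_apply, hat_apply]
  have hv : vl c (cjH c w hl m).1 = fun x => vl c m.1 (ω.symm x) := by
    funext x
    obtain ⟨y, rfl⟩ := ω.surjective x
    rw [Equiv.symm_apply_apply]
    exact vl_cj c w ω hω m.1 m.2 y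
  rw [hv]
  unfold renE
  induction t using TensorProduct.induction_on with
  | zero => simp
  | tmul v p =>
    rw [TensorProduct.map_tmul, TensorProduct.map_tmul, TensorProduct.map_tmul,
      TensorProduct.map_tmul, ren_shift]
    rfl
  | add a b ha hb => rw [map_add, map_add, map_add, map_add, ha, hb]

/-- isomorphism of `ρ^w` with `ρ` -/
def IsA (c : κ → ι) (w : Equiv.Perm κ) (hl : ∀ i j, c (w i) = c (w j) ↔ c i = c j)
    (ρ : Representation ℂ (lev F c) V) (A : V ≃ₗ[ℂ] V) : Prop :=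
  Equi (cjR c w hl ρ) ρ (A : V →ₗ[ℂ] V)

theorem schur_A (c : κ → ι) (w : Equiv.Perm κ)
    (hl : ∀ i j, c (w i) = c (w j) ↔ c i = c j) (ρ : Representation ℂ (lev F c) V)
    (hρ : IsSm ρ) (hi : Irr ρ) (hc : Cusp c ρ) (A A' : V ≃ₗ[ℂ] V) (hA : IsA c w hl ρ A)
    (hA' : IsA c w hl ρ A') : ∃ z : ℂ, z ≠ 0 ∧ ∀ v, A v = z • A' v := by
  have hS : Equi ρ ρ ((A : V →ₗ[ℂ] V) ∘ₗ (A'.symm : V →ₗ[ℂ] V)) := by
    intro m v
    show A (A'.symm (ρ m v)) = ρ m (A (A'.symm v))
    obtain ⟨u, rfl⟩ := A'.surjective v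
    have h1 : A' (ρ (cjH c w hl m) u) = ρ m (A' u) := hA' m u
    have h2 : A (ρ (cjH c w hl m) u) = ρ m (A u) := hA m u
    rw [← h1, LinearEquiv.symm_apply_apply, LinearEquiv.symm_apply_apply, h2]
  obtain ⟨z, hz⟩ := cusp_scalar c ρ hρ hi hc _ hS
  have hz' : ∀ v, A v = z • A' v := by
    intro v
    have h1 : A (A'.symm (A' v)) = z • A' v := hz (A' v)
    rwa [LinearEquiv.symm_apply_apply] at h1
  refine ⟨z, ?_, hz'⟩
  rintro rfl
  obtain ⟨v, hv⟩ := hi.1
  have h1 := hz' v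
  rw [zero_smul] at h1
  exact hv ((LinearEquiv.map_eq_zero_iff A).1 h1)

theorem Mhom_renE_symm' (ω : Equiv.Perm ι) (t : V ⊗[ℂ] MvPolynomial ι ℂ) :
    renE V ω (renE V ω.symm t) = t := by
  unfold renE
  induction t using TensorProduct.induction_on with
  | zero => simp
  | tmul v p =>
    rw [TensorProduct.map_tmul, TensorProduct.map_tmul, Mhom_ren_symm']
    rfl
  | add a b ha hb => rw [map_add, map_add, ha, hb]

theorem Mhom_renE_symm (ω : Equiv.Perm ι) (t : V ⊗[ℂ] MvPolynomial ι ℂ) :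
    renE V ω.symm (renE V ω t) = t :=
  Mhom_renE_symm' ω.symm t

theorem cell_hom (c : κ → ι) (hcs : Function.Surjective c) (w : Equiv.Perm κ)
    (ω : Equiv.Perm ι) (hω : ∀ i, c (w i) = ω (c i))
    (hl : ∀ i j, c (w i) = c (w j) ↔ c i = c j) (ρ : Representation ℂ (lev F c) V)
    (hρ : IsSm ρ) (hi : Irr ρ) (hc : Cusp c ρ)
    (a : V ⊗[ℂ] MvPolynomial ι ℂ →ₗ[ℂ] V ⊗[ℂ] MvPolynomial ι ℂ)
    (ha : Equi (cjR c w hl (hat c ρ)) (hat c ρ) a) (h0 : a ≠ 0) :
    ∃ (A : V ≃ₗ[ℂ] V) (f : MvPowerSeries ι ℂ), IsA c w hl ρ A ∧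
      ∀ (v : V) (p : MvPolynomial ι ℂ), a (v ⊗ₜ p) = A v ⊗ₜ psEnd f (ren ω.symm p) := by
  have hT : Equi (hat c (cjR c w hl ρ)) (hat c ρ) (a ∘ₗ renE V ω) := by
    intro m t
    show a (renE V ω (hat c (cjR c w hl ρ) m t)) = hat c ρ m (a (renE V ω t))
    rw [hat_cj c w ω hω hl ρ m t]
    exact ha m (renE V ω t)
  have hT0 : a ∘ₗ renE V ω ≠ 0 := by
    intro h
    apply h0
    refine LinearMap.ext fun t => ?_
    have h1 := LinearMap.congr_fun h (renE V ω.symm t)
    rw [LinearMap.comp_apply, Mhom_renE_symm'] at h1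
    exact h1
  obtain ⟨A, hA⟩ : Iso (cjR c w hl ρ) ρ := by
    by_contra hn
    exact hT0 (hat_hom_zero c hcs (cjR c w hl ρ) (cj_smooth c w hl ρ hρ) (cj_irr c w hl ρ hi)
      (cj_cusp c w hl ρ hc) ρ hρ hi hc hn _ hT)
  have hAs : ∀ m v, A.symm (ρ m v) = cjR c w hl ρ m (A.symm v) := by
    intro m v
    obtain ⟨u, rfl⟩ := A.surjective v
    have h1 : A (cjR c w hl ρ m u) = ρ m (A u) := hA m u
    rw [← h1, LinearEquiv.symm_apply_apply, LinearEquiv.symm_apply_apply]
  have hS : Equi (hat c ρ) (hat c ρ) ((a ∘ₗ renE V ω) ∘ₗ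
      TensorProduct.map (A.symm : V →ₗ[ℂ] V) LinearMap.id) := by
    intro m t
    show (a ∘ₗ renE V ω) (TensorProduct.map (A.symm : V →ₗ[ℂ] V) LinearMap.id (hat c ρ m t)) =
      hat c ρ m ((a ∘ₗ renE V ω) (TensorProduct.map (A.symm : V →ₗ[ℂ] V) LinearMap.id t))
    rw [← hT, hat_apply, hat_apply]
    congr 1
    induction t using TensorProduct.induction_on with
    | zero => simp
    | tmul v p =>
      rw [TensorProduct.map_tmul, TensorProduct.map_tmul, TensorProduct.map_tmul,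
        TensorProduct.map_tmul]
      show A.symm (ρ m v) ⊗ₜ[ℂ] (shiftP (vl c m.1) p) =
        (cjR c w hl ρ m (A.symm v)) ⊗ₜ[ℂ] (shiftP (vl c m.1) p)
      rw [hAs]
    | add a b ha hb => rw [map_add, map_add, map_add, map_add, ha, hb]
  obtain ⟨f, hf⟩ := hat_end c hcs ρ hρ hi hc _ hS
  refine ⟨A, f, hA, fun v p => ?_⟩
  have h1 := LinearMap.congr_fun hf (A v ⊗ₜ ren ω.symm p)
  rw [LinearMap.comp_apply, LinearMap.comp_apply, TensorProduct.map_tmul,
    TensorProduct.map_tmul] at h1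
  have h2 : a (renE V ω ((A.symm (A v)) ⊗ₜ[ℂ] (ren ω.symm p))) =
      A v ⊗ₜ[ℂ] psEnd f (ren ω.symm p) := h1
  rw [LinearEquiv.symm_apply_apply] at h2
  rw [← h2]
  congr 1
  show v ⊗ₜ[ℂ] p = v ⊗ₜ[ℂ] (ren ω (ren ω.symm p))
  rw [Mhom_ren_symm']

/-- commutation of `a` with the operators `∂ / ∂ u_x` -/
theorem cell_hom_pderiv (c : κ → ι) (hcs : Function.Surjective c) (w : Equiv.Perm κ)
    (ω : Equiv.Perm ι) (hω : ∀ i, c (w i) = ω (c i))
    (hl : ∀ i j, c (w i) = c (w j) ↔ c i = c j) (ρ : Representation ℂ (lev F c) V)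
    (hρ : IsSm ρ) (hi : Irr ρ) (hc : Cusp c ρ)
    (a : V ⊗[ℂ] MvPolynomial ι ℂ →ₗ[ℂ] V ⊗[ℂ] MvPolynomial ι ℂ)
    (ha : Equi (cjR c w hl (hat c ρ)) (hat c ρ) a) (x : ι)
    (e : V ⊗[ℂ] MvPolynomial ι ℂ) :
    a (opE V (MvPowerSeries.X (ω x)) e) = opE V (MvPowerSeries.X x) (a e) := by
  by_cases h0 : a = 0
  · rw [h0, LinearMap.zero_apply, LinearMap.zero_apply, map_zero]
  obtain ⟨A, f, -, hf⟩ := cell_hom c hcs w ω hω hl ρ hρ hi hc a ha h0
  unfold opE
  induction e using TensorProduct.induction_on with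
  | zero => simp
  | tmul v p =>
    rw [TensorProduct.map_tmul, hf, hf, TensorProduct.map_tmul, LinearMap.id_apply,
      LinearMap.id_apply, psEnd_X, psEnd_X, ← IsoPs_comm, Mhom_ren_pderiv ω.symm,
      Equiv.symm_apply_apply]
  | add a b ha hb => rw [map_add, map_add, map_add, map_add, ha, hb]

omit [DecidableEq ι] in
theorem Mhom_psEnd_one (f : MvPowerSeries ι ℂ) :
    psEnd f (1 : MvPolynomial ι ℂ) = MvPowerSeries.coeff 0 f • (1 : MvPolynomial ι ℂ) := by
  classical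
  have h1 : (1 : MvPolynomial ι ℂ) = IsoPs_e 0 := by
    unfold IsoPs_e
    rw [IsoPs_fac_zero, inv_one]
    rfl
  rw [h1, IsoPs_psEnd, Finset.sum_eq_single (0, 0)]
  · rintro ⟨x, y⟩ hq hne
    rw [Finset.HasAntidiagonal.mem_antidiagonal] at hq
    have hq' : x + y = 0 := hq
    obtain ⟨hx, hy⟩ := add_eq_zero.1 hq'
    exact absurd (by rw [hx, hy]) hne
  · intro h
    exact absurd (Finset.HasAntidiagonal.mem_antidiagonal.mpr (add_zero 0)) h

theorem cell_hom0 (c : κ → ι) (hcs : Function.Surjective c) (w : Equiv.Perm κ)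
    (ω : Equiv.Perm ι) (hω : ∀ i, c (w i) = ω (c i))
    (hl : ∀ i j, c (w i) = c (w j) ↔ c i = c j) (ρ : Representation ℂ (lev F c) V)
    (hρ : IsSm ρ) (hi : Irr ρ) (hc : Cusp c ρ)
    (a : V →ₗ[ℂ] V ⊗[ℂ] MvPolynomial ι ℂ)
    (ha : Equi (cjR c w hl ρ) (hat c ρ) a) (h0 : a ≠ 0) :
    ∃ (A : V ≃ₗ[ℂ] V), IsA c w hl ρ A ∧ ∀ v : V, a v = A v ⊗ₜ 1 := by
  have hfin : Finite ι := Finite.of_surjective c hcs
  -- the extension to `hat`
  let j : V →ₗ[ℂ] V ⊗[ℂ] MvPolynomial ι ℂ := (TensorProduct.mk ℂ V (MvPolynomial ι ℂ)).flip 1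
  have hj : ∀ v, j v = v ⊗ₜ 1 := fun v => rfl
  have hshift1 : ∀ y : ι → ℤ, shiftP y (1 : MvPolynomial ι ℂ) = 1 := fun y =>
    map_one (MvPolynomial.aeval (fun i => (MvPolynomial.X i + MvPolynomial.C ((y i : ℤ) : ℂ) :
      MvPolynomial ι ℂ)))
  have hjm : ∀ m v, hat c (cjR c w hl ρ) m (j v) = j (cjR c w hl ρ m v) := by
    intro m v
    rw [hj, hj, hat_apply, TensorProduct.map_tmul, hshift1]
  have hU : Stab (hat c (cjR c w hl ρ)) (LinearMap.range j) := by
    rintro m _ ⟨v, rfl⟩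
    exact ⟨_, (hjm m v).symm⟩
  have hE0 : ∀ v, HatInj_E V 0 (j v) = v := by
    intro v
    rw [hj, HatInj_E_tmul]
    have h1 : evZ (0 : ι → ℤ) (1 : MvPolynomial ι ℂ) = 1 := by
      unfold evZ
      rw [map_one]
    rw [h1, one_smul]
  obtain ⟨B, hB, hBU⟩ := hat_inj c ρ hcs hρ hi hc (V ⊗[ℂ] MvPolynomial ι ℂ)
    (hat c (cjR c w hl ρ)) (hat_smooth c (cjR c w hl ρ) (cj_smooth c w hl ρ hρ))
    (LinearMap.range j) hU (a ∘ₗ HatInj_E V 0 ∘ₗ (LinearMap.range j).subtype) (by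
      rintro m ⟨_, v, rfl⟩
      show a (HatInj_E V 0 (hat c (cjR c w hl ρ) m (j v))) =
        hat c ρ m (a (HatInj_E V 0 (j v)))
      rw [hjm, hE0, hE0]
      exact ha m v)
  have hBj : ∀ v, B (j v) = a v := by
    intro v
    have h1 := hBU ⟨j v, v, rfl⟩
    rw [h1]
    show a (HatInj_E V 0 (j v)) = a v
    rw [hE0]
  have hB' : Equi (cjR c w hl (hat c ρ)) (hat c ρ) (B ∘ₗ renE V ω.symm) := by
    intro m t
    rw [LinearMap.comp_apply, LinearMap.comp_apply, ← hB]
    congr 1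
    have h1 := hat_cj c w ω hω hl ρ m (renE V ω.symm t)
    rw [Mhom_renE_symm'] at h1
    rw [← h1, Mhom_renE_symm]
  have hB0 : B ∘ₗ renE V ω.symm ≠ 0 := by
    intro h
    apply h0
    refine LinearMap.ext fun v => ?_
    have h1 := LinearMap.congr_fun h (renE V ω (j v))
    rw [LinearMap.comp_apply, Mhom_renE_symm, hBj] at h1
    exact h1
  obtain ⟨A, f, hA, hf⟩ := cell_hom c hcs w ω hω hl ρ hρ hi hc _ hB' hB0
  have hren1 : ∀ ω' : Equiv.Perm ι, ren ω' (1 : MvPolynomial ι ℂ) = 1 := fun ω' =>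
    map_one (MvPolynomial.rename ω')
  have hav : ∀ v, a v = (MvPowerSeries.coeff 0 f) • (A v ⊗ₜ[ℂ] (1 : MvPolynomial ι ℂ)) := by
    intro v
    have h1 := hf v 1
    rw [LinearMap.comp_apply, hren1, Mhom_psEnd_one] at h1
    have h2 : renE V ω.symm (v ⊗ₜ[ℂ] (1 : MvPolynomial ι ℂ)) = j v := by
      unfold renE
      rw [TensorProduct.map_tmul, hren1]
      rfl
    rw [h2, hBj] at h1
    rw [h1, TensorProduct.tmul_smul]
  have hf0 : MvPowerSeries.coeff 0 f ≠ 0 := by
    intro h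
    apply h0
    refine LinearMap.ext fun v => ?_
    rw [hav, h, zero_smul]
    rfl
  refine ⟨A.trans (LinearEquiv.smulOfNeZero ℂ V (MvPowerSeries.coeff 0 f) hf0), ?_, ?_⟩
  · intro m v
    show (MvPowerSeries.coeff 0 f) • A (cjR c w hl ρ m v) =
      ρ m ((MvPowerSeries.coeff 0 f) • A v)
    have h1 : A (cjR c w hl ρ m v) = ρ m (A v) := hA m v
    rw [h1, map_smul]
  · intro v
    rw [hav, TensorProduct.smul_tmul']
    rfl

theorem Mhom_psEnd_sub (f g : MvPowerSeries ι ℂ) (p : MvPolynomial ι ℂ) :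
    psEnd (f - g) p = psEnd f p - psEnd g p := by
  have h1 := psEnd_add (f - g) g
  rw [sub_add_cancel] at h1
  rw [h1, LinearMap.add_apply, add_sub_cancel_right]

theorem Mhom_pderiv_surj (x : ι) :
    Function.Surjective (MvPolynomial.pderiv x : MvPolynomial ι ℂ → MvPolynomial ι ℂ) := by
  intro r
  induction r using MvPolynomial.induction_on' with
  | monomial β z =>
    refine ⟨(z * fac β) • IsoPs_e (β + Finsupp.single x 1), ?_⟩
    rw [Derivation.map_smul, IsoPs_pderiv_add]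
    unfold IsoPs_e
    rw [MvPolynomial.smul_monomial, smul_eq_mul, mul_assoc, mul_inv_cancel₀ (fac_ne_zero β),
      mul_one]
  | add p q hp hq =>
    obtain ⟨p', hp'⟩ := hp
    obtain ⟨q', hq'⟩ := hq
    exact ⟨p' + q', by rw [map_add, hp', hq']⟩

/-- `∂_x - ∂_y` is surjective on `V ⊗ ℂ[u]` for `x ≠ y`, and `∂_x` too -/
theorem opE_sub_surj [Finite ι] (x y : ι) (hxy : x ≠ y) :
    Function.Surjective (opE V (MvPowerSeries.X x - MvPowerSeries.X y : MvPowerSeries ι ℂ)) := by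
  refine TensorProduct.map_surjective Function.surjective_id ?_
  intro r
  let φ : MvPolynomial ι ℂ →ₐ[ℂ] MvPolynomial ι ℂ := MvPolynomial.aeval
    (fun z => if z = y then MvPolynomial.X y + MvPolynomial.X x else MvPolynomial.X z)
  let ψ : MvPolynomial ι ℂ →ₐ[ℂ] MvPolynomial ι ℂ := MvPolynomial.aeval
    (fun z => if z = y then MvPolynomial.X y - MvPolynomial.X x else MvPolynomial.X z)
  have hφψ : ∀ q, φ (ψ q) = q := by
    intro q
    have h : φ.comp ψ = AlgHom.id ℂ _ := by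
      refine MvPolynomial.algHom_ext fun z => ?_
      rw [AlgHom.comp_apply]
      show φ (MvPolynomial.aeval _ (MvPolynomial.X z)) = MvPolynomial.X z
      rw [MvPolynomial.aeval_X]
      by_cases hz : z = y
      · subst hz
        rw [if_pos rfl, map_sub]
        show MvPolynomial.aeval _ (MvPolynomial.X z) - MvPolynomial.aeval _ (MvPolynomial.X x) = _
        rw [MvPolynomial.aeval_X, MvPolynomial.aeval_X, if_pos rfl, if_neg hxy]
        ring
      · rw [if_neg hz]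
        show MvPolynomial.aeval _ (MvPolynomial.X z) = _
        rw [MvPolynomial.aeval_X, if_neg hz]
    exact DFunLike.congr_fun h q
  have key : ∀ q, MvPolynomial.pderiv x (φ q) - MvPolynomial.pderiv y (φ q) =
      φ (MvPolynomial.pderiv x q) := by
    intro q
    induction q using MvPolynomial.induction_on with
    | C z =>
      have h1 : φ (MvPolynomial.C z) = MvPolynomial.C z := φ.commutes z
      rw [h1, MvPolynomial.pderiv_C, MvPolynomial.pderiv_C, map_zero, sub_zero]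
    | add p q hp hq => rw [map_add, map_add, map_add, map_add, map_add, ← hp, ← hq]; ring
    | mul_X p z hp =>
      have h2 : MvPolynomial.pderiv x (φ (MvPolynomial.X z)) -
          MvPolynomial.pderiv y (φ (MvPolynomial.X z)) =
          φ (MvPolynomial.pderiv x (MvPolynomial.X z)) := by
        have h3 : φ (MvPolynomial.X z) =
            if z = y then MvPolynomial.X y + MvPolynomial.X x else MvPolynomial.X z :=
          MvPolynomial.aeval_X _ z
        rw [h3]
        by_cases hz : z = y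
        · subst hz
          rw [if_pos rfl, map_add, map_add, MvPolynomial.pderiv_X_self,
            MvPolynomial.pderiv_X_of_ne hxy.symm, MvPolynomial.pderiv_X_self,
            MvPolynomial.pderiv_X_of_ne hxy, map_zero]
          ring
        · rw [if_neg hz]
          by_cases hzx : z = x
          · subst hzx
            rw [MvPolynomial.pderiv_X_self, MvPolynomial.pderiv_X_of_ne hz, map_one, sub_zero]
          · rw [MvPolynomial.pderiv_X_of_ne hzx, MvPolynomial.pderiv_X_of_ne hz, map_zero,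
              sub_zero]
      rw [map_mul, MvPolynomial.pderiv_mul, MvPolynomial.pderiv_mul, MvPolynomial.pderiv_mul,
        map_add, map_mul, map_mul, ← hp, ← h2]
      ring
  obtain ⟨s, hs⟩ := Mhom_pderiv_surj x (ψ r)
  refine ⟨φ s, ?_⟩
  rw [Mhom_psEnd_sub, psEnd_X, psEnd_X, key, hs, hφψ]

theorem opE_X_surj (x : ι) :
    Function.Surjective (opE V (MvPowerSeries.X x : MvPowerSeries ι ℂ)) := by
  refine TensorProduct.map_surjective Function.surjective_id ?_
  intro r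
  obtain ⟨s, hs⟩ := Mhom_pderiv_surj x r
  exact ⟨s, by rw [psEnd_X, hs]⟩

theorem opE_mul (f g : MvPowerSeries ι ℂ) (e : V ⊗[ℂ] MvPolynomial ι ℂ) :
    opE V (f * g) e = opE V f (opE V g e) := by
  unfold opE
  rw [psEnd_mul]
  induction e using TensorProduct.induction_on with
  | zero => simp
  | tmul v p =>
    rw [TensorProduct.map_tmul, TensorProduct.map_tmul, TensorProduct.map_tmul,
      LinearMap.comp_apply, LinearMap.id_apply, LinearMap.id_apply]
  | add a b ha hb => rw [map_add, map_add, map_add, ha, hb]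

theorem opE_add (f g : MvPowerSeries ι ℂ) (e : V ⊗[ℂ] MvPolynomial ι ℂ) :
    opE V (f + g) e = opE V f e + opE V g e := by
  unfold opE
  rw [psEnd_add, TensorProduct.map_add_right, LinearMap.add_apply]

theorem opE_one (e : V ⊗[ℂ] MvPolynomial ι ℂ) : opE V (1 : MvPowerSeries ι ℂ) e = e := by
  unfold opE
  rw [psEnd_one, TensorProduct.map_id, LinearMap.id_apply]

theorem opE_C (z : ℂ) (e : V ⊗[ℂ] MvPolynomial ι ℂ) :
    opE V (MvPowerSeries.C z : MvPowerSeries ι ℂ) e = z • e := by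
  unfold opE
  induction e using TensorProduct.induction_on with
  | zero => simp
  | tmul v p =>
    rw [TensorProduct.map_tmul, psEnd_C, TensorProduct.tmul_smul]
    rfl
  | add a b ha hb => rw [map_add, smul_add, ha, hb]

/-- a power series is determined by its action (`V ≠ 0`) -/
theorem opE_inj (hV : ∃ v : V, v ≠ 0) (f g : MvPowerSeries ι ℂ)
    (h : ∀ e : V ⊗[ℂ] MvPolynomial ι ℂ, opE V f e = opE V g e) : f = g := by
  obtain ⟨v, hv⟩ := hV
  obtain ⟨l, hl⟩ : ∃ l : Module.Dual ℂ V, l v ≠ 0 := by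
    by_contra hcon
    push Not at hcon
    exact hv ((Module.forall_dual_apply_eq_zero_iff ℂ v).1 hcon)
  apply psEnd_inj
  refine LinearMap.ext fun p => ?_
  have h1 : v ⊗ₜ[ℂ] psEnd f p = v ⊗ₜ[ℂ] psEnd g p := h (v ⊗ₜ p)
  have h2 := congrArg (fun t => TensorProduct.lid ℂ (MvPolynomial ι ℂ)
    (TensorProduct.map l LinearMap.id t)) h1
  simp only [TensorProduct.map_tmul, TensorProduct.lid_tmul, LinearMap.id_apply] at h2
  exact smul_right_injective _ hl h2

theorem opE_equi (c : κ → ι) (ρ : Representation ℂ (lev F c) V) (f : MvPowerSeries ι ℂ) :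
    Equi (hat c ρ) (hat c ρ) (opE V f) := hat_end' c ρ f

end

end Pool.Agent.Lib.MP_ca1492_al.P
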