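import Mathlib
import Pool.Agent.Lib.MP_ca1492_al.D5.CellN
import Pool.Agent.Lib.MP_ca1492_al.D5.Mhom
import Pool.Agent.Lib.MP_ca1492_al.P.HatLead

/-!
# MP_ca1492_al, D5, module Func: functionals on induced representations

`FS τ₁ τ₂ σ σ'` = the linear maps `L : I_τ₁(σ) → E'` with `L (R_n f) = L f` for `n ∈ N_τ₂` and
`L (R_m f) = dh(m) • σ'(m) (L f)` for `m ∈ M`: by Frobenius reciprocity these are the equivariant maps
`Φ : I_τ₁(σ) → I_τ₂(σ')`, `L f = (Φ f)(1)`.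

* `FS_of_hom`: `(Φ (R_n f))(1) = (Φ f)(n) = (Φ f)(1)`, `(Φ (R_m f))(1) = (Φ f)(m)`.
* `hom_of_FS`: `(Φ f)(g) = L (R_g f)`; right invariance: `f` is fixed by an open subgroup
  (`ISp_smooth`); the left conditions: `L (R_m R_n R_g f)`.
* `first_cell`: enumeration of the cells by `cell_order`, `U_k` = union of the first `k` cells. Let `k` be
  minimal with `L ≠ 0` on `IndOn U_{k+1}`; `L = 0` on `IndOn U_k`. By `fun_dead` and `live_assoc` the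
  cell is associate. `fun_live` gives `a`, with `L f = a (Lam f 1)`; `a ≠ 0`. Equivariance of `a`:
  `a` is unique: compare `L (R_m f)` computed with `lam_norm`; every `e` is `Lam f 1` for some
  `f ∈ IndOn Ω` (`gl_surj`): `dh τ₂ m • σ'(m) a(e) = L (R_m f) = a (dh τ₂ m • σ(w m w⁻¹) e)`.
* `live_assoc`: `w` with `c (w i) = c (w j) → c i = c j`: two equivalence relations on a finite set, one
  contained in the other, with the same number of classes (`w` is a bijection): equal (count the pairs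
  `(i, j)` with `c i = c j`: `w × w` maps `{(i,j) | c (w i) = c (w j)}` bijectively onto
  `{(i,j) | c i = c j}`).
* `block_perm`: `ω (c i) = c (w i)` is well defined and bijective (`c` surjective).
* `FS_finrank`: let `S` be as in the statement. For the chain `U_0 ⊆ U_1 ⊆ ... ⊆ U_r` put
  `F_k = {L ∈ FS | L = 0 on IndOn U_k}`, `F_0 = FS`, `F_r = 0`. `F_k / F_{k+1}` embeds (by `L ↦ a`) into the
  space `A_w` of equivariant `a` for `w = w_k` (zero for a dead cell), of dimension `≤ 1`, and `= 0`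
  unless the induced `ω_k` is in `S`; the map `k ↦ ω_k` is injective on the associate cells: if
  `ω_k = ω_l` then `u = w_k⁻¹ w_l` satisfies `c (u i) = c i`, so `permG u ∈ lev c ≤ P_τ₂` and
  `w_l ∈ P w_k P_τ₂` (`CRank_permG_mul`), so `k = l`. So
  `finrank FS ≤ Σ_k finrank (F_k / F_{k+1}) ≤ card S` (`Submodule.finrank_quotient_add_finrank` and
  induction on `k` downwards: `F_k` is finite dimensional with `finrank F_k ≤ #{j ≥ k | ω_j ∈ S}`).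
-/

set_option autoImplicit false

namespace Pool.Agent.Lib.MP_ca1492_al.P

open Topology Matrix ValuativeRel TensorProduct

noncomputable section

variable {F : Type} [Field F] [ValuativeRel F] [TopologicalSpace F]
  [IsNonarchimedeanLocalField F]
variable {κ : Type} [Fintype κ] [DecidableEq κ]
variable {ι ι' : Type} [Fintype ι] [DecidableEq ι]
variable {V E E' : Type} [AddCommGroup V] [Module ℂ V] [AddCommGroup E] [Module ℂ E]
  [AddCommGroup E'] [Module ℂ E']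

/-- functionals on `I_τ₁(σ)` with values in `σ'`, for the parabolic subgroup of `τ₂` -/
def FS (c : κ → ι) (β : ι → ι') (τ₁ : ι → ℤ) (hτ₁ : Function.Injective τ₁) (τ₂ : ι → ℤ)
    (σ : Representation ℂ (lev F c) E) (σ' : Representation ℂ (lev F c) E') :
    Submodule ℂ (ISp c β τ₁ hτ₁ σ →ₗ[ℂ] E') where
  carrier := {L | (∀ n : lev F (fun i => β (c i)),
      n.1 ∈ uni F (fun i => β (c i)) (fun i => τ₂ (c i)) → ∀ f, L (IRp c β τ₁ hτ₁ σ n f) = L f) ∧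
    ∀ (m : GL κ F) (hm : m ∈ lev F c) (hm' : m ∈ lev F (fun i => β (c i))) (f : _),
      L (IRp c β τ₁ hτ₁ σ ⟨m, hm'⟩ f) = (dh c β τ₂ ⟨m, hm⟩ : ℂ) • σ' ⟨m, hm⟩ (L f)}
  add_mem' := by
    rintro a b ⟨ha, ha'⟩ ⟨hb, hb'⟩
    refine ⟨fun n hn f => ?_, fun m hm hm' f => ?_⟩
    · rw [LinearMap.add_apply, LinearMap.add_apply, ha n hn, hb n hn]
    · rw [LinearMap.add_apply, LinearMap.add_apply, ha' m hm hm', hb' m hm hm', map_add, smul_add]
  zero_mem' := ⟨fun _ _ _ => rfl, fun m hm hm' f => by simp⟩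
  smul_mem' := by
    rintro z a ⟨ha, ha'⟩
    refine ⟨fun n hn f => ?_, fun m hm hm' f => ?_⟩
    · rw [LinearMap.smul_apply, LinearMap.smul_apply, ha n hn]
    · rw [LinearMap.smul_apply, LinearMap.smul_apply, ha' m hm hm', map_smul, smul_comm]

/-- evaluation at `1` -/
def ev1 (c : κ → ι) (β : ι → ι') (τ : ι → ℤ) (hτ : Function.Injective τ)
    (σ : Representation ℂ (lev F c) E) : ISp c β τ hτ σ →ₗ[ℂ] E where
  toFun f := f.1 1
  map_add' _ _ := rfl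
  map_smul' _ _ := rfl

/-- `FS` as the space `fnl` of `P/CHomB.lean` -/
theorem Func_fnl (c : κ → ι) (β : ι → ι') (τ₁ τ₂ : ι → ℤ) (hτ₁ : Function.Injective τ₁)
    (σ : Representation ℂ (lev F c) E)
    (σ' : Representation ℂ (lev F c) E') (L : ISp c β τ₁ hτ₁ σ →ₗ[ℂ] E') :
    L ∈ FS c β τ₁ hτ₁ τ₂ σ σ' ↔
      L ∈ fnl (fun i => β (c i)) c (fun i => τ₁ (c i)) (ordD_cond c β τ₁ hτ₁) c
        (fun i => τ₂ (c i)) (twist (dh c β τ₁) σ) (twist (dh c β τ₂) σ') :=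
  ⟨fun h => ⟨h.1, fun m hm f => h.2 m.1 hm m.2 f⟩,
    fun h => ⟨h.1, fun m hm hm' f => h.2 ⟨m, hm'⟩ hm f⟩⟩

/-- the twisted homomorphisms of the cell of `w`, normalised -/
theorem Func_cellT (c : κ → ι) (β : ι → ι') (τ₁ τ₂ : ι → ℤ) (hτ₁ : Function.Injective τ₁)
    (hτ₂ : Function.Injective τ₂) (σ : Representation ℂ (lev F c) E)
    (σ' : Representation ℂ (lev F c) E') (w : Equiv.Perm κ)
    (hw : ∀ i, β (c (w i)) = β (c i)) (hl : ∀ i j, c (w i) = c (w j) ↔ c i = c j)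
    (b : E →ₗ[ℂ] E') :
    b ∈ cellT (fun i => β (c i)) c (fun i => τ₁ (c i)) c (fun i => τ₂ (c i))
      (ordD_cond c β τ₂ hτ₂) w (twist (dh c β τ₁) σ) (twist (dh c β τ₂) σ') ↔
      Equi (cjR c w hl σ) σ' b :=
  cellT_norm (fun i => β (c i)) c (fun i => τ₁ (c i)) (fun i => τ₂ (c i))
    (ordD_cond c β τ₂ hτ₂) (dh c β τ₁) (dh c β τ₂)
    (fun w hw hl m hm => cfac_dh c β τ₁ τ₂ hτ₂ hτ₁ w hw hl m.1 hm m.2) σ σ' w hw hl b

theorem FS_of_hom (c : κ → ι) (β : ι → ι') (τ₁ τ₂ : ι → ℤ) (hτ₁ : Function.Injective τ₁)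
    (hτ₂ : Function.Injective τ₂) (σ : Representation ℂ (lev F c) E)
    (σ' : Representation ℂ (lev F c) E') (Φ : ISp c β τ₁ hτ₁ σ →ₗ[ℂ] ISp c β τ₂ hτ₂ σ')
    (hΦ : Equi (IRp c β τ₁ hτ₁ σ) (IRp c β τ₂ hτ₂ σ') Φ) :
    ev1 c β τ₂ hτ₂ σ' ∘ₗ Φ ∈ FS c β τ₁ hτ₁ τ₂ σ σ' := by
  rw [Func_fnl]
  exact evL_mem_fnl (fun i => β (c i)) c (fun i => τ₁ (c i)) (ordD_cond c β τ₁ hτ₁) c
    (fun i => τ₂ (c i)) (ordD_cond c β τ₂ hτ₂) (twist (dh c β τ₁) σ) (twist (dh c β τ₂) σ') Φ hΦ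

theorem hom_of_FS (c : κ → ι) (β : ι → ι') (τ₁ τ₂ : ι → ℤ) (hτ₁ : Function.Injective τ₁)
    (hτ₂ : Function.Injective τ₂) (σ : Representation ℂ (lev F c) E)
    (σ' : Representation ℂ (lev F c) E') (L : ISp c β τ₁ hτ₁ σ →ₗ[ℂ] E')
    (hL : L ∈ FS c β τ₁ hτ₁ τ₂ σ σ') :
    ∃ Φ : ISp c β τ₁ hτ₁ σ →ₗ[ℂ] ISp c β τ₂ hτ₂ σ',
      Equi (IRp c β τ₁ hτ₁ σ) (IRp c β τ₂ hτ₂ σ') Φ ∧
      ∀ (f : ISp c β τ₁ hτ₁ σ) (g : lev F (fun i => β (c i))),
        (Φ f).1 g = L (IRp c β τ₁ hτ₁ σ g f) := by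
  have hmem : ∀ f : ISp c β τ₁ hτ₁ σ,
      (fun g => L (IRp c β τ₁ hτ₁ σ g f)) ∈ ISp c β τ₂ hτ₂ σ' := by
    intro f
    obtain ⟨U, hU, hfU⟩ := (isSm_iff _).1 (ISp_smooth c β τ₁ hτ₁ σ) f
    refine ⟨fun m hm n hn g => ?_, U, hU, fun g u hu => ?_⟩
    · show L (IRp c β τ₁ hτ₁ σ (⟨m, _⟩ * ⟨n, _⟩ * g) f) = _
      rw [map_mul, map_mul, Module.End.mul_apply, Module.End.mul_apply, hL.2 m hm, hL.1 ⟨n, _⟩ hn]
      rfl
    · show L (IRp c β τ₁ hτ₁ σ (g * u) f) = L (IRp c β τ₁ hτ₁ σ g f)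
      rw [map_mul, Module.End.mul_apply, hfU u hu]
  refine ⟨{ toFun := fun f => ⟨_, hmem f⟩
            map_add' := ?_
            map_smul' := ?_ }, ?_, fun f g => rfl⟩
  · intro f f'
    refine Subtype.ext (funext fun g => ?_)
    show L (IRp c β τ₁ hτ₁ σ g (f + f')) = L (IRp c β τ₁ hτ₁ σ g f) + L (IRp c β τ₁ hτ₁ σ g f')
    rw [map_add, map_add]
  · intro z f
    refine Subtype.ext (funext fun g => ?_)
    show L (IRp c β τ₁ hτ₁ σ g (z • f)) = z • L (IRp c β τ₁ hτ₁ σ g f)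
    rw [map_smul, map_smul]
  · intro h f
    refine Subtype.ext (funext fun g => ?_)
    show L (IRp c β τ₁ hτ₁ σ g (IRp c β τ₁ hτ₁ σ h f)) = L (IRp c β τ₁ hτ₁ σ (g * h) f)
    rw [map_mul, Module.End.mul_apply]

theorem live_assoc (c : κ → ι) (w : Equiv.Perm κ) (h : ∀ i j, c (w i) = c (w j) → c i = c j) :
    ∀ i j, c (w i) = c (w j) ↔ c i = c j :=
  CLead_assoc c w h

theorem block_perm (c : κ → ι) (hcs : Function.Surjective c) (w : Equiv.Perm κ)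
    (h : ∀ i j, c (w i) = c (w j) ↔ c i = c j) : ∃ ω : Equiv.Perm ι, ∀ i, c (w i) = ω (c i) := by
  obtain ⟨s, hs⟩ := hcs.hasRightInverse
  have h1 : Function.Injective fun x : ι => c (w (s x)) := by
    intro x y hxy
    have h2 := (h (s x) (s y)).1 hxy
    rwa [hs, hs] at h2
  refine ⟨Equiv.ofBijective _ ((Finite.injective_iff_bijective).1 h1), fun i => ?_⟩
  show c (w i) = c (w (s (c i)))
  exact (h i (s (c i))).2 (hs (c i)).symm

/-- a nonzero functional has a first cell -/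
theorem first_cell (c : κ → ι) (β : ι → ι') (τ₁ τ₂ : ι → ℤ) (hτ₁ : Function.Injective τ₁)
    (hτ₂ : Function.Injective τ₂) (σ : Representation ℂ (lev F c) E) (hσ : IsSm σ)
    (hc : Cusp c σ) (σ' : Representation ℂ (lev F c) E') (L : ISp c β τ₁ hτ₁ σ →ₗ[ℂ] E')
    (hL : L ∈ FS c β τ₁ hτ₁ τ₂ σ σ') (h0 : L ≠ 0) :
    ∃ (w : Equiv.Perm κ) (hl : ∀ i j, c (w i) = c (w j) ↔ c i = c j)
      (Ω' Ω : Set (lev F (fun i => β (c i))))
      (hs : CStep (fun i => β (c i)) (fun i => τ₁ (c i)) (fun i => τ₂ (c i)) w Ω' Ω)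
      (a : E →ₗ[ℂ] E'), a ≠ 0 ∧
      (∀ f ∈ IndOn (ordD c β τ₁ hτ₁) (twist (dh c β τ₁) σ) Ω', L f = 0) ∧
      (∀ f ∈ IndOn (ordD c β τ₁ hτ₁) (twist (dh c β τ₁) σ) Ω,
        L f = a ((glCD (F := F) (fun i => β (c i)) (fun i => τ₁ (c i)) c (fun i => τ₂ (c i))
          (ordD_cond c β τ₂ hτ₂) w hs.hw).Lam f.1 1)) ∧
      Equi (cjR c w hl σ) σ' a := by
  by_contra hcon
  apply h0
  refine cell_ind (fun i => β (c i)) c (fun i => τ₁ (c i)) (ordD_cond c β τ₁ hτ₁)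
    (fun i => τ₂ (c i)) (twist (dh c β τ₁) σ) L ?_
  intro w Ω' Ω hs hz f hf
  by_contra hne
  apply hcon
  have hL' := (Func_fnl c β τ₁ τ₂ hτ₁ σ σ' L).1 hL
  by_cases hlw : ∀ i j, c (w i) = c (w j) → c i = c j
  · have hl := live_assoc c w hlw
    obtain ⟨a, ⟨ha1, ha2⟩, -⟩ := fnl_step (fun i => β (c i)) c (fun i => τ₁ (c i))
      (ordD_cond c β τ₁ hτ₁) c (fun i => τ₂ (c i)) (ordD_cond c β τ₂ hτ₂)
      (twist (dh c β τ₁) σ) (twist (dh c β τ₂) σ') (sm_twist c β τ₁ σ hσ) w Ω' Ω hs hl L hL' hz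
    refine ⟨w, hl, Ω', Ω, hs, a, ?_, hz, ha2,
      (Func_cellT c β τ₁ τ₂ hτ₁ hτ₂ σ σ' w hs.hw hl a).1 ha1⟩
    rintro rfl
    exact hne (by rw [ha2 f hf, LinearMap.zero_apply])
  · exact absurd (fun_dead (fun i => β (c i)) c (fun i => τ₁ (c i))
      (ordD_cond c β τ₁ hτ₁) c (fun i => τ₂ (c i)) (ordD_cond c β τ₂ hτ₂) w Ω' Ω hs
      (twist (dh c β τ₁) σ) L hL'.1 hz (sm_twist c β τ₁ σ hσ) (cusp_twist c β τ₁ σ hc) hlw f hf) hne

/-- upper bound for the dimension of the space of functionals -/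
theorem FS_finrank (c : κ → ι) (hcs : Function.Surjective c) (β : ι → ι') (τ₁ τ₂ : ι → ℤ)
    (hτ₁ : Function.Injective τ₁) (hτ₂ : Function.Injective τ₂)
    (σ : Representation ℂ (lev F c) E) (hσ : IsSm σ) (hc : Cusp c σ)
    (σ' : Representation ℂ (lev F c) E') (S : Finset (Equiv.Perm ι))
    (hS : ∀ (w : Equiv.Perm κ) (ω : Equiv.Perm ι) (_ : ∀ i, c (w i) = ω (c i))
      (hl : ∀ i j, c (w i) = c (w j) ↔ c i = c j) (_ : ∀ i, β (c (w i)) = β (c i))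
      (a : E →ₗ[ℂ] E') (_ : Equi (cjR c w hl σ) σ' a) (_ : a ≠ 0), ω ∈ S ∧
      ∀ a' : E →ₗ[ℂ] E', Equi (cjR c w hl σ) σ' a' → ∃ z : ℂ, a' = z • a) :
    FiniteDimensional ℂ (FS c β τ₁ hτ₁ τ₂ σ σ') ∧
      Module.finrank ℂ (FS c β τ₁ hτ₁ τ₂ σ σ') ≤ S.card := by
  classical
  have hFS : FS c β τ₁ hτ₁ τ₂ σ σ' =
      fnl (fun i => β (c i)) c (fun i => τ₁ (c i)) (ordD_cond c β τ₁ hτ₁) c
        (fun i => τ₂ (c i)) (twist (dh c β τ₁) σ) (twist (dh c β τ₂) σ') :=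
    Submodule.ext fun L => Func_fnl c β τ₁ τ₂ hτ₁ σ σ' L
  rw [hFS]
  let P : Equiv.Perm ι → Equiv.Perm κ → Prop := fun ω w => (∀ i, c (w i) = ω (c i)) ∧
    (∀ i, β (c (w i)) = β (c i)) ∧ ∃ (hl : ∀ i j, c (w i) = c (w j) ↔ c i = c j)
      (a : E →ₗ[ℂ] E'), Equi (cjR c w hl σ) σ' a ∧ a ≠ 0
  let T : Type := {ω : S // ∃ w, P ω.1 w}
  let t : T → Equiv.Perm κ := fun s => s.2.choose
  have ht : ∀ s : T, P s.1.1 (t s) := fun s => s.2.choose_spec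
  have hsp : ∀ s : T, ∃ a : E →ₗ[ℂ] E',
      cellT (fun i => β (c i)) c (fun i => τ₁ (c i)) c (fun i => τ₂ (c i))
        (ordD_cond c β τ₂ hτ₂) (t s) (twist (dh c β τ₁) σ) (twist (dh c β τ₂) σ') ≤
        Submodule.span ℂ {a} := by
    intro s
    obtain ⟨h1, h2, hl, a, ha, ha0⟩ := ht s
    refine ⟨a, fun b hb => ?_⟩
    obtain ⟨-, h3⟩ := hS (t s) s.1.1 h1 hl h2 a ha ha0
    obtain ⟨z, rfl⟩ := h3 b ((Func_cellT c β τ₁ τ₂ hτ₁ hτ₂ σ σ' (t s) h2 hl b).1 hb)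
    exact Submodule.smul_mem _ z (Submodule.mem_span_singleton_self a)
  have hfin : ∀ s : T, Module.Finite ℂ (cellT (fun i => β (c i)) c (fun i => τ₁ (c i)) c
      (fun i => τ₂ (c i)) (ordD_cond c β τ₂ hτ₂) (t s) (twist (dh c β τ₁) σ)
      (twist (dh c β τ₂) σ')) := by
    intro s
    obtain ⟨a, ha⟩ := hsp s
    exact Submodule.finiteDimensional_of_le ha
  have hone : ∀ s : T, Module.finrank ℂ (cellT (fun i => β (c i)) c (fun i => τ₁ (c i)) c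
      (fun i => τ₂ (c i)) (ordD_cond c β τ₂ hτ₂) (t s) (twist (dh c β τ₁) σ)
      (twist (dh c β τ₂) σ')) ≤ 1 := by
    intro s
    obtain ⟨a, ha⟩ := hsp s
    refine (Submodule.finrank_mono ha).trans ?_
    refine (finrank_span_le_card ({a} : Set (E →ₗ[ℂ] E'))).trans ?_
    simp
  obtain ⟨h1, h2⟩ := fnl_bound (fun i => β (c i)) c (fun i => τ₁ (c i)) (ordD_cond c β τ₁ hτ₁) c
    (fun i => τ₂ (c i)) (ordD_cond c β τ₂ hτ₂) (twist (dh c β τ₁) σ) (twist (dh c β τ₂) σ')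
    (sm_twist c β τ₁ σ hσ) (cusp_twist c β τ₁ σ hc) (fun w _ hl => live_assoc c w hl) t (by
      rintro w hw hl ⟨b, hb, hb0⟩
      obtain ⟨ω, hω⟩ := block_perm c hcs w hl
      have hb' := (Func_cellT c β τ₁ τ₂ hτ₁ hτ₂ σ σ' w hw hl b).1 hb
      obtain ⟨h3, -⟩ := hS w ω hω hl hw b hb' hb0
      have h4 : ∃ w, P ω w := ⟨w, hω, hw, hl, b, hb', hb0⟩
      obtain ⟨g1, g2, g3, -⟩ := ht ⟨⟨ω, h3⟩, h4⟩
      refine ⟨⟨⟨ω, h3⟩, h4⟩, g2, g3, ?_⟩
      refine gcell_eq_of_blocks (fun i => β (c i)) c (fun i => τ₁ (c i))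
        (ordD_cond c β τ₁ hτ₁) (fun i => τ₂ (c i)) w _ fun i => ?_
      rw [g1, hω]) hfin
  refine ⟨h1, h2.trans ?_⟩
  refine (Finset.sum_le_card_nsmul Finset.univ _ 1 fun s _ => hone s).trans ?_
  rw [smul_eq_mul, mul_one, Finset.card_univ]
  have h3 : Fintype.card T ≤ Fintype.card S := Fintype.card_subtype_le _
  rwa [Fintype.card_coe] at h3

end

end Pool.Agent.Lib.MP_ca1492_al.P
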