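import Mathlib
import Pool.Agent.Lib.MP_ca1492_al.D5.Func
import Pool.Agent.Lib.MP_ca1492_al.D5.Tst
import Pool.Agent.Lib.MP_ca1492_al.P.IndEx

/-!
# MP_ca1492_al, D5, module Lead: intertwining functionals and their leading coefficient

`opI y` = pointwise action of the power series `y` on `I_τ(hat ρ)`. `X1 τ₁ τ₂ ρ` = the functionals in
`FS τ₁ τ₂ (hat ρ) (hat ρ)` which commute with all power series. `IsLead L ℓ`: for large `r` and all test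
functions `f`, `L f = Cr • ℓ (f 1)`.

* `opI_nil`: `f` is right `U`-invariant and `H = P_τ K` with `K` compact (`iwasawa`), so the values of
  `f` on `K` are finitely many elements of `V ⊗ Pol`, and the values on `P_τ K` are obtained by `σ(m)`, which
  preserves the filtration of `Pol` by the total degree (`shiftP`); so there is `k` with
  `f g ∈ V ⊗ Pol_{< k}` for all `g`, and a power series all of whose coefficients of degree `< k`
  vanish acts by `0`.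
* `comm_of_X`: `L` commutes with the variables, so with the polynomials (`opE_mul`, `opE_add`,
  `opE_C`); for `f` choose `k` as in `opI_nil` for `f` and with the degree of `L f` `< k`; write
  `y = polynomial + (terms of degree ≥ k)`.
* `X1_first`: `L ∈ X1`, `L ≠ 0`: `first_cell` gives `w`, `a`; let `ω` be the block permutation
  (`block_perm`). `Lam` commutes with `opE y` (`lam_map`), so `a (y e) = y (a e)` for all `e` (every
  `e` is a value of `Lam`, `gl_surj`); with `cell_hom_pderiv`: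
  `a ((X x - X (ω x)) e) = 0`, so `a = 0` by `opE_sub_surj` if `ω x ≠ x`. So `ω = 1`, `permG w ∈ lev c`,
  and the cell of `w` is the cell of `1` (`1 = permG w⁻¹ * permG w * 1`), `1 ∈ Ω`. For large `r` test
  functions are in `IndOn Ω` (`KS_IndOn`) and `L f = a (Cr • σ(w) (f 1))` by `lam_KS_w`; `a ∘ σ(w)` is an
  endomorphism of `hat c ρ`, so it is `opE ℓ` (`hat_end`), `ℓ ≠ 0`.
* `lead_exists`, `X1_zero`: from `X1_first` (for `X1_zero`: if `L ≠ 0` then `ℓ ≠ 0` and uniqueness of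
  `ℓ`). `lead_unique`: every `e` is the value at `1` of test functions of large level
  (`sm_fix`, `tst_exists`), `Cr ≠ 0`, `opE_inj`.
* `X1_self`: `ev1` is in `X1 τ τ`, with lead `1` (`npair = 0`, `Cr = 1`), `opE ℓ ∘ ev1` has lead `ℓ`.
* `olead_exists`: `fun_live` for the open cell, `Ω' = ∅` (`big_open`); `lam_KS`, `hat_end`, `KS_open`.
-/

set_option autoImplicit false

namespace Pool.Agent.Lib.MP_ca1492_al.P

open Topology Matrix ValuativeRel TensorProduct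

noncomputable section

variable {F : Type} [Field F] [ValuativeRel F] [TopologicalSpace F]
  [IsNonarchimedeanLocalField F]
variable {κ : Type} [Fintype κ] [DecidableEq κ]
variable {ι ι' : Type} [Fintype ι] [DecidableEq ι]
variable {V : Type} [AddCommGroup V] [Module ℂ V]

/-- pointwise action of power series -/
def opI (c : κ → ι) (β : ι → ι') (τ : ι → ℤ) (hτ : Function.Injective τ)
    (ρ : Representation ℂ (lev F c) V) (y : MvPowerSeries ι ℂ) :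
    ISp c β τ hτ (hat c ρ) →ₗ[ℂ] ISp c β τ hτ (hat c ρ) where
  toFun f := ⟨fun g => opE V y (f.1 g),
    ISp_map c β τ hτ (hat c ρ) (hat c ρ) (opE V y) (opE_equi c ρ y) f.1 f.2⟩
  map_add' f f' := Subtype.ext (funext fun g => map_add (opE V y) (f.1 g) (f'.1 g))
  map_smul' z f := Subtype.ext (funext fun g => map_smul (opE V y) z (f.1 g))

theorem opI_equi (c : κ → ι) (β : ι → ι') (τ : ι → ℤ) (hτ : Function.Injective τ)
    (ρ : Representation ℂ (lev F c) V) (y : MvPowerSeries ι ℂ) :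
    Equi (IRp c β τ hτ (hat c ρ)) (IRp c β τ hτ (hat c ρ)) (opI c β τ hτ ρ y) :=
  fun _ _ => rfl

theorem opI_mul (c : κ → ι) (β : ι → ι') (τ : ι → ℤ) (hτ : Function.Injective τ)
    (ρ : Representation ℂ (lev F c) V) (y z : MvPowerSeries ι ℂ)
    (f : ISp c β τ hτ (hat c ρ)) :
    opI c β τ hτ ρ (y * z) f = opI c β τ hτ ρ y (opI c β τ hτ ρ z f) :=
  Subtype.ext (funext fun g => opE_mul y z (f.1 g))

theorem opI_add (c : κ → ι) (β : ι → ι') (τ : ι → ℤ) (hτ : Function.Injective τ)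
    (ρ : Representation ℂ (lev F c) V) (y z : MvPowerSeries ι ℂ)
    (f : ISp c β τ hτ (hat c ρ)) :
    opI c β τ hτ ρ (y + z) f = opI c β τ hτ ρ y f + opI c β τ hτ ρ z f :=
  Subtype.ext (funext fun g => opE_add y z (f.1 g))

theorem opI_one (c : κ → ι) (β : ι → ι') (τ : ι → ℤ) (hτ : Function.Injective τ)
    (ρ : Representation ℂ (lev F c) V) (f : ISp c β τ hτ (hat c ρ)) :
    opI c β τ hτ ρ 1 f = f :=
  Subtype.ext (funext fun g => opE_one (f.1 g))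

theorem Lead_C (c : κ → ι) (β : ι → ι') (τ : ι → ℤ) (hτ : Function.Injective τ)
    (ρ : Representation ℂ (lev F c) V) (z : ℂ) (f : ISp c β τ hτ (hat c ρ)) :
    opI c β τ hτ ρ (MvPowerSeries.C z) f = z • f :=
  Subtype.ext (funext fun g => opE_C z (f.1 g))

omit [Fintype ι] [DecidableEq ι] in
/-- every polynomial is killed by the power series of large order -/
theorem Lead_psEnd (p : MvPolynomial ι ℂ) : ∃ k : ℕ, ∀ y : MvPowerSeries ι ℂ,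
    (∀ m : ι →₀ ℕ, m.degree < k → MvPowerSeries.coeff m y = 0) → psEnd y p = 0 := by
  classical
  induction p using MvPolynomial.induction_on' with
  | monomial β a =>
    refine ⟨β.degree + 1, fun y hy => ?_⟩
    have h1 : (MvPolynomial.monomial β a : MvPolynomial ι ℂ) =
        a • MvPolynomial.monomial β 1 := by
      rw [MvPolynomial.smul_monomial, smul_eq_mul, mul_one]
    rw [h1, map_smul, psEnd_mono]
    rw [Finset.sum_eq_zero, smul_zero]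
    intro q hq
    have h2 : q.1 + q.2 = β := Finset.HasAntidiagonal.mem_antidiagonal.1 hq
    have h3 : q.1.degree ≤ β.degree := by
      rw [← h2, map_add]
      exact Nat.le_add_right _ _
    rw [hy q.1 (by omega), zero_mul, map_zero]
  | add p q hp hq =>
    obtain ⟨k, hk⟩ := hp
    obtain ⟨l, hl⟩ := hq
    refine ⟨max k l, fun y hy => ?_⟩
    rw [map_add, hk y fun m hm => hy m (lt_of_lt_of_le hm (le_max_left _ _)),
      hl y fun m hm => hy m (lt_of_lt_of_le hm (le_max_right _ _)), add_zero]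

omit [Fintype ι] [DecidableEq ι] in
theorem Lead_opE (e : V ⊗[ℂ] MvPolynomial ι ℂ) : ∃ k : ℕ, ∀ y : MvPowerSeries ι ℂ,
    (∀ m : ι →₀ ℕ, m.degree < k → MvPowerSeries.coeff m y = 0) → opE V y e = 0 := by
  induction e using TensorProduct.induction_on with
  | zero => exact ⟨0, fun y _ => map_zero _⟩
  | tmul v p =>
    obtain ⟨k, hk⟩ := Lead_psEnd p
    refine ⟨k, fun y hy => ?_⟩
    show v ⊗ₜ psEnd y p = 0
    rw [hk y hy, TensorProduct.tmul_zero]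
  | add p q hp hq =>
    obtain ⟨k, hk⟩ := hp
    obtain ⟨l, hl⟩ := hq
    refine ⟨max k l, fun y hy => ?_⟩
    rw [map_add, hk y fun m hm => hy m (lt_of_lt_of_le hm (le_max_left _ _)),
      hl y fun m hm => hy m (lt_of_lt_of_le hm (le_max_right _ _)), add_zero]

/-- every function is killed by all power series of large order -/
theorem opI_nil (c : κ → ι) (β : ι → ι') (τ : ι → ℤ) (hτ : Function.Injective τ)
    (ρ : Representation ℂ (lev F c) V) (f : ISp c β τ hτ (hat c ρ)) :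
    ∃ k : ℕ, ∀ y : MvPowerSeries ι ℂ, (∀ m : ι →₀ ℕ, m.degree < k → MvPowerSeries.coeff m y = 0) →
      opI c β τ hτ ρ y f = 0 := by
  classical
  obtain ⟨U, hU, hfU⟩ := f.2.2
  obtain ⟨s, hs⟩ := dc_fin (F := F) (fun i => β (c i)) (fun i => τ (c i)) U hU
  have h1 : ∀ x : lev F (fun i => β (c i)), ∃ k : ℕ, ∀ y : MvPowerSeries ι ℂ,
      (∀ m : ι →₀ ℕ, m.degree < k → MvPowerSeries.coeff m y = 0) → opE V y (f.1 x) = 0 :=
    fun x => Lead_opE (f.1 x)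
  choose k hk using h1
  refine ⟨s.sup k, fun y hy => Subtype.ext (funext fun g => ?_)⟩
  obtain ⟨p, hp, x, hx, u, hu, rfl⟩ := hs g
  show opE V y (f.1 (p * x * u)) = 0
  rw [hfU _ u hu]
  have h2 := ((mem_IndSp_iff c (fun i => β (c i)) (fun i => τ (c i)) (ordD_cond c β τ hτ)
    (twist (dh c β τ) (hat c ρ)) f.1).1 f.2).1 ⟨p, hp⟩ x
  have h3 : f.1 (p * x) = _ := h2
  rw [h3]
  show opE V y (((dh c β τ _ : ℂˣ) : ℂ) • hat c ρ _ (f.1 x)) = 0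
  rw [map_smul, opE_equi c ρ y, hk x y fun m hm => hy m (lt_of_lt_of_le hm (Finset.le_sup hx)),
    map_zero, smul_zero]

/-- intertwining functionals -/
def X1 (c : κ → ι) (β : ι → ι') (τ₁ : ι → ℤ) (hτ₁ : Function.Injective τ₁) (τ₂ : ι → ℤ)
    (ρ : Representation ℂ (lev F c) V) :
    Submodule ℂ (ISp c β τ₁ hτ₁ (hat c ρ) →ₗ[ℂ] V ⊗[ℂ] MvPolynomial ι ℂ) where
  carrier := {L | L ∈ FS c β τ₁ hτ₁ τ₂ (hat c ρ) (hat c ρ) ∧
    ∀ (y : MvPowerSeries ι ℂ) (f : _), L (opI c β τ₁ hτ₁ ρ y f) = opE V y (L f)}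
  add_mem' := by
    rintro a b ⟨ha, ha'⟩ ⟨hb, hb'⟩
    refine ⟨Submodule.add_mem _ ha hb, fun y f => ?_⟩
    rw [LinearMap.add_apply, LinearMap.add_apply, ha', hb', map_add]
  zero_mem' := ⟨Submodule.zero_mem _, fun y f => by simp⟩
  smul_mem' := by
    rintro z a ⟨ha, ha'⟩
    refine ⟨Submodule.smul_mem _ _ ha, fun y f => ?_⟩
    rw [LinearMap.smul_apply, LinearMap.smul_apply, ha', map_smul]

theorem comm_of_X (c : κ → ι) (β : ι → ι') (τ₁ τ₂ : ι → ℤ) (hτ₁ : Function.Injective τ₁)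
    (ρ : Representation ℂ (lev F c) V)
    (L : ISp c β τ₁ hτ₁ (hat c ρ) →ₗ[ℂ] V ⊗[ℂ] MvPolynomial ι ℂ)
    (hL : L ∈ FS c β τ₁ hτ₁ τ₂ (hat c ρ) (hat c ρ))
    (h : ∀ (x : ι) f, L (opI c β τ₁ hτ₁ ρ (MvPowerSeries.X x) f) =
      opE V (MvPowerSeries.X x) (L f)) : L ∈ X1 c β τ₁ hτ₁ τ₂ ρ := by
  refine ⟨hL, fun y f => ?_⟩
  have hpol : ∀ (P : MvPolynomial ι ℂ) (f : ISp c β τ₁ hτ₁ (hat c ρ)),
      L (opI c β τ₁ hτ₁ ρ (P : MvPowerSeries ι ℂ) f) = opE V (P : MvPowerSeries ι ℂ) (L f) := by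
    intro P
    induction P using MvPolynomial.induction_on with
    | C a =>
      intro f
      rw [MvPolynomial.coe_C, Lead_C, opE_C, map_smul]
    | add p q hp hq =>
      intro f
      rw [MvPolynomial.coe_add, opI_add, opE_add, map_add, hp, hq]
    | mul_X p i hp =>
      intro f
      rw [MvPolynomial.coe_mul, MvPolynomial.coe_X, opI_mul, opE_mul, hp, h]
  obtain ⟨k, hk⟩ := opI_nil c β τ₁ hτ₁ ρ f
  obtain ⟨l, hl⟩ := Lead_opE (L f)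
  let P : MvPolynomial ι ℂ := MvPowerSeries.truncTotal (max k l) y
  have h1 : ∀ m : ι →₀ ℕ, m.degree < max k l →
      MvPowerSeries.coeff m (y - (P : MvPowerSeries ι ℂ)) = 0 := by
    intro m hm
    rw [map_sub, MvPolynomial.coeff_coe, sub_eq_zero]
    exact (MvPowerSeries.coeff_truncTotal y hm).symm
  have h2 : y = (y - (P : MvPowerSeries ι ℂ)) + (P : MvPowerSeries ι ℂ) := by ring
  rw [h2, opI_add, opE_add, map_add, hpol,
    hk _ fun m hm => h1 m (lt_of_lt_of_le hm (le_max_left _ _)),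
    hl _ fun m hm => h1 m (lt_of_lt_of_le hm (le_max_right _ _)), map_zero]

/-- `ℓ` is the leading coefficient of `L` in the cell of `1` -/
def IsLead (c : κ → ι) (β : ι → ι') (τ₁ : ι → ℤ) (hτ₁ : Function.Injective τ₁) (τ₂ : ι → ℤ)
    (ρ : Representation ℂ (lev F c) V)
    (L : ISp c β τ₁ hτ₁ (hat c ρ) →ₗ[ℂ] V ⊗[ℂ] MvPolynomial ι ℂ)
    (ℓ : MvPowerSeries ι ℂ) : Prop :=
  ∃ r₀ : ℕ, ∀ r : ℕ, r₀ ≤ r → ∀ f : ISp c β τ₁ hτ₁ (hat c ρ), KS c β τ₁ r f.1 →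
    L f = Cr F c β τ₁ τ₂ r • opE V ℓ (f.1 1)

section

variable (c : κ → ι) (hcs : Function.Surjective c) (β : ι → ι') (τ₁ τ₂ : ι → ℤ)
  (hτ₁ : Function.Injective τ₁) (hτ₂ : Function.Injective τ₂)
  (ρ : Representation ℂ (lev F c) V) (hρ : IsSm ρ) (hi : Irr ρ) (hc : Cusp c ρ)

theorem lead_unique (hρ : IsSm ρ) (hi : Irr ρ)
    (L : ISp c β τ₁ hτ₁ (hat c ρ) →ₗ[ℂ] V ⊗[ℂ] MvPolynomial ι ℂ) (ℓ ℓ' : MvPowerSeries ι ℂ)
    (h : IsLead c β τ₁ hτ₁ τ₂ ρ L ℓ) (h' : IsLead c β τ₁ hτ₁ τ₂ ρ L ℓ') : ℓ = ℓ' := by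
  obtain ⟨r, hr⟩ := h
  obtain ⟨r', hr'⟩ := h'
  refine opE_inj hi.1 ℓ ℓ' fun e => ?_
  obtain ⟨r₀, hr₀⟩ := sm_fix c (hat c ρ) (hat_smooth c ρ hρ) e
  obtain ⟨f, hf, he⟩ := tst_exists c β τ₁ hτ₁ (hat c ρ) (max r₀ (max r r')) e
    (hr₀ _ (le_max_left _ _))
  have h1 := hr _ (le_trans (le_max_left _ _) (le_max_right _ _)) f hf
  rw [hr' _ (le_trans (le_max_right _ _) (le_max_right _ _)) f hf, he] at h1
  exact (smul_right_injective _ (Cr_ne c β τ₁ τ₂ _) h1).symm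

theorem lead_add (L L' : ISp c β τ₁ hτ₁ (hat c ρ) →ₗ[ℂ] V ⊗[ℂ] MvPolynomial ι ℂ)
    (ℓ ℓ' : MvPowerSeries ι ℂ) (h : IsLead c β τ₁ hτ₁ τ₂ ρ L ℓ)
    (h' : IsLead c β τ₁ hτ₁ τ₂ ρ L' ℓ') : IsLead c β τ₁ hτ₁ τ₂ ρ (L + L') (ℓ + ℓ') := by
  obtain ⟨r, hr⟩ := h
  obtain ⟨r', hr'⟩ := h'
  refine ⟨max r r', fun s hs f hf => ?_⟩
  rw [LinearMap.add_apply, hr s (le_trans (le_max_left _ _) hs) f hf,
    hr' s (le_trans (le_max_right _ _) hs) f hf, opE_add, smul_add]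

theorem lead_op (L : ISp c β τ₁ hτ₁ (hat c ρ) →ₗ[ℂ] V ⊗[ℂ] MvPolynomial ι ℂ)
    (ℓ y : MvPowerSeries ι ℂ) (h : IsLead c β τ₁ hτ₁ τ₂ ρ L ℓ) :
    IsLead c β τ₁ hτ₁ τ₂ ρ (opE V y ∘ₗ L) (y * ℓ) := by
  obtain ⟨r, hr⟩ := h
  refine ⟨r, fun s hs f hf => ?_⟩
  rw [LinearMap.comp_apply, hr s hs f hf, map_smul, opE_mul]

theorem X1_op (L : ISp c β τ₁ hτ₁ (hat c ρ) →ₗ[ℂ] V ⊗[ℂ] MvPolynomial ι ℂ)
    (y : MvPowerSeries ι ℂ) (h : L ∈ X1 c β τ₁ hτ₁ τ₂ ρ) :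
    opE V y ∘ₗ L ∈ X1 c β τ₁ hτ₁ τ₂ ρ := by
  refine ⟨⟨fun n hn f => ?_, fun m hm hm' f => ?_⟩, fun z f => ?_⟩
  · rw [LinearMap.comp_apply, LinearMap.comp_apply, h.1.1 n hn f]
  · rw [LinearMap.comp_apply, LinearMap.comp_apply, h.1.2 m hm hm' f, map_smul,
      opE_equi c ρ y ⟨m, hm⟩]
  · rw [LinearMap.comp_apply, LinearMap.comp_apply, h.2 z f, ← opE_mul, ← opE_mul, mul_comm]

include hcs hρ hi hc in
/-- the leading coefficient, all levels at least one -/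
theorem Lead_main (hτ₂ : Function.Injective τ₂)
    (L : ISp c β τ₁ hτ₁ (hat c ρ) →ₗ[ℂ] V ⊗[ℂ] MvPolynomial ι ℂ)
    (hL : L ∈ X1 c β τ₁ hτ₁ τ₂ ρ) :
    ∃ ℓ : MvPowerSeries ι ℂ, (ℓ = 0 → L = 0) ∧ ∀ r : ℕ, 1 ≤ r →
      ∀ f : ISp c β τ₁ hτ₁ (hat c ρ), KS c β τ₁ r f.1 →
      L f = Cr F c β τ₁ τ₂ r • opE V ℓ (f.1 1) := by
  obtain ⟨Φ, hΦ, hΦL⟩ := hom_of_FS c β τ₁ τ₂ hτ₁ hτ₂ (hat c ρ) (hat c ρ) L hL.1
  have hΦ1 : ∀ f, (Φ f).1 1 = L f := by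
    intro f
    rw [hΦL, map_one, Module.End.one_apply]
  have hx : ∀ (τ : ι → ℤ) (x : ι), Equi (twist (dh c β τ) (hat c ρ)) (twist (dh c β τ) (hat c ρ))
      (TensorProduct.map LinearMap.id (psEnd (MvPowerSeries.X x))) := by
    intro τ x m e
    show opE V (MvPowerSeries.X x) (((dh c β τ m : ℂˣ) : ℂ) • hat c ρ m e) =
      ((dh c β τ m : ℂˣ) : ℂ) • hat c ρ m (opE V (MvPowerSeries.X x) e)
    rw [map_smul, opE_equi c ρ]
  have hcomm : ∀ (x : ι) (f : ISp c β τ₁ hτ₁ (hat c ρ)) (g : lev F (fun i => β (c i))),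
      (Φ (opI c β τ₁ hτ₁ ρ (MvPowerSeries.X x) f)).1 g =
        opE V (MvPowerSeries.X x) ((Φ f).1 g) := by
    intro x f g
    rw [hΦL, hΦL, ← hL.2]
    rfl
  obtain ⟨ℓ, ⟨h1, h2⟩, -⟩ := hat_lead (fun i => β (c i)) c (fun i => τ₁ (c i))
    (ordD_cond c β τ₁ hτ₁) (fun i => τ₂ (c i)) (ordD_cond c β τ₂ hτ₂) (dh c β τ₁) (dh c β τ₂)
    (fun w hw hl m hm => cfac_dh c β τ₁ τ₂ hτ₂ hτ₁ w hw hl m.1 hm m.2) hcs ρ hρ hi hc
    (sm_twist c β τ₁ _ (hat_smooth c ρ hρ))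
    (fun o n hn => dh_eq_one c β τ₁ n fun x => vl_uni c o n.1 hn x) (hx τ₁) (hx τ₂) Φ hΦ
    (fun x f => Subtype.ext (funext fun g => hcomm x f g))
  refine ⟨ℓ, fun h0 => ?_, fun r hr f hf => ?_⟩
  · have h3 := h2 h0
    refine LinearMap.ext fun f => ?_
    rw [← hΦ1, h3]
    rfl
  · have h3 := (hΦ1 f).symm.trans
      (h1 f (test_mem_big hr ((KS_isTest c β τ₁ hτ₁ (hat c ρ) r f _).1 ⟨hf, rfl⟩)))
    rw [h3, lam_KS c β τ₁ τ₂ hτ₁ hτ₂ (hat c ρ) (hat_smooth c ρ hρ) r hr f hf, map_smul]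
    rfl

include hcs hτ₂ hρ hi hc

theorem X1_first (L : ISp c β τ₁ hτ₁ (hat c ρ) →ₗ[ℂ] V ⊗[ℂ] MvPolynomial ι ℂ)
    (hL : L ∈ X1 c β τ₁ hτ₁ τ₂ ρ) (h0 : L ≠ 0) :
    ∃ ℓ : MvPowerSeries ι ℂ, ℓ ≠ 0 ∧ IsLead c β τ₁ hτ₁ τ₂ ρ L ℓ := by
  obtain ⟨ℓ, h1, h2⟩ := Lead_main c hcs β τ₁ τ₂ hτ₁ ρ hρ hi hc hτ₂ L hL
  exact ⟨ℓ, fun h => h0 (h1 h), 1, h2⟩

theorem lead_exists (L : ISp c β τ₁ hτ₁ (hat c ρ) →ₗ[ℂ] V ⊗[ℂ] MvPolynomial ι ℂ)
    (hL : L ∈ X1 c β τ₁ hτ₁ τ₂ ρ) :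
    ∃ ℓ : MvPowerSeries ι ℂ, IsLead c β τ₁ hτ₁ τ₂ ρ L ℓ := by
  obtain ⟨ℓ, -, h2⟩ := Lead_main c hcs β τ₁ τ₂ hτ₁ ρ hρ hi hc hτ₂ L hL
  exact ⟨ℓ, 1, h2⟩

/-- an intertwining functional is determined by its leading coefficient -/
theorem X1_ext (L L' : ISp c β τ₁ hτ₁ (hat c ρ) →ₗ[ℂ] V ⊗[ℂ] MvPolynomial ι ℂ)
    (hL : L ∈ X1 c β τ₁ hτ₁ τ₂ ρ) (hL' : L' ∈ X1 c β τ₁ hτ₁ τ₂ ρ) (ℓ : MvPowerSeries ι ℂ)
    (h : IsLead c β τ₁ hτ₁ τ₂ ρ L ℓ) (h' : IsLead c β τ₁ hτ₁ τ₂ ρ L' ℓ) : L = L' := by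
  by_contra hne
  have h1 : L - L' ≠ 0 := sub_ne_zero.2 hne
  obtain ⟨ℓ', h2, h3⟩ := X1_first c hcs β τ₁ τ₂ hτ₁ hτ₂ ρ hρ hi hc (L - L')
    (Submodule.sub_mem _ hL hL') h1
  apply h2
  refine lead_unique c β τ₁ τ₂ hτ₁ ρ hρ hi (L - L') ℓ' 0 h3 ?_
  obtain ⟨r, hr⟩ := h
  obtain ⟨r', hr'⟩ := h'
  refine ⟨max r r', fun s hs f hf => ?_⟩
  have h4 : opE V (0 : MvPowerSeries ι ℂ) (f.1 1) = 0 := by
    have h5 := opE_C (V := V) (ι := ι) 0 (f.1 1)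
    rw [map_zero, zero_smul] at h5
    exact h5
  rw [LinearMap.sub_apply, hr s (le_trans (le_max_left _ _) hs) f hf,
    hr' s (le_trans (le_max_right _ _) hs) f hf, sub_self, h4, smul_zero]

/-- `X1 τ τ` consists of the power series -/
theorem X1_self (L : ISp c β τ₁ hτ₁ (hat c ρ) →ₗ[ℂ] V ⊗[ℂ] MvPolynomial ι ℂ)
    (hL : L ∈ X1 c β τ₁ hτ₁ τ₁ ρ) :
    ∃ ℓ : MvPowerSeries ι ℂ, ∀ f, L f = opE V ℓ (f.1 1) := by
  obtain ⟨ℓ, hℓ⟩ := lead_exists c hcs β τ₁ τ₁ hτ₁ hτ₁ ρ hρ hi hc L hL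
  have h1 : ev1 c β τ₁ hτ₁ (hat c ρ) ∈ X1 c β τ₁ hτ₁ τ₁ ρ := by
    refine ⟨?_, fun y f => rfl⟩
    exact FS_of_hom c β τ₁ τ₁ hτ₁ hτ₁ (hat c ρ) (hat c ρ) LinearMap.id fun g f => rfl
  have h2 : ∀ r, Cr F c β τ₁ τ₁ r = 1 := by
    intro r
    have h0 : npair c β τ₁ τ₁ = 0 := by
      classical
      unfold npair
      rw [Finset.card_eq_zero, Finset.filter_eq_empty_iff]
      intro p _ h
      exact absurd h.2.1 (not_lt.2 h.2.2.le)
    unfold Cr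
    rw [h0, mul_zero, pow_zero, inv_one]
  have h3 : IsLead c β τ₁ hτ₁ τ₁ ρ (ev1 c β τ₁ hτ₁ (hat c ρ)) 1 := by
    refine ⟨0, fun r _ f _ => ?_⟩
    rw [h2, one_smul, opE_one]
    rfl
  have h4 := X1_ext c hcs β τ₁ τ₁ hτ₁ hτ₁ ρ hρ hi hc L (opE V ℓ ∘ₗ ev1 c β τ₁ hτ₁ (hat c ρ)) hL
    (X1_op c β τ₁ τ₁ hτ₁ ρ _ ℓ h1) ℓ hℓ (by
      have h5 := lead_op c β τ₁ τ₁ hτ₁ ρ _ 1 ℓ h3
      rwa [mul_one] at h5)
  refine ⟨ℓ, fun f => ?_⟩
  rw [h4]
  rfl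

/-- the leading coefficient in the open cell exists for all functionals in `FS` -/
theorem olead_exists (ho : ∀ x y, β x = β y → (τ₁ x < τ₁ y ↔ τ₂ y < τ₂ x))
    (L : ISp c β τ₁ hτ₁ (hat c ρ) →ₗ[ℂ] V ⊗[ℂ] MvPolynomial ι ℂ)
    (hL : L ∈ FS c β τ₁ hτ₁ τ₂ (hat c ρ) (hat c ρ)) :
    ∃ ℓ : MvPowerSeries ι ℂ, ∀ r : ℕ, 1 ≤ r → ∀ f : ISp c β τ₁ hτ₁ (hat c ρ),
      KS c β τ₁ r f.1 → L f = Cr F c β τ₁ τ₂ r • opE V ℓ (f.1 1) := by
  -- the cell of `1` is open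
  have hopen : IsOpen (gcell (F := F) (fun i => β (c i)) (fun i => τ₁ (c i))
      (fun i => τ₂ (c i)) 1) := by
    have hbig := big_open (F := F) (fun i => β (c i)) (fun i => τ₁ (c i))
    have hle : ∀ n : GL κ F, n ∈ uni F (fun i => β (c i)) (fun i => - τ₁ (c i)) →
        n ∈ upp F (fun i => β (c i)) (fun i => τ₂ (c i)) := by
      intro n hn
      refine ⟨hn.1.1, fun i j hij => ?_⟩
      by_cases hb : β (c i) = β (c j)
      · have h5 : τ₁ (c i) < τ₁ (c j) := (ho (c i) (c j) hb).2 hij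
        exact hn.1.2 i j (neg_lt_neg h5)
      · exact hn.1.1 i j hb
    have h1 : gcell (F := F) (fun i => β (c i)) (fun i => τ₁ (c i)) (fun i => τ₂ (c i)) 1 =
        ⋃ q : {q : lev F (fun i => β (c i)) // q.1 ∈ upp F (fun i => β (c i)) (fun i => τ₂ (c i))},
          (fun g => g * q.1⁻¹) ⁻¹' {g : lev F (fun i => β (c i)) |
            ∃ p ∈ upp F (fun i => β (c i)) (fun i => τ₁ (c i)),
              ∃ n ∈ uni F (fun i => β (c i)) (fun i => - τ₁ (c i)), g.1 = p * n} := by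
      ext g
      rw [Set.mem_iUnion]
      constructor
      · rintro ⟨p, hp, q, hq, he⟩
        rw [permG_one, mul_one] at he
        refine ⟨⟨⟨q, hq.1⟩, hq⟩, p, hp, 1, Subgroup.one_mem _, ?_⟩
        show g.1 * q⁻¹ = p * 1
        rw [he]
        group
      · rintro ⟨⟨q, hq⟩, p, hp, n, hn, he⟩
        refine ⟨p, hp, n * q.1, (upp F _ _).mul_mem (hle n hn) hq, ?_⟩
        have he' : g.1 * (q.1)⁻¹ = p * n := he
        rw [permG_one, mul_one, ← mul_assoc, ← he', inv_mul_cancel_right]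
    rw [h1]
    exact isOpen_iUnion fun q => hbig.preimage (continuous_id.mul continuous_const)
  have hs : CStep (F := F) (fun i => β (c i)) (fun i => τ₁ (c i)) (fun i => τ₂ (c i)) 1 ∅
      (gcell (F := F) (fun i => β (c i)) (fun i => τ₁ (c i)) (fun i => τ₂ (c i)) 1) :=
    { hw := fun _ => rfl
      open' := isOpen_empty
      opn := hopen
      left' := fun _ _ _ h => absurd h (Set.notMem_empty _)
      right' := fun _ _ _ h => absurd h (Set.notMem_empty _)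
      union := fun g => ⟨Or.inr, fun h => h.resolve_left (Set.notMem_empty _)⟩
      disj := fun _ _ => Set.notMem_empty _ }
  have hl : ∀ i j, c ((1 : Equiv.Perm κ) i) = c ((1 : Equiv.Perm κ) j) ↔ c i = c j :=
    fun _ _ => Iff.rfl
  obtain ⟨a, ⟨ha1, ha2⟩, -⟩ := fnl_step (fun i => β (c i)) c (fun i => τ₁ (c i))
    (ordD_cond c β τ₁ hτ₁) c (fun i => τ₂ (c i)) (ordD_cond c β τ₂ hτ₂)
    (twist (dh c β τ₁) (hat c ρ)) (twist (dh c β τ₂) (hat c ρ))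
    (sm_twist c β τ₁ _ (hat_smooth c ρ hρ)) 1 ∅ _ hs hl L
    ((Func_fnl c β τ₁ τ₂ hτ₁ (hat c ρ) (hat c ρ) L).1 hL) (by
      intro f hf
      rw [IndOn_empty _ _ _ (fun g => Set.notMem_empty g) f hf, map_zero])
  have ha3 := (Func_cellT c β τ₁ τ₂ hτ₁ hτ₂ (hat c ρ) (hat c ρ) 1 (fun _ => rfl) hl a).1 ha1
  have ha4 : Equi (hat c ρ) (hat c ρ) a := by
    intro m e
    have h3 := ha3 m e
    have h4 : cjR c 1 hl (hat c ρ) m = hat c ρ m := by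
      show hat c ρ (cjH c 1 hl m) = hat c ρ m
      congr 1
      apply Subtype.ext
      show permG F 1 * m.1 * (permG F 1)⁻¹ = m.1
      rw [permG_one, one_mul, inv_one, mul_one]
    rw [h4] at h3
    exact h3
  obtain ⟨ℓ, rfl⟩ := hat_end c hcs ρ hρ hi hc a ha4
  refine ⟨ℓ, fun r hr f hf => ?_⟩
  have h5 : L f = _ := ha2 f (KS_open c β τ₁ τ₂ hτ₁ hτ₂ ho (hat c ρ) r hr f hf)
  rw [h5, lam_KS c β τ₁ τ₂ hτ₁ hτ₂ (hat c ρ) (hat_smooth c ρ hρ) r hr f hf, map_smul]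
  rfl

end

end

end Pool.Agent.Lib.MP_ca1492_al.P
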