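import Mathlib
import Pool.Agent.Lib.MP_ca1492_al.D5.Lead

/-!
# MP_ca1492_al, D5, module Nop: the operator `N`

`U` = multiplication by the sum of the variables, `vdet g` = valuation of `det g`,
`(N f)(g) = U f(g) + vdet(g) f(g)` on `ISp τ (hat c ρ)`. An intertwining functional whose lead is killed
by the sum of the derivatives in the variables satisfies `L (N f) = U (L f)`.

* `psEnd_mulX`: `D p = psEnd f (X x * p) - X x * psEnd f p` commutes with the derivatives in the variables, so it is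
  `psEnd h` (`psEnd_of_pderiv`), and `h = pderiv x f` by the constant coefficients of `D (IsoPs_e β)`.
* `Nop`: `hat m U = (U + vdet m) hat m`.
* `X1_Nop`: `D f = L (N f) - U (L f)` is in `X1` and has lead `Σ_x ∂_x ℓ = 0`.
-/

set_option autoImplicit false
set_option linter.unusedSectionVars false

namespace Pool.Agent.Lib.MP_ca1492_al.P

open Topology Matrix ValuativeRel TensorProduct

noncomputable section

/-! ### power series and multiplication by a variable -/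

section

variable {ι : Type}

theorem IsoPs_X (x : ι) (β : ι →₀ ℕ) :
    (MvPolynomial.X x : MvPolynomial ι ℂ) * IsoPs_e β =
      ((β x : ℂ) + 1) • IsoPs_e (β + Finsupp.single x 1) := by
  unfold IsoPs_e
  have h1 : ((β x : ℂ) + 1) ≠ 0 := by exact_mod_cast Nat.succ_ne_zero (β x)
  rw [MvPolynomial.smul_monomial, IsoPs_fac_add, mul_comm, MvPolynomial.X,
    MvPolynomial.monomial_mul, mul_one, smul_eq_mul, mul_inv, ← mul_assoc,
    mul_inv_cancel₀ h1, one_mul]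

theorem psEnd_mulX (f : MvPowerSeries ι ℂ) (x : ι) (p : MvPolynomial ι ℂ) :
    psEnd f (MvPolynomial.X x * p) =
      MvPolynomial.X x * psEnd f p + psEnd (MvPowerSeries.pderiv ℂ x f) p := by
  classical
  let D : MvPolynomial ι ℂ →ₗ[ℂ] MvPolynomial ι ℂ :=
    psEnd f ∘ₗ LinearMap.mulLeft ℂ (MvPolynomial.X x) -
      LinearMap.mulLeft ℂ (MvPolynomial.X x) ∘ₗ psEnd f
  have hD : ∀ p, D p = psEnd f (MvPolynomial.X x * p) - MvPolynomial.X x * psEnd f p :=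
    fun p => rfl
  obtain ⟨h, hh⟩ := psEnd_of_pderiv D fun y p => by
    rw [hD, hD, map_sub, IsoPs_comm, ← IsoPs_comm f y (MvPolynomial.X x * p),
      MvPolynomial.pderiv_mul, MvPolynomial.pderiv_mul, map_add, MvPolynomial.pderiv_X]
    by_cases hxy : y = x
    · subst hxy
      rw [Pi.single_eq_same, one_mul, one_mul]
      abel
    · rw [Pi.single_eq_of_ne (fun h => hxy h.symm), zero_mul, zero_mul, map_zero]
      abel
  have h2 : h = MvPowerSeries.pderiv ℂ x f := by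
    ext β
    have e1 : MvPolynomial.constantCoeff (MvPolynomial.X x * psEnd f (IsoPs_e β)) = 0 := by
      rw [map_mul, MvPolynomial.constantCoeff_X, zero_mul]
    rw [← IsoPs_cc_psEnd h β, ← hh, hD, map_sub, e1, sub_zero, IsoPs_X, map_smul,
      MvPolynomial.smul_eq_C_mul, map_mul, MvPolynomial.constantCoeff_C, IsoPs_cc_psEnd,
      MvPowerSeries.coeff_pderiv, mul_comm]
  have h3 := hD p
  rw [hh, h2] at h3
  rw [h3]
  abel

end

variable {F : Type} [Field F] [ValuativeRel F] [TopologicalSpace F]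
  [IsNonarchimedeanLocalField F]
variable {κ : Type} [Fintype κ] [DecidableEq κ]
variable {ι ι' : Type} [Fintype ι] [DecidableEq ι]
variable {V : Type} [AddCommGroup V] [Module ℂ V]

/-! ### the valuation of the determinant -/

/-- the valuation of the determinant -/
def vdet (g : GL κ F) : ℤ := vl (fun _ : κ => ()) g ()

theorem Nop_mem (g : GL κ F) : g ∈ lev F (fun _ : κ => ()) := fun _ _ h => absurd rfl h

theorem vdet_mul (g h : GL κ F) : vdet (g * h) = vdet g + vdet h :=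
  vl_mul _ g h (Nop_mem g) (Nop_mem h) ()

theorem vdet_one : vdet (1 : GL κ F) = 0 := vl_one _ ()

theorem vdet_Kc (g : GL κ F) (hg : g ∈ Kc F κ 0) : vdet g = 0 :=
  vl_Kc _ g (Nop_mem g) hg ()

theorem vdet_uni {ι₀ : Type} (cb : κ → ι₀) (o : κ → ℤ) (g : GL κ F) (hg : g ∈ uni F cb o) :
    vdet g = 0 := by
  refine vl_uni (fun _ : κ => ()) o g ⟨⟨Nop_mem g, hg.1.2⟩, hg.2⟩ ()

theorem vdet_lev (c : κ → ι) (m : GL κ F) (hm : m ∈ lev F c) : vdet m = ∑ x, vl c m x := by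
  classical
  have h1 : vdet m = ∑ k ∈ (Finset.univ.image c).filter (fun _ => (() : Unit) = ()), bord c k m := by
    unfold vdet
    rw [← bord_eq_vl]
    have h2 := bord_coarse c (fun _ => ()) (fun _ : ι => ()) (fun _ => rfl) () m hm
    rw [h2]
    exact Finset.sum_congr (Finset.ext fun x => by simp only [Finset.mem_filter, Finset.mem_image])
      fun _ _ => rfl
  rw [h1, Finset.filter_true_of_mem fun _ _ => rfl]
  simp only [bord_eq_vl]
  refine Finset.sum_subset (Finset.subset_univ _) fun x _ hx => ?_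
  have h3 : ∀ i, c i ≠ x := fun i hi => hx (Finset.mem_image.2 ⟨i, Finset.mem_univ i, hi⟩)
  rw [← bord_eq_vl]
  unfold bord
  rw [bdk_of_not_mem c x h3, ordF_one]

/-! ### the operator -/

variable (ι) in
/-- the sum of the variables -/
def sumX : MvPolynomial ι ℂ := ∑ x : ι, MvPolynomial.X x

variable (ι V) in
/-- multiplication by the sum of the variables -/
def mulU : V ⊗[ℂ] MvPolynomial ι ℂ →ₗ[ℂ] V ⊗[ℂ] MvPolynomial ι ℂ :=
  TensorProduct.map LinearMap.id (LinearMap.mulLeft ℂ (sumX ι))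

theorem mulU_tmul (v : V) (p : MvPolynomial ι ℂ) :
    mulU ι V (v ⊗ₜ[ℂ] p) = v ⊗ₜ[ℂ] (sumX ι * p) := rfl

theorem opE_tmul (f : MvPowerSeries ι ℂ) (v : V) (p : MvPolynomial ι ℂ) :
    opE V f (v ⊗ₜ[ℂ] p) = v ⊗ₜ[ℂ] psEnd f p := rfl

theorem hat_tmul (c : κ → ι) (ρ : Representation ℂ (lev F c) V) (m : lev F c) (v : V)
    (p : MvPolynomial ι ℂ) : hat c ρ m (v ⊗ₜ[ℂ] p) = ρ m v ⊗ₜ[ℂ] shiftP (vl c m.1) p := rfl

/-- the sum of the derivatives in the variables -/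
def sder (f : MvPowerSeries ι ℂ) : MvPowerSeries ι ℂ := ∑ x, MvPowerSeries.pderiv ℂ x f

theorem psEnd_zero (p : MvPolynomial ι ℂ) : psEnd (0 : MvPowerSeries ι ℂ) p = 0 := by
  have h := psEnd_smul (0 : ℂ) (0 : MvPowerSeries ι ℂ)
  rw [zero_smul, zero_smul] at h
  rw [h]
  rfl

theorem psEnd_sumX (f : MvPowerSeries ι ℂ) (p : MvPolynomial ι ℂ) :
    psEnd f (sumX ι * p) = sumX ι * psEnd f p + psEnd (sder f) p := by
  have h1 : ∀ s : Finset ι, psEnd f ((∑ x ∈ s, MvPolynomial.X x) * p) =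
      (∑ x ∈ s, MvPolynomial.X x) * psEnd f p +
        psEnd (∑ x ∈ s, MvPowerSeries.pderiv ℂ x f) p := by
    intro s
    induction s using Finset.induction_on with
    | empty =>
      rw [Finset.sum_empty, Finset.sum_empty, zero_mul, zero_mul, map_zero, psEnd_zero, add_zero]
    | insert a s ha ih =>
      rw [Finset.sum_insert ha, Finset.sum_insert ha, add_mul, map_add, ih, psEnd_mulX,
        psEnd_add, LinearMap.add_apply]
      ring
  exact h1 Finset.univ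

theorem opE_mulU (f : MvPowerSeries ι ℂ) (e : V ⊗[ℂ] MvPolynomial ι ℂ) :
    opE V f (mulU ι V e) = mulU ι V (opE V f e) + opE V (sder f) e := by
  induction e using TensorProduct.induction_on with
  | zero => simp
  | add a b ha hb =>
    rw [map_add, map_add, ha, hb, map_add, map_add, map_add]
    abel
  | tmul v p =>
    rw [mulU_tmul, opE_tmul, opE_tmul, opE_tmul, mulU_tmul, psEnd_sumX, TensorProduct.tmul_add]

theorem shiftP_sumX (v : ι → ℤ) (p : MvPolynomial ι ℂ) :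
    shiftP v (sumX ι * p) = sumX ι * shiftP v p + ((∑ x, v x : ℤ) : ℂ) • shiftP v p := by
  have h3 : ∀ x : ι, shiftP v (MvPolynomial.X x) =
      MvPolynomial.X x + MvPolynomial.C (v x : ℂ) := by
    intro x
    have h := PolInj2_shift_mul v 1 x
    rw [one_mul] at h
    have h4 := PolInj2_shift_C v 1
    rw [map_one] at h4
    rw [h, h4, one_mul]
  have h5 : shiftP v (sumX ι) = sumX ι + MvPolynomial.C ((∑ x, v x : ℤ) : ℂ) := by
    unfold sumX
    rw [map_sum, Finset.sum_congr rfl fun x _ => h3 x, Finset.sum_add_distrib, ← map_sum]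
    congr 2
    push_cast
    rfl
  rw [IsoPs2_mul, h5, add_mul, MvPolynomial.smul_eq_C_mul]

theorem hat_mulU (c : κ → ι) (ρ : Representation ℂ (lev F c) V) (m : lev F c)
    (e : V ⊗[ℂ] MvPolynomial ι ℂ) :
    hat c ρ m (mulU ι V e) = mulU ι V (hat c ρ m e) + (vdet m.1 : ℂ) • hat c ρ m e := by
  induction e using TensorProduct.induction_on with
  | zero => simp
  | add a b ha hb =>
    rw [map_add, map_add, ha, hb, map_add, map_add, smul_add]
    abel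
  | tmul v p =>
    rw [mulU_tmul, hat_tmul, hat_tmul, mulU_tmul, shiftP_sumX, vdet_lev c m.1 m.2,
      TensorProduct.tmul_add, TensorProduct.tmul_smul]

section

variable (c : κ → ι) (β : ι → ι') (τ : ι → ℤ) (hτ : Function.Injective τ)
  (ρ : Representation ℂ (lev F c) V)

/-- the operator `N` -/
def Nop : ISp c β τ hτ (hat c ρ) →ₗ[ℂ] ISp c β τ hτ (hat c ρ) where
  toFun f := ⟨fun g => mulU ι V (f.1 g) + (vdet g.1 : ℂ) • f.1 g, by
    obtain ⟨h1, U, hU, h2⟩ := (mem_ISp c β τ hτ (hat c ρ) f.1).1 f.2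
    refine (mem_ISp c β τ hτ (hat c ρ) _).2 ⟨fun m hm n hn g => ?_,
      U ⊓ (Kc F κ 0).subgroupOf (lev F (fun i => β (c i))), ?_, fun g u hu => ?_⟩
    · have h3 : vdet ((⟨m, (ordD (F := F) c β τ hτ).hM hm⟩ *
          ⟨n, (ordD (F := F) c β τ hτ).hN hn⟩ * g : lev F (fun i => β (c i))) : GL κ F) =
          vdet m + vdet g.1 := by
        show vdet (m * n * g.1) = _
        rw [vdet_mul, vdet_mul, vdet_uni _ _ n hn, add_zero]
      rw [h3, h1 m hm n hn g, map_smul, map_add, hat_mulU, map_smul, Int.cast_add, add_smul,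
        smul_add, smul_add, smul_comm (dh c β τ ⟨m, hm⟩ : ℂ) (vdet g.1 : ℂ),
        smul_comm (dh c β τ ⟨m, hm⟩ : ℂ) (vdet (⟨m, hm⟩ : lev F c).1 : ℂ)]
      abel
    · exact hU.inter ((Kc_isOpen (F := F) (κ := κ) 0).preimage continuous_subtype_val)
    · have h3 : vdet ((g * u : lev F (fun i => β (c i))) : GL κ F) = vdet g.1 := by
        show vdet (g.1 * u.1) = _
        rw [vdet_mul, vdet_Kc u.1 hu.2, add_zero]
      rw [h3, h2 g u hu.1]⟩
  map_add' f f' := Subtype.ext (funext fun g => by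
    show mulU ι V (f.1 g + f'.1 g) + (vdet g.1 : ℂ) • (f.1 g + f'.1 g) =
      (mulU ι V (f.1 g) + (vdet g.1 : ℂ) • f.1 g) + (mulU ι V (f'.1 g) + (vdet g.1 : ℂ) • f'.1 g)
    rw [map_add, smul_add]
    abel)
  map_smul' z f := Subtype.ext (funext fun g => by
    show mulU ι V (z • f.1 g) + (vdet g.1 : ℂ) • (z • f.1 g) =
      z • (mulU ι V (f.1 g) + (vdet g.1 : ℂ) • f.1 g)
    rw [map_smul, smul_add, smul_comm (vdet g.1 : ℂ) z])

theorem Nop_val (f : ISp c β τ hτ (hat c ρ)) (g : lev F (fun i => β (c i))) :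
    (Nop c β τ hτ ρ f).1 g = mulU ι V (f.1 g) + (vdet g.1 : ℂ) • f.1 g := rfl

theorem Nop_one (f : ISp c β τ hτ (hat c ρ)) :
    (Nop c β τ hτ ρ f).1 1 = mulU ι V (f.1 1) := by
  have h1 : vdet ((1 : lev F (fun i => β (c i))) : GL κ F) = 0 := vdet_one
  rw [Nop_val, h1, Int.cast_zero, zero_smul, add_zero]

theorem Nop_IRp (g : lev F (fun i => β (c i))) (f : ISp c β τ hτ (hat c ρ)) :
    Nop c β τ hτ ρ (IRp c β τ hτ (hat c ρ) g f) =
      IRp c β τ hτ (hat c ρ) g (Nop c β τ hτ ρ f) -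
        (vdet g.1 : ℂ) • IRp c β τ hτ (hat c ρ) g f := by
  refine Subtype.ext (funext fun x => ?_)
  have h1 : vdet ((x * g : lev F (fun i => β (c i))) : GL κ F) = vdet x.1 + vdet g.1 :=
    vdet_mul x.1 g.1
  show mulU ι V (f.1 (x * g)) + (vdet x.1 : ℂ) • f.1 (x * g) =
    (mulU ι V (f.1 (x * g)) + (vdet ((x * g : lev F (fun i => β (c i))) : GL κ F) : ℂ) •
      f.1 (x * g)) - (vdet g.1 : ℂ) • f.1 (x * g)
  rw [h1, Int.cast_add, add_smul]
  abel

theorem Nop_opI (y : MvPowerSeries ι ℂ) (f : ISp c β τ hτ (hat c ρ)) :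
    opI c β τ hτ ρ y (Nop c β τ hτ ρ f) =
      Nop c β τ hτ ρ (opI c β τ hτ ρ y f) + opI c β τ hτ ρ (sder y) f := by
  refine Subtype.ext (funext fun g => ?_)
  show opE V y (mulU ι V (f.1 g) + (vdet g.1 : ℂ) • f.1 g) =
    (mulU ι V (opE V y (f.1 g)) + (vdet g.1 : ℂ) • opE V y (f.1 g)) + opE V (sder y) (f.1 g)
  rw [map_add, map_smul, opE_mulU]
  abel

theorem KS_Nop (r : ℕ) (hr : Kc F κ r ≤ Kc F κ 0) (f : ISp c β τ hτ (hat c ρ))
    (hf : KS c β τ r f.1) : KS c β τ r (Nop c β τ hτ ρ f).1 := by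
  refine ⟨fun g k hk => ?_, fun g hg => hf.2 g fun h => hg ?_⟩
  · have h1 : vdet ((g * k : lev F (fun i => β (c i))) : GL κ F) = vdet g.1 := by
      show vdet (g.1 * k.1) = _
      rw [vdet_mul, vdet_Kc k.1 (hr hk), add_zero]
    rw [Nop_val, Nop_val, h1, hf.1 g k hk]
  · rw [Nop_val, h, map_zero, smul_zero, add_zero]

theorem KS_opI (y : MvPowerSeries ι ℂ) (r : ℕ) (f : ISp c β τ hτ (hat c ρ))
    (hf : KS c β τ r f.1) : KS c β τ r (opI c β τ hτ ρ y f).1 :=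
  KS_map c β τ r f.1 hf (opE V y)

end

section

variable (c : κ → ι) (hcs : Function.Surjective c) (β : ι → ι') (τ₁ τ₂ : ι → ℤ)
  (hτ₁ : Function.Injective τ₁) (hτ₂ : Function.Injective τ₂)
  (ρ : Representation ℂ (lev F c) V) (hρ : IsSm ρ) (hi : Irr ρ) (hc : Cusp c ρ)

theorem opE_zero (e : V ⊗[ℂ] MvPolynomial ι ℂ) : opE V (0 : MvPowerSeries ι ℂ) e = 0 := by
  induction e using TensorProduct.induction_on with
  | zero => simp
  | add a b ha hb => rw [map_add, ha, hb, add_zero]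
  | tmul v p => rw [opE_tmul, psEnd_zero, TensorProduct.tmul_zero]

/-- the difference `L N - U L` -/
def Ndif (L : ISp c β τ₁ hτ₁ (hat c ρ) →ₗ[ℂ] V ⊗[ℂ] MvPolynomial ι ℂ) :
    ISp c β τ₁ hτ₁ (hat c ρ) →ₗ[ℂ] V ⊗[ℂ] MvPolynomial ι ℂ :=
  L ∘ₗ Nop c β τ₁ hτ₁ ρ - mulU ι V ∘ₗ L

theorem Ndif_apply (L : ISp c β τ₁ hτ₁ (hat c ρ) →ₗ[ℂ] V ⊗[ℂ] MvPolynomial ι ℂ)
    (f : ISp c β τ₁ hτ₁ (hat c ρ)) :
    Ndif c β τ₁ hτ₁ ρ L f = L (Nop c β τ₁ hτ₁ ρ f) - mulU ι V (L f) := rfl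

theorem Ndif_FS (L : ISp c β τ₁ hτ₁ (hat c ρ) →ₗ[ℂ] V ⊗[ℂ] MvPolynomial ι ℂ)
    (hL : L ∈ FS c β τ₁ hτ₁ τ₂ (hat c ρ) (hat c ρ)) :
    Ndif c β τ₁ hτ₁ ρ L ∈ FS c β τ₁ hτ₁ τ₂ (hat c ρ) (hat c ρ) := by
  refine ⟨fun n hn f => ?_, fun m hm hm' f => ?_⟩
  · rw [Ndif_apply, Nop_IRp, map_sub, hL.1 n hn, map_smul, vdet_uni _ _ n.1 hn, Int.cast_zero,
      zero_smul, sub_zero, hL.1 n hn, Ndif_apply]
  · have h1 := hat_mulU c ρ ⟨m, hm⟩ (L f)
    have h2 : mulU ι V (hat c ρ ⟨m, hm⟩ (L f)) =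
        hat c ρ ⟨m, hm⟩ (mulU ι V (L f)) - (vdet m : ℂ) • hat c ρ ⟨m, hm⟩ (L f) :=
      eq_sub_of_add_eq h1.symm
    rw [Ndif_apply, Nop_IRp, map_sub, hL.2 m hm hm', map_smul, hL.2 m hm hm', map_smul, h2,
      Ndif_apply, map_sub, smul_sub, smul_sub, smul_comm (dh c β τ₂ ⟨m, hm⟩ : ℂ) (vdet m : ℂ)]
    abel

theorem Ndif_X1 (L : ISp c β τ₁ hτ₁ (hat c ρ) →ₗ[ℂ] V ⊗[ℂ] MvPolynomial ι ℂ)
    (hL : L ∈ X1 c β τ₁ hτ₁ τ₂ ρ) : Ndif c β τ₁ hτ₁ ρ L ∈ X1 c β τ₁ hτ₁ τ₂ ρ := by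
  refine ⟨Ndif_FS c β τ₁ τ₂ hτ₁ ρ L hL.1, fun y f => ?_⟩
  have h1 : Nop c β τ₁ hτ₁ ρ (opI c β τ₁ hτ₁ ρ y f) =
      opI c β τ₁ hτ₁ ρ y (Nop c β τ₁ hτ₁ ρ f) - opI c β τ₁ hτ₁ ρ (sder y) f :=
    eq_sub_of_add_eq (Nop_opI c β τ₁ hτ₁ ρ y f).symm
  have h2 : mulU ι V (opE V y (L f)) = opE V y (mulU ι V (L f)) - opE V (sder y) (L f) :=
    eq_sub_of_add_eq (opE_mulU y (L f)).symm
  rw [Ndif_apply, h1, map_sub, hL.2, hL.2, hL.2, h2, Ndif_apply, map_sub]
  abel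

include hcs hτ₂ hρ hi hc in
theorem X1_Nop (L : ISp c β τ₁ hτ₁ (hat c ρ) →ₗ[ℂ] V ⊗[ℂ] MvPolynomial ι ℂ)
    (hL : L ∈ X1 c β τ₁ hτ₁ τ₂ ρ) (ℓ : MvPowerSeries ι ℂ)
    (hℓ : IsLead c β τ₁ hτ₁ τ₂ ρ L ℓ) (h0 : sder ℓ = 0) (f : ISp c β τ₁ hτ₁ (hat c ρ)) :
    L (Nop c β τ₁ hτ₁ ρ f) = mulU ι V (L f) := by
  have h1 : Ndif c β τ₁ hτ₁ ρ L = 0 := by
    refine X1_ext c hcs β τ₁ τ₂ hτ₁ hτ₂ ρ hρ hi hc _ 0 (Ndif_X1 c β τ₁ τ₂ hτ₁ ρ L hL)
      (Submodule.zero_mem _) 0 ?_ ⟨0, fun r _ f _ => ?_⟩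
    · obtain ⟨r₀, h2⟩ := hℓ
      refine ⟨r₀, fun r hr f hf => ?_⟩
      rw [Ndif_apply, h2 r hr _ (KS_Nop c β τ₁ hτ₁ ρ r (Kc_anti (Nat.zero_le r)) f hf),
        h2 r hr f hf, Nop_one, map_smul, opE_mulU, h0, opE_zero, add_zero, sub_self,
        smul_zero]
    · rw [LinearMap.zero_apply, opE_zero, smul_zero]
  have h2 := LinearMap.congr_fun h1 f
  rw [Ndif_apply, LinearMap.zero_apply] at h2
  exact sub_eq_zero.1 h2

/-- if `y` commutes with `U` then it is killed by the sum of the derivatives in the variables -/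
theorem sder_of_comm (hV : ∃ v : V, v ≠ 0) (y : MvPowerSeries ι ℂ)
    (h : ∀ e : V ⊗[ℂ] MvPolynomial ι ℂ, opE V y (mulU ι V e) = mulU ι V (opE V y e)) :
    sder y = 0 := by
  refine opE_inj hV (sder y) 0 fun e => ?_
  have h1 := opE_mulU y e
  rw [h e] at h1
  rw [opE_zero]
  exact (left_eq_add.1 h1)

end

end

end Pool.Agent.Lib.MP_ca1492_al.P
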