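import Mathlib
import Pool.Agent.Lib.MP_ca1492_al.D5.Tst

/-!
# MP_ca1492_al, D5, module UpA: merging of two blocks, combinatorics

`mrg a b` merges the blocks `a` and `b` (`b ↦ a`); `c' = mrg a b ∘ c`, `lev F c' = M_ab`.
`AdjS β τ a b`: `a ≠ b` in the same `β`-class, and no block of this class between them for the order `τ` (the
relative order of `a` and `b` is arbitrary).

* `vl_mrg`: `vl c' m x = Σ_{mrg y = x} vl c m y` for `m ∈ lev F c`: for `x = a` the submatrix of the indices
  with `c i ∈ {a, b}` is block diagonal (`Matrix.twoBlockTriangular_det` or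
  `Matrix.BlockTriangular.det`), for `x = b` the block is empty, for the other `x` it is the same block.
* `nb_mrg`: clear.
* `ex_split`: `ex c' β τ m = Σ_{x,y} [β x = β y, τ (mrg x) < τ (mrg y)] (n_y v_x - n_x v_y)` by
  `vl_mrg`, `nb_mrg` (expand both sums over the fibres of `mrg`; `β (mrg x) = β x`), and
  `[β x = β y, τ x < τ y] = [β x = β y, τ (mrg x) < τ (mrg y)] + [mrg x = mrg y, τ x < τ y]` by
  adjacency (the cases `x, y ∈ {a, b}`, one of them in `{a, b}`, none).
* `chi_swap`: `ex c' β τ = ex c' β (τ ∘ swap a b)`: only blocks `x ≠ b` have `nb c' x ≠ 0` or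
  `vl c' m x ≠ 0` (`vl_mrg_b`), and on these the two orders agree by adjacency.
* `npair_up`: the pairs `(i, j)` with `β (c i) = β (c j)`, `τ₂ (c i) < τ₂ (c j)`, `τ (c j) < τ (c i)`: only `c i = b`,
  `c j = a` if `τ a < τ b` (or the other way round).
-/

set_option autoImplicit false

namespace Pool.Agent.Lib.MP_ca1492_al.D5

open Pool.Agent.Lib.MP_ca1492_al.P
open Topology Matrix ValuativeRel TensorProduct

noncomputable section

variable {F : Type} [Field F] [ValuativeRel F] [TopologicalSpace F]
  [IsNonarchimedeanLocalField F]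
variable {κ : Type} [Fintype κ] [DecidableEq κ]
variable {ι ι' : Type} [Fintype ι] [DecidableEq ι]

/-- the merging of all blocks -/
abbrev cst {ι : Type} : ι → Unit := fun _ => ()

/-- merging of the blocks `a` and `b` -/
def mrg (a b : ι) : ι → ι := fun x => if x = b then a else x

/-- `a` and `b` are neighbours for the order `τ` (in any order) -/
structure AdjS (β : ι → ι') (τ : ι → ℤ) (a b : ι) : Prop where
  hβ : β a = β b
  ne : a ≠ b
  adj : ∀ x, β x = β a → x ≠ a → x ≠ b → (τ x < τ a ∧ τ x < τ b ∨ τ a < τ x ∧ τ b < τ x)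

/-- the order after the exchange of `a` and `b` -/
def swO (τ : ι → ℤ) (a b : ι) : ι → ℤ := fun x => τ (Equiv.swap a b x)

theorem swO_inj (τ : ι → ℤ) (hτ : Function.Injective τ) (a b : ι) :
    Function.Injective (swO τ a b) := fun _ _ h => (Equiv.swap a b).injective (hτ h)

theorem AdjS.symm {β : ι → ι'} {τ : ι → ℤ} {a b : ι} (h : AdjS β τ a b) : AdjS β τ b a :=
  ⟨h.hβ.symm, h.ne.symm, fun x hx h1 h2 => by
    have := h.adj x (hx.trans h.hβ.symm) h2 h1
    tauto⟩

theorem AdjS.sw {β : ι → ι'} {τ : ι → ℤ} {a b : ι} (h : AdjS β τ a b) :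
    AdjS β (swO τ a b) a b :=
  ⟨h.hβ, h.ne, fun x hx h1 h2 => by
    have := h.adj x hx h1 h2
    unfold swO
    rw [Equiv.swap_apply_left, Equiv.swap_apply_right, Equiv.swap_apply_of_ne_of_ne h1 h2]
    tauto⟩

theorem AdjS.mrg {β : ι → ι'} {τ : ι → ℤ} {a b : ι} (h : AdjS β τ a b) :
    AdjS (mrg a b) τ a b := by
  refine ⟨?_, h.ne, fun x hx h1 h2 => ?_⟩
  · unfold D5.mrg
    rw [if_neg h.ne, if_pos rfl]
  · unfold D5.mrg at hx
    rw [if_neg h2, if_neg h.ne] at hx
    exact absurd hx h1

theorem beta_mrg (β : ι → ι') (a b : ι) (h : β a = β b) (x : ι) : β (mrg a b x) = β x := by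
  unfold D5.mrg
  split_ifs with hx
  · rw [hx, h]
  · rfl

theorem mrg_le (c : κ → ι) (β : ι → ι') (a b : ι) (h : β a = β b) (m : GL κ F)
    (hm : m ∈ lev F (fun i => mrg a b (c i))) : m ∈ lev F (fun i => β (c i)) := by
  intro i j hij
  refine hm i j (fun h' => hij ?_)
  have h1 : β (D5.mrg a b (c i)) = β (D5.mrg a b (c j)) := congrArg β h'
  rwa [beta_mrg β a b h, beta_mrg β a b h] at h1

/-- the inclusion of `M_ab` -/
def incM (c : κ → ι) (β : ι → ι') (a b : ι) (h : β a = β b) :
    lev F (fun i => mrg a b (c i)) →* lev F (fun i => β (c i)) :=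
  Subgroup.inclusion (fun m hm => mrg_le c β a b h m hm)

theorem UpA_ne (a b : ι) (hab : a ≠ b) (y : ι) : mrg a b y ≠ b := by
  unfold D5.mrg
  split_ifs with h
  · exact hab
  · exact h

theorem UpA_eq_a (a b : ι) (y : ι) : mrg a b y = a ↔ y = a ∨ y = b := by
  unfold D5.mrg
  split_ifs with h
  · simp [h]
  · simp [h]

theorem UpA_eq (a b : ι) (x : ι) (ha : x ≠ a) (hb : x ≠ b) (y : ι) :
    mrg a b y = x ↔ y = x := by
  unfold D5.mrg
  split_ifs with h
  · constructor
    · intro h'
      exact absurd h'.symm ha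
    · intro h'
      exact absurd (h'.symm.trans h) hb
  · exact Iff.rfl

/-- the block determinant only depends on the set of indices -/
theorem UpA_bdet {ι₁ ι₂ : Type} [DecidableEq ι₁] [DecidableEq ι₂] (c₁ : κ → ι₁) (c₂ : κ → ι₂)
    (x₁ : ι₁) (x₂ : ι₂) (h : ∀ i, c₁ i = x₁ ↔ c₂ i = x₂) (g : Matrix κ κ F) :
    bdet c₁ x₁ g = bdet c₂ x₂ g := by
  unfold bdet
  rw [← Matrix.det_submatrix_equiv_self (Equiv.subtypeEquivRight h)
    (g.submatrix (Subtype.val : {i // c₂ i = x₂} → κ) Subtype.val), Matrix.submatrix_submatrix]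
  rfl

/-- an empty block -/
theorem UpA_bdet_empty {ι₁ : Type} [DecidableEq ι₁] (c₁ : κ → ι₁)
    (x₁ : ι₁) (h : ∀ i, c₁ i ≠ x₁) (g : Matrix κ κ F) : bdet c₁ x₁ g = 1 := by
  unfold bdet
  haveI : IsEmpty {i // c₁ i = x₁} := ⟨fun i => h i.1 i.2⟩
  exact Matrix.det_isEmpty

/-- two blocks -/
theorem UpA_bdet_two (c : κ → ι) (a b : ι) (hab : a ≠ b) (m : GL κ F) (hm : m ∈ lev F c) :
    bdet (fun i => mrg a b (c i)) a (m : Matrix κ κ F) =
      bdet c a (m : Matrix κ κ F) * bdet c b (m : Matrix κ κ F) := by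
  unfold bdet
  set M : Matrix {i // mrg a b (c i) = a} {i // mrg a b (c i) = a} F :=
    (m : Matrix κ κ F).submatrix (Subtype.val : {i // mrg a b (c i) = a} → κ) Subtype.val with hM
  rw [Matrix.twoBlockTriangular_det M (fun i => c i.1 = a)]
  · congr 1
    · let e : {i : {i // mrg a b (c i) = a} // c i.1 = a} ≃ {i // c i = a} :=
        { toFun := fun i => ⟨i.1.1, i.2⟩
          invFun := fun i => ⟨⟨i.1, (UpA_eq_a a b _).2 (Or.inl i.2)⟩, i.2⟩
          left_inv := fun i => rfl
          right_inv := fun i => rfl }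
      rw [← Matrix.det_submatrix_equiv_self e
        ((m : Matrix κ κ F).submatrix (Subtype.val : {i // c i = a} → κ) Subtype.val)]
      rfl
    · let e : {i : {i // mrg a b (c i) = a} // ¬ c i.1 = a} ≃ {i // c i = b} :=
        { toFun := fun i => ⟨i.1.1, ((UpA_eq_a a b _).1 i.1.2).resolve_left i.2⟩
          invFun := fun i => ⟨⟨i.1, (UpA_eq_a a b _).2 (Or.inr i.2)⟩,
            fun h => hab (h.symm.trans i.2)⟩
          left_inv := fun i => rfl
          right_inv := fun i => rfl }
      rw [← Matrix.det_submatrix_equiv_self e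
        ((m : Matrix κ κ F).submatrix (Subtype.val : {i // c i = b} → κ) Subtype.val)]
      rfl
  · intro i hi j hj
    exact hm i.1 j.1 fun h => hi (h.trans hj)

theorem vl_mrg (c : κ → ι) (a b : ι) (hab : a ≠ b) (m : GL κ F) (hm : m ∈ lev F c) (x : ι) :
    vl (fun i => mrg a b (c i)) m x =
      if x = b then 0 else if x = a then vl c m a + vl c m b else vl c m x := by
  unfold vl
  split_ifs with hb ha
  · rw [UpA_bdet_empty _ _ (fun i => hb ▸ UpA_ne a b hab (c i)), ordF_one]
  · rw [ha, UpA_bdet_two c a b hab m hm,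
      ordF_mul _ _ (bdet_ne_zero c a m hm) (bdet_ne_zero c b m hm)]
  · rw [UpA_bdet (fun i => mrg a b (c i)) c x x (fun i => UpA_eq a b x ha hb (c i))]

theorem nb_mrg (c : κ → ι) (a b : ι) (hab : a ≠ b) (x : ι) :
    nb (fun i => mrg a b (c i)) x =
      if x = b then 0 else if x = a then nb c a + nb c b else nb c x := by
  unfold nb
  split_ifs with hb ha
  · rw [Finset.filter_false_of_mem (fun i _ => hb ▸ UpA_ne a b hab (c i)), Finset.card_empty]
    rfl
  · rw [ha, ← Nat.cast_add, ← Finset.card_union_of_disjoint]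
    · congr 2
      ext i
      rw [Finset.mem_union, Finset.mem_filter, Finset.mem_filter, Finset.mem_filter, UpA_eq_a]
      simp
    · rw [Finset.disjoint_filter]
      intro i _ h1 h2
      exact hab (h1.symm.trans h2)
  · congr 2
    ext i
    rw [Finset.mem_filter, Finset.mem_filter, UpA_eq a b x ha hb]

/-- the block `b` is empty after the merging -/
theorem vl_mrg_b (c : κ → ι) (a b : ι) (hab : a ≠ b) (m : GL κ F) :
    vl (fun i => mrg a b (c i)) m b = 0 := by
  unfold vl
  rw [UpA_bdet_empty _ _ (fun i => UpA_ne a b hab (c i)), ordF_one]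

theorem UpA_nb_b (c : κ → ι) (a b : ι) (hab : a ≠ b) :
    nb (fun i => mrg a b (c i)) b = 0 := by
  rw [nb_mrg c a b hab, if_pos rfl]

/-- sums over the fibres of `mrg` -/
theorem UpA_push (a b : ι) (hab : a ≠ b) (v v' : ι → ℤ)
    (hv : ∀ x, v' x = if x = b then 0 else if x = a then v a + v b else v x) (G : ι → ℤ) :
    ∑ x, G x * v' x = ∑ x, G (mrg a b x) * v x := by
  have h1 : ∀ f : ι → ℤ, ∑ x, f x = f a + (f b + ∑ x ∈ (Finset.univ.erase a).erase b, f x) := by
    intro f
    rw [Finset.add_sum_erase _ _ (Finset.mem_erase.2 ⟨hab.symm, Finset.mem_univ b⟩),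
      Finset.add_sum_erase _ _ (Finset.mem_univ a)]
  rw [h1, h1 (fun x => G (mrg a b x) * v x)]
  have h2 : ∑ x ∈ (Finset.univ.erase a).erase b, G x * v' x =
      ∑ x ∈ (Finset.univ.erase a).erase b, G (mrg a b x) * v x := by
    refine Finset.sum_congr rfl fun x hx => ?_
    rw [Finset.mem_erase, Finset.mem_erase] at hx
    rw [hv x, if_neg hx.1, if_neg hx.2.1]
    unfold D5.mrg
    rw [if_neg hx.1]
  rw [h2, hv a, hv b, if_neg hab, if_pos rfl, if_pos rfl]
  unfold D5.mrg
  rw [if_neg hab, if_pos rfl]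
  ring

/-- the orders of `mrg x`, `mrg y` and `x`, `y` agree -/
theorem AdjS.lt_iff {β : ι → ι'} {τ : ι → ℤ} {a b : ι} (h : AdjS β τ a b) (x y : ι)
    (hβ : β x = β y) (hne : D5.mrg a b x ≠ D5.mrg a b y) :
    τ x < τ y ↔ τ (D5.mrg a b x) < τ (D5.mrg a b y) := by
  unfold D5.mrg at *
  by_cases hx : x = b
  · by_cases hy : y = b
    · rw [if_pos hx, if_pos hy] at hne
      exact absurd rfl hne
    · rw [if_pos hx, if_neg hy] at hne ⊢
      have := h.adj y (by rw [← hβ, hx, h.hβ]) hne.symm hy
      rw [hx]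
      omega
  · by_cases hy : y = b
    · rw [if_neg hx, if_pos hy] at hne ⊢
      have := h.adj x (by rw [hβ, hy, h.hβ]) hne hx
      rw [hy]
      omega
    · rw [if_neg hx, if_neg hy]

theorem ex_split (c : κ → ι) (β : ι → ι') (τ : ι → ℤ) (a b : ι) (h : AdjS β τ a b)
    (m : GL κ F) (hm : m ∈ lev F c) :
    ex c β τ m = ex c (mrg a b) τ m + ex (fun i => mrg a b (c i)) β τ m := by
  classical
  have hN : ∀ x, nb (fun i => mrg a b (c i)) x =
      if x = b then 0 else if x = a then nb c a + nb c b else nb c x := nb_mrg c a b h.ne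
  have hV : ∀ x, vl (fun i => mrg a b (c i)) m x =
      if x = b then 0 else if x = a then vl c m a + vl c m b else vl c m x :=
    vl_mrg c a b h.ne m hm
  -- the last sum
  have h1 : ex (fun i => mrg a b (c i)) β τ m =
      ∑ x, ∑ y, if β x = β y ∧ τ (mrg a b x) < τ (mrg a b y) then
        nb c y * vl c m x - nb c x * vl c m y else 0 := by
    set χ : ι → ι → ℤ := fun x y => if β x = β y ∧ τ x < τ y then 1 else 0 with hχ
    have h2 : ex (fun i => mrg a b (c i)) β τ m =
        (∑ x, (∑ y, χ x y * nb (fun i => mrg a b (c i)) y) * vl (fun i => mrg a b (c i)) m x) -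
        ∑ x, (∑ y, χ x y * vl (fun i => mrg a b (c i)) m y) * nb (fun i => mrg a b (c i)) x := by
      unfold ex
      rw [← Finset.sum_sub_distrib]
      refine Finset.sum_congr rfl fun x _ => ?_
      rw [Finset.sum_mul, Finset.sum_mul, ← Finset.sum_sub_distrib]
      refine Finset.sum_congr rfl fun y _ => ?_
      rw [hχ]
      simp only
      split_ifs <;> ring
    rw [h2, UpA_push a b h.ne (vl c m) _ hV (fun x => ∑ y, χ x y * nb (fun i => mrg a b (c i)) y),
      UpA_push a b h.ne (nb c) _ hN (fun x => ∑ y, χ x y * vl (fun i => mrg a b (c i)) m y),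
      ← Finset.sum_sub_distrib]
    refine Finset.sum_congr rfl fun x _ => ?_
    rw [UpA_push a b h.ne (nb c) _ hN, UpA_push a b h.ne (vl c m) _ hV, Finset.sum_mul,
      Finset.sum_mul, ← Finset.sum_sub_distrib]
    refine Finset.sum_congr rfl fun y _ => ?_
    rw [hχ]
    simp only
    rw [beta_mrg β a b h.hβ, beta_mrg β a b h.hβ]
    split_ifs <;> ring
  rw [h1]
  unfold ex
  rw [← Finset.sum_add_distrib]
  refine Finset.sum_congr rfl fun x _ => ?_
  rw [← Finset.sum_add_distrib]
  refine Finset.sum_congr rfl fun y _ => ?_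
  by_cases hxy : D5.mrg a b x = D5.mrg a b y
  · have h3 : β x = β y := by
      rw [← beta_mrg β a b h.hβ x, hxy, beta_mrg β a b h.hβ]
    rw [hxy]
    simp [h3]
  · by_cases h3 : β x = β y
    · have h4 := h.lt_iff x y h3 hxy
      simp only [h3, hxy, h4, false_and, if_false, zero_add, true_and]
    · simp [h3, hxy]

theorem AdjS.swO_iff {β : ι → ι'} {τ : ι → ℤ} {a b : ι} (h : AdjS β τ a b) (x y : ι)
    (hβ : β x = β y) (hx : x ≠ b) (hy : y ≠ b) : swO τ a b x < swO τ a b y ↔ τ x < τ y := by
  unfold swO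
  by_cases hxa : x = a
  · by_cases hya : y = a
    · rw [hxa, hya]
      simp
    · rw [hxa, Equiv.swap_apply_left, Equiv.swap_apply_of_ne_of_ne hya hy]
      have := h.adj y (by rw [← hβ, hxa]) hya hy
      omega
  · rw [Equiv.swap_apply_of_ne_of_ne hxa hx]
    by_cases hya : y = a
    · rw [hya, Equiv.swap_apply_left]
      have := h.adj x (by rw [hβ, hya]) hxa hx
      omega
    · rw [Equiv.swap_apply_of_ne_of_ne hya hy]

theorem chi_swap (c : κ → ι) (β : ι → ι') (τ : ι → ℤ) (a b : ι) (h : AdjS β τ a b)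
    (m : GL κ F) :
    ex (fun i => mrg a b (c i)) β (swO τ a b) m = ex (fun i => mrg a b (c i)) β τ m := by
  classical
  unfold ex
  refine Finset.sum_congr rfl fun x _ => Finset.sum_congr rfl fun y _ => ?_
  by_cases hx : x = b
  · rw [hx, vl_mrg_b c a b h.ne, UpA_nb_b c a b h.ne]
    simp
  · by_cases hy : y = b
    · rw [hy, vl_mrg_b c a b h.ne, UpA_nb_b c a b h.ne]
      simp
    · by_cases h3 : β x = β y
      · simp only [h3, true_and, h.swO_iff x y h3 hx hy]
      · simp [h3]

theorem npair_up (c : κ → ι) (β : ι → ι') (τ : ι → ℤ) (hτ : Function.Injective τ) (a b : ι)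
    (h : AdjS β τ a b) :
    (npair c β τ (swO τ a b) : ℤ) = nb c a * nb c b := by
  classical
  -- the pairs of blocks
  have key : ∀ {a b : ι} (h : AdjS β τ a b), τ a < τ b → ∀ x y : ι,
      (β x = β y ∧ swO τ a b x < swO τ a b y ∧ τ y < τ x) ↔ x = b ∧ y = a := by
    intro a b h hlt x y
    constructor
    · rintro ⟨h1, h2, h3⟩
      unfold swO at h2
      by_cases hxb : x = b
      · refine ⟨hxb, ?_⟩
        by_contra hya
        by_cases hyb : y = b
        · rw [hxb, hyb] at h3
          exact lt_irrefl _ h3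
        · rw [hxb, Equiv.swap_apply_right, Equiv.swap_apply_of_ne_of_ne hya hyb] at h2
          have := h.adj y (by rw [← h1, hxb, h.hβ]) hya hyb
          rw [hxb] at h3
          omega
      · exfalso
        by_cases hxa : x = a
        · rw [hxa, Equiv.swap_apply_left] at h2
          rw [hxa] at h3
          by_cases hya : y = a
          · rw [hya] at h3
            exact lt_irrefl _ h3
          · by_cases hyb : y = b
            · rw [hyb, Equiv.swap_apply_right] at h2
              omega
            · rw [Equiv.swap_apply_of_ne_of_ne hya hyb] at h2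
              have := h.adj y (by rw [← h1, hxa]) hya hyb
              omega
        · rw [Equiv.swap_apply_of_ne_of_ne hxa hxb] at h2
          by_cases hya : y = a
          · rw [hya, Equiv.swap_apply_left] at h2
            rw [hya] at h3
            have := h.adj x (by rw [h1, hya]) hxa hxb
            omega
          · by_cases hyb : y = b
            · rw [hyb, Equiv.swap_apply_right] at h2
              rw [hyb] at h3
              have := h.adj x (by rw [h1, hyb, h.hβ]) hxa hxb
              omega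
            · rw [Equiv.swap_apply_of_ne_of_ne hya hyb] at h2
              omega
    · rintro ⟨rfl, rfl⟩
      unfold swO
      rw [Equiv.swap_apply_left, Equiv.swap_apply_right]
      exact ⟨h.hβ.symm, hlt, hlt⟩
  have card : ∀ (x y : ι), ((Finset.univ.filter fun p : κ × κ => c p.1 = x ∧ c p.2 = y).card : ℤ)
      = nb c x * nb c y := by
    intro x y
    unfold nb
    rw [← Nat.cast_mul, ← Finset.card_product]
    congr 2
    ext p
    simp
  have hne : τ a ≠ τ b := fun h' => h.ne (hτ h')
  rcases lt_or_gt_of_ne hne with hlt | hlt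
  · have e : npair c β τ (swO τ a b) =
        (Finset.univ.filter fun p : κ × κ => c p.1 = b ∧ c p.2 = a).card := by
      unfold npair
      congr 1
      refine Finset.filter_congr fun p _ => ?_
      exact key h hlt (c p.1) (c p.2)
    rw [e, card, mul_comm]
  · have hs : swO τ a b = swO τ b a := by
      unfold swO
      rw [Equiv.swap_comm]
    have e : npair c β τ (swO τ a b) =
        (Finset.univ.filter fun p : κ × κ => c p.1 = a ∧ c p.2 = b).card := by
      unfold npair
      congr 1
      refine Finset.filter_congr fun p _ => ?_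
      rw [hs]
      exact key h.symm hlt (c p.1) (c p.2)
    rw [e, card]

end

end Pool.Agent.Lib.MP_ca1492_al.D5
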