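import Mathlib
import Pool.Agent.Lib.MP_ca1492_al.Alg.Defs
import Pool.Agent.Lib.MP_ca1492_al.D5.UpA

/-!
# MP_ca1492_al, D5, module OpComb: orders of `n` strands as permutations

An order is a permutation `σ : Perm (Fin n)` (position ↦ strand), `ordP σ x` = position of the strand `x`.

* `ordP_sw`: `(σ s)⁻¹ x = s (σ⁻¹ x)` and `σ⁻¹ (swap (σ r) (σ (r+1)) x) = swap r (r+1) (σ⁻¹ x)`
  (`Equiv.swap_apply_def`, cases `x = σ r`, `x = σ (r+1)`, other).
* `cross σ σ'` = the pairs `(a, b)` with `a` before `b` in `σ` and after `b` in `σ'`.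
* `cross_eq_empty`: `σ⁻¹ σ'` is monotone, so it is `1`.
* `exists_desc`: if `cross σ σ' ≠ ∅` there is `r` with `ordP σ (σ' (r+1)) < ordP σ (σ' r)` (otherwise
  `r ↦ ordP σ (σ' r)` is increasing and there is no crossing).
* `cross_sw`: if `ordP σ (σ' r) < ordP σ (σ' (r+1))` then
  `cross σ (σ' * sw n r) = insert (σ' r, σ' (r+1)) (cross σ σ')`, not a member.
* `ordP_rev`: `(σ * rev)⁻¹ x = rev (σ⁻¹ x)`. `cross_rev`: from `ordP_rev`.
-/

set_option autoImplicit false

namespace Pool.Agent.Lib.MP_ca1492_al.D5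

open Pool.Agent.Lib.MP_ca1492_al.P
open Topology Matrix ValuativeRel TensorProduct CA1492

noncomputable section

variable {n : ℕ}

/-- the position of the strand `x` -/
def ordP (σ : Equiv.Perm (Fin n)) : Fin n → ℤ := fun x => ((σ.symm x : Fin n) : ℕ)

theorem ordP_inj (σ : Equiv.Perm (Fin n)) : Function.Injective (ordP σ) := by
  intro x y h
  unfold ordP at h
  exact σ.symm.injective (Fin.ext (by exact_mod_cast h))

theorem ordP_apply (σ : Equiv.Perm (Fin n)) (k : Fin n) : ordP σ (σ k) = (k : ℕ) := by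
  unfold ordP
  rw [Equiv.symm_apply_apply]

theorem adjP (σ : Equiv.Perm (Fin n)) (r : ℕ) (h : r + 1 < n) :
    AdjS (cst : Fin n → Unit) (ordP σ) (σ ⟨r, by omega⟩) (σ ⟨r + 1, h⟩) := by
  refine ⟨rfl, ?_, fun x _ h1 h2 => ?_⟩
  · intro h'
    have := σ.injective h'
    rw [Fin.mk.injEq] at this
    omega
  · have hx1 : (σ.symm x : Fin n) ≠ ⟨r, by omega⟩ := fun h' => h1 (by rw [← h']; simp)
    have hx2 : (σ.symm x : Fin n) ≠ ⟨r + 1, h⟩ := fun h' => h2 (by rw [← h']; simp)
    rw [ordP_apply, ordP_apply]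
    unfold ordP
    have hy1 : ((σ.symm x : Fin n) : ℕ) ≠ r := fun h' => hx1 (Fin.ext h')
    have hy2 : ((σ.symm x : Fin n) : ℕ) ≠ r + 1 := fun h' => hx2 (Fin.ext h')
    rw [show ((⟨r, by omega⟩ : Fin n) : ℕ) = r from rfl,
      show ((⟨r + 1, h⟩ : Fin n) : ℕ) = r + 1 from rfl]
    omega

theorem ordP_sw (σ : Equiv.Perm (Fin n)) (r : ℕ) (h : r + 1 < n) :
    ordP (σ * sw n r) = swO (ordP σ) (σ ⟨r, by omega⟩) (σ ⟨r + 1, h⟩) := by
  funext x
  unfold swO ordP sw
  rw [dif_pos h]
  have h1 := σ.injective.swap_apply ⟨r, by omega⟩ ⟨r + 1, h⟩ (σ.symm x)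
  rw [Equiv.apply_symm_apply] at h1
  rw [h1, Equiv.symm_apply_apply]
  have h2 : (σ * Equiv.swap (⟨r, by omega⟩ : Fin n) ⟨r + 1, h⟩).symm x =
      Equiv.swap ⟨r, by omega⟩ ⟨r + 1, h⟩ (σ.symm x) := by
    rw [Equiv.symm_apply_eq, Equiv.Perm.mul_apply, Equiv.swap_apply_self, Equiv.apply_symm_apply]
  rw [h2]

/-- the crossings -/
def cross (σ σ' : Equiv.Perm (Fin n)) : Finset (Fin n × Fin n) :=
  Finset.univ.filter fun p => ordP σ p.1 < ordP σ p.2 ∧ ordP σ' p.2 < ordP σ' p.1

theorem cross_self (σ : Equiv.Perm (Fin n)) : cross σ σ = ∅ := by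
  unfold cross
  rw [Finset.filter_eq_empty_iff]
  intro p _ h
  omega

theorem OpComb_mono (π : Equiv.Perm (Fin n)) (h : StrictMono π) : π = 1 := by
  have h1 : ∀ i, i ≤ π i := fun i => h.le_apply
  have h' : StrictMono π.symm := by
    intro i j hij
    by_contra hcon
    push Not at hcon
    have := h.monotone hcon
    rw [Equiv.apply_symm_apply, Equiv.apply_symm_apply] at this
    exact absurd hij (not_lt.mpr this)
  have h2 : ∀ i, i ≤ π.symm i := fun i => h'.le_apply
  refine Equiv.ext fun i => ?_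
  have := h.monotone (h2 i)
  rw [Equiv.apply_symm_apply] at this
  exact le_antisymm this (h1 i)

theorem cross_eq_empty (σ σ' : Equiv.Perm (Fin n)) (h : cross σ σ' = ∅) : σ = σ' := by
  have hm : StrictMono (σ⁻¹ * σ') := by
    intro i j hij
    have h1 : (σ' j, σ' i) ∉ cross σ σ' := by rw [h]; simp
    unfold cross at h1
    simp only [Finset.mem_filter, Finset.mem_univ, true_and, not_and, ordP_apply, not_lt] at h1
    by_contra hcon
    push Not at hcon
    have hne : (σ⁻¹ * σ') j ≠ (σ⁻¹ * σ') i := fun e => hij.ne ((σ⁻¹ * σ').injective e).symm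
    have hlt : (σ⁻¹ * σ') j < (σ⁻¹ * σ') i := lt_of_le_of_ne hcon hne
    have h2 : ordP σ (σ' j) < ordP σ (σ' i) := by
      unfold ordP
      have : ((σ.symm (σ' j) : Fin n) : ℕ) < ((σ.symm (σ' i) : Fin n) : ℕ) := hlt
      exact_mod_cast this
    have h3 := h1 h2
    have h4 : (i : ℕ) < (j : ℕ) := hij
    omega
  have h1 := OpComb_mono _ hm
  rw [inv_mul_eq_one] at h1
  exact h1

theorem exists_desc (σ σ' : Equiv.Perm (Fin n)) (h : cross σ σ' ≠ ∅) :
    ∃ (r : ℕ) (h : r + 1 < n), ordP σ (σ' ⟨r + 1, h⟩) < ordP σ (σ' ⟨r, by omega⟩) := by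
  by_contra hcon
  push Not at hcon
  have hinc : ∀ (j i : ℕ) (hj : j < n) (hij : i < j),
      ordP σ (σ' ⟨i, by omega⟩) < ordP σ (σ' ⟨j, hj⟩) := by
    intro j
    induction j with
    | zero => intro i hj hij; omega
    | succ j ih =>
      intro i hj hij
      have h1 := hcon j hj
      have h2 : ordP σ (σ' ⟨j, by omega⟩) ≠ ordP σ (σ' ⟨j + 1, hj⟩) := by
        intro e
        have := σ'.injective (ordP_inj σ e)
        rw [Fin.mk.injEq] at this
        omega
      have h3 := lt_of_le_of_ne h1 h2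
      rcases Nat.lt_succ_iff_lt_or_eq.mp hij with h4 | h4
      · exact lt_trans (ih i (by omega) h4) h3
      · subst h4
        exact h3
  apply h
  unfold cross
  rw [Finset.filter_eq_empty_iff]
  rintro ⟨a, b⟩ - ⟨h1, h2⟩
  simp only at h1 h2
  have h3 : ((σ'.symm b : Fin n) : ℕ) < ((σ'.symm a : Fin n) : ℕ) := by
    unfold ordP at h2
    exact_mod_cast h2
  have h4 := hinc _ _ (σ'.symm a).2 h3
  simp only [Fin.eta, Equiv.apply_symm_apply] at h4
  omega

theorem cross_sw (σ σ' : Equiv.Perm (Fin n)) (r : ℕ) (h : r + 1 < n)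
    (hr : ordP σ (σ' ⟨r, by omega⟩) < ordP σ (σ' ⟨r + 1, h⟩)) :
    (σ' ⟨r, by omega⟩, σ' ⟨r + 1, h⟩) ∉ cross σ σ' ∧
      cross σ (σ' * sw n r) = insert (σ' ⟨r, by omega⟩, σ' ⟨r + 1, h⟩) (cross σ σ') := by
  have hadj := adjP σ' r h
  have ea : ordP σ' (σ' ⟨r, by omega⟩) = r := ordP_apply _ _
  have eb : ordP σ' (σ' ⟨r + 1, h⟩) = r + 1 := by rw [ordP_apply]; push_cast; rfl
  have hsw := ordP_sw σ' r h
  obtain ⟨a, ha⟩ : ∃ a, σ' ⟨r, by omega⟩ = a := ⟨_, rfl⟩
  obtain ⟨b, hb⟩ : ∃ b, σ' ⟨r + 1, h⟩ = b := ⟨_, rfl⟩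
  rw [ha] at ea hadj hr hsw ⊢
  rw [hb] at eb hadj hr hsw ⊢
  constructor
  · unfold cross
    simp only [Finset.mem_filter, Finset.mem_univ, true_and, not_and]
    omega
  · ext ⟨x, y⟩
    unfold cross
    rw [hsw]
    simp only [Finset.mem_insert, Finset.mem_filter, Finset.mem_univ, true_and, Prod.mk.injEq]
    unfold swO
    have hne := hadj.ne
    have had := hadj.adj
    by_cases hxa : x = a
    · subst hxa
      by_cases hya : y = x
      · subst hya
        simp [hne]
      · by_cases hyb : y = b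
        · subst hyb
          rw [Equiv.swap_apply_left, Equiv.swap_apply_right]
          exact ⟨fun _ => Or.inl ⟨rfl, rfl⟩, fun _ => ⟨hr, by omega⟩⟩
        · have h1 := had y rfl hya hyb
          rw [Equiv.swap_apply_left, Equiv.swap_apply_of_ne_of_ne hya hyb]
          simp only [hyb, and_false, false_or]
          omega
    · by_cases hxb : x = b
      · subst hxb
        by_cases hya : y = a
        · subst hya
          rw [Equiv.swap_apply_left, Equiv.swap_apply_right]
          simp only [hxa, false_and, false_or]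
          omega
        · by_cases hyb : y = x
          · subst hyb
            simp [hxa]
          · have h1 := had y rfl hya hyb
            rw [Equiv.swap_apply_right, Equiv.swap_apply_of_ne_of_ne hya hyb]
            simp only [hxa, false_and, false_or]
            omega
      · have h0 := had x rfl hxa hxb
        rw [Equiv.swap_apply_of_ne_of_ne hxa hxb]
        simp only [hxa, false_and, false_or]
        by_cases hya : y = a
        · subst hya
          rw [Equiv.swap_apply_left]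
          omega
        · by_cases hyb : y = b
          · subst hyb
            rw [Equiv.swap_apply_right]
            omega
          · rw [Equiv.swap_apply_of_ne_of_ne hya hyb]

/-- the order `σ * Fin.revPerm` is opposite to `σ` -/
theorem ordP_rev (σ : Equiv.Perm (Fin n)) (x y : Fin n) :
    ordP σ x < ordP σ y ↔ ordP (σ * Fin.revPerm) y < ordP (σ * Fin.revPerm) x := by
  have key : ∀ z : Fin n, (σ * Fin.revPerm).symm z = Fin.rev (σ.symm z) := by
    intro z
    rw [Equiv.symm_apply_eq, Equiv.Perm.mul_apply, Fin.revPerm_apply, Fin.rev_rev,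
      Equiv.apply_symm_apply]
  unfold ordP
  rw [key, key, Fin.val_rev, Fin.val_rev]
  have h1 := (σ.symm x).2
  have h2 := (σ.symm y).2
  omega

/-- all pairs cross -/
theorem cross_rev (σ : Equiv.Perm (Fin n)) :
    cross σ (σ * Fin.revPerm) = Finset.univ.filter fun p => ordP σ p.1 < ordP σ p.2 := by
  unfold cross
  refine Finset.filter_congr fun p _ => ?_
  have := ordP_rev σ p.1 p.2
  tauto

end

end Pool.Agent.Lib.MP_ca1492_al.D5
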