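import Mathlib
import Pool.Agent.Lib.MP_ca1492_al.D5.UpA

/-!
# MP_ca1492_al, D5, module Cut: supports along reduced paths

Only linear algebra over `F` in this file. `o : κ → ℤ` an order function on the indices, `rsp o t g` = the
space spanned by the rows `i` of `g` with `t ≤ o i`.
`Rel o₁ g o₀ y`: `dim (rsp o₁ t g ∩ rsp o₀ s y) ≥ #{i | t ≤ o₁ i, s ≤ o₀ i}` for all `t`, `s`.

* `rsp_finrank`: the rows of `g` are linearly independent (`g` is invertible).
* `rel_refl`: for `t, s` let `u = max t s`: `rsp o u g ≤ rsp o t g ⊓ rsp o s g`; `rsp_finrank`.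
* `rsp_mul`: rows of `h * g`: `(h g) i = Σ_k h i k • g k`. If `h i k = 0` for `t ≤ o i`, `o k < t` then
  `rsp o t (h g) ≤ rsp o t g`, and equality by dimensions (`rsp_finrank`).
* In `rel_step` and `rel_cut` `a` and `b` play the same role (`lev F (mrg a b ∘ c)` and `lev F (mrg b a ∘ c)` are the
  same subgroup, the same for `upp`); assume `τ₁ a < τ₁ b`, `τ₀ a < τ₀ b`.
* `rel_step`: `o₁ = τ₁ ∘ c`, `o₂ = swO τ₁ a b ∘ c`, `h ∈ lev F (mrg a b ∘ c)`, `Rel o₁ (h g) o₀ y`. Fix `t`, `s`.
  If not `τ₁ a < t ≤ τ₁ b` then `{i | t ≤ o₂ i} = {i | t ≤ o₁ i}` (adjacency) and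
  `rsp o₂ t g = rsp o₁ t g = rsp o₁ t (h g)` (`rsp_mul`; `h` preserves the blocks except `a`, `b`, which are
  both in or both out). If `τ₁ a < t ≤ τ₁ b`: `T' := {i | τ₁ b < o₁ i}`, `{t ≤ o₁} = T' ∪ b`,
  `{t ≤ o₂} = T' ∪ a`. `A := rsp o₂ t g` contains `B := rsp o₁ (τ₁ b + 1) (h g) = rsp o₁ (τ₁ b + 1) g` and is
  contained in `C := rsp o₁ (τ₁ a) (h g) = rsp o₁ (τ₁ a) g`, `finrank A = finrank C - n_b`
  (`n_b = #{c i = b}`). Let `D = rsp o₀ s y`.
  Case `s ≤ τ₀ a`: then `s ≤ τ₀ b` too (`τ₀ a < τ₀ b`, the path is reduced), and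
  `finrank (A ⊓ D) ≥ finrank (C ⊓ D) - n_b` (`(C ⊓ D) / (A ⊓ D)` embeds in `C / A`:
  `Submodule.finrank_sup_add_finrank_inf_eq` for `A` and `C ⊓ D`, whose sup is in `C`) and the hypothesis
  for `t := τ₁ a`. The number `#{t ≤ o₂, s ≤ o₀}` is `#{T', s ≤ o₀} + n_a`, `#{τ₁ a ≤ o₁, s ≤ o₀} =
  #{T', s ≤ o₀} + n_a + n_b`.
  Case `τ₀ a < s`: `#{t ≤ o₂, s ≤ o₀} = #{T', s ≤ o₀} ≤ finrank (B ⊓ D) ≤ finrank (A ⊓ D)`.
-/

set_option autoImplicit false

namespace Pool.Agent.Lib.MP_ca1492_al.D5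

open Pool.Agent.Lib.MP_ca1492_al.P
open Topology Matrix ValuativeRel TensorProduct

noncomputable section

variable {F : Type} [Field F] [ValuativeRel F] [TopologicalSpace F]
  [IsNonarchimedeanLocalField F]
variable {κ : Type} [Fintype κ] [DecidableEq κ]
variable {ι ι' : Type} [Fintype ι] [DecidableEq ι]

/-- the span of the rows `i` of `g` with `t ≤ o i` -/
def rsp (o : κ → ℤ) (t : ℤ) (g : GL κ F) : Submodule F (κ → F) :=
  Submodule.span F {v | ∃ i, t ≤ o i ∧ v = (g : Matrix κ κ F) i}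

/-- lower bound for the relative position of two flags -/
def Rel (o₁ : κ → ℤ) (g : GL κ F) (o₀ : κ → ℤ) (y : GL κ F) : Prop :=
  ∀ t s : ℤ, (Finset.univ.filter fun i => t ≤ o₁ i ∧ s ≤ o₀ i).card ≤
    Module.finrank F (rsp o₁ t g ⊓ rsp o₀ s y : Submodule F (κ → F))

theorem rsp_finrank (o : κ → ℤ) (t : ℤ) (g : GL κ F) :
    Module.finrank F (rsp o t g) = (Finset.univ.filter fun i => t ≤ o i).card := by
  have h1 : LinearIndependent F (fun i : κ => (g : Matrix κ κ F) i) :=
    Matrix.linearIndependent_rows_of_isUnit g.isUnit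
  have h2 : LinearIndependent F (fun i : {i // t ≤ o i} => (g : Matrix κ κ F) i.1) :=
    h1.comp _ Subtype.val_injective
  have h3 : rsp o t g = Submodule.span F
      (Set.range fun i : {i // t ≤ o i} => (g : Matrix κ κ F) i.1) := by
    unfold rsp
    congr 1
    ext v
    constructor
    · rintro ⟨i, hi, rfl⟩
      exact ⟨⟨i, hi⟩, rfl⟩
    · rintro ⟨i, rfl⟩
      exact ⟨i.1, i.2, rfl⟩
  rw [h3, finrank_span_eq_card h2, Fintype.card_subtype]

theorem rsp_anti (o : κ → ℤ) (t s : ℤ) (h : t ≤ s) (g : GL κ F) : rsp o s g ≤ rsp o t g := by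
  refine Submodule.span_mono ?_
  rintro v ⟨i, hi, rfl⟩
  exact ⟨i, by omega, rfl⟩

theorem rsp_mul (o : κ → ℤ) (t : ℤ) (h g : GL κ F)
    (hh : ∀ i k, t ≤ o i → o k < t → (h : Matrix κ κ F) i k = 0) :
    rsp o t (h * g) = rsp o t g := by
  refine Submodule.eq_of_le_of_finrank_eq ?_ ?_
  · refine Submodule.span_le.2 ?_
    rintro v ⟨i, hi, rfl⟩
    have h1 : ((h * g : GL κ F) : Matrix κ κ F) i =
        ∑ k, (h : Matrix κ κ F) i k • (g : Matrix κ κ F) k := by
      funext j
      rw [Units.val_mul, Matrix.mul_apply, Finset.sum_apply]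
      rfl
    rw [h1]
    refine Submodule.sum_mem _ fun k _ => ?_
    by_cases hk : t ≤ o k
    · exact Submodule.smul_mem _ _ (Submodule.subset_span ⟨k, hk, rfl⟩)
    · rw [hh i k hi (by omega), zero_smul]
      exact Submodule.zero_mem _
  · rw [rsp_finrank, rsp_finrank]

theorem rel_refl (o : κ → ℤ) (g : GL κ F) : Rel o g o g := by
  intro t s
  have h1 : (Finset.univ.filter fun i => t ≤ o i ∧ s ≤ o i) =
      Finset.univ.filter fun i => max t s ≤ o i :=
    Finset.filter_congr fun i _ => max_le_iff.symm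
  rw [h1, ← rsp_finrank o (max t s) g]
  exact Submodule.finrank_mono (le_inf (rsp_anti o t _ (le_max_left _ _) g)
    (rsp_anti o s _ (le_max_right _ _) g))

/-- two orders, one of them coarser -/
theorem rel_mono (c : κ → ι) (τ o : ι → ℤ) (hm : ∀ x y, τ x < τ y → o x ≤ o y) (g : GL κ F) :
    Rel (fun i => τ (c i)) g (fun i => o (c i)) g := by
  intro t s
  show (Finset.univ.filter fun i => t ≤ τ (c i) ∧ s ≤ o (c i)).card ≤ _
  by_cases h : ∀ i, t ≤ τ (c i) → s ≤ o (c i)
  · have h1 : (Finset.univ.filter fun i => t ≤ τ (c i) ∧ s ≤ o (c i)) =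
        Finset.univ.filter fun i => t ≤ τ (c i) :=
      Finset.filter_congr fun i _ => ⟨fun h' => h'.1, fun h' => ⟨h', h i h'⟩⟩
    rw [h1, ← rsp_finrank (fun i => τ (c i)) t g]
    refine Submodule.finrank_mono (le_inf le_rfl (Submodule.span_mono ?_))
    rintro v ⟨i, hi, rfl⟩
    exact ⟨i, h i hi, rfl⟩
  · push Not at h
    obtain ⟨i₀, hi₀, hi₀'⟩ := h
    have h' : ∀ i, s ≤ o (c i) → t ≤ τ (c i) := by
      intro i hi
      by_contra hn
      have := hm (c i) (c i₀) (by omega)
      omega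
    have h1 : (Finset.univ.filter fun i => t ≤ τ (c i) ∧ s ≤ o (c i)) =
        Finset.univ.filter fun i => s ≤ o (c i) :=
      Finset.filter_congr fun i _ => ⟨fun h'' => h''.2, fun h'' => ⟨h' i h'', h''⟩⟩
    rw [h1, ← rsp_finrank (fun i => o (c i)) s g]
    refine Submodule.finrank_mono (le_inf (Submodule.span_mono ?_) le_rfl)
    rintro v ⟨i, hi, rfl⟩
    exact ⟨i, h' i hi, rfl⟩

/-- the case `τ₁ a < τ₁ b` -/
theorem Cut_step (c : κ → ι) (τ₀ τ₁ : ι → ℤ) (a b : ι)
    (h : AdjS (fun _ : ι => ()) τ₁ a b) (hlt : τ₁ a < τ₁ b) (h0 : τ₀ a ≤ τ₀ b) (g y m : GL κ F)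
    (hm : m ∈ lev F (fun i => mrg a b (c i)))
    (hr : Rel (fun i => τ₁ (c i)) (m * g) (fun i => τ₀ (c i)) y) :
    Rel (fun i => swO τ₁ a b (c i)) g (fun i => τ₀ (c i)) y := by
  classical
  have hadj : ∀ x, x ≠ a → x ≠ b → (τ₁ x < τ₁ a ∧ τ₁ x < τ₁ b ∨ τ₁ a < τ₁ x ∧ τ₁ b < τ₁ x) :=
    fun x h1 h2 => h.adj x rfl h1 h2
  have hsa : swO τ₁ a b a = τ₁ b := by unfold swO; rw [Equiv.swap_apply_left]
  have hsb : swO τ₁ a b b = τ₁ a := by unfold swO; rw [Equiv.swap_apply_right]
  have hsx : ∀ x, x ≠ a → x ≠ b → swO τ₁ a b x = τ₁ x := by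
    intro x h1 h2
    unfold swO
    rw [Equiv.swap_apply_of_ne_of_ne h1 h2]
  -- `m` preserves the rows from `t` on, unless `t` separates `a` and `b`
  have hmul : ∀ t : ℤ, ¬ (τ₁ a < t ∧ t ≤ τ₁ b) →
      rsp (fun i => τ₁ (c i)) t (m * g) = rsp (fun i => τ₁ (c i)) t g := by
    intro t ht
    refine rsp_mul _ t m g fun i k hi hk => hm i k fun h' => ?_
    have hi' : t ≤ τ₁ (c i) := hi
    have hk' : τ₁ (c k) < t := hk
    have h1 : D5.mrg a b (c i) = D5.mrg a b (c k) := h'
    unfold D5.mrg at h1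
    by_cases hib : c i = b
    · rw [if_pos hib] at h1
      by_cases hkb : c k = b
      · rw [hkb, ← hib] at hk'
        omega
      · rw [if_neg hkb] at h1
        rw [hib] at hi'
        rw [← h1] at hk'
        exact ht ⟨hk', hi'⟩
    · rw [if_neg hib] at h1
      by_cases hkb : c k = b
      · rw [if_pos hkb] at h1
        rw [h1] at hi'
        rw [hkb] at hk'
        omega
      · rw [if_neg hkb] at h1
        rw [h1] at hi'
        omega
  intro t s
  by_cases ht : τ₁ a < t ∧ t ≤ τ₁ b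
  · by_cases hs : s ≤ τ₀ a
    · -- `s ≤ τ₀ a`
      have hAC : rsp (fun i => swO τ₁ a b (c i)) t g ≤ rsp (fun i => τ₁ (c i)) (τ₁ a) (m * g) := by
        rw [hmul (τ₁ a) (fun h' => by omega)]
        refine Submodule.span_mono ?_
        rintro v ⟨i, hi, rfl⟩
        refine ⟨i, ?_, rfl⟩
        have hi' : t ≤ swO τ₁ a b (c i) := hi
        show τ₁ a ≤ τ₁ (c i)
        by_cases hia : c i = a
        · rw [hia]
        · by_cases hib : c i = b
          · rw [hib]
            omega
          · rw [hsx _ hia hib] at hi'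
            omega
      have h1 := Submodule.finrank_sup_add_finrank_inf_eq
        (rsp (fun i => swO τ₁ a b (c i)) t g)
        (rsp (fun i => τ₁ (c i)) (τ₁ a) (m * g) ⊓ rsp (fun i => τ₀ (c i)) s y)
      have h2 : Module.finrank F (rsp (fun i => swO τ₁ a b (c i)) t g ⊔
          (rsp (fun i => τ₁ (c i)) (τ₁ a) (m * g) ⊓ rsp (fun i => τ₀ (c i)) s y) :
            Submodule F (κ → F)) ≤ Module.finrank F (rsp (fun i => τ₁ (c i)) (τ₁ a) (m * g)) :=
        Submodule.finrank_mono (sup_le hAC inf_le_left)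
      have h3 : rsp (fun i => swO τ₁ a b (c i)) t g ⊓
          (rsp (fun i => τ₁ (c i)) (τ₁ a) (m * g) ⊓ rsp (fun i => τ₀ (c i)) s y) =
          rsp (fun i => swO τ₁ a b (c i)) t g ⊓ rsp (fun i => τ₀ (c i)) s y := by
        rw [← inf_assoc, inf_eq_left.2 hAC]
      rw [h3] at h1
      have h4 := hr (τ₁ a) s
      rw [rsp_finrank] at h1 h2
      -- the cardinalities
      have h5 : (Finset.univ.filter fun i => τ₁ a ≤ τ₁ (c i)) =
          (Finset.univ.filter fun i => t ≤ swO τ₁ a b (c i)) ∪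
            (Finset.univ.filter fun i => c i = b) := by
        ext i
        rw [Finset.mem_union, Finset.mem_filter, Finset.mem_filter, Finset.mem_filter]
        simp only [Finset.mem_univ, true_and]
        by_cases hia : c i = a
        · rw [hia, hsa]
          simp [ht.2]
        · by_cases hib : c i = b
          · rw [hib, hsb]
            simp [hlt.le]
          · rw [hsx _ hia hib]
            have := hadj _ hia hib
            simp only [hib, or_false]
            omega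
      have h6 : (Finset.univ.filter fun i => τ₁ a ≤ τ₁ (c i) ∧ s ≤ τ₀ (c i)) =
          (Finset.univ.filter fun i => t ≤ swO τ₁ a b (c i) ∧ s ≤ τ₀ (c i)) ∪
            (Finset.univ.filter fun i => c i = b) := by
        ext i
        rw [Finset.mem_union, Finset.mem_filter, Finset.mem_filter, Finset.mem_filter]
        simp only [Finset.mem_univ, true_and]
        by_cases hia : c i = a
        · rw [hia, hsa]
          simp [ht.2, hs]
        · by_cases hib : c i = b
          · rw [hib, hsb]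
            simp only [or_true, iff_true]
            exact ⟨hlt.le, by omega⟩
          · rw [hsx _ hia hib]
            have := hadj _ hia hib
            simp only [hib, or_false]
            omega
      have hnb : ∀ i, c i = b → ¬ t ≤ swO τ₁ a b (c i) := by
        intro i hi
        rw [hi, hsb]
        omega
      have h7 : (Finset.univ.filter fun i => τ₁ a ≤ τ₁ (c i)).card =
          (Finset.univ.filter fun i => t ≤ swO τ₁ a b (c i)).card +
            (Finset.univ.filter fun i => c i = b).card := by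
        rw [h5, Finset.card_union_of_disjoint]
        rw [Finset.disjoint_filter]
        intro i _ h8 h9
        exact hnb i h9 h8
      have h8 : (Finset.univ.filter fun i => τ₁ a ≤ τ₁ (c i) ∧ s ≤ τ₀ (c i)).card =
          (Finset.univ.filter fun i => t ≤ swO τ₁ a b (c i) ∧ s ≤ τ₀ (c i)).card +
            (Finset.univ.filter fun i => c i = b).card := by
        rw [h6, Finset.card_union_of_disjoint]
        rw [Finset.disjoint_filter]
        intro i _ h8 h9
        exact hnb i h9 h8.1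
      have h9 : Module.finrank F (rsp (fun i => τ₁ (c i)) (τ₁ a) (m * g)) =
          (Finset.univ.filter fun i => τ₁ a ≤ τ₁ (c i)).card := rsp_finrank _ _ _
      have h10 : (Finset.univ.filter fun i => τ₁ a ≤ τ₁ (c i) ∧ s ≤ τ₀ (c i)).card ≤
          Module.finrank F (rsp (fun i => τ₁ (c i)) (τ₁ a) (m * g) ⊓
            rsp (fun i => τ₀ (c i)) s y : Submodule F (κ → F)) := h4
      show (Finset.univ.filter fun i => t ≤ swO τ₁ a b (c i) ∧ s ≤ τ₀ (c i)).card ≤ _
      omega
    · -- `τ₀ a < s`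
      have h1 : (Finset.univ.filter fun i => t ≤ swO τ₁ a b (c i) ∧ s ≤ τ₀ (c i)).card ≤
          (Finset.univ.filter fun i => τ₁ b + 1 ≤ τ₁ (c i) ∧ s ≤ τ₀ (c i)).card := by
        refine Finset.card_le_card fun i hi => ?_
        rw [Finset.mem_filter] at hi ⊢
        refine ⟨hi.1, ?_, hi.2.2⟩
        by_cases hia : c i = a
        · have h2 := hi.2.2
          rw [hia] at h2
          omega
        · by_cases hib : c i = b
          · have h2 := hi.2.1
            rw [hib, hsb] at h2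
            omega
          · have h2 := hi.2.1
            rw [hsx _ hia hib] at h2
            have := hadj _ hia hib
            omega
      refine le_trans (le_trans h1 (hr (τ₁ b + 1) s)) (Submodule.finrank_mono ?_)
      refine inf_le_inf_right _ ?_
      rw [hmul (τ₁ b + 1) (fun h' => by omega)]
      refine Submodule.span_mono ?_
      rintro v ⟨i, hi, rfl⟩
      refine ⟨i, ?_, rfl⟩
      have hi' : τ₁ b + 1 ≤ τ₁ (c i) := hi
      show t ≤ swO τ₁ a b (c i)
      by_cases hia : c i = a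
      · rw [hia] at hi'
        omega
      · by_cases hib : c i = b
        · rw [hib] at hi'
          omega
        · rw [hsx _ hia hib]
          omega
  · -- `t` does not separate `a` and `b`
    have h1 : ∀ i, t ≤ swO τ₁ a b (c i) ↔ t ≤ τ₁ (c i) := by
      intro i
      by_cases hia : c i = a
      · rw [hia, hsa]
        omega
      · by_cases hib : c i = b
        · rw [hib, hsb]
          omega
        · rw [hsx _ hia hib]
    have h2 : rsp (fun i => swO τ₁ a b (c i)) t g = rsp (fun i => τ₁ (c i)) t g := by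
      unfold rsp
      congr 1
      ext v
      exact exists_congr fun i => and_congr_left' (h1 i)
    have h3 : (Finset.univ.filter fun i => t ≤ swO τ₁ a b (c i) ∧ s ≤ τ₀ (c i)) =
        Finset.univ.filter fun i => t ≤ τ₁ (c i) ∧ s ≤ τ₀ (c i) :=
      Finset.filter_congr fun i _ => and_congr_left' (h1 i)
    show (Finset.univ.filter fun i => t ≤ swO τ₁ a b (c i) ∧ s ≤ τ₀ (c i)).card ≤ _
    rw [h3, h2, ← hmul t ht]
    exact hr t s

theorem rel_stepG (c : κ → ι) (o τ₁ : ι → ℤ) (hτ₁ : Function.Injective τ₁) (a b : ι)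
    (h : AdjS (fun _ : ι => ()) τ₁ a b)
    (h0 : (τ₁ a < τ₁ b ∧ o a ≤ o b) ∨ (τ₁ b < τ₁ a ∧ o b ≤ o a)) (g y m : GL κ F)
    (hm : m ∈ lev F (fun i => mrg a b (c i)))
    (hr : Rel (fun i => τ₁ (c i)) (m * g) (fun i => o (c i)) y) :
    Rel (fun i => swO τ₁ a b (c i)) g (fun i => o (c i)) y := by
  rcases h0 with ⟨hlt, h1⟩ | ⟨hlt, h1⟩
  · exact Cut_step c o τ₁ a b h hlt h1 g y m hm hr
  · have hs : swO τ₁ a b = swO τ₁ b a := by
      unfold swO
      rw [Equiv.swap_comm]
    rw [hs]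
    refine Cut_step c o τ₁ b a h.symm hlt h1 g y m (fun i j hij => hm i j fun h' => hij ?_) hr
    have h2 : D5.mrg a b (c i) = D5.mrg a b (c j) := h'
    show D5.mrg b a (c i) = D5.mrg b a (c j)
    have h3 : ∀ x, D5.mrg b a x = D5.mrg b a (D5.mrg a b x) := by
      intro x
      unfold D5.mrg
      by_cases hxb : x = b
      · rw [if_pos hxb, if_pos rfl, hxb, if_neg h.ne.symm]
      · rw [if_neg hxb]
    rw [h3 (c i), h2, ← h3]

theorem rel_step (c : κ → ι) (τ₀ τ₁ : ι → ℤ) (hτ₀ : Function.Injective τ₀)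
    (hτ₁ : Function.Injective τ₁) (a b : ι)
    (h : AdjS (fun _ : ι => ()) τ₁ a b) (h0 : τ₁ a < τ₁ b ↔ τ₀ a < τ₀ b) (g y m : GL κ F)
    (hm : m ∈ lev F (fun i => mrg a b (c i)))
    (hr : Rel (fun i => τ₁ (c i)) (m * g) (fun i => τ₀ (c i)) y) :
    Rel (fun i => swO τ₁ a b (c i)) g (fun i => τ₀ (c i)) y := by
  have hne : τ₁ a ≠ τ₁ b := fun h' => h.ne (hτ₁ h')
  refine rel_stepG c τ₀ τ₁ hτ₁ a b h ?_ g y m hm hr
  rcases lt_or_gt_of_ne hne with hlt | hlt
  · exact Or.inl ⟨hlt, (h0.1 hlt).le⟩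
  · refine Or.inr ⟨hlt, ?_⟩
    by_contra h2
    have := h0.2 (by omega)
    omega

end

end Pool.Agent.Lib.MP_ca1492_al.D5
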