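import Mathlib
import Pool.Agent.Lib.MP_ca1492_al.D5.Cut

/-!
# MP_ca1492_al, D5, module CutB: supports along reduced paths, second part

In `rel_cut` `a` and `b` play the same role (`lev F (mrg a b ∘ c)` and `lev F (mrg b a ∘ c)` are the
same subgroup, the same for `upp`); assume `τ₁ a < τ₁ b`, `τ₀ a < τ₀ b`.

* `cut_pk`: `y = p k`, `p ∈ upp` for `o₀`, `k ∈ Kc r`, `r ≥ 1`: `rsp o₀ s y = rsp o₀ s k` (`rsp_mul`); let `u` be in
  it: `u = Σ_{i ∈ S} μ_i k_i`, `S = {s ≤ o₀}`. `k_{SS} = 1 + (matrix with entries in lat r)` is invertible with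
  inverse in `1 + lat r` (a matrix `1 + X`, `X` with entries in `lat r`, `r ≥ 1`: its determinant is in
  `1 + lat r`, adjugate), so `u` restricted to `Sᶜ` is `(u_S k_SS⁻¹) k_{S,Sᶜ}`. Statement: there is a matrix `Z`
  with entries in `lat r` such that `u j = Σ_{i ∈ S} u i * Z i j` for all `u ∈ rsp o₀ s y` and `j ∉ S`.
  Alternative without the inverse: let `m` be minimal with all `u i`, `i ∈ S`, in ... the norm version
  if `u_i ∈ lat m` for all `i ∈ S` then `u_j ∈ lat (m + r)` for `j ∉ S`, and `u = 0` if `u_S = 0`: let `m` be the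
  minimal order of the `μ_i`; `u_i = μ_i + Σ μ_l (k - 1)_{l i}` for `i ∈ S`, so the minimal order of the `u_i` is
  the same `m` (`r ≥ 1`), and `u_j = Σ μ_l k_{l j} ∈ lat (m + r)`. This is the form `cut_pk`.
* `rel_cut`: `x ∈ lev F (mrg a b ∘ c)`, `t = τ₁ b`, `s = τ₀ b`, `T = {t ≤ o₁}`, `S = {s ≤ o₀}`, `U = rsp o₁ t x ⊓
  rsp o₀ s y`, `finrank U ≥ #(T ∩ S)`. `u ∈ U`: `u ∈ rsp o₁ t x` gives `u j = 0` unless `c j = a` or `j ∈ T` (the rows
  `i` of `x` with `c i ≠ b`, `i ∈ T` have entries only in columns `j` with `c j = c i`, `j ∈ T`; the rows with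
  `c i = b` only in the columns with `c j ∈ {a, b}`). `a ∉ S`. So `u` restricted to `S` is supported in `S ∩ T`, and
  `u = 0` if `u = 0` on `S ∩ T` (`cut_pk`); by dimensions `U → (S ∩ T → F)` is bijective. For `i₀` with
  `c i₀ = b` take `u ∈ U` with `u = e_{i₀}` on `S`; all `u j`, `j ∉ S`, are in `lat r` (`cut_pk`, `m = 0`).
  Write `u = Σ_{i ∈ T} λ_i x_i`; on the columns `j` with `c j ∈ {a, b}` only the rows with `c i = b` contribute:
  `Σ_{c i = b} λ_i x_{i j} = u j`, which is `δ_{i₀ j}` for `c j = b` and in `lat r` for `c j = a`. So with the matrix `Λ`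
  (rows `i₀`): `Λ x_bb = 1`, `Λ x_ba ∈ lat r`, `Λ = x_bb⁻¹`. Put `k' = 1 + (x_bb⁻¹ x_ba)` in the `(b, a)` block,
  `k' ∈ Kc r ∩ lev F (mrg a b ∘ c)`, and `p' = x k'⁻¹`: its `(b, a)` block is `x_ba - x_bb x_bb⁻¹ x_ba = 0`, so
  `p' ∈ upp F (mrg a b ∘ c) (τ₁ ∘ c)`.
-/

set_option autoImplicit false

namespace Pool.Agent.Lib.MP_ca1492_al.D5

open Pool.Agent.Lib.MP_ca1492_al.P
open Topology Matrix ValuativeRel TensorProduct

noncomputable section

variable {F : Type} [Field F] [ValuativeRel F] [TopologicalSpace F]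
  [IsNonarchimedeanLocalField F]
variable {κ : Type} [Fintype κ] [DecidableEq κ]
variable {ι : Type} [Fintype ι] [DecidableEq ι]

/-- elements of the row spaces -/
theorem CutB_mem (o : κ → ℤ) (t : ℤ) (g : GL κ F) (u : κ → F) (hu : u ∈ rsp o t g) :
    ∃ w : κ → F, (∀ i, ¬ t ≤ o i → w i = 0) ∧ u = w ᵥ* (g : Matrix κ κ F) := by
  unfold rsp at hu
  refine Submodule.span_induction (p := fun x _ => ∃ w : κ → F,
    (∀ i, ¬ t ≤ o i → w i = 0) ∧ x = w ᵥ* (g : Matrix κ κ F)) ?_ ?_ ?_ ?_ hu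
  · rintro v ⟨i, hi, rfl⟩
    refine ⟨Pi.single i 1, fun l hl => ?_, ?_⟩
    · rw [Pi.single_eq_of_ne]
      rintro rfl
      exact hl hi
    · rw [Matrix.single_one_vecMul]
      rfl
  · exact ⟨0, fun _ _ => rfl, (Matrix.zero_vecMul _).symm⟩
  · rintro v v' _ _ ⟨w, hw, rfl⟩ ⟨w', hw', rfl⟩
    exact ⟨w + w', fun i hi => by rw [Pi.add_apply, hw i hi, hw' i hi, add_zero],
      (Matrix.add_vecMul _ _ _).symm⟩
  · rintro z v _ ⟨w, hw, rfl⟩
    exact ⟨z • w, fun i hi => by rw [Pi.smul_apply, hw i hi, smul_zero],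
      (Matrix.smul_vecMul _ _ _).symm⟩

/-- one step of the approximation -/
theorem CutB_step (S : κ → Prop) (r : ℕ) (k : GL κ F) (hk : k ∈ Kc F κ r) (w u : κ → F)
    (hw : ∀ i, ¬ S i → w i = 0) (hu : u = w ᵥ* (k : Matrix κ κ F)) (m : ℤ)
    (hm : ∀ i, u i ∈ lat F m) (j : κ) (hj : ¬ S j) : u j ∈ lat F (m + r) := by
  have h1 : w = u ᵥ* ((k⁻¹ : GL κ F) : Matrix κ κ F) := by
    rw [hu, Matrix.vecMul_vecMul, ← Units.val_mul, mul_inv_cancel, Units.val_one,
      Matrix.vecMul_one]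
  have h2 : w j = u j + ∑ i, u i * (((k⁻¹ : GL κ F) : Matrix κ κ F) - 1) i j := by
    have h3 : w = u ᵥ* (((k⁻¹ : GL κ F) : Matrix κ κ F) - 1) + u := by
      rw [Matrix.vecMul_sub, Matrix.vecMul_one, ← h1, sub_add_cancel]
    have h4 := congrFun h3 j
    rw [Pi.add_apply, add_comm] at h4
    exact h4
  rw [hw j hj] at h2
  have h3 : u j = - ∑ i, u i * (((k⁻¹ : GL κ F) : Matrix κ κ F) - 1) i j := by
    linear_combination -h2
  rw [h3]
  exact (lat F _).neg_mem ((lat F _).sum_mem fun i _ => lat_mul (hm i) (hk.2 i j))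

/-- every finite family is in some lattice -/
theorem CutB_bound (u : κ → F) : ∃ n : ℤ, ∀ i, u i ∈ lat F n := by
  refine ⟨- ∑ i, |ordF F (u i)|, fun i => Or.inr ?_⟩
  have h1 := Finset.single_le_sum (f := fun i => |ordF F (u i)|) (fun i _ => abs_nonneg _)
    (Finset.mem_univ i)
  have h2 := neg_abs_le (ordF F (u i))
  linarith

theorem CutB_lat (S : κ → Prop) (r : ℕ) (hr : 1 ≤ r) (k : GL κ F) (hk : k ∈ Kc F κ r)
    (w u : κ → F) (hw : ∀ i, ¬ S i → w i = 0) (hu : u = w ᵥ* (k : Matrix κ κ F)) (m : ℤ)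
    (hm : ∀ i, S i → u i ∈ lat F m) (j : κ) (hj : ¬ S j) : u j ∈ lat F (m + r) := by
  have key : ∀ n : ℕ, (∀ i, u i ∈ lat F (m - n)) → ∀ i, ¬ S i → u i ∈ lat F (m + r) := by
    intro n
    induction n with
    | zero =>
      intro h i hi
      have h' : ∀ i, u i ∈ lat F m := by simpa using h
      exact CutB_step S r k hk w u hw hu m h' i hi
    | succ n ih =>
      intro h
      refine ih fun i => ?_
      by_cases hi : S i
      · exact lat_anti (by omega) (hm i hi)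
      · exact lat_anti (by push_cast; omega) (CutB_step S r k hk w u hw hu _ h i hi)
  obtain ⟨n, hn⟩ := CutB_bound u
  refine key (m - n).toNat (fun i => lat_anti ?_ (hn i)) j hj
  have := Int.self_le_toNat (m - n)
  omega

/-- the row spaces of elements of `P K_r` -/
theorem cut_pk (o₀ : κ → ℤ) (s : ℤ) (r : ℕ) (hr : 1 ≤ r) (p k : GL κ F)
    (hp : p ∈ upp F (fun _ : κ => ()) o₀) (hk : k ∈ Kc F κ r) (u : κ → F)
    (hu : u ∈ rsp o₀ s (p * k)) (m : ℤ) (hm : ∀ i, s ≤ o₀ i → u i ∈ lat F m) (j : κ)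
    (hj : ¬ s ≤ o₀ j) : u j ∈ lat F (m + r) := by
  rw [rsp_mul o₀ s p k (fun i l hi hl => hp.2 i l (by omega))] at hu
  obtain ⟨w, hw, hwu⟩ := CutB_mem o₀ s k u hu
  exact CutB_lat (fun i => s ≤ o₀ i) r hr k hk w u hw hwu m hm j hj

theorem cut_inj (o₀ : κ → ℤ) (s : ℤ) (r : ℕ) (hr : 1 ≤ r) (p k : GL κ F)
    (hp : p ∈ upp F (fun _ : κ => ()) o₀) (hk : k ∈ Kc F κ r) (u : κ → F)
    (hu : u ∈ rsp o₀ s (p * k)) (h0 : ∀ i, s ≤ o₀ i → u i = 0) : u = 0 := by
  funext j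
  by_cases hj : s ≤ o₀ j
  · exact h0 j hj
  · rcases cut_pk o₀ s r hr p k hp hk u hu (ordF F (u j)) (fun i hi => by
      rw [h0 i hi]; exact (lat F _).zero_mem) j hj with h | h
    · exact h
    · omega

/-- the case `τ₁ a < τ₁ b` -/
theorem CutB_cut (c : κ → ι) (o τ₁ : ι → ℤ) (hτ₁ : Function.Injective τ₁) (a b : ι)
    (hab : a ≠ b) (hlt : τ₁ a < τ₁ b) (h0 : o a < o b) (x p k : GL κ F)
    (hx : x ∈ lev F (fun i => mrg a b (c i)))
    (hp : p ∈ upp F (fun _ : κ => ()) (fun i => o (c i))) (r : ℕ) (hr : 1 ≤ r)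
    (hk : k ∈ Kc F κ r)
    (hrel : Rel (fun i => τ₁ (c i)) x (fun i => o (c i)) (p * k)) :
    ∃ p' ∈ upp F (fun i => mrg a b (c i)) (fun i => τ₁ (c i)), ∃ k' ∈ Kc F κ r,
      x = p' * k' := by
  classical
  have hmb : ∀ y, y ≠ b → mrg a b y = y := fun y hy => by unfold mrg; rw [if_neg hy]
  have hmbb : mrg a b b = a := by unfold mrg; rw [if_pos rfl]
  -- entries of `x`
  have hxT : ∀ i j, τ₁ b ≤ τ₁ (c i) → c i ≠ b → c j = a ∨ c j = b →
      (x : Matrix κ κ F) i j = 0 := by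
    intro i j hi hib hj
    refine hx i j fun h => ?_
    have h1 : mrg a b (c j) = a := by
      rcases hj with h2 | h2
      · rw [h2, hmb a hab]
      · rw [h2, hmbb]
    have h2 : mrg a b (c i) = mrg a b (c j) := h
    rw [h1, hmb _ hib] at h2
    rw [h2] at hi
    omega
  set Ty := {i : κ // τ₁ b ≤ τ₁ (c i) ∧ o b ≤ o (c i)} with hTy
  set U : Submodule F (κ → F) := rsp (fun i => τ₁ (c i)) (τ₁ b) x ⊓
    rsp (fun i => o (c i)) (o b) (p * k) with hU
  -- elements of `U` restricted to `S` are supported in `S ∩ T`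
  have hsupp : ∀ u ∈ U, ∀ j, o b ≤ o (c j) → ¬ τ₁ b ≤ τ₁ (c j) → u j = 0 := by
    rintro u ⟨hu, -⟩ j hj hj'
    obtain ⟨w, hw, rfl⟩ := CutB_mem _ _ _ u hu
    show ∑ i, w i * (x : Matrix κ κ F) i j = 0
    refine Finset.sum_eq_zero fun i _ => ?_
    by_cases hi : τ₁ b ≤ τ₁ (c i)
    · rw [hx i j, mul_zero]
      intro h
      have h1 : mrg a b (c i) = mrg a b (c j) := h
      have hja : c j ≠ a := fun h2 => by rw [h2] at hj; omega
      have hjb : c j ≠ b := fun h2 => by rw [h2] at hj'; omega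
      rw [hmb _ hjb] at h1
      by_cases hib : c i = b
      · rw [hib, hmbb] at h1
        exact hja h1.symm
      · rw [hmb _ hib] at h1
        rw [h1] at hi
        exact hj' hi
    · rw [hw i hi, zero_mul]
  let φ : U →ₗ[F] (Ty → F) :=
    { toFun := fun u i => u.1 i.1
      map_add' := fun _ _ => rfl
      map_smul' := fun _ _ => rfl }
  have hinj : Function.Injective φ := by
    rw [injective_iff_map_eq_zero]
    intro u hu
    apply Subtype.ext
    refine cut_inj (fun i => o (c i)) (o b) r hr p k hp hk u.1 u.2.2 fun i hi => ?_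
    by_cases hi' : τ₁ b ≤ τ₁ (c i)
    · exact congrFun hu ⟨i, hi', hi⟩
    · exact hsupp u.1 u.2 i hi hi'
  have hsurj : Function.Surjective φ := by
    have h1 := LinearMap.finrank_le_finrank_of_injective hinj
    have h2 := hrel (τ₁ b) (o b)
    have h3 : Module.finrank F (Ty → F) =
        (Finset.univ.filter fun i => τ₁ b ≤ τ₁ (c i) ∧ o b ≤ o (c i)).card := by
      rw [Module.finrank_fintype_fun_eq_card, Fintype.card_subtype]
    have h4 : Module.finrank F U = Module.finrank F (Ty → F) :=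
      le_antisymm h1 (h3 ▸ h2)
    exact (LinearMap.injective_iff_surjective_of_finrank_eq_finrank h4).1 hinj
  -- the elements of `U` for the indices of the block `b`
  have hch : ∀ i₀ : {i // c i = b}, ∃ u : κ → F, u ∈ U ∧ (∀ j, c j = b → u j =
      (1 : Matrix κ κ F) i₀.1 j) ∧ ∀ j, c j = a → u j ∈ lat F r := by
    intro i₀
    have hi₀ : τ₁ b ≤ τ₁ (c i₀.1) ∧ o b ≤ o (c i₀.1) := by rw [i₀.2]; exact ⟨le_rfl, le_rfl⟩
    obtain ⟨u, hu⟩ := hsurj (Pi.single ⟨i₀.1, hi₀⟩ 1)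
    have h1 : ∀ j, o b ≤ o (c j) → u.1 j = (1 : Matrix κ κ F) i₀.1 j := by
      intro j hj
      by_cases hj' : τ₁ b ≤ τ₁ (c j)
      · have h2 : u.1 j = (Pi.single ⟨i₀.1, hi₀⟩ 1 : Ty → F) ⟨j, hj', hj⟩ :=
          congrFun hu ⟨j, hj', hj⟩
        rw [h2, Matrix.one_apply, Pi.single_apply]
        by_cases hji : i₀.1 = j
        · subst hji
          rw [if_pos rfl, if_pos rfl]
        · rw [if_neg hji, if_neg (fun h => hji (congrArg Subtype.val h).symm)]
      · rw [hsupp u.1 u.2 j hj hj', Matrix.one_apply_ne]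
        intro h
        apply hj'
        rw [← h]
        exact hi₀.1
    refine ⟨u.1, u.2, fun j hj => h1 j (by rw [hj]), fun j hj => ?_⟩
    have h2 := cut_pk (fun i => o (c i)) (o b) r hr p k hp hk u.1 u.2.2 0 (fun i hi => by
      rw [h1 i hi, Matrix.one_apply]
      split_ifs
      · exact cusp_one_mem
      · exact (lat F 0).zero_mem) j (by show ¬ o b ≤ o (c j); rw [hj]; omega)
    rwa [zero_add] at h2
  choose u huU hub hua using hch
  have hw : ∀ i₀ : {i // c i = b}, ∃ w : κ → F, (∀ i, ¬ τ₁ b ≤ τ₁ (c i) → w i = 0) ∧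
      u i₀ = w ᵥ* (x : Matrix κ κ F) := fun i₀ => CutB_mem _ _ _ _ (huU i₀).1
  choose w hw0 hwu using hw
  -- only the rows of the block `b` contribute
  have hwb : ∀ (i₀ : {i // c i = b}) (j : κ), c j = a ∨ c j = b →
      u i₀ j = ∑ i : {i // c i = b}, w i₀ i.1 * (x : Matrix κ κ F) i.1 j := by
    intro i₀ j hj
    have h1 : u i₀ j = ∑ i, w i₀ i * (x : Matrix κ κ F) i j := congrFun (hwu i₀) j
    rw [h1, ← Fintype.sum_subtype_add_sum_subtype (fun i => c i = b)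
      (fun i => w i₀ i * (x : Matrix κ κ F) i j)]
    rw [add_eq_left]
    refine Finset.sum_eq_zero fun i _ => ?_
    by_cases hi : τ₁ b ≤ τ₁ (c i.1)
    · rw [hxT i.1 j hi i.2 hj, mul_zero]
    · rw [hw0 i₀ i.1 hi, zero_mul]
  set Λ : Matrix {i // c i = b} {i // c i = b} F := Matrix.of fun i l => w i l.1 with hΛ
  set Xb : Matrix {i // c i = b} {i // c i = b} F :=
    Matrix.of fun i l => (x : Matrix κ κ F) i.1 l.1 with hXb
  have hΛX : Λ * Xb = 1 := by
    ext i l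
    rw [Matrix.mul_apply]
    have h1 := hwb i l.1 (Or.inr l.2)
    rw [hub i l.1 l.2] at h1
    show ∑ m : {i // c i = b}, w i m.1 * (x : Matrix κ κ F) m.1 l.1 = _
    rw [← h1, Matrix.one_apply, Matrix.one_apply]
    simp only [Subtype.ext_iff]
  have hXΛ : Xb * Λ = 1 := mul_eq_one_comm.1 hΛX
  -- the matrix in the block `(b, a)`
  set Z : Matrix κ κ F := Matrix.of fun i j => if h : c i = b then
    (if c j = a then u ⟨i, h⟩ j else 0) else 0 with hZ
  have hZv : ∀ i j (h : c i = b), c j = a → Z i j = u ⟨i, h⟩ j := by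
    intro i j h h'
    rw [hZ, Matrix.of_apply, dif_pos h, if_pos h']
  have hZ0 : ∀ i j, ¬ (c i = b ∧ c j = a) → Z i j = 0 := by
    intro i j h
    rw [hZ, Matrix.of_apply]
    by_cases h1 : c i = b
    · rw [dif_pos h1, if_neg (fun h2 => h ⟨h1, h2⟩)]
    · rw [dif_neg h1]
  have hZZ : Z * Z = 0 := by
    ext i j
    rw [Matrix.mul_apply]
    refine Finset.sum_eq_zero fun l _ => ?_
    by_cases hl : c l = b
    · rw [hZ0 i l (fun h => hab (h.2.symm.trans hl)), zero_mul]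
    · rw [hZ0 l j (fun h => hl h.1), mul_zero]
  have hZlat : ∀ i j, Z i j ∈ lat F r := by
    intro i j
    by_cases h : c i = b ∧ c j = a
    · rw [hZv i j h.1 h.2]
      exact hua _ j h.2
    · rw [hZ0 i j h]
      exact (lat F r).zero_mem
  set k' : GL κ F :=
    { val := 1 + Z
      inv := 1 - Z
      val_inv := by rw [mul_sub, mul_one, add_mul, one_mul, hZZ, add_zero, add_sub_cancel_right]
      inv_val := by rw [sub_mul, one_mul, mul_add, mul_one, hZZ, add_zero,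
        add_sub_cancel_right] } with hk'
  have hk'v : (k' : Matrix κ κ F) = 1 + Z := rfl
  have hk'i : ((k'⁻¹ : GL κ F) : Matrix κ κ F) = 1 - Z := rfl
  have hk'K : k' ∈ Kc F κ r := by
    refine ⟨fun i j => ?_, fun i j => ?_⟩
    · rw [hk'v, add_sub_cancel_left]
      exact hZlat i j
    · rw [hk'i, sub_sub_cancel_left, Matrix.neg_apply]
      exact (lat F r).neg_mem (hZlat i j)
  have hk'l : k' ∈ lev F (fun i => mrg a b (c i)) := by
    intro i j hij
    have hij' : mrg a b (c i) ≠ mrg a b (c j) := hij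
    rw [hk'v, Matrix.add_apply, Matrix.one_apply_ne (fun h => hij' (by rw [h])), zero_add]
    refine hZ0 i j fun h => hij' ?_
    rw [h.1, h.2, hmbb, hmb a hab]
  refine ⟨x * k'⁻¹, ⟨(lev F _).mul_mem hx ((lev F _).inv_mem hk'l), fun i j hij => ?_⟩, k', hk'K,
    by rw [inv_mul_cancel_right]⟩
  have hij' : τ₁ (c j) < τ₁ (c i) := hij
  by_cases hm : mrg a b (c i) = mrg a b (c j)
  · -- `c i = b`, `c j = a`
    have hne : c i ≠ c j := fun h => by rw [h] at hij'; exact lt_irrefl _ hij'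
    have h1 : c i = b ∧ c j = a := by
      by_cases hib : c i = b
      · refine ⟨hib, ?_⟩
        rw [hib, hmbb, hmb (c j) (fun h => hne (hib.trans h.symm))] at hm
        exact hm.symm
      · exfalso
        rw [hmb _ hib] at hm
        by_cases hjb : c j = b
        · rw [hjb, hmbb] at hm
          rw [hjb, hm] at hij'
          omega
        · rw [hmb _ hjb] at hm
          exact hne hm
    rw [Units.val_mul, hk'i, Matrix.mul_sub, mul_one, Matrix.sub_apply, Matrix.mul_apply,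
      sub_eq_zero, ← Fintype.sum_subtype_add_sum_subtype (fun l => c l = b)
      (fun l => (x : Matrix κ κ F) i l * Z l j)]
    have h2 : ∑ l : {l // ¬ c l = b}, (x : Matrix κ κ F) i l.1 * Z l.1 j = 0 :=
      Finset.sum_eq_zero fun l _ => by rw [hZ0 l.1 j (fun h => l.2 h.1), mul_zero]
    have h3 : ∀ l : {l // c l = b}, (x : Matrix κ κ F) i l.1 * Z l.1 j =
        ∑ m : {l // c l = b}, (Xb ⟨i, h1.1⟩ l * Λ l m) * (x : Matrix κ κ F) m.1 j := by
      intro l
      rw [hZv l.1 j l.2 h1.2, hwb ⟨l.1, l.2⟩ j (Or.inl h1.2), Finset.mul_sum]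
      refine Finset.sum_congr rfl fun m _ => ?_
      show _ = (x : Matrix κ κ F) i l.1 * w l m.1 * (x : Matrix κ κ F) m.1 j
      ring
    rw [h2, add_zero, Finset.sum_congr rfl (fun l _ => h3 l), Finset.sum_comm]
    have h4 : ∀ m : {l // c l = b},
        ∑ l : {l // c l = b}, (Xb ⟨i, h1.1⟩ l * Λ l m) * (x : Matrix κ κ F) m.1 j =
        (1 : Matrix {l // c l = b} {l // c l = b} F) ⟨i, h1.1⟩ m * (x : Matrix κ κ F) m.1 j := by
      intro m
      rw [← Finset.sum_mul, ← hXΛ, Matrix.mul_apply]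
    rw [Finset.sum_congr rfl (fun m _ => h4 m), Finset.sum_eq_single ⟨i, h1.1⟩]
    · rw [Matrix.one_apply_eq, one_mul]
    · intro m _ hm'
      rw [Matrix.one_apply_ne hm'.symm, zero_mul]
    · intro h
      exact absurd (Finset.mem_univ _) h
  · exact ((lev F _).mul_mem hx ((lev F _).inv_mem hk'l)) i j hm

theorem rel_cutG (c : κ → ι) (o τ₁ : ι → ℤ) (hτ₁ : Function.Injective τ₁) (a b : ι)
    (h : AdjS (fun _ : ι => ()) τ₁ a b)
    (h0 : (τ₁ a < τ₁ b ∧ o a < o b) ∨ (τ₁ b < τ₁ a ∧ o b < o a)) (x p k : GL κ F)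
    (hx : x ∈ lev F (fun i => mrg a b (c i)))
    (hp : p ∈ upp F (fun _ : κ => ()) (fun i => o (c i))) (r : ℕ) (hr : 1 ≤ r)
    (hk : k ∈ Kc F κ r)
    (hrel : Rel (fun i => τ₁ (c i)) x (fun i => o (c i)) (p * k)) :
    ∃ p' ∈ upp F (fun i => mrg a b (c i)) (fun i => τ₁ (c i)), ∃ k' ∈ Kc F κ r,
      x = p' * k' := by
  rcases h0 with ⟨hlt, h1⟩ | ⟨hlt, h1⟩
  · exact CutB_cut c o τ₁ hτ₁ a b h.ne hlt h1 x p k hx hp r hr hk hrel
  · have h3 : ∀ a b : ι, a ≠ b → ∀ x y, mrg a b x = mrg a b y → mrg b a x = mrg b a y := by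
      intro a b hab
      have h4 : ∀ x, mrg b a x = mrg b a (mrg a b x) := by
        intro x
        unfold D5.mrg
        by_cases hxb : x = b
        · rw [if_pos hxb, if_pos rfl, hxb, if_neg hab.symm]
        · rw [if_neg hxb]
      intro x y hxy
      rw [h4 x, hxy, ← h4]
    have hx' : x ∈ lev F (fun i => mrg b a (c i)) :=
      fun i j hij => hx i j fun h' => hij (h3 a b h.ne _ _ h')
    obtain ⟨p', hp', k', hk', hxk⟩ := CutB_cut c o τ₁ hτ₁ b a h.ne.symm hlt h1 x p k hx' hp r hr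
      hk hrel
    exact ⟨p', ⟨fun i j hij => hp'.1 i j fun h' => hij (h3 b a h.ne.symm _ _ h'), hp'.2⟩,
      k', hk', hxk⟩

theorem rel_cut (c : κ → ι) (τ₀ τ₁ : ι → ℤ) (hτ₀ : Function.Injective τ₀)
    (hτ₁ : Function.Injective τ₁) (a b : ι)
    (h : AdjS (fun _ : ι => ()) τ₁ a b) (h0 : τ₁ a < τ₁ b ↔ τ₀ a < τ₀ b) (x p k : GL κ F)
    (hx : x ∈ lev F (fun i => mrg a b (c i)))
    (hp : p ∈ upp F (fun _ : κ => ()) (fun i => τ₀ (c i))) (r : ℕ) (hr : 1 ≤ r)
    (hk : k ∈ Kc F κ r)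
    (hrel : Rel (fun i => τ₁ (c i)) x (fun i => τ₀ (c i)) (p * k)) :
    ∃ p' ∈ upp F (fun i => mrg a b (c i)) (fun i => τ₁ (c i)), ∃ k' ∈ Kc F κ r,
      x = p' * k' := by
  have hne : τ₁ a ≠ τ₁ b := fun h' => h.ne (hτ₁ h')
  have hne' : τ₀ a ≠ τ₀ b := fun h' => h.ne (hτ₀ h')
  refine rel_cutG c τ₀ τ₁ hτ₁ a b h ?_ x p k hx hp r hr hk hrel
  rcases lt_or_gt_of_ne hne with hlt | hlt
  · exact Or.inl ⟨hlt, h0.1 hlt⟩
  · refine Or.inr ⟨hlt, ?_⟩
    by_contra h2
    have := h0.2 (by omega)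
    omega

end

end Pool.Agent.Lib.MP_ca1492_al.D5
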