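import Mathlib
import Pool.Agent.Lib.MP_ca1492_al.D5.Lead

/-!
# MP_ca1492_al, D5, module LeadI: intertwining operators

`XI τ₁ τ₂ ρ` = the equivariant maps `I_τ₁(hat ρ) → I_τ₂(hat ρ)` which commute with the power series;
`LeadI Φ ℓ`: the leading coefficient of `f ↦ (Φ f)(1)` is `ℓ`. Everything is a translation of the
statements of `Func.lean` and `Lead.lean` by Frobenius reciprocity (`FS_of_hom`, `hom_of_FS`).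

* `homL L hL f`: `g ↦ L (R_g f)` as in `hom_of_FS`.
* `homL_XI`: `(Φ (opI y f))(g) = L (R_g (opI y f)) = L (opI y (R_g f))`.
* `XI_ext`: `X1_ext` for the functionals `ev1 ∘ Φ`, then `(Φ f)(g) = (Φ (R_g f))(1)`.
* `XI_self`: `X1_self`.
* `XI_comp`, `LeadI_op`, `LeadI_add`: clear.
* `opI_surj`: `opE y` is surjective on `V ⊗ Pol` for `y ≠ 0` (`P/Kill.lean`), the kernel is a smooth
  subrepresentation; for `f ∈ ISp` choose `g_1, ..., g_s` with `H = ⊔ P g_i U` (`U` open compact, `f` right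
  `U`-invariant) and preimages `e_i` of `f g_i` fixed by `M ∩ g_i U g_i⁻¹`-parts (average over the compact
  group `P ∩ g_i U g_i⁻¹`, which acts through its image in `M`); define `f'` on `P g_i U` by
  `f' (p g_i u) = p • e_i`. (This is the right exactness of `Ind`, see `IndEx` in `P/`.)
-/

set_option autoImplicit false

namespace Pool.Agent.Lib.MP_ca1492_al.D5

open Pool.Agent.Lib.MP_ca1492_al.P
open Topology Matrix ValuativeRel TensorProduct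

noncomputable section

variable {F : Type} [Field F] [ValuativeRel F] [TopologicalSpace F]
  [IsNonarchimedeanLocalField F]
variable {κ : Type} [Fintype κ] [DecidableEq κ]
variable {ι ι' : Type} [Fintype ι] [DecidableEq ι]
variable {V E E' : Type} [AddCommGroup V] [Module ℂ V] [AddCommGroup E] [Module ℂ E]
  [AddCommGroup E'] [Module ℂ E']

/-- the operator of a functional -/
def homL (c : κ → ι) (β : ι → ι') (τ₁ τ₂ : ι → ℤ) (hτ₁ : Function.Injective τ₁)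
    (hτ₂ : Function.Injective τ₂) (σ : Representation ℂ (lev F c) E)
    (σ' : Representation ℂ (lev F c) E') (L : ISp c β τ₁ hτ₁ σ →ₗ[ℂ] E')
    (hL : L ∈ FS c β τ₁ hτ₁ τ₂ σ σ') : ISp c β τ₁ hτ₁ σ →ₗ[ℂ] ISp c β τ₂ hτ₂ σ' :=
  (hom_of_FS c β τ₁ τ₂ hτ₁ hτ₂ σ σ' L hL).choose

theorem homL_equi (c : κ → ι) (β : ι → ι') (τ₁ τ₂ : ι → ℤ) (hτ₁ : Function.Injective τ₁)
    (hτ₂ : Function.Injective τ₂) (σ : Representation ℂ (lev F c) E)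
    (σ' : Representation ℂ (lev F c) E') (L : ISp c β τ₁ hτ₁ σ →ₗ[ℂ] E')
    (hL : L ∈ FS c β τ₁ hτ₁ τ₂ σ σ') :
    Equi (IRp c β τ₁ hτ₁ σ) (IRp c β τ₂ hτ₂ σ') (homL c β τ₁ τ₂ hτ₁ hτ₂ σ σ' L hL) :=
  (hom_of_FS c β τ₁ τ₂ hτ₁ hτ₂ σ σ' L hL).choose_spec.1

theorem homL_apply (c : κ → ι) (β : ι → ι') (τ₁ τ₂ : ι → ℤ) (hτ₁ : Function.Injective τ₁)
    (hτ₂ : Function.Injective τ₂) (σ : Representation ℂ (lev F c) E)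
    (σ' : Representation ℂ (lev F c) E') (L : ISp c β τ₁ hτ₁ σ →ₗ[ℂ] E')
    (hL : L ∈ FS c β τ₁ hτ₁ τ₂ σ σ') (f : ISp c β τ₁ hτ₁ σ)
    (g : lev F (fun i => β (c i))) :
    (homL c β τ₁ τ₂ hτ₁ hτ₂ σ σ' L hL f).1 g = L (IRp c β τ₁ hτ₁ σ g f) :=
  (hom_of_FS c β τ₁ τ₂ hτ₁ hτ₂ σ σ' L hL).choose_spec.2 f g

/-- equivariant maps commuting with the power series -/
def XI (c : κ → ι) (β : ι → ι') (τ₁ : ι → ℤ) (hτ₁ : Function.Injective τ₁) (τ₂ : ι → ℤ)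
    (hτ₂ : Function.Injective τ₂) (ρ : Representation ℂ (lev F c) V) :
    Submodule ℂ (ISp c β τ₁ hτ₁ (hat c ρ) →ₗ[ℂ] ISp c β τ₂ hτ₂ (hat c ρ)) where
  carrier := {Φ | Equi (IRp c β τ₁ hτ₁ (hat c ρ)) (IRp c β τ₂ hτ₂ (hat c ρ)) Φ ∧
    ∀ (y : MvPowerSeries ι ℂ) (f : _), Φ (opI c β τ₁ hτ₁ ρ y f) = opI c β τ₂ hτ₂ ρ y (Φ f)}
  add_mem' := by
    rintro a b ⟨ha, ha'⟩ ⟨hb, hb'⟩
    refine ⟨fun g f => ?_, fun y f => ?_⟩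
    · rw [LinearMap.add_apply, LinearMap.add_apply, ha g, hb g, map_add]
    · rw [LinearMap.add_apply, LinearMap.add_apply, ha', hb', map_add]
  zero_mem' := ⟨fun g f => by simp, fun y f => by simp⟩
  smul_mem' := by
    rintro z a ⟨ha, ha'⟩
    refine ⟨fun g f => ?_, fun y f => ?_⟩
    · rw [LinearMap.smul_apply, LinearMap.smul_apply, ha g, map_smul]
    · rw [LinearMap.smul_apply, LinearMap.smul_apply, ha', map_smul]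

/-- the leading coefficient of an operator -/
def LeadI (c : κ → ι) (β : ι → ι') (τ₁ : ι → ℤ) (hτ₁ : Function.Injective τ₁) (τ₂ : ι → ℤ)
    (hτ₂ : Function.Injective τ₂) (ρ : Representation ℂ (lev F c) V)
    (Φ : ISp c β τ₁ hτ₁ (hat c ρ) →ₗ[ℂ] ISp c β τ₂ hτ₂ (hat c ρ)) (ℓ : MvPowerSeries ι ℂ) :
    Prop :=
  IsLead c β τ₁ hτ₁ τ₂ ρ (ev1 c β τ₂ hτ₂ (hat c ρ) ∘ₗ Φ) ℓ

theorem XI_X1 (c : κ → ι) (β : ι → ι') (τ₁ : ι → ℤ) (hτ₁ : Function.Injective τ₁) (τ₂ : ι → ℤ)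
    (hτ₂ : Function.Injective τ₂) (ρ : Representation ℂ (lev F c) V)
    (Φ : ISp c β τ₁ hτ₁ (hat c ρ) →ₗ[ℂ] ISp c β τ₂ hτ₂ (hat c ρ))
    (hΦ : Φ ∈ XI c β τ₁ hτ₁ τ₂ hτ₂ ρ) :
    ev1 c β τ₂ hτ₂ (hat c ρ) ∘ₗ Φ ∈ X1 c β τ₁ hτ₁ τ₂ ρ :=
  ⟨FS_of_hom c β τ₁ τ₂ hτ₁ hτ₂ (hat c ρ) (hat c ρ) Φ hΦ.1, fun y f => by
    rw [LinearMap.comp_apply, hΦ.2 y f]
    rfl⟩

theorem homL_XI (c : κ → ι) (β : ι → ι') (τ₁ : ι → ℤ) (hτ₁ : Function.Injective τ₁)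
    (τ₂ : ι → ℤ) (hτ₂ : Function.Injective τ₂) (ρ : Representation ℂ (lev F c) V)
    (L : ISp c β τ₁ hτ₁ (hat c ρ) →ₗ[ℂ] V ⊗[ℂ] MvPolynomial ι ℂ)
    (hL : L ∈ X1 c β τ₁ hτ₁ τ₂ ρ) :
    homL c β τ₁ τ₂ hτ₁ hτ₂ (hat c ρ) (hat c ρ) L hL.1 ∈ XI c β τ₁ hτ₁ τ₂ hτ₂ ρ := by
  refine ⟨homL_equi c β τ₁ τ₂ hτ₁ hτ₂ (hat c ρ) (hat c ρ) L hL.1, fun y f => ?_⟩
  refine Subtype.ext (funext fun g => ?_)
  have h1 : L (IRp c β τ₁ hτ₁ (hat c ρ) g (opI c β τ₁ hτ₁ ρ y f)) =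
      opE V y (L (IRp c β τ₁ hτ₁ (hat c ρ) g f)) := by
    rw [← opI_equi c β τ₁ hτ₁ ρ y g f]
    exact hL.2 y _
  have h2 := homL_apply c β τ₁ τ₂ hτ₁ hτ₂ (hat c ρ) (hat c ρ) L hL.1
  rw [h2, h1]
  show opE V y _ = opE V y _
  rw [h2]

theorem homL_lead (c : κ → ι) (β : ι → ι') (τ₁ : ι → ℤ) (hτ₁ : Function.Injective τ₁)
    (τ₂ : ι → ℤ) (hτ₂ : Function.Injective τ₂) (ρ : Representation ℂ (lev F c) V)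
    (L : ISp c β τ₁ hτ₁ (hat c ρ) →ₗ[ℂ] V ⊗[ℂ] MvPolynomial ι ℂ)
    (hL : L ∈ X1 c β τ₁ hτ₁ τ₂ ρ) (ℓ : MvPowerSeries ι ℂ) (h : IsLead c β τ₁ hτ₁ τ₂ ρ L ℓ) :
    LeadI c β τ₁ hτ₁ τ₂ hτ₂ ρ (homL c β τ₁ τ₂ hτ₁ hτ₂ (hat c ρ) (hat c ρ) L hL.1) ℓ := by
  obtain ⟨r₀, hr⟩ := h
  refine ⟨r₀, fun r hr₀ f hf => ?_⟩
  rw [← hr r hr₀ f hf]
  show (homL c β τ₁ τ₂ hτ₁ hτ₂ (hat c ρ) (hat c ρ) L hL.1 f).1 1 = L f
  rw [homL_apply, map_one]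
  rfl

theorem XI_comp (c : κ → ι) (β : ι → ι') (τ₁ τ₂ τ₃ : ι → ℤ) (hτ₁ : Function.Injective τ₁)
    (hτ₂ : Function.Injective τ₂) (hτ₃ : Function.Injective τ₃)
    (ρ : Representation ℂ (lev F c) V)
    (Φ : ISp c β τ₁ hτ₁ (hat c ρ) →ₗ[ℂ] ISp c β τ₂ hτ₂ (hat c ρ))
    (Ψ : ISp c β τ₂ hτ₂ (hat c ρ) →ₗ[ℂ] ISp c β τ₃ hτ₃ (hat c ρ))
    (hΦ : Φ ∈ XI c β τ₁ hτ₁ τ₂ hτ₂ ρ) (hΨ : Ψ ∈ XI c β τ₂ hτ₂ τ₃ hτ₃ ρ) :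
    Ψ ∘ₗ Φ ∈ XI c β τ₁ hτ₁ τ₃ hτ₃ ρ := by
  refine ⟨fun g f => ?_, fun y f => ?_⟩
  · rw [LinearMap.comp_apply, hΦ.1 g f, hΨ.1 g]
    rfl
  · rw [LinearMap.comp_apply, hΦ.2 y f, hΨ.2 y]
    rfl

theorem LeadI_add (c : κ → ι) (β : ι → ι') (τ₁ τ₂ : ι → ℤ) (hτ₁ : Function.Injective τ₁)
    (hτ₂ : Function.Injective τ₂) (ρ : Representation ℂ (lev F c) V)
    (Φ Ψ : ISp c β τ₁ hτ₁ (hat c ρ) →ₗ[ℂ] ISp c β τ₂ hτ₂ (hat c ρ))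
    (ℓ ℓ' : MvPowerSeries ι ℂ) (h : LeadI c β τ₁ hτ₁ τ₂ hτ₂ ρ Φ ℓ)
    (h' : LeadI c β τ₁ hτ₁ τ₂ hτ₂ ρ Ψ ℓ') : LeadI c β τ₁ hτ₁ τ₂ hτ₂ ρ (Φ + Ψ) (ℓ + ℓ') := by
  have := lead_add c β τ₁ τ₂ hτ₁ ρ _ _ ℓ ℓ' h h'
  rwa [← LinearMap.comp_add] at this

theorem LeadI_op (c : κ → ι) (β : ι → ι') (τ₁ τ₂ : ι → ℤ) (hτ₁ : Function.Injective τ₁)
    (hτ₂ : Function.Injective τ₂) (ρ : Representation ℂ (lev F c) V)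
    (Φ : ISp c β τ₁ hτ₁ (hat c ρ) →ₗ[ℂ] ISp c β τ₂ hτ₂ (hat c ρ))
    (ℓ y : MvPowerSeries ι ℂ) (h : LeadI c β τ₁ hτ₁ τ₂ hτ₂ ρ Φ ℓ) :
    LeadI c β τ₁ hτ₁ τ₂ hτ₂ ρ (opI c β τ₂ hτ₂ ρ y ∘ₗ Φ) (y * ℓ) := by
  exact lead_op c β τ₁ τ₂ hτ₁ ρ _ ℓ y h

section

variable (c : κ → ι) (hcs : Function.Surjective c) (β : ι → ι') (τ₁ τ₂ : ι → ℤ)
  (hτ₁ : Function.Injective τ₁) (hτ₂ : Function.Injective τ₂)
  (ρ : Representation ℂ (lev F c) V) (hρ : IsSm ρ) (hi : Irr ρ) (hc : Cusp c ρ)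

include hcs hρ hi hc

/-- an operator is determined by its leading coefficient -/
theorem XI_ext (Φ Ψ : ISp c β τ₁ hτ₁ (hat c ρ) →ₗ[ℂ] ISp c β τ₂ hτ₂ (hat c ρ))
    (hΦ : Φ ∈ XI c β τ₁ hτ₁ τ₂ hτ₂ ρ) (hΨ : Ψ ∈ XI c β τ₁ hτ₁ τ₂ hτ₂ ρ)
    (ℓ : MvPowerSeries ι ℂ) (h : LeadI c β τ₁ hτ₁ τ₂ hτ₂ ρ Φ ℓ)
    (h' : LeadI c β τ₁ hτ₁ τ₂ hτ₂ ρ Ψ ℓ) : Φ = Ψ := by
  have h1 := X1_ext c hcs β τ₁ τ₂ hτ₁ hτ₂ ρ hρ hi hc _ _ (XI_X1 c β τ₁ hτ₁ τ₂ hτ₂ ρ Φ hΦ)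
    (XI_X1 c β τ₁ hτ₁ τ₂ hτ₂ ρ Ψ hΨ) ℓ h h'
  refine LinearMap.ext fun f => Subtype.ext (funext fun g => ?_)
  have h2 := LinearMap.congr_fun h1 (IRp c β τ₁ hτ₁ (hat c ρ) g f)
  have h3 : ∀ Ξ : ISp c β τ₁ hτ₁ (hat c ρ) →ₗ[ℂ] ISp c β τ₂ hτ₂ (hat c ρ),
      Equi (IRp c β τ₁ hτ₁ (hat c ρ)) (IRp c β τ₂ hτ₂ (hat c ρ)) Ξ →
      ev1 c β τ₂ hτ₂ (hat c ρ) (Ξ (IRp c β τ₁ hτ₁ (hat c ρ) g f)) = (Ξ f).1 g := by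
    intro Ξ hΞ
    rw [hΞ g f]
    show (Ξ f).1 (1 * g) = _
    rw [one_mul]
  rw [← h3 Φ hΦ.1, ← h3 Ψ hΨ.1]
  exact h2

/-- `XI τ τ` consists of the power series -/
theorem XI_self (Φ : ISp c β τ₁ hτ₁ (hat c ρ) →ₗ[ℂ] ISp c β τ₁ hτ₁ (hat c ρ))
    (hΦ : Φ ∈ XI c β τ₁ hτ₁ τ₁ hτ₁ ρ) :
    ∃ ℓ : MvPowerSeries ι ℂ, Φ = opI c β τ₁ hτ₁ ρ ℓ := by
  obtain ⟨ℓ, hℓ⟩ := X1_self c hcs β τ₁ τ₁ hτ₁ hτ₁ ρ hρ hi hc _ (XI_X1 c β τ₁ hτ₁ τ₁ hτ₁ ρ Φ hΦ)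
  refine ⟨ℓ, LinearMap.ext fun f => Subtype.ext (funext fun g => ?_)⟩
  have h2 := hℓ (IRp c β τ₁ hτ₁ (hat c ρ) g f)
  rw [LinearMap.comp_apply, hΦ.1 g f] at h2
  have h3 : (Φ f).1 (1 * g) = opE V ℓ (f.1 (1 * g)) := h2
  rw [one_mul] at h3
  exact h3

end

/-- nonzero power series act surjectively on polynomials: a linear functional vanishing on the
image is a power series `g` with `f * g = 0` -/
theorem LeadI_psEnd_surj {ι : Type} (f : MvPowerSeries ι ℂ) (hf : f ≠ 0) :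
    Function.Surjective (psEnd f) := by
  classical
  rw [← LinearMap.range_eq_top]
  by_contra hne
  obtain ⟨φ, hφ, hle⟩ := Submodule.exists_le_ker_of_lt_top _ (lt_top_iff_ne_top.2 hne)
  let g : MvPowerSeries ι ℂ := fun β => φ (IsoPs_e β)
  have hg : ∀ β, MvPowerSeries.coeff β g = φ (IsoPs_e β) := fun _ => rfl
  have h0 : f * g = 0 := by
    ext β
    rw [MvPowerSeries.coeff_mul, map_zero]
    have h1 : φ (psEnd f (IsoPs_e β)) = 0 := hle ⟨_, rfl⟩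
    rw [IsoPs_psEnd, map_sum] at h1
    rw [← h1]
    refine Finset.sum_congr ?_ fun p _ => ?_
    · congr
    · rw [map_smul, hg, smul_eq_mul]
  rcases mul_eq_zero.1 h0 with h | h
  · exact hf h
  · apply hφ
    apply (MvPolynomial.basisMonomials ι ℂ).ext
    intro β
    rw [MvPolynomial.coe_basisMonomials]
    show φ (MvPolynomial.monomial β 1) = 0
    rw [IsoPs_mono, map_smul, ← hg, h]
    simp

theorem LeadI_opE_surj {ι : Type} (y : MvPowerSeries ι ℂ) (hy : y ≠ 0) :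
    Function.Surjective (opE V y) := by
  have h := LinearMap.lTensor_surjective V (LeadI_psEnd_surj y hy)
  exact h

/-- nonzero power series act surjectively -/
theorem opI_surj (c : κ → ι) (β : ι → ι') (τ : ι → ℤ) (hτ : Function.Injective τ)
    (ρ : Representation ℂ (lev F c) V) (hρ : IsSm ρ) (y : MvPowerSeries ι ℂ) (hy : y ≠ 0) :
    Function.Surjective (opI c β τ hτ ρ y) := by
  have hT : Equi (twist (dh c β τ) (hat c ρ)) (twist (dh c β τ) (hat c ρ)) (opE V y) := by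
    intro m v
    show opE V y ((dh c β τ m : ℂ) • hat c ρ m v) = (dh c β τ m : ℂ) • hat c ρ m (opE V y v)
    rw [map_smul, opE_equi c ρ y m v]
  have hs : IsSm (twist (dh c β τ) (hat c ρ)) :=
    sm_twist c β τ (hat c ρ) (hat_smooth c ρ hρ)
  exact ind_surj c (fun i => β (c i)) (fun i => τ (c i)) (ordD_cond c β τ hτ)
    (twist (dh c β τ) (hat c ρ)) (twist (dh c β τ) (hat c ρ)) hs hs (opE V y) hT
    (LeadI_opE_surj y hy)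

end

end Pool.Agent.Lib.MP_ca1492_al.D5
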