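import Mathlib
import Pool.Agent.Lib.MP_ca1492_al.D5.CutB
import Pool.Agent.Lib.MP_ca1492_al.D5.LeadI

/-!
# MP_ca1492_al, D5, module ChainA: leading coefficients along reduced paths

`StepOp`: an operator between neighbouring orders (exchange of `a` and `b`); `Good τ₀ τ₁ Φ ℓ`: an operator
`I_τ₀ → I_τ₁` with leading coefficient `ℓ` and the support property. `good_step`: the leading coefficients
multiply along reduced paths.

* `npair_self`: the set is empty. `npair_step`: (if `τ₁ a < τ₁ b`, `τ₀ a < τ₀ b`) the pairs `(i, j)` for `τ₂ = swO τ₁ a b` are those for `τ₁` and the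
  pairs with `c i = b`, `c j = a`; the latter are the pairs of `npair c (mrg a b) τ₁ τ₂`.
-/

set_option autoImplicit false

namespace Pool.Agent.Lib.MP_ca1492_al.D5

open Pool.Agent.Lib.MP_ca1492_al.P
open Topology Matrix ValuativeRel TensorProduct

noncomputable section

variable {F : Type} [Field F] [ValuativeRel F] [TopologicalSpace F]
  [IsNonarchimedeanLocalField F]
variable {κ : Type} [Fintype κ] [DecidableEq κ]
variable {ι : Type} [Fintype ι] [DecidableEq ι]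
variable {V : Type} [AddCommGroup V] [Module ℂ V]

/-- an operator between neighbouring orders -/
structure StepOp (c : κ → ι) (τ₁ τ₂ : ι → ℤ) (hτ₁ : Function.Injective τ₁)
    (hτ₂ : Function.Injective τ₂) (a b : ι) (ρ : Representation ℂ (lev F c) V)
    (e : MvPowerSeries ι ℂ)
    (Φ : ISp c cst τ₁ hτ₁ (hat c ρ) →ₗ[ℂ] ISp c cst τ₂ hτ₂ (hat c ρ)) : Prop where
  adj : AdjS (cst : ι → Unit) τ₁ a b
  eq : τ₂ = swO τ₁ a b
  mem : Φ ∈ XI c cst τ₁ hτ₁ τ₂ hτ₂ ρ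
  loc : ∀ (f : ISp c cst τ₁ hτ₁ (hat c ρ)) (g : lev F (fun i => cst (c i))), (Φ f).1 g ≠ 0 →
    ∃ m : lev F (fun i => mrg a b (c i)), f.1 (incM c cst a b rfl m * g) ≠ 0
  lead : ∃ r₀ : ℕ, ∀ r : ℕ, r₀ ≤ r → ∀ f : ISp c cst τ₁ hτ₁ (hat c ρ),
    (∀ g k : lev F (fun i => cst (c i)), k.1 ∈ Kc F κ r → f.1 (g * k) = f.1 g) →
    (∀ m : lev F (fun i => mrg a b (c i)), f.1 (incM c cst a b rfl m) ≠ 0 →
      ∃ p ∈ upp F (fun i => mrg a b (c i)) (fun i => τ₁ (c i)), ∃ k ∈ Kc F κ r,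
        m.1 = p * k) →
    (Φ f).1 1 = Cr F c (mrg a b) τ₁ τ₂ r • opE V e (f.1 1)

/-- an operator with leading coefficient and support property -/
structure Good (c : κ → ι) (τ₀ τ₁ : ι → ℤ) (hτ₀ : Function.Injective τ₀)
    (hτ₁ : Function.Injective τ₁) (ρ : Representation ℂ (lev F c) V)
    (Φ : ISp c cst τ₀ hτ₀ (hat c ρ) →ₗ[ℂ] ISp c cst τ₁ hτ₁ (hat c ρ))
    (ℓ : MvPowerSeries ι ℂ) : Prop where
  mem : Φ ∈ XI c cst τ₀ hτ₀ τ₁ hτ₁ ρ
  sup : ∀ (f : ISp c cst τ₀ hτ₀ (hat c ρ)) (g : lev F (fun i => cst (c i))), (Φ f).1 g ≠ 0 →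
    ∃ y, f.1 y ≠ 0 ∧ Rel (fun i => τ₁ (c i)) g.1 (fun i => τ₀ (c i)) y.1
  lead : LeadI c cst τ₀ hτ₀ τ₁ hτ₁ ρ Φ ℓ

theorem npair_self {ι' : Type} (c : κ → ι) (β : ι → ι') (τ : ι → ℤ) : npair c β τ τ = 0 := by
  classical
  unfold npair
  rw [Finset.card_eq_zero, Finset.filter_eq_empty_iff]
  rintro p - ⟨_, h1, h2⟩
  exact lt_asymm h1 h2

theorem ChainA_key (τ₀ τ₁ : ι → ℤ) (hτ₀ : Function.Injective τ₀)
    (hτ₁ : Function.Injective τ₁) (a b : ι)
    (h : AdjS (cst : ι → Unit) τ₁ a b) (h0 : τ₁ a < τ₁ b ↔ τ₀ a < τ₀ b) (x y : ι) :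
    ((swO τ₁ a b x < swO τ₁ a b y ∧ τ₀ y < τ₀ x) ↔
      (τ₁ x < τ₁ y ∧ τ₀ y < τ₀ x) ∨
      (mrg a b x = mrg a b y ∧ swO τ₁ a b x < swO τ₁ a b y ∧ τ₁ y < τ₁ x)) ∧
    ¬ ((τ₁ x < τ₁ y ∧ τ₀ y < τ₀ x) ∧
      (mrg a b x = mrg a b y ∧ swO τ₁ a b x < swO τ₁ a b y ∧ τ₁ y < τ₁ x)) := by
  have hne := h.ne
  have e1 : swO τ₁ a b a = τ₁ b := by simp [swO]
  have e2 : swO τ₁ a b b = τ₁ a := by simp [swO]
  have e3 : ∀ z, z ≠ a → z ≠ b → swO τ₁ a b z = τ₁ z := fun z h1 h2 => by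
    simp only [swO, Equiv.swap_apply_of_ne_of_ne h1 h2]
  have m1 : mrg a b a = a := by simp [mrg, hne]
  have m2 : mrg a b b = a := by simp [mrg]
  have m3 : ∀ z, z ≠ b → mrg a b z = z := fun z h1 => by simp [mrg, h1]
  have i1 : τ₁ a ≠ τ₁ b := fun h => hne (hτ₁ h)
  have i0 : τ₀ a ≠ τ₀ b := fun h => hne (hτ₀ h)
  have ad : ∀ z, z ≠ a → z ≠ b → (τ₁ z < τ₁ a ∧ τ₁ z < τ₁ b ∨ τ₁ a < τ₁ z ∧ τ₁ b < τ₁ z) :=
    fun z h1 h2 => h.adj z rfl h1 h2
  by_cases xa : x = a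
  · subst xa
    by_cases ya : y = x
    · subst ya
      simp
    · by_cases yb : y = b
      · subst yb
        rw [e1, e2, m1, m2]
        constructor
        · constructor
          · rintro ⟨h1, h2⟩; right; exact ⟨rfl, h1, h1⟩
          · rintro (⟨h1, h2⟩ | ⟨_, h1, h2⟩)
            · omega
            · omega
        · rintro ⟨⟨h1, h2⟩, _, h3, h4⟩; omega
      · have := ad y ya yb
        rw [e1, e3 y ya yb, m1, m3 y yb]
        constructor
        · constructor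
          · rintro ⟨h1, h2⟩; left; omega
          · rintro (⟨h1, h2⟩ | ⟨hh, h1, h2⟩)
            · omega
            · exact absurd hh.symm ya
        · rintro ⟨⟨h1, h2⟩, _, h3, h4⟩; omega
  · by_cases xb : x = b
    · subst xb
      by_cases ya : y = a
      · subst ya
        rw [e1, e2, m1, m2]
        constructor
        · constructor
          · rintro ⟨h1, h2⟩; right; exact ⟨rfl, h1, h1⟩
          · rintro (⟨h1, h2⟩ | ⟨_, h1, h2⟩)
            · omega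
            · omega
        · rintro ⟨⟨h1, h2⟩, _, h3, h4⟩; omega
      · by_cases yb : y = x
        · subst yb
          simp
        · have := ad y ya yb
          rw [e2, e3 y ya yb, m2, m3 y yb]
          constructor
          · constructor
            · rintro ⟨h1, h2⟩; left; omega
            · rintro (⟨h1, h2⟩ | ⟨hh, h1, h2⟩)
              · omega
              · exact absurd hh.symm ya
          · rintro ⟨⟨h1, h2⟩, _, h3, h4⟩; omega
    · have hx := ad x xa xb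
      rw [e3 x xa xb, m3 x xb]
      by_cases ya : y = a
      · subst ya
        rw [e1, m1]
        constructor
        · constructor
          · rintro ⟨h1, h2⟩; left; omega
          · rintro (⟨h1, h2⟩ | ⟨hh, h1, h2⟩)
            · omega
            · exact absurd hh xa
        · rintro ⟨⟨h1, h2⟩, _, h3, h4⟩; omega
      · by_cases yb : y = b
        · subst yb
          rw [e2, m2]
          constructor
          · constructor
            · rintro ⟨h1, h2⟩; left; omega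
            · rintro (⟨h1, h2⟩ | ⟨hh, h1, h2⟩)
              · omega
              · exact absurd hh xa
          · rintro ⟨⟨h1, h2⟩, _, h3, h4⟩; omega
        · rw [e3 y ya yb, m3 y yb]
          constructor
          · constructor
            · rintro ⟨h1, h2⟩; left; omega
            · rintro (⟨h1, h2⟩ | ⟨hh, h1, h2⟩)
              · omega
              · omega
          · rintro ⟨⟨h1, h2⟩, _, h3, h4⟩; omega

theorem npair_step (c : κ → ι) (τ₀ τ₁ : ι → ℤ) (hτ₀ : Function.Injective τ₀)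
    (hτ₁ : Function.Injective τ₁) (a b : ι)
    (h : AdjS (cst : ι → Unit) τ₁ a b) (h0 : τ₁ a < τ₁ b ↔ τ₀ a < τ₀ b) :
    npair c cst τ₀ (swO τ₁ a b) =
      npair c cst τ₀ τ₁ + npair c (mrg a b) τ₁ (swO τ₁ a b) := by
  classical
  unfold npair
  rw [← Finset.card_union_of_disjoint]
  · congr 1
    ext p
    simp only [Finset.mem_filter, Finset.mem_univ, true_and, Finset.mem_union]
    have := (ChainA_key τ₀ τ₁ hτ₀ hτ₁ a b h h0 (c p.1) (c p.2)).1
    exact this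
  · rw [Finset.disjoint_left]
    intro p hp hp'
    simp only [Finset.mem_filter, Finset.mem_univ, true_and] at hp hp'
    exact (ChainA_key τ₀ τ₁ hτ₀ hτ₁ a b h h0 (c p.1) (c p.2)).2 ⟨hp, hp'⟩

theorem good_id (c : κ → ι) (τ : ι → ℤ) (hτ : Function.Injective τ)
    (ρ : Representation ℂ (lev F c) V) :
    Good c τ τ hτ hτ ρ LinearMap.id 1 := by
  refine ⟨⟨fun g f => rfl, fun y f => rfl⟩, fun f g hg => ⟨g, hg, rel_refl _ _⟩, 0,
    fun r _ f _ => ?_⟩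
  rw [opE_one, Cr, npair_self, mul_zero, pow_zero, inv_one, one_smul]
  rfl

theorem good_step (c : κ → ι) (τ₀ τ₁ τ₂ : ι → ℤ) (hτ₀ : Function.Injective τ₀)
    (hτ₁ : Function.Injective τ₁) (hτ₂ : Function.Injective τ₂) (a b : ι)
    (ρ : Representation ℂ (lev F c) V) (e ℓ : MvPowerSeries ι ℂ)
    (Φ : ISp c cst τ₀ hτ₀ (hat c ρ) →ₗ[ℂ] ISp c cst τ₁ hτ₁ (hat c ρ))
    (Ψ : ISp c cst τ₁ hτ₁ (hat c ρ) →ₗ[ℂ] ISp c cst τ₂ hτ₂ (hat c ρ))
    (hΦ : Good c τ₀ τ₁ hτ₀ hτ₁ ρ Φ ℓ) (hΨ : StepOp c τ₁ τ₂ hτ₁ hτ₂ a b ρ e Ψ)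
    (h0 : τ₁ a < τ₁ b ↔ τ₀ a < τ₀ b) : Good c τ₀ τ₂ hτ₀ hτ₂ ρ (Ψ ∘ₗ Φ) (e * ℓ) := by
  obtain ⟨hadj, rfl, hmem, hloc, r₁, hlead⟩ := hΨ
  obtain ⟨r₂, hΦl⟩ := hΦ.lead
  refine ⟨XI_comp c cst τ₀ τ₁ _ hτ₀ hτ₁ hτ₂ ρ Φ Ψ hΦ.mem hmem, ?_, max (max r₁ r₂) 1, ?_⟩
  · intro f g hg
    obtain ⟨m, hm⟩ := hloc (Φ f) g hg
    obtain ⟨y, hy, hrel⟩ := hΦ.sup f _ hm
    exact ⟨y, hy, rel_step c τ₀ τ₁ hτ₀ hτ₁ a b hadj h0 g.1 y.1 m.1 m.2 hrel⟩
  · intro r hr f hf
    have hr1 : r₁ ≤ r := le_trans (le_trans (le_max_left _ _) (le_max_left _ _)) hr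
    have hr2 : r₂ ≤ r := le_trans (le_trans (le_max_right _ _) (le_max_left _ _)) hr
    have hr3 : 1 ≤ r := le_trans (le_max_right _ _) hr
    have h1 := hlead r hr1 (Φ f) ?_ ?_
    · show (Ψ (Φ f)).1 1 = _
      have h2 : (Φ f).1 1 = Cr F c cst τ₀ τ₁ r • opE V ℓ (f.1 1) := hΦl r hr2 f hf
      rw [h1, h2, map_smul, ← opE_mul, smul_smul]
      congr 1
      unfold Cr
      rw [npair_step c τ₀ τ₁ hτ₀ hτ₁ a b hadj h0, mul_add, pow_add, mul_inv, mul_comm]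
    · intro g k hk
      have h3 : IRp c cst τ₀ hτ₀ (hat c ρ) k f = f :=
        Subtype.ext (funext fun x => hf.1 x k hk)
      have h4 : IRp c cst τ₁ hτ₁ (hat c ρ) k (Φ f) = Φ f := by
        rw [← hΦ.mem.1 k f, h3]
      exact congrFun (congrArg Subtype.val h4) g
    · intro m hm
      obtain ⟨y, hy, hrel⟩ := hΦ.sup f _ hm
      obtain ⟨p, hp, k, hk, hpk⟩ := hf.2 y hy
      rw [hpk] at hrel
      exact rel_cut c τ₀ τ₁ hτ₀ hτ₁ a b hadj h0 m.1 p k m.2 hp r hr3 hk hrel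

end

end Pool.Agent.Lib.MP_ca1492_al.D5
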