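import Mathlib
import Pool.Agent.Lib.MP_ca1492_al.D5.LeadI
import Pool.Agent.Lib.MP_ca1492_al.D5.UpA

/-!
# MP_ca1492_al, D5, module Up: from the rank one Levi subgroups to the big group

`mrg a b` merges the blocks `a` and `b` (`b ↦ a`); `c' = mrg a b ∘ c`, `lev F c' = M_ab`.
`AdjS β τ a b`: `a ≠ b` in the same `β`-class, and no block of this class between them for the order `τ` (the
relative order of `a` and `b` is arbitrary).
`rsF f g = (h ↦ (dh c' β τ h)⁻¹ • f (h g))` on `M_ab`: it maps `I_τ` for the ambient group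
`lev F (β ∘ c)` to `I_τ` for the ambient group `M_ab`.

* `rs_mem`: `f (h h' g)` with `h' ∈ N_τ ∩ M_ab ≤ N_τ`: the equivariance under `m ∈ lev F c` uses
  `dh c β τ m = dh c (mrg a b) τ m * dh c' β τ m` (`ex_split`). Right invariance: `f (h u g) = f (h g (g⁻¹ u g))`,
  and `dh c' β τ (h u) = dh c' β τ h` for `u ∈ Kc 0` (`vl_Kc`).
* `rs_N`: for `n ∈ N_rest = uni F (β ∘ c) (τ ∘ c')` and `h ∈ M_ab`: `h n h⁻¹ ∈ N_rest ≤ N_τ`
  (`uni_norm` for the parabolic datum with Levi subgroup `M_ab`), so `f (h n g) = f (h g)`.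
* `rs_act`: `rs (R_m f) g' = ...`, clear from the definition: `rsF (R_g f) g' h = χ(h)⁻¹ f (h g' g)`, and
  `rsF f (m g) h = χ(h)⁻¹ f (h m g) = χ(m) (rsF f g)(h m)` for `m ∈ M_ab`.
* `up_FS`: `n ∈ N_τ₂ = N_rest ⋊ (N_τ₂ ∩ M_ab)` (`parD_chain` of `P/ParD.lean`), where `N_rest` is the same
  for `τ` and `τ₂ = τ ∘ swap a b`; `rs_N`, `rs_act`, `dh = 1` on unipotent elements (`vl_uni`). `m ∈ lev F c`:
  `rs_act`, `ex_split` for `τ₂` (`AdjS.sw`), `chi_swap`.
* `up_lead`: if `KS c β τ r f` then `rs f 1` is right `K_r`-invariant and `(rs f 1) h ≠ 0` implies `h = p k`,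
  `p ∈ P_τ`, `k ∈ K_r`; the block of the last rows: `h_bb` invertible and `h_bb⁻¹ h_ba ∈ lat r`, because
  `h_ba = p_bb k_ba`, `h_bb = p_bb k_bb` if `b` is the last block; in general multiply by the element of `P_τ`
  ... simplest: let `S = {i | τ b ≤ τ (c i)}`; `h_{S,*} = p_{S,S} k_{S,*}`; `h ∈ M_ab` has `h_{S,S}` block
  triangular, so `h_bb` is invertible and `h_bb⁻¹ h_ba` = the `(b, a)` entries of
  `h_{SS}⁻¹ h_{S,Sᶜ} = k_{SS}⁻¹ k_{S,Sᶜ}`, in `lat r`. (This is `cut_step` of `Cut.lean` for the empty path.)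
* `up_comp`: `rs_{τ₂} (Φ f) 1 = Φ_M (rs_τ f 1)` where `Φ`, `Φ_M` are the operators of `up t` and `t`:
  evaluate at `h`: `χ(h)⁻¹ t (rs f h)`, and `rs f h = χ(h) R_h (rs f 1)`.
-/

set_option autoImplicit false

namespace Pool.Agent.Lib.MP_ca1492_al.D5

open Pool.Agent.Lib.MP_ca1492_al.P
open Topology Matrix ValuativeRel TensorProduct

noncomputable section

variable {F : Type} [Field F] [ValuativeRel F] [TopologicalSpace F]
  [IsNonarchimedeanLocalField F]
variable {κ : Type} [Fintype κ] [DecidableEq κ]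
variable {ι ι' : Type} [Fintype ι] [DecidableEq ι]
variable {V E E' : Type} [AddCommGroup V] [Module ℂ V] [AddCommGroup E] [Module ℂ E]
  [AddCommGroup E'] [Module ℂ E']

/-- the function on `M_ab` -/
def rsF (c : κ → ι) (β : ι → ι') (τ : ι → ℤ) (a b : ι) (hβ : β a = β b)
    (f : lev F (fun i => β (c i)) → E) (g : lev F (fun i => β (c i))) :
    lev F (fun i => mrg a b (c i)) → E := fun h =>
  (((dh (fun i => mrg a b (c i)) β τ h)⁻¹ : ℂˣ) : ℂ) • f (incM c β a b hβ h * g)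

/-- `lev F c ≤ M_ab` -/
theorem Up_lev (c : κ → ι) (a b : ι) {m : GL κ F} (hm : m ∈ lev F c) :
    m ∈ lev F (fun i => mrg a b (c i)) := by
  intro i j hij
  exact hm i j fun h => hij (congrArg (mrg a b) h)

/-- `N_τ ∩ M_ab ≤ N_τ` -/
theorem Up_uni (c : κ → ι) (β : ι → ι') (τ : ι → ℤ) (a b : ι) (h : β a = β b) {n : GL κ F}
    (hn : n ∈ uni F (fun i => mrg a b (c i)) (fun i => τ (c i))) :
    n ∈ uni F (fun i => β (c i)) (fun i => τ (c i)) :=
  ⟨⟨mrg_le c β a b h n hn.1.1, hn.1.2⟩, hn.2⟩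

/-- the condition for the datum with Levi subgroup `M_ab` -/
theorem Up_cond (c : κ → ι) (β : ι → ι') (τ : ι → ℤ) (hτ : Function.Injective τ) (a b : ι)
    (h : β a = β b) : ∀ i j, mrg a b (c i) = mrg a b (c j) ↔
      β (c i) = β (c j) ∧ τ (mrg a b (c i)) = τ (mrg a b (c j)) := by
  intro i j
  constructor
  · intro h1
    refine ⟨?_, congrArg τ h1⟩
    rw [← beta_mrg β a b h (c i), h1, beta_mrg β a b h]
  · intro h1
    exact hτ h1.2

/-- `N_rest ≤ N_τ` -/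
theorem Up_rest (c : κ → ι) (β : ι → ι') (τ : ι → ℤ) (hτ : Function.Injective τ) (a b : ι)
    (h : AdjS β τ a b) {n : GL κ F}
    (hn : n ∈ uni F (fun i => β (c i)) (fun i => τ (mrg a b (c i)))) :
    n ∈ uni F (fun i => β (c i)) (fun i => τ (c i)) := by
  refine ⟨⟨hn.1.1, fun i j hij => ?_⟩, fun i j hij => ?_⟩
  · have hij' : τ (c j) < τ (c i) := hij
    by_cases hb : β (c i) = β (c j)
    · by_cases hm : mrg a b (c i) = mrg a b (c j)
      · rw [hn.2 i j (congrArg τ hm), Matrix.one_apply_ne]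
        rintro rfl
        exact lt_irrefl _ hij'
      · exact hn.1.2 i j ((h.lt_iff (c j) (c i) hb.symm (fun h' => hm h'.symm)).1 hij')
    · exact hn.1.1 i j hb
  · have hc : c i = c j := hτ hij
    exact hn.2 i j (by show τ (mrg a b (c i)) = τ (mrg a b (c j)); rw [hc])

/-- `P_τ ≤ P_rest` -/
theorem Up_upp (c : κ → ι) (β : ι → ι') (τ : ι → ℤ) (a b : ι)
    (h : AdjS β τ a b) {p : GL κ F}
    (hp : p ∈ upp F (fun i => β (c i)) (fun i => τ (c i))) :
    p ∈ upp F (fun i => β (c i)) (fun i => τ (mrg a b (c i))) := by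
  refine ⟨hp.1, fun i j hij => ?_⟩
  have hij' : τ (mrg a b (c j)) < τ (mrg a b (c i)) := hij
  by_cases hb : β (c i) = β (c j)
  · refine hp.2 i j ((h.lt_iff (c j) (c i) hb.symm fun h' => ?_).2 hij')
    rw [h'] at hij'
    exact lt_irrefl _ hij'
  · exact hp.1 i j hb

/-- `dh` of an element of `M` -/
theorem Up_dh (c : κ → ι) (β : ι → ι') (τ : ι → ℤ) (a b : ι) (h : AdjS β τ a b)
    (m : GL κ F) (hm : m ∈ lev F c) :
    dh c β τ ⟨m, hm⟩ = dh c (mrg a b) τ ⟨m, hm⟩ *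
      dh (fun i => mrg a b (c i)) β τ ⟨m, Up_lev c a b hm⟩ := by
  rw [dh_apply, dh_apply, dh_apply, ex_split c β τ a b h m hm, neg_add, _root_.zpow_add]

theorem Up_dh_sw (c : κ → ι) (β : ι → ι') (τ : ι → ℤ) (a b : ι) (h : AdjS β τ a b)
    (m : lev F (fun i => mrg a b (c i))) :
    dh (fun i => mrg a b (c i)) β (swO τ a b) m = dh (fun i => mrg a b (c i)) β τ m := by
  rw [dh_apply, dh_apply, chi_swap c β τ a b h]

theorem rs_mem (c : κ → ι) (β : ι → ι') (τ : ι → ℤ) (hτ : Function.Injective τ) (a b : ι)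
    (h : AdjS β τ a b) (σ : Representation ℂ (lev F c) E)
    (f : ISp c β τ hτ σ) (g : lev F (fun i => β (c i))) :
    rsF c β τ a b h.hβ f.1 g ∈ ISp c (mrg a b) τ hτ σ := by
  obtain ⟨hf, U, hU, hfU⟩ := (mem_ISp c β τ hτ σ f.1).1 f.2
  rw [mem_ISp]
  refine ⟨fun m hm n hn x => ?_, ?_⟩
  · have hn' := Up_uni c β τ a b h.hβ hn
    have h1 := hf m hm n hn' (incM c β a b h.hβ x * g)
    have h2 : incM c β a b h.hβ (⟨m, (ordD (F := F) c (mrg a b) τ hτ).hM hm⟩ *
        ⟨n, (ordD (F := F) c (mrg a b) τ hτ).hN hn⟩ * x) * g =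
        ⟨m, (ordD (F := F) c β τ hτ).hM hm⟩ * ⟨n, (ordD (F := F) c β τ hτ).hN hn'⟩ *
          (incM c β a b h.hβ x * g) := by
      apply Subtype.ext
      show (m * n * x.1) * g.1 = m * n * (x.1 * g.1)
      rw [mul_assoc (m * n)]
    have h3 : dh (fun i => mrg a b (c i)) β τ
        (⟨n, (ordD (F := F) c (mrg a b) τ hτ).hN hn⟩ : lev F (fun i => mrg a b (c i))) = 1 := by
      refine dh_eq_one _ _ _ _ fun y => ?_
      exact vl_uni (fun i => mrg a b (c i)) (fun i => τ (c i)) n hn y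
    unfold rsF
    rw [h2, h1, map_mul, map_mul, h3, mul_one, Up_dh c β τ a b h m hm, map_smul, smul_smul,
      smul_smul]
    congr 1
    rw [_root_.mul_inv_rev, Units.val_mul, Units.val_mul]
    have h4 : (((dh (fun i => mrg a b (c i)) β τ
        (⟨m, (ordD (F := F) c (mrg a b) τ hτ).hM hm⟩ : lev F (fun i => mrg a b (c i))))⁻¹ : ℂˣ) : ℂ) *
        ((dh (fun i => mrg a b (c i)) β τ ⟨m, Up_lev c a b hm⟩ : ℂˣ) : ℂ) = 1 := by
      rw [← Units.val_mul]
      show (((dh (fun i => mrg a b (c i)) β τ ⟨m, Up_lev c a b hm⟩)⁻¹ *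
        dh (fun i => mrg a b (c i)) β τ ⟨m, Up_lev c a b hm⟩ : ℂˣ) : ℂ) = 1
      rw [inv_mul_cancel, Units.val_one]
    linear_combination ((((dh (fun i => mrg a b (c i)) β τ x)⁻¹ : ℂˣ) : ℂ) *
      (dh c (mrg a b) τ ⟨m, hm⟩ : ℂ)) * h4
  · let φ : lev F (fun i => mrg a b (c i)) →* lev F (fun i => β (c i)) :=
      (MulAut.conj g⁻¹).toMonoidHom.comp (incM c β a b h.hβ)
    refine ⟨U.comap φ ⊓ (Kc F κ 0).subgroupOf (lev F (fun i => mrg a b (c i))), ?_, ?_⟩
    · refine IsOpen.inter ?_ ?_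
      · have hcont : Continuous φ := by
          have h1 : Continuous (incM (F := F) c β a b h.hβ) :=
            Continuous.subtype_mk continuous_subtype_val _
          show Continuous fun x => g⁻¹ * incM c β a b h.hβ x * (g⁻¹)⁻¹
          exact (continuous_const.mul h1).mul continuous_const
        exact hU.preimage hcont
      · exact (Kc_isOpen 0).preimage continuous_subtype_val
    · rintro x u ⟨hu1, hu2⟩
      have h5 : dh (fun i => mrg a b (c i)) β τ u = 1 :=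
        dh_eq_one _ _ _ _ fun y => vl_Kc _ u.1 u.2 hu2 y
      unfold rsF
      rw [map_mul (dh (fun i => mrg a b (c i)) β τ), h5, mul_one]
      congr 1
      have h6 : incM c β a b h.hβ (x * u) * g =
          (incM c β a b h.hβ x * g) * (g⁻¹ * incM c β a b h.hβ u * (g⁻¹)⁻¹) := by
        rw [map_mul]
        group
      rw [h6]
      exact hfU _ _ hu1

/-- restriction to `M_ab` -/
def rs (c : κ → ι) (β : ι → ι') (τ : ι → ℤ) (hτ : Function.Injective τ) (a b : ι)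
    (h : AdjS β τ a b) (σ : Representation ℂ (lev F c) E) (g : lev F (fun i => β (c i))) :
    ISp c β τ hτ σ →ₗ[ℂ] ISp c (mrg a b) τ hτ σ where
  toFun f := ⟨rsF c β τ a b h.hβ f.1 g, rs_mem c β τ hτ a b h σ f g⟩
  map_add' f f' := Subtype.ext (funext fun x => smul_add _ _ _)
  map_smul' z f := Subtype.ext (funext fun x => smul_comm _ _ _)

/-- the functional on the big group -/
def up (c : κ → ι) (β : ι → ι') (τ : ι → ℤ) (hτ : Function.Injective τ) (a b : ι)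
    (h : AdjS β τ a b) (σ : Representation ℂ (lev F c) E)
    (t : ISp c (mrg a b) τ hτ σ →ₗ[ℂ] E') : ISp c β τ hτ σ →ₗ[ℂ] E' :=
  t ∘ₗ rs c β τ hτ a b h σ 1

theorem rs_act (c : κ → ι) (β : ι → ι') (τ : ι → ℤ) (hτ : Function.Injective τ) (a b : ι)
    (h : AdjS β τ a b) (σ : Representation ℂ (lev F c) E) (f : ISp c β τ hτ σ)
    (m : lev F (fun i => mrg a b (c i))) :
    rs c β τ hτ a b h σ 1 (IRp c β τ hτ σ (incM c β a b h.hβ m) f) =
      (dh (fun i => mrg a b (c i)) β τ m : ℂ) •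
        IRp c (mrg a b) τ hτ σ m (rs c β τ hτ a b h σ 1 f) := by
  refine Subtype.ext (funext fun x => ?_)
  show (((dh (fun i => mrg a b (c i)) β τ x)⁻¹ : ℂˣ) : ℂ) •
      f.1 (incM c β a b h.hβ x * 1 * incM c β a b h.hβ m) =
    (dh (fun i => mrg a b (c i)) β τ m : ℂ) •
      ((((dh (fun i => mrg a b (c i)) β τ (x * m))⁻¹ : ℂˣ) : ℂ) •
        f.1 (incM c β a b h.hβ (x * m) * 1))
  rw [mul_one, mul_one, map_mul (incM c β a b h.hβ), smul_smul]
  congr 1
  rw [← Units.val_mul]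
  congr 1
  rw [map_mul, _root_.mul_inv_rev, mul_inv_cancel_left]

theorem rs_N (c : κ → ι) (β : ι → ι') (τ : ι → ℤ) (hτ : Function.Injective τ) (a b : ι)
    (h : AdjS β τ a b) (σ : Representation ℂ (lev F c) E) (f : ISp c β τ hτ σ)
    (n : lev F (fun i => β (c i)))
    (hn : n.1 ∈ uni F (fun i => β (c i)) (fun i => τ (mrg a b (c i)))) :
    rs c β τ hτ a b h σ 1 (IRp c β τ hτ σ n f) = rs c β τ hτ a b h σ 1 f := by
  refine Subtype.ext (funext fun x => ?_)
  show (((dh (fun i => mrg a b (c i)) β τ x)⁻¹ : ℂˣ) : ℂ) •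
      f.1 (incM c β a b h.hβ x * 1 * n) =
    (((dh (fun i => mrg a b (c i)) β τ x)⁻¹ : ℂˣ) : ℂ) • f.1 (incM c β a b h.hβ x * 1)
  congr 1
  rw [mul_one]
  have h1 : x.1 * n.1 * x.1⁻¹ ∈ uni F (fun i => β (c i)) (fun i => τ (mrg a b (c i))) :=
    uni_norm (fun i => mrg a b (c i)) (fun i => β (c i)) (fun i => τ (mrg a b (c i)))
      (Up_cond c β τ hτ a b h.hβ) x.1 n.1 x.2 hn
  have h2 := Up_rest c β τ hτ a b h h1
  obtain ⟨hf, -⟩ := (mem_ISp c β τ hτ σ f.1).1 f.2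
  have h3 := hf 1 (lev F c).one_mem _ h2 (incM c β a b h.hβ x)
  have h4 : (⟨1, (ordD (F := F) c β τ hτ).hM (lev F c).one_mem⟩ : lev F (fun i => β (c i))) *
      ⟨x.1 * n.1 * x.1⁻¹, (ordD (F := F) c β τ hτ).hN h2⟩ * incM c β a b h.hβ x =
      incM c β a b h.hβ x * n := by
    apply Subtype.ext
    show 1 * (x.1 * n.1 * x.1⁻¹) * x.1 = x.1 * n.1
    group
  have h5 : (⟨1, (lev F c).one_mem⟩ : lev F c) = 1 := rfl
  rw [h4, h5, map_one, map_one, Units.val_one, one_smul] at h3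
  exact h3

theorem up_FS (c : κ → ι) (β : ι → ι') (τ : ι → ℤ) (hτ : Function.Injective τ) (a b : ι)
    (h : AdjS β τ a b) (σ : Representation ℂ (lev F c) E) (σ' : Representation ℂ (lev F c) E')
    (t : ISp c (mrg a b) τ hτ σ →ₗ[ℂ] E') (ht : t ∈ FS c (mrg a b) τ hτ (swO τ a b) σ σ') :
    up c β τ hτ a b h σ t ∈ FS c β τ hτ (swO τ a b) σ σ' := by
  have hsτ := swO_inj τ hτ a b
  refine ⟨fun n hn f => ?_, fun m hm hm' f => ?_⟩
  · -- decomposition of `n`
    have hch := parD_chain (F := F) c (fun i => mrg a b (c i)) (fun i => β (c i))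
      (fun i => τ (mrg a b (c i))) (fun i => swO τ a b (c i)) (fun i => swO τ a b (c i))
      (Up_cond c β τ hτ a b h.hβ)
      (fun i j => ⟨fun h1 => ⟨congrArg (mrg a b) h1, congrArg (swO τ a b) h1⟩,
        fun h1 => hsτ h1.2⟩)
      (fun i j => ⟨fun h1 => ⟨congrArg β h1, congrArg (swO τ a b) h1⟩, fun h1 => hsτ h1.2⟩) ?_
    · obtain ⟨n₁, hn₁, n₂, hn₂, h3⟩ := (hch n.1).1 hn
      have hn₁' : n₁ ∈ uni F (fun i => β (c i)) (fun i => τ (mrg a b (c i))) := hn₁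
      have hn₂' : n₂ ∈ uni F (fun i => mrg a b (c i)) (fun i => swO τ a b (c i)) := hn₂
      set N₁ : lev F (fun i => β (c i)) := ⟨n₁, hn₁'.1.1⟩ with hN₁
      set N₂ : lev F (fun i => mrg a b (c i)) := ⟨n₂, hn₂'.1.1⟩ with hN₂
      have h4 : n = N₁ * incM c β a b h.hβ N₂ := Subtype.ext h3
      have h5 : dh (fun i => mrg a b (c i)) β τ N₂ = 1 :=
        dh_eq_one _ _ _ _ fun y =>
          vl_uni (fun i => mrg a b (c i)) (fun i => swO τ a b (c i)) n₂ hn₂' y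
      show t (rs c β τ hτ a b h σ 1 (IRp c β τ hτ σ n f)) = t (rs c β τ hτ a b h σ 1 f)
      rw [h4, map_mul, Module.End.mul_apply, rs_N c β τ hτ a b h σ _ N₁ hn₁', rs_act, h5,
        Units.val_one, one_smul]
      exact ht.1 N₂ hn₂' _
    · intro i j hij
      show swO τ a b (c i) < swO τ a b (c j) ↔ τ (mrg a b (c i)) < τ (mrg a b (c j)) ∨
        (τ (mrg a b (c i)) = τ (mrg a b (c j)) ∧ swO τ a b (c i) < swO τ a b (c j))
      by_cases hm : mrg a b (c i) = mrg a b (c j)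
      · rw [hm]
        simp
      · have h1 := h.sw.lt_iff (c i) (c j) hij hm
        have h2 : swO τ a b (mrg a b (c i)) < swO τ a b (mrg a b (c j)) ↔
            τ (mrg a b (c i)) < τ (mrg a b (c j)) := by
          refine h.swO_iff _ _ ?_ (UpA_ne a b h.ne _) (UpA_ne a b h.ne _)
          rw [beta_mrg β a b h.hβ, beta_mrg β a b h.hβ]
          exact hij
        have h3 : τ (mrg a b (c i)) ≠ τ (mrg a b (c j)) := fun h' => hm (hτ h')
        rw [h1, h2]
        simp [h3]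
  · have h1 : (⟨m, hm'⟩ : lev F (fun i => β (c i))) =
        incM c β a b h.hβ ⟨m, Up_lev c a b hm⟩ := rfl
    show t (rs c β τ hτ a b h σ 1 (IRp c β τ hτ σ ⟨m, hm'⟩ f)) =
      (dh c β (swO τ a b) ⟨m, hm⟩ : ℂ) • σ' ⟨m, hm⟩ (t (rs c β τ hτ a b h σ 1 f))
    rw [h1, rs_act, map_smul, ht.2 m hm (Up_lev c a b hm), smul_smul,
      Up_dh c β (swO τ a b) a b h.sw m hm, Up_dh_sw c β τ a b h, Units.val_mul, mul_comm]

theorem up_X1 (c : κ → ι) (β : ι → ι') (τ : ι → ℤ) (hτ : Function.Injective τ) (a b : ι)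
    (h : AdjS β τ a b) (ρ : Representation ℂ (lev F c) V)
    (t : ISp c (mrg a b) τ hτ (hat c ρ) →ₗ[ℂ] V ⊗[ℂ] MvPolynomial ι ℂ)
    (ht : t ∈ X1 c (mrg a b) τ hτ (swO τ a b) ρ) :
    up c β τ hτ a b h (hat c ρ) t ∈ X1 c β τ hτ (swO τ a b) ρ := by
  refine ⟨up_FS c β τ hτ a b h (hat c ρ) (hat c ρ) t ht.1, fun y f => ?_⟩
  have h1 : rs c β τ hτ a b h (hat c ρ) 1 (opI c β τ hτ ρ y f) =
      opI c (mrg a b) τ hτ ρ y (rs c β τ hτ a b h (hat c ρ) 1 f) :=
    Subtype.ext (funext fun x => ((opE V y).map_smul _ _).symm)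
  show t (rs c β τ hτ a b h (hat c ρ) 1 (opI c β τ hτ ρ y f)) = _
  rw [h1]
  exact ht.2 y _

/-- test functions restrict to test functions -/
theorem rs_KS (c : κ → ι) (β : ι → ι') (τ : ι → ℤ) (hτ : Function.Injective τ) (a b : ι)
    (h : AdjS β τ a b) (σ : Representation ℂ (lev F c) E) (r : ℕ) (f : ISp c β τ hτ σ)
    (hf : KS c β τ r f.1) : KS c (mrg a b) τ r (rs c β τ hτ a b h σ 1 f).1 := by
  refine ⟨fun x k hk => ?_, fun x hx => ?_⟩
  · have h5 : dh (fun i => mrg a b (c i)) β τ k = 1 :=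
      dh_eq_one _ _ _ _ fun y => vl_Kc _ k.1 k.2 (Kc_anti (Nat.zero_le r) hk) y
    show (((dh (fun i => mrg a b (c i)) β τ (x * k))⁻¹ : ℂˣ) : ℂ) •
        f.1 (incM c β a b h.hβ (x * k) * 1) =
      (((dh (fun i => mrg a b (c i)) β τ x)⁻¹ : ℂˣ) : ℂ) • f.1 (incM c β a b h.hβ x * 1)
    rw [map_mul (dh (fun i => mrg a b (c i)) β τ), h5, mul_one, mul_one, mul_one, map_mul]
    congr 1
    exact hf.1 _ _ hk
  · have h1 : f.1 (incM c β a b h.hβ x * 1) ≠ 0 := by
      intro h0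
      apply hx
      show (((dh (fun i => mrg a b (c i)) β τ x)⁻¹ : ℂˣ) : ℂ) •
        f.1 (incM c β a b h.hβ x * 1) = 0
      rw [h0, smul_zero]
    rw [mul_one] at h1
    obtain ⟨p, hp, k, hk, hpk⟩ := hf.2 _ h1
    have hpk' : x.1 = p * k := hpk
    have hcond := Up_cond c β τ hτ a b h.hβ
    have hp' := Up_upp c β τ a b h hp
    obtain ⟨hx1, hx2, hx3⟩ := prL_lev (fun i => mrg a b (c i)) (fun i => β (c i))
      (fun i => τ (mrg a b (c i))) hcond x.1 x.2
    have hk' : k ∈ upp F (fun i => β (c i)) (fun i => τ (mrg a b (c i))) := by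
      have h3 : k = p⁻¹ * x.1 := by
        rw [hpk']
        group
      rw [h3]
      exact (upp F _ _).mul_mem ((upp F _ _).inv_mem hp') hx2
    set P : PPs F (fun i => β (c i)) (fun i => τ (mrg a b (c i))) := ⟨⟨p, hp'.1⟩, hp'⟩ with hP
    set K : PPs F (fun i => β (c i)) (fun i => τ (mrg a b (c i))) := ⟨⟨k, hk'.1⟩, hk'⟩ with hK
    have h4 : (⟨⟨x.1, hx1⟩, hx2⟩ : PPs F (fun i => β (c i)) (fun i => τ (mrg a b (c i)))) =
        P * K := Subtype.ext (Subtype.ext hpk')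
    rw [h4, map_mul] at hx3
    refine ⟨(prL (fun i => mrg a b (c i)) (fun i => β (c i)) (fun i => τ (mrg a b (c i)))
      hcond P).1, ⟨(prL _ _ _ hcond P).2, fun i j hij => ?_⟩,
      (prL (fun i => mrg a b (c i)) (fun i => β (c i)) (fun i => τ (mrg a b (c i)))
      hcond K).1, ?_, (congrArg Subtype.val hx3).symm⟩
    · rw [prL_apply]
      split_ifs
      · exact hp.2 i j hij
      · rfl
    · have hkey : ∀ K : PPs F (fun i => β (c i)) (fun i => τ (mrg a b (c i))),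
          (∀ i j, ((K.1.1 : Matrix κ κ F) - 1) i j ∈ lat F r) →
          ∀ i j, (((prL (fun i => mrg a b (c i)) (fun i => β (c i))
            (fun i => τ (mrg a b (c i))) hcond K).1 : Matrix κ κ F) - 1) i j ∈ lat F r := by
        intro K hK i j
        rw [Matrix.sub_apply, prL_apply]
        split_ifs with hij
        · exact hK i j
        · rw [Matrix.one_apply_ne]
          · rw [sub_zero]
            exact (lat F r).zero_mem
          · rintro rfl
            exact hij rfl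
      refine ⟨hkey K hk.1, ?_⟩
      have h6 := hkey K⁻¹ hk.2
      rw [map_inv] at h6
      exact h6

theorem up_lead (c : κ → ι) (β : ι → ι') (τ : ι → ℤ) (hτ : Function.Injective τ) (a b : ι)
    (h : AdjS β τ a b) (ρ : Representation ℂ (lev F c) V)
    (t : ISp c (mrg a b) τ hτ (hat c ρ) →ₗ[ℂ] V ⊗[ℂ] MvPolynomial ι ℂ)
    (ℓ : MvPowerSeries ι ℂ) (ht : IsLead c (mrg a b) τ hτ (swO τ a b) ρ t ℓ) :
    IsLead c β τ hτ (swO τ a b) ρ (up c β τ hτ a b h (hat c ρ) t) ℓ := by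
  obtain ⟨r₀, hr⟩ := ht
  refine ⟨r₀, fun r hr₀ f hf => ?_⟩
  have h1 := hr r hr₀ (rs c β τ hτ a b h (hat c ρ) 1 f)
    (rs_KS c β τ hτ a b h (hat c ρ) r f hf)
  have h2 : (rs c β τ hτ a b h (hat c ρ) 1 f).1 1 = f.1 1 := by
    show (((dh (fun i => mrg a b (c i)) β τ 1)⁻¹ : ℂˣ) : ℂ) •
      f.1 (incM c β a b h.hβ 1 * 1) = f.1 1
    rw [map_one, map_one, inv_one, Units.val_one, one_smul, mul_one]
  have h3 : npair c β τ (swO τ a b) = npair c (mrg a b) τ (swO τ a b) := by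
    have h4 := npair_up c β τ hτ a b h
    have h5 := npair_up c (mrg a b) τ hτ a b h.mrg
    exact_mod_cast h4.trans h5.symm
  show t (rs c β τ hτ a b h (hat c ρ) 1 f) = _
  rw [h1, h2]
  unfold Cr
  rw [h3]

/-- composition -/
theorem up_comp (c : κ → ι) (β : ι → ι') (τ : ι → ℤ) (hτ : Function.Injective τ) (a b : ι)
    (h : AdjS β τ a b) (σ : Representation ℂ (lev F c) E) (σ' : Representation ℂ (lev F c) E')
    (t : ISp c (mrg a b) τ hτ σ →ₗ[ℂ] E') (ht : t ∈ FS c (mrg a b) τ hτ (swO τ a b) σ σ')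
    (f : ISp c β τ hτ σ) :
    rs c β (swO τ a b) (swO_inj τ hτ a b) a b h.sw σ' 1 (homL c β τ (swO τ a b) hτ (swO_inj τ hτ a b) σ σ'
      (up c β τ hτ a b h σ t) (up_FS c β τ hτ a b h σ σ' t ht) f) =
      homL c (mrg a b) τ (swO τ a b) hτ (swO_inj τ hτ a b) σ σ' t ht
        (rs c β τ hτ a b h σ 1 f) := by
  refine Subtype.ext (funext fun x => ?_)
  rw [homL_apply]
  show (((dh (fun i => mrg a b (c i)) β (swO τ a b) x)⁻¹ : ℂˣ) : ℂ) •
      (homL c β τ (swO τ a b) hτ (swO_inj τ hτ a b) σ σ'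
        (up c β τ hτ a b h σ t) (up_FS c β τ hτ a b h σ σ' t ht) f).1
          (incM c β a b h.hβ x * 1) = _
  rw [homL_apply, mul_one, Up_dh_sw c β τ a b h]
  show (((dh (fun i => mrg a b (c i)) β τ x)⁻¹ : ℂˣ) : ℂ) •
    t (rs c β τ hτ a b h σ 1 (IRp c β τ hτ σ (incM c β a b h.hβ x) f)) = _
  rw [rs_act, map_smul, smul_smul, ← Units.val_mul, inv_mul_cancel, Units.val_one, one_smul]

end

end Pool.Agent.Lib.MP_ca1492_al.D5
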