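import Mathlib
import Pool.Agent.Lib.MP_ca1492_al.D5.ChainA
import Pool.Agent.Lib.MP_ca1492_al.D5.Up

/-!
# MP_ca1492_al, D5, module Step: `StepOp` from the functional on the rank one Levi subgroup
-/

set_option autoImplicit false

namespace Pool.Agent.Lib.MP_ca1492_al.D5

open Pool.Agent.Lib.MP_ca1492_al.P
open Topology Matrix ValuativeRel TensorProduct

noncomputable section

variable {F : Type} [Field F] [ValuativeRel F] [TopologicalSpace F]
  [IsNonarchimedeanLocalField F]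
variable {κ : Type} [Fintype κ] [DecidableEq κ]
variable {ι : Type} [Fintype ι] [DecidableEq ι]
variable {V : Type} [AddCommGroup V] [Module ℂ V]

/-- the operator on the big group defined by the functional `t` on `M_ab` -/
def stepI (c : κ → ι) (τ : ι → ℤ) (hτ : Function.Injective τ) (a b : ι)
    (h : AdjS (cst : ι → Unit) τ a b) (ρ : Representation ℂ (lev F c) V)
    (t : ISp c (mrg a b) τ hτ (hat c ρ) →ₗ[ℂ] V ⊗[ℂ] MvPolynomial ι ℂ)
    (ht : t ∈ X1 c (mrg a b) τ hτ (swO τ a b) ρ) :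
    ISp c cst τ hτ (hat c ρ) →ₗ[ℂ] ISp c cst (swO τ a b) (swO_inj τ hτ a b) (hat c ρ) :=
  homL c cst τ (swO τ a b) hτ (swO_inj τ hτ a b) (hat c ρ) (hat c ρ)
    (up c cst τ hτ a b h (hat c ρ) t) (up_X1 c cst τ hτ a b h ρ t ht).1

theorem stepI_apply (c : κ → ι) (τ : ι → ℤ) (hτ : Function.Injective τ) (a b : ι)
    (h : AdjS (cst : ι → Unit) τ a b) (ρ : Representation ℂ (lev F c) V)
    (t : ISp c (mrg a b) τ hτ (hat c ρ) →ₗ[ℂ] V ⊗[ℂ] MvPolynomial ι ℂ)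
    (ht : t ∈ X1 c (mrg a b) τ hτ (swO τ a b) ρ) (f : ISp c cst τ hτ (hat c ρ))
    (g : lev F (fun i => cst (c i))) :
    (stepI c τ hτ a b h ρ t ht f).1 g = t (rs c cst τ hτ a b h (hat c ρ) g f) := by
  unfold stepI
  rw [homL_apply c cst τ (swO τ a b) hτ (swO_inj τ hτ a b) (hat c ρ) (hat c ρ)
    (up c cst τ hτ a b h (hat c ρ) t) (up_X1 c cst τ hτ a b h ρ t ht).1 f g]
  show t _ = t _
  congr 1
  refine Subtype.ext (funext fun x => ?_)
  show _ • f.1 _ = _ • f.1 _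
  rw [mul_one]

theorem stepI_one (c : κ → ι) (τ : ι → ℤ) (hτ : Function.Injective τ) (a b : ι)
    (h : AdjS (cst : ι → Unit) τ a b) (ρ : Representation ℂ (lev F c) V)
    (t : ISp c (mrg a b) τ hτ (hat c ρ) →ₗ[ℂ] V ⊗[ℂ] MvPolynomial ι ℂ)
    (ht : t ∈ X1 c (mrg a b) τ hτ (swO τ a b) ρ) (f : ISp c cst τ hτ (hat c ρ)) :
    (stepI c τ hτ a b h ρ t ht f).1 1 = t (rs c cst τ hτ a b h (hat c ρ) 1 f) :=
  stepI_apply c τ hτ a b h ρ t ht f 1

theorem stepI_stepOp (c : κ → ι) (τ : ι → ℤ) (hτ : Function.Injective τ) (a b : ι)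
    (h : AdjS (cst : ι → Unit) τ a b) (ρ : Representation ℂ (lev F c) V)
    (t : ISp c (mrg a b) τ hτ (hat c ρ) →ₗ[ℂ] V ⊗[ℂ] MvPolynomial ι ℂ)
    (ht : t ∈ X1 c (mrg a b) τ hτ (swO τ a b) ρ) (e : MvPowerSeries ι ℂ)
    (he : IsLead c (mrg a b) τ hτ (swO τ a b) ρ t e) :
    StepOp c τ (swO τ a b) hτ (swO_inj τ hτ a b) a b ρ e (stepI c τ hτ a b h ρ t ht) := by
  obtain ⟨r₀, hr₀⟩ := he
  refine ⟨h, rfl, homL_XI c cst τ hτ (swO τ a b) (swO_inj τ hτ a b) ρ _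
    (up_X1 c cst τ hτ a b h ρ t ht), ?_, r₀, ?_⟩
  · intro f g hg
    rw [stepI_apply] at hg
    by_contra hcon
    push Not at hcon
    apply hg
    have h1 : rs c cst τ hτ a b h (hat c ρ) g f = 0 := by
      refine Subtype.ext (funext fun x => ?_)
      show _ • f.1 _ = 0
      rw [hcon x, smul_zero]
    rw [h1, map_zero]
  · intro r hr f hf hf'
    rw [stepI_one]
    have h1 : (rs c cst τ hτ a b h (hat c ρ) 1 f).1 1 = f.1 1 := by
      show (((dh (fun i => mrg a b (c i)) cst τ 1)⁻¹ : ℂˣ) : ℂ) • f.1 _ = f.1 1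
      rw [map_one, inv_one, Units.val_one, one_smul, map_one, one_mul]
    rw [hr₀ r hr _ ?_, h1]
    have hval : ∀ x, (rs c cst τ hτ a b h (hat c ρ) 1 f).1 x =
        (((dh (fun i => mrg a b (c i)) cst τ x)⁻¹ : ℂˣ) : ℂ) • f.1 (incM c cst a b h.hβ x) := by
      intro x
      show _ • f.1 (_ * 1) = _
      rw [mul_one]
    refine ⟨fun g k hk => ?_, fun g hg => ?_⟩
    · rw [hval, hval, map_mul, map_mul, hf _ (incM c cst a b h.hβ k) hk]
      have h3 : dh (fun i => mrg a b (c i)) (cst : ι → Unit) τ k = 1 :=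
        dh_eq_one _ _ _ _ (fun x => vl_Kc _ _ k.2 (Kc_anti (Nat.zero_le r) hk) x)
      rw [h3, mul_one]
    · rw [hval] at hg
      obtain ⟨p, hp, k, hk, h4⟩ := hf' g (fun h5 => hg (by
        have h6 : f.1 (incM c cst a b h.hβ g) = 0 := h5
        rw [h6, smul_zero]))
      exact ⟨p, hp, k, hk, h4⟩

end

end Pool.Agent.Lib.MP_ca1492_al.D5
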