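import Mathlib
import Pool.Agent.Lib.MP_ca1492_al.D5.OpComb
import Pool.Agent.Lib.MP_ca1492_al.D5.Step

/-!
# MP_ca1492_al, D5, module OpSys: the system of normalised intertwining operators

`ι = Fin n` (the strands), an order is a permutation `σ : Perm (Fin n)` (position ↦ strand),
`ordP σ x` = position of the strand `x`. `RkSys`: the rank one functionals with leading coefficients `e a b`
(for `a` before `b`) and squares `q a b`.

* `good_exists`: induction on the number of crossings, `good_step`.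
-/

set_option autoImplicit false

namespace Pool.Agent.Lib.MP_ca1492_al.D5

open Pool.Agent.Lib.MP_ca1492_al.P
open Topology Matrix ValuativeRel TensorProduct CA1492

noncomputable section

variable {F : Type} [Field F] [ValuativeRel F] [TopologicalSpace F]
  [IsNonarchimedeanLocalField F]
variable {κ : Type} [Fintype κ] [DecidableEq κ]
variable {V : Type} [AddCommGroup V] [Module ℂ V]
variable {n : ℕ}

/-- the space for the order `σ` -/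
abbrev IP (c : κ → Fin n) (ρ : Representation ℂ (lev F c) V) (σ : Equiv.Perm (Fin n)) :
    Submodule ℂ (lev F (fun i => cst (c i)) → V ⊗[ℂ] MvPolynomial (Fin n) ℂ) :=
  ISp c cst (ordP σ) (ordP_inj σ) (hat c ρ)

/-- rank one functionals -/
structure RkSys (c : κ → Fin n) (ρ : Representation ℂ (lev F c) V) where
  e : Fin n → Fin n → MvPowerSeries (Fin n) ℂ
  q : Fin n → Fin n → MvPowerSeries (Fin n) ℂ
  hex : ∀ (a b : Fin n) (_ : a ≠ b) (τ τ' : Fin n → ℤ) (hτ : Function.Injective τ)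
    (hτ' : Function.Injective τ') (_ : τ' = swO τ a b) (_ : τ a < τ b),
    ∃ (t : ISp c (mrg a b) τ hτ (hat c ρ) →ₗ[ℂ] V ⊗[ℂ] MvPolynomial (Fin n) ℂ)
      (t' : ISp c (mrg a b) τ' hτ' (hat c ρ) →ₗ[ℂ] V ⊗[ℂ] MvPolynomial (Fin n) ℂ)
      (ht : t ∈ X1 c (mrg a b) τ hτ τ' ρ) (_ : t' ∈ X1 c (mrg a b) τ' hτ' τ ρ),
      IsLead c (mrg a b) τ hτ τ' ρ t (e a b) ∧ IsLead c (mrg a b) τ' hτ' τ ρ t' (e b a) ∧
      ∀ f : ISp c (mrg a b) τ hτ (hat c ρ),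
        t' (homL c (mrg a b) τ τ' hτ hτ' (hat c ρ) (hat c ρ) t ht.1 f) =
          opE V (q a b) (f.1 1)

/-- the leading coefficient -/
def ldP {c : κ → Fin n} {ρ : Representation ℂ (lev F c) V} (S : RkSys c ρ)
    (σ σ' : Equiv.Perm (Fin n)) : MvPowerSeries (Fin n) ℂ :=
  ∏ p ∈ cross σ σ', S.e p.1 p.2

theorem ldP_self {c : κ → Fin n} {ρ : Representation ℂ (lev F c) V} (S : RkSys c ρ)
    (σ : Equiv.Perm (Fin n)) : ldP S σ σ = 1 := by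
  unfold ldP
  rw [cross_self, Finset.prod_empty]

theorem ldP_sw {c : κ → Fin n} {ρ : Representation ℂ (lev F c) V} (S : RkSys c ρ)
    (σ σ' : Equiv.Perm (Fin n)) (r : ℕ) (h : r + 1 < n)
    (hr : ordP σ (σ' ⟨r, by omega⟩) < ordP σ (σ' ⟨r + 1, h⟩)) :
    ldP S σ (σ' * sw n r) = S.e (σ' ⟨r, by omega⟩) (σ' ⟨r + 1, h⟩) * ldP S σ σ' := by
  obtain ⟨h1, h2⟩ := cross_sw σ σ' r h hr
  unfold ldP
  rw [h2, Finset.prod_insert h1]

section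

variable (c : κ → Fin n) (hcs : Function.Surjective c) (ρ : Representation ℂ (lev F c) V)
  (hρ : IsSm ρ) (hi : Irr ρ) (hc : Cusp c ρ) (S : RkSys c ρ)

/-- the elementary step -/
theorem stepP (σ σ' : Equiv.Perm (Fin n)) (r : ℕ) (h : r + 1 < n) (hσ' : σ' = σ * sw n r) :
    ∃ Φ : IP c ρ σ →ₗ[ℂ] IP c ρ σ',
      StepOp c (ordP σ) (ordP σ') (ordP_inj σ) (ordP_inj σ') (σ ⟨r, by omega⟩)
        (σ ⟨r + 1, h⟩) ρ (S.e (σ ⟨r, by omega⟩) (σ ⟨r + 1, h⟩)) Φ := by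
  subst hσ'
  obtain ⟨t, t', ht, ht', h1, h2, h3⟩ := S.hex (σ ⟨r, by omega⟩) (σ ⟨r + 1, h⟩)
    (adjP σ r h).ne (ordP σ) (swO (ordP σ) (σ ⟨r, by omega⟩) (σ ⟨r + 1, h⟩)) (ordP_inj σ)
    (swO_inj _ (ordP_inj σ) _ _) rfl (by
      rw [ordP_apply, ordP_apply]
      exact_mod_cast Nat.lt_succ_self r)
  have h4 := stepI_stepOp c (ordP σ) (ordP_inj σ) _ _ (adjP σ r h) ρ t ht _ h1
  have key : ∀ (τ' : Fin n → ℤ) (hτ' : Function.Injective τ')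
      (_ : τ' = swO (ordP σ) (σ ⟨r, by omega⟩) (σ ⟨r + 1, h⟩)),
      ∃ Φ : IP c ρ σ →ₗ[ℂ] ISp c cst τ' hτ' (hat c ρ),
        StepOp c (ordP σ) τ' (ordP_inj σ) hτ' (σ ⟨r, by omega⟩)
          (σ ⟨r + 1, h⟩) ρ (S.e (σ ⟨r, by omega⟩) (σ ⟨r + 1, h⟩)) Φ := by
    rintro τ' hτ' rfl
    exact ⟨_, h4⟩
  exact key (ordP (σ * sw n r)) (ordP_inj _) (ordP_sw σ r h)

theorem good_exists (m : ℕ) (σ σ' : Equiv.Perm (Fin n)) (hm : (cross σ σ').card = m) :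
    ∃ Φ : IP c ρ σ →ₗ[ℂ] IP c ρ σ',
      Good c (ordP σ) (ordP σ') (ordP_inj σ) (ordP_inj σ') ρ Φ (ldP S σ σ') := by
  induction m generalizing σ' with
  | zero =>
    rw [Finset.card_eq_zero] at hm
    obtain rfl := cross_eq_empty σ σ' hm
    refine ⟨LinearMap.id, ?_⟩
    rw [ldP_self]
    exact good_id c (ordP σ) (ordP_inj σ) ρ
  | succ m ih =>
    obtain ⟨r, h, hr⟩ := exists_desc σ σ' (by
      intro h
      rw [h, Finset.card_empty] at hm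
      omega)
    set σ'' := σ' * sw n r with hσ''
    have hsw : σ'' * sw n r = σ' := by
      rw [hσ'', mul_assoc]
      have : sw n r * sw n r = 1 := by
        unfold sw
        rw [dif_pos h, Equiv.swap_mul_self]
      rw [this, mul_one]
    have h1 : σ'' ⟨r, by omega⟩ = σ' ⟨r + 1, h⟩ := by
      rw [hσ'']
      unfold sw
      rw [dif_pos h, Equiv.Perm.mul_apply, Equiv.swap_apply_left]
    have h2 : σ'' ⟨r + 1, h⟩ = σ' ⟨r, by omega⟩ := by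
      rw [hσ'']
      unfold sw
      rw [dif_pos h, Equiv.Perm.mul_apply, Equiv.swap_apply_right]
    have hr' : ordP σ (σ'' ⟨r, by omega⟩) < ordP σ (σ'' ⟨r + 1, h⟩) := by
      rw [h1, h2]
      exact hr
    have h3 := cross_sw σ σ'' r h hr'
    have h4 := ldP_sw S σ σ'' r h hr'
    rw [hsw] at h3 h4
    obtain ⟨Φ, hΦ⟩ := ih σ'' (by
      rw [h3.2, Finset.card_insert_of_notMem h3.1] at hm
      omega)
    obtain ⟨Ψ, hΨ⟩ := stepP c ρ S σ'' σ' r h hsw.symm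
    refine ⟨Ψ ∘ₗ Φ, ?_⟩
    rw [h4]
    refine good_step c (ordP σ) (ordP σ'') (ordP σ') (ordP_inj σ) (ordP_inj σ'') (ordP_inj σ')
      _ _ ρ _ _ Φ Ψ hΦ hΨ ?_
    constructor
    · intro _
      exact hr'
    · intro _
      rw [ordP_apply, ordP_apply]
      exact_mod_cast Nat.lt_succ_self r

/-- the normalised intertwining operator from the order `σ` to the order `σ'` -/
def TT (σ σ' : Equiv.Perm (Fin n)) : IP c ρ σ →ₗ[ℂ] IP c ρ σ' :=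
  (good_exists c ρ S _ σ σ' rfl).choose

theorem TT_good (σ σ' : Equiv.Perm (Fin n)) :
    Good c (ordP σ) (ordP σ') (ordP_inj σ) (ordP_inj σ') ρ (TT c ρ S σ σ') (ldP S σ σ') :=
  (good_exists c ρ S _ σ σ' rfl).choose_spec

include hcs hρ hi hc

theorem TT_unique (σ σ' : Equiv.Perm (Fin n)) (Φ : IP c ρ σ →ₗ[ℂ] IP c ρ σ')
    (h : Φ ∈ XI c cst (ordP σ) (ordP_inj σ) (ordP σ') (ordP_inj σ') ρ)
    (h' : LeadI c cst (ordP σ) (ordP_inj σ) (ordP σ') (ordP_inj σ') ρ Φ (ldP S σ σ')) :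
    Φ = TT c ρ S σ σ' :=
  XI_ext c hcs cst (ordP σ) (ordP σ') (ordP_inj σ) (ordP_inj σ') ρ hρ hi hc Φ _ h
    (TT_good c ρ S σ σ').mem _ h' (TT_good c ρ S σ σ').lead

theorem TT_self (σ : Equiv.Perm (Fin n)) : TT c ρ S σ σ = LinearMap.id := by
  symm
  refine TT_unique c hcs ρ hρ hi hc S σ σ _ (good_id c (ordP σ) (ordP_inj σ) ρ).mem ?_
  rw [ldP_self]
  exact (good_id c (ordP σ) (ordP_inj σ) ρ).lead

/-- the step operator is `TT` -/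
theorem TT_of_step (σ σ' : Equiv.Perm (Fin n)) (r : ℕ) (h : r + 1 < n)
    (hσ' : σ' = σ * sw n r) (Φ : IP c ρ σ →ₗ[ℂ] IP c ρ σ')
    (hΦ : StepOp c (ordP σ) (ordP σ') (ordP_inj σ) (ordP_inj σ') (σ ⟨r, by omega⟩)
      (σ ⟨r + 1, h⟩) ρ (S.e (σ ⟨r, by omega⟩) (σ ⟨r + 1, h⟩)) Φ) :
    Φ = TT c ρ S σ σ' := by
  have h1 : ordP σ (σ ⟨r, by omega⟩) < ordP σ (σ ⟨r + 1, h⟩) := by
    rw [ordP_apply, ordP_apply]
    exact_mod_cast Nat.lt_succ_self r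
  have h2 := good_step c (ordP σ) (ordP σ) (ordP σ') (ordP_inj σ) (ordP_inj σ) (ordP_inj σ')
    _ _ ρ _ _ LinearMap.id Φ (good_id c (ordP σ) (ordP_inj σ) ρ) hΦ (by simp)
  rw [LinearMap.comp_id] at h2
  have h3 := ldP_sw S σ σ r h h1
  rw [ldP_self, ← hσ'] at h3
  refine TT_unique c hcs ρ hρ hi hc S σ σ' Φ h2.mem ?_
  rw [h3]
  exact h2.lead

theorem TT_step (σ σ' σ'' : Equiv.Perm (Fin n)) (r : ℕ) (h : r + 1 < n)
    (hσ'' : σ'' = σ' * sw n r)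
    (hr : ordP σ (σ' ⟨r, by omega⟩) < ordP σ (σ' ⟨r + 1, h⟩)) :
    TT c ρ S σ' σ'' ∘ₗ TT c ρ S σ σ' = TT c ρ S σ σ'' := by
  obtain ⟨Ψ, hΨ⟩ := stepP c ρ S σ' σ'' r h hσ''
  have h1 := TT_of_step c hcs ρ hρ hi hc S σ' σ'' r h hσ'' Ψ hΨ
  rw [← h1]
  have h2 := good_step c (ordP σ) (ordP σ') (ordP σ'') (ordP_inj σ) (ordP_inj σ')
    (ordP_inj σ'') _ _ ρ _ _ _ Ψ (TT_good c ρ S σ σ') hΨ (by
      constructor
      · intro _
        exact hr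
      · intro _
        rw [ordP_apply, ordP_apply]
        exact_mod_cast Nat.lt_succ_self r)
  refine TT_unique c hcs ρ hρ hi hc S σ σ'' _ h2.mem ?_
  have h3 := ldP_sw S σ σ' r h hr
  rw [← hσ''] at h3
  rw [h3]
  exact h2.lead

omit hcs hρ hi hc in
theorem swO_swO {ι : Type} [DecidableEq ι] (τ : ι → ℤ) (a b : ι) :
    swO (swO τ a b) a b = τ := by
  funext x
  unfold swO
  rw [Equiv.swap_apply_self]

omit hcs hρ hi hc in
/-- the step operator of a functional, with the comparison for `rs` -/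
theorem step_full (τ₁ τ₂ : Fin n → ℤ) (hτ₁ : Function.Injective τ₁)
    (hτ₂ : Function.Injective τ₂) (a b : Fin n) (hadj : AdjS (cst : Fin n → Unit) τ₁ a b)
    (heq : τ₂ = swO τ₁ a b) (ρ : Representation ℂ (lev F c) V)
    (t : ISp c (mrg a b) τ₁ hτ₁ (hat c ρ) →ₗ[ℂ] V ⊗[ℂ] MvPolynomial (Fin n) ℂ)
    (ht : t ∈ X1 c (mrg a b) τ₁ hτ₁ τ₂ ρ) (e : MvPowerSeries (Fin n) ℂ)
    (he : IsLead c (mrg a b) τ₁ hτ₁ τ₂ ρ t e) :
    ∃ Φ : ISp c cst τ₁ hτ₁ (hat c ρ) →ₗ[ℂ] ISp c cst τ₂ hτ₂ (hat c ρ),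
      StepOp c τ₁ τ₂ hτ₁ hτ₂ a b ρ e Φ ∧
      (∀ f, (Φ f).1 1 = t (rs c cst τ₁ hτ₁ a b hadj (hat c ρ) 1 f)) ∧
      ∀ (f : ISp c cst τ₁ hτ₁ (hat c ρ)) (h₂ : AdjS (cst : Fin n → Unit) τ₂ a b),
        rs c cst τ₂ hτ₂ a b h₂ (hat c ρ) 1 (Φ f) =
          homL c (mrg a b) τ₁ τ₂ hτ₁ hτ₂ (hat c ρ) (hat c ρ) t ht.1
            (rs c cst τ₁ hτ₁ a b hadj (hat c ρ) 1 f) := by
  subst heq
  refine ⟨stepI c τ₁ hτ₁ a b hadj ρ t ht, stepI_stepOp c τ₁ hτ₁ a b hadj ρ t ht e he,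
    fun f => stepI_one c τ₁ hτ₁ a b hadj ρ t ht f, fun f h₂ => ?_⟩
  exact up_comp c cst τ₁ hτ₁ a b hadj (hat c ρ) (hat c ρ) t ht.1 f

/-- squares: `rs (Φ f) 1 = Φ_M (rs f 1)` (`up_comp`), then the relation of `hex`; the operator of `t'` on the
big group is a step operator (`stepI_stepOp` for the pair `a`, `b` with `b` before `a`), so it is `TT`
(by `XI_ext`: leading coefficient `e b a`). -/
theorem TT_sq (σ σ' : Equiv.Perm (Fin n)) (r : ℕ) (h : r + 1 < n)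
    (hσ' : σ' = σ * sw n r) :
    TT c ρ S σ' σ ∘ₗ TT c ρ S σ σ' =
      opI c cst (ordP σ) (ordP_inj σ) ρ (S.q (σ ⟨r, by omega⟩) (σ ⟨r + 1, h⟩)) := by
  have hsw2 : sw n r * sw n r = 1 := by
    unfold sw
    rw [dif_pos h, Equiv.swap_mul_self]
  have hback : σ' * sw n r = σ := by
    rw [hσ', mul_assoc, hsw2, mul_one]
  have ha : σ' ⟨r + 1, h⟩ = σ ⟨r, by omega⟩ := by
    rw [hσ']
    unfold sw
    rw [dif_pos h, Equiv.Perm.mul_apply, Equiv.swap_apply_right]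
  have hb : σ' ⟨r, by omega⟩ = σ ⟨r + 1, h⟩ := by
    rw [hσ']
    unfold sw
    rw [dif_pos h, Equiv.Perm.mul_apply, Equiv.swap_apply_left]
  have hord : ordP σ' = swO (ordP σ) (σ ⟨r, by omega⟩) (σ ⟨r + 1, h⟩) := by
    rw [hσ']
    exact ordP_sw σ r h
  obtain ⟨t, t', ht, ht', h1, h2, h3⟩ := S.hex (σ ⟨r, by omega⟩) (σ ⟨r + 1, h⟩)
    (adjP σ r h).ne (ordP σ) (ordP σ') (ordP_inj σ) (ordP_inj σ') hord (by
      rw [ordP_apply, ordP_apply]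
      exact_mod_cast Nat.lt_succ_self r)
  obtain ⟨Φ, hΦ, -, hΦ2⟩ := step_full c (ordP σ) (ordP σ') (ordP_inj σ) (ordP_inj σ') _ _
    (adjP σ r h) hord ρ t ht _ h1
  have hadj' : AdjS (cst : Fin n → Unit) (ordP σ') (σ ⟨r, by omega⟩) (σ ⟨r + 1, h⟩) := by
    rw [hord]
    exact (adjP σ r h).sw
  obtain ⟨Ψ, hΨ, hΨ1, -⟩ := step_full c (ordP σ') (ordP σ) (ordP_inj σ') (ordP_inj σ) _ _
    hadj' (by rw [hord]; exact (swO_swO _ _ _).symm) ρ t' ht' _ h2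
  have e1 : Φ = TT c ρ S σ σ' := TT_of_step c hcs ρ hρ hi hc S σ σ' r h hσ' Φ hΦ
  have e2 : Ψ = TT c ρ S σ' σ := by
    have h4 := good_step c (ordP σ') (ordP σ') (ordP σ) (ordP_inj σ') (ordP_inj σ')
      (ordP_inj σ) _ _ ρ _ _ LinearMap.id Ψ (good_id c (ordP σ') (ordP_inj σ') ρ) hΨ Iff.rfl
    rw [LinearMap.comp_id] at h4
    have h5 : ordP σ' (σ' ⟨r, by omega⟩) < ordP σ' (σ' ⟨r + 1, h⟩) := by
      rw [ordP_apply, ordP_apply]
      exact_mod_cast Nat.lt_succ_self r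
    have h6 := ldP_sw S σ' σ' r h h5
    rw [ldP_self, hback, ha, hb] at h6
    refine TT_unique c hcs ρ hρ hi hc S σ' σ Ψ h4.mem ?_
    rw [h6]
    exact h4.lead
  rw [← e1, ← e2]
  have h7 : ∀ f : IP c ρ σ, (Ψ (Φ f)).1 1 =
      opE V (S.q (σ ⟨r, by omega⟩) (σ ⟨r + 1, h⟩)) (f.1 1) := by
    intro f
    rw [hΨ1, hΦ2 f hadj', h3]
    congr 1
    show (((dh (fun i => mrg _ _ (c i)) cst (ordP σ) 1)⁻¹ : ℂˣ) : ℂ) • f.1 _ = f.1 1
    rw [map_one, inv_one, Units.val_one, one_smul, map_one, one_mul]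
  have h8 := XI_comp c cst (ordP σ) (ordP σ') (ordP σ) (ordP_inj σ) (ordP_inj σ') (ordP_inj σ) ρ
    Φ Ψ hΦ.mem hΨ.mem
  refine LinearMap.ext fun f => Subtype.ext (funext fun g => ?_)
  have h9 := h7 (IRp c cst (ordP σ) (ordP_inj σ) (hat c ρ) g f)
  have h10 : (Ψ ∘ₗ Φ) (IRp c cst (ordP σ) (ordP_inj σ) (hat c ρ) g f) =
      IRp c cst (ordP σ) (ordP_inj σ) (hat c ρ) g ((Ψ ∘ₗ Φ) f) := h8.1 g f
  have h11 : ((Ψ ∘ₗ Φ) (IRp c cst (ordP σ) (ordP_inj σ) (hat c ρ) g f)).1 1 =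
      opE V (S.q (σ ⟨r, by omega⟩) (σ ⟨r + 1, h⟩)) (f.1 (1 * g)) := h9
  rw [h10] at h11
  have h12 : ((Ψ ∘ₗ Φ) f).1 (1 * g) =
      opE V (S.q (σ ⟨r, by omega⟩) (σ ⟨r + 1, h⟩)) (f.1 (1 * g)) := h11
  rw [one_mul] at h12
  exact h12

end

end

end Pool.Agent.Lib.MP_ca1492_al.D5
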