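import Mathlib
import Pool.Agent.Lib.MP_ca1492_al.D5.OpSys

/-!
# MP_ca1492_al, D5, module OpSysB: far commutation and braid relation

Both sides are `TT c ρ S σ σ'` for the final order `σ'`: `TT_step` (twice, three times), where the condition
`ordP σ (σ' r) < ordP σ (σ' (r+1))` is checked with `ordP_apply` after evaluating the permutations
(`sw n r` is `Equiv.swap`): e.g. `σ₁ = σ * sw n r` and `s ≠ r, r + 1`: `σ₁ s = σ s`, `σ₁ (s+1) = σ (s+1)`.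
Braid: the orders of the three strands `x y z` at the positions `r, r+1, r+2` are
`xyz → yxz → yzx → zyx` and `xyz → xzy → zxy → zyx`; each step exchanges two strands which are in the order of
`σ`.
-/

set_option autoImplicit false

namespace Pool.Agent.Lib.MP_ca1492_al.D5

open Pool.Agent.Lib.MP_ca1492_al.P
open Topology Matrix ValuativeRel TensorProduct CA1492

noncomputable section

theorem OpSysB_ne (n r : ℕ) (x : Fin n) (h1 : (x : ℕ) ≠ r) (h2 : (x : ℕ) ≠ r + 1) :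
    sw n r x = x := by
  unfold sw
  split_ifs with h
  · exact Equiv.swap_apply_of_ne_of_ne (fun h' => h1 (congrArg Fin.val h'))
      (fun h' => h2 (congrArg Fin.val h'))
  · rfl

theorem OpSysB_left (n r : ℕ) (h : r + 1 < n) : sw n r ⟨r, by omega⟩ = ⟨r + 1, h⟩ := by
  unfold sw
  rw [dif_pos h, Equiv.swap_apply_left]

theorem OpSysB_right (n r : ℕ) (h : r + 1 < n) : sw n r ⟨r + 1, h⟩ = ⟨r, by omega⟩ := by
  unfold sw
  rw [dif_pos h, Equiv.swap_apply_right]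

theorem OpSysB_lt {n : ℕ} (σ : Equiv.Perm (Fin n)) {x y : Fin n} (h : (x : ℕ) < y) :
    ordP σ (σ x) < ordP σ (σ y) := by
  rw [ordP_apply, ordP_apply]
  exact_mod_cast h

variable {F : Type} [Field F] [ValuativeRel F] [TopologicalSpace F]
  [IsNonarchimedeanLocalField F]
variable {κ : Type} [Fintype κ] [DecidableEq κ]
variable {V : Type} [AddCommGroup V] [Module ℂ V]
variable {n : ℕ}

variable (c : κ → Fin n) (hcs : Function.Surjective c) (ρ : Representation ℂ (lev F c) V)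
  (hρ : IsSm ρ) (hi : Irr ρ) (hc : Cusp c ρ) (S : RkSys c ρ)

include hcs hρ hi hc

theorem TT_far (σ σ₁ σ₂ σ₃ : Equiv.Perm (Fin n)) (r s : ℕ) (hrs : r + 1 < s) (hs : s + 1 < n)
    (h1 : σ₁ = σ * sw n r) (h2 : σ₂ = σ * sw n s) (h3 : σ₃ = σ₁ * sw n s)
    (h4 : σ₃ = σ₂ * sw n r) :
    TT c ρ S σ₁ σ₃ ∘ₗ TT c ρ S σ σ₁ = TT c ρ S σ₂ σ₃ ∘ₗ TT c ρ S σ σ₂ := by
  rw [TT_step c hcs ρ hρ hi hc S σ σ₁ σ₃ s hs h3 ?_,
    TT_step c hcs ρ hρ hi hc S σ σ₂ σ₃ r (by omega) h4 ?_]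
  · rw [h2, Equiv.Perm.mul_apply, Equiv.Perm.mul_apply,
      OpSysB_ne n s _ (by show r ≠ s; omega) (by show r ≠ s + 1; omega),
      OpSysB_ne n s _ (by show r + 1 ≠ s; omega) (by show r + 1 ≠ s + 1; omega)]
    exact OpSysB_lt σ (Nat.lt_succ_self r)
  · rw [h1, Equiv.Perm.mul_apply, Equiv.Perm.mul_apply,
      OpSysB_ne n r _ (by show s ≠ r; omega) (by show s ≠ r + 1; omega),
      OpSysB_ne n r _ (by show s + 1 ≠ r; omega) (by show s + 1 ≠ r + 1; omega)]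
    exact OpSysB_lt σ (Nat.lt_succ_self s)

theorem TT_braid (σ σ₁ σ₂ σ₃ σ₁' σ₂' : Equiv.Perm (Fin n)) (r : ℕ) (h : r + 2 < n)
    (h1 : σ₁ = σ * sw n r) (h2 : σ₂ = σ₁ * sw n (r + 1)) (h3 : σ₃ = σ₂ * sw n r)
    (h1' : σ₁' = σ * sw n (r + 1)) (h2' : σ₂' = σ₁' * sw n r)
    (h3' : σ₃ = σ₂' * sw n (r + 1)) :
    TT c ρ S σ₂ σ₃ ∘ₗ TT c ρ S σ₁ σ₂ ∘ₗ TT c ρ S σ σ₁ =
      TT c ρ S σ₂' σ₃ ∘ₗ TT c ρ S σ₁' σ₂' ∘ₗ TT c ρ S σ σ₁' := by
  have a1 : σ₁ ⟨r + 1, by omega⟩ = σ ⟨r, by omega⟩ := by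
    rw [h1, Equiv.Perm.mul_apply, OpSysB_right n r (by omega)]
  have a2 : σ₁ ⟨r + 1 + 1, by omega⟩ = σ ⟨r + 2, by omega⟩ := by
    rw [h1, Equiv.Perm.mul_apply,
      OpSysB_ne n r _ (by show r + 1 + 1 ≠ r; omega) (by show r + 1 + 1 ≠ r + 1; omega)]
  have a3 : σ₁ ⟨r, by omega⟩ = σ ⟨r + 1, by omega⟩ := by
    rw [h1, Equiv.Perm.mul_apply, OpSysB_left n r (by omega)]
  have a4 : σ₂ ⟨r, by omega⟩ = σ ⟨r + 1, by omega⟩ := by
    rw [h2, Equiv.Perm.mul_apply,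
      OpSysB_ne n (r + 1) _ (by show r ≠ r + 1; omega) (by show r ≠ r + 1 + 1; omega), a3]
  have a5 : σ₂ ⟨r + 1, by omega⟩ = σ ⟨r + 2, by omega⟩ := by
    rw [h2, Equiv.Perm.mul_apply, OpSysB_left n (r + 1) (by omega), a2]
  have b1 : σ₁' ⟨r, by omega⟩ = σ ⟨r, by omega⟩ := by
    rw [h1', Equiv.Perm.mul_apply,
      OpSysB_ne n (r + 1) _ (by show r ≠ r + 1; omega) (by show r ≠ r + 1 + 1; omega)]
  have b2 : σ₁' ⟨r + 1, by omega⟩ = σ ⟨r + 2, by omega⟩ := by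
    rw [h1', Equiv.Perm.mul_apply, OpSysB_left n (r + 1) (by omega)]
  have b3 : σ₁' ⟨r + 1 + 1, by omega⟩ = σ ⟨r + 1, by omega⟩ := by
    rw [h1', Equiv.Perm.mul_apply, OpSysB_right n (r + 1) (by omega)]
  have b4 : σ₂' ⟨r + 1, by omega⟩ = σ ⟨r, by omega⟩ := by
    rw [h2', Equiv.Perm.mul_apply, OpSysB_right n r (by omega), b1]
  have b5 : σ₂' ⟨r + 1 + 1, by omega⟩ = σ ⟨r + 1, by omega⟩ := by
    rw [h2', Equiv.Perm.mul_apply,
      OpSysB_ne n r _ (by show r + 1 + 1 ≠ r; omega) (by show r + 1 + 1 ≠ r + 1; omega), b3]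
  rw [TT_step c hcs ρ hρ hi hc S σ σ₁ σ₂ (r + 1) (by omega) h2 (by
      rw [a1, a2]
      exact OpSysB_lt σ (by show r < r + 2; omega)),
    TT_step c hcs ρ hρ hi hc S σ σ₂ σ₃ r (by omega) h3 (by
      rw [a4, a5]
      exact OpSysB_lt σ (by show r + 1 < r + 2; omega)),
    TT_step c hcs ρ hρ hi hc S σ σ₁' σ₂' r (by omega) h2' (by
      rw [b1, b2]
      exact OpSysB_lt σ (by show r < r + 2; omega)),
    TT_step c hcs ρ hρ hi hc S σ σ₂' σ₃ (r + 1) (by omega) h3' (by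
      rw [b4, b5]
      exact OpSysB_lt σ (by show r < r + 1; omega))]

end

end Pool.Agent.Lib.MP_ca1492_al.D5
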