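import Mathlib
import Pool.Agent.Lib.MP_ca1492_al.D5.OpSys

/-!
# MP_ca1492_al, D5, module Sym: permutations of isomorphic strands

`SymD c ρ W`: a group `W` of permutations of the strands, lifted to permutations `bp w` of `κ` and to
isomorphisms `A w` of `V` (so that `A w` intertwines `ρ` and `m ↦ ρ(ẇ m ẇ⁻¹)`, `ẇ = permG (bp w)`).
`(S_w f)(g) = (A w ⊗ ren w) (f (ẇ⁻¹ g))` maps `I_σ` to `I_{w σ}`.

* `permC`: `permG F (bp w) ∈ lev F (cst ∘ c)`: everything is.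
* `SW_mem`: `f (ẇ⁻¹ m n g)`, `ẇ⁻¹ m ẇ ∈ lev c`, `ẇ⁻¹ n ẇ ∈ N_σ` for `n ∈ N_{wσ}` (`permG_conj_apply` of
  `P/Pat.lean`: entry `(i, j)` of `ẇ⁻¹ n ẇ` is the entry `(bp w i, bp w j)` of `n`, and
  `ordP (w σ) (c (bp w i)) = ordP (w σ) (w (c i)) = ordP σ (c i)`), `dh` by `vl_cj` of `Mhom.lean`; `renE` and
  `hat` by `hat_cj`. Right invariance is clear.
* `SW_mul`: `bp`, `A`, `ren` are homomorphisms, `permG_mul`.
* `SW_op`: `ren_psEnd`.
* `SW_TT`: `C_w f (g) = AR w (f (ẇ⁻¹ g ẇ))` = `S_w (R_ẇ f)`; since `TT` commutes with right translations it is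
  enough to show `C_w TT = TT C_w`. The operator `C_w TT C_w⁻¹` is in `XI` (`SW_equi`, `SW_op`), and its leading
  coefficient is `rename w (ldP σ τ)`: for a test function `f ∈ I_{wσ}` (level `r`), `C_w⁻¹ f` is a test function
  (`ẇ ∈ Kc 0` normalises `K_r`, `Kc_normal`; `ẇ⁻¹ P_{wσ} ẇ = P_σ`), with value `(AR w)⁻¹ (f 1)` at `1`; the
  number `npair` is the same. `rename w (ldP σ τ) = ldP (w σ) (w τ)` by `he` (the crossings of `(w σ, w τ)` are the
  pairs `(w a, w b)`). Then `TT_unique`.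
* `SW_same`: `(TT f)(g) = t (rs f g)` (`stepI_apply`, `TT_of_step`), `rs f g` is killed by `X a - X b`, so by `hs`
  it is `AR ((rs f g)(ẇ)) = AR (f (ẇ g))` (`dh = 1` at `ẇ`, all `vl` of a permutation matrix are `0`:
  `vl_Kc`), and `(S_t (TT f))(g) = AR (AR (f (ẇ ẇ⁻¹ g))) = f g`; `(swap a b)² = 1`.
-/

set_option autoImplicit false

namespace Pool.Agent.Lib.MP_ca1492_al.D5

open Pool.Agent.Lib.MP_ca1492_al.P
open Topology Matrix ValuativeRel TensorProduct CA1492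

noncomputable section

variable {F : Type} [Field F] [ValuativeRel F] [TopologicalSpace F]
  [IsNonarchimedeanLocalField F]
variable {κ : Type} [Fintype κ] [DecidableEq κ]
variable {V : Type} [AddCommGroup V] [Module ℂ V]
variable {n : ℕ}

/-- lifting of permutations of the strands -/
structure SymD (c : κ → Fin n) (ρ : Representation ℂ (lev F c) V)
    (W : Subgroup (Equiv.Perm (Fin n))) where
  bp : W →* Equiv.Perm κ
  A : W →* (V ≃ₗ[ℂ] V)
  hbp : ∀ (w : W) (i : κ), c (bp w i) = (w : Equiv.Perm (Fin n)) (c i)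
  hA : ∀ (w : W) (m : GL κ F) (hm : m ∈ lev F c)
    (hm' : permG F (bp w) * m * (permG F (bp w))⁻¹ ∈ lev F c) (v : V),
    ρ ⟨permG F (bp w) * m * (permG F (bp w))⁻¹, hm'⟩ (A w v) = A w (ρ ⟨m, hm⟩ v)

variable {c : κ → Fin n} {ρ : Representation ℂ (lev F c) V}
  {W : Subgroup (Equiv.Perm (Fin n))}

/-- `A w ⊗ ren w` -/
def SymD.AR (D : SymD c ρ W) (w : W) :
    V ⊗[ℂ] MvPolynomial (Fin n) ℂ →ₗ[ℂ] V ⊗[ℂ] MvPolynomial (Fin n) ℂ :=
  TensorProduct.map (D.A w : V →ₗ[ℂ] V) (ren (w : Equiv.Perm (Fin n)))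

theorem SymD.AR_tmul (D : SymD c ρ W) (w : W) (v : V) (p : MvPolynomial (Fin n) ℂ) :
    D.AR w (v ⊗ₜ p) = D.A w v ⊗ₜ ren (w : Equiv.Perm (Fin n)) p := rfl

theorem SymD.AR_mul (D : SymD c ρ W) (w w' : W) (x : V ⊗[ℂ] MvPolynomial (Fin n) ℂ) :
    D.AR (w * w') x = D.AR w (D.AR w' x) := by
  induction x using TensorProduct.induction_on with
  | zero => simp
  | tmul v p =>
    rw [SymD.AR_tmul, SymD.AR_tmul, SymD.AR_tmul, ren_ren, map_mul]
    rfl
  | add a b ha hb => rw [map_add, map_add, map_add, ha, hb]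

theorem Sym_ren_one (p : MvPolynomial (Fin n) ℂ) : ren (1 : Equiv.Perm (Fin n)) p = p := by
  show MvPolynomial.rename _ p = p
  have h : ((1 : Equiv.Perm (Fin n)) : Fin n → Fin n) = id := rfl
  rw [h, MvPolynomial.rename_id]
  rfl

theorem SymD.AR_one (D : SymD c ρ W) (x : V ⊗[ℂ] MvPolynomial (Fin n) ℂ) :
    D.AR 1 x = x := by
  induction x using TensorProduct.induction_on with
  | zero => simp
  | tmul v p =>
    rw [SymD.AR_tmul, map_one]
    have h : ((1 : W) : Equiv.Perm (Fin n)) = 1 := rfl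
    rw [h, Sym_ren_one]
    rfl
  | add a b ha hb => rw [map_add, ha, hb]

theorem SymD.AR_op (D : SymD c ρ W) (w : W) (y : MvPowerSeries (Fin n) ℂ)
    (x : V ⊗[ℂ] MvPolynomial (Fin n) ℂ) :
    D.AR w (opE V y x) =
      opE V (MvPowerSeries.rename (w : Equiv.Perm (Fin n)) y) (D.AR w x) := by
  induction x using TensorProduct.induction_on with
  | zero => simp
  | tmul v p =>
    show D.AR w (v ⊗ₜ psEnd y p) = _
    rw [SymD.AR_tmul, SymD.AR_tmul, ren_psEnd]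
    rfl
  | add a b ha hb => rw [map_add, map_add, map_add, map_add, ha, hb]

/-- the permutation matrix in the big group -/
def permC (F : Type) [Field F] (c : κ → Fin n) (w : Equiv.Perm κ) :
    lev F (fun i => (cst (c i) : Unit)) :=
  ⟨permG F w, fun _ _ h => absurd rfl h⟩

omit [ValuativeRel F] [TopologicalSpace F] [IsNonarchimedeanLocalField F] in
theorem Sym_lev_conj (w : Equiv.Perm κ) (ω : Equiv.Perm (Fin n)) (hω : ∀ i, c (w i) = ω (c i))
    (m : GL κ F) (hm : m ∈ lev F c) : (permG F w)⁻¹ * m * permG F w ∈ lev F c := by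
  intro i j hij
  rw [permG_conj_apply]
  refine hm _ _ ?_
  rw [hω, hω]
  exact fun h => hij (ω.injective h)

theorem Sym_ordP (ω σ σ' : Equiv.Perm (Fin n)) (h : σ' = ω * σ) (x : Fin n) :
    ordP σ' (ω x) = ordP σ x := by
  subst h
  unfold ordP
  have : (ω * σ).symm (ω x) = σ.symm x := by
    rw [Equiv.symm_apply_eq, Equiv.Perm.mul_apply, Equiv.apply_symm_apply]
  rw [this]

omit [ValuativeRel F] [TopologicalSpace F] [IsNonarchimedeanLocalField F] in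
theorem Sym_uni_conj (w : Equiv.Perm κ) (ω : Equiv.Perm (Fin n)) (hω : ∀ i, c (w i) = ω (c i))
    (σ σ' : Equiv.Perm (Fin n)) (h : σ' = ω * σ) (m : GL κ F)
    (hm : m ∈ uni F (fun i => (cst (c i) : Unit)) (fun i => ordP σ' (c i))) :
    (permG F w)⁻¹ * m * permG F w ∈
      uni F (fun i => (cst (c i) : Unit)) (fun i => ordP σ (c i)) := by
  rw [uni_eq_uniS, mem_uniS_iff] at hm ⊢
  intro i j hij
  rw [permG_conj_apply, hm (w i) (w j)]
  · rw [Matrix.one_apply, Matrix.one_apply]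
    simp only [w.injective.eq_iff]
  · intro h'
    apply hij
    refine ⟨rfl, ?_⟩
    have h2 : ordP σ' (c (w i)) < ordP σ' (c (w j)) := h'.2
    rw [hω, hω, Sym_ordP ω σ σ' h, Sym_ordP ω σ σ' h] at h2
    exact h2

omit [ValuativeRel F] [TopologicalSpace F] [IsNonarchimedeanLocalField F] in
theorem Sym_upp_conj (w : Equiv.Perm κ) (ω : Equiv.Perm (Fin n)) (hω : ∀ i, c (w i) = ω (c i))
    (σ σ' : Equiv.Perm (Fin n)) (h : σ' = ω * σ) (m : GL κ F)
    (hm : m ∈ upp F (fun i => (cst (c i) : Unit)) (fun i => ordP σ' (c i))) :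
    (permG F w)⁻¹ * m * permG F w ∈
      upp F (fun i => (cst (c i) : Unit)) (fun i => ordP σ (c i)) := by
  refine ⟨fun i j hij => absurd rfl hij, fun i j hij => ?_⟩
  rw [permG_conj_apply]
  apply hm.2
  show ordP σ' (c (w j)) < ordP σ' (c (w i))
  rw [hω, hω, Sym_ordP ω σ σ' h, Sym_ordP ω σ σ' h]
  exact hij

theorem Sym_nb (w : Equiv.Perm κ) (ω : Equiv.Perm (Fin n)) (hω : ∀ i, c (w i) = ω (c i))
    (x : Fin n) : nb c (ω x) = nb c x := by
  unfold nb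
  congr 1
  symm
  refine Finset.card_bij (fun i _ => w i) ?_ ?_ ?_
  · intro i hi
    simp only [Finset.mem_filter, Finset.mem_univ, true_and] at hi ⊢
    rw [hω, hi]
  · intro i _ j _ hij
    exact w.injective hij
  · intro j hj
    simp only [Finset.mem_filter, Finset.mem_univ, true_and] at hj
    refine ⟨w.symm j, ?_, by simp⟩
    simp only [Finset.mem_filter, Finset.mem_univ, true_and]
    apply ω.injective
    rw [← hω, Equiv.apply_symm_apply, hj]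

theorem Sym_vl (w : Equiv.Perm κ) (ω : Equiv.Perm (Fin n)) (hω : ∀ i, c (w i) = ω (c i))
    (m : GL κ F) (hm : m ∈ lev F c) (x : Fin n) :
    vl c m (ω x) = vl c ((permG F w)⁻¹ * m * permG F w) x := by
  have h1 := vl_cj c w ω hω ((permG F w)⁻¹ * m * permG F w) (Sym_lev_conj w ω hω m hm) x
  have h2 : permG F w * ((permG F w)⁻¹ * m * permG F w) * (permG F w)⁻¹ = m := by group
  rw [h2] at h1
  exact h1

theorem Sym_dh (w : Equiv.Perm κ) (ω : Equiv.Perm (Fin n)) (hω : ∀ i, c (w i) = ω (c i))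
    (σ σ' : Equiv.Perm (Fin n)) (h : σ' = ω * σ) (m : GL κ F) (hm : m ∈ lev F c)
    (hm' : (permG F w)⁻¹ * m * permG F w ∈ lev F c) :
    dh c (cst : Fin n → Unit) (ordP σ) ⟨_, hm'⟩ = dh c (cst : Fin n → Unit) (ordP σ') ⟨m, hm⟩ := by
  rw [dh_apply, dh_apply]
  have key : ex c (cst : Fin n → Unit) (ordP σ') m =
      ex c (cst : Fin n → Unit) (ordP σ) ((permG F w)⁻¹ * m * permG F w) := by
    unfold ex
    rw [← Equiv.sum_comp ω]
    refine Finset.sum_congr rfl fun x _ => ?_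
    rw [← Equiv.sum_comp ω]
    refine Finset.sum_congr rfl fun y _ => ?_
    rw [Sym_ordP ω σ σ' h, Sym_ordP ω σ σ' h, Sym_nb w ω hω, Sym_nb w ω hω,
      Sym_vl w ω hω m hm, Sym_vl w ω hω m hm]
  rw [key]

theorem Sym_hat1 (D : SymD c ρ W) (w : W) (m : GL κ F) (hm : m ∈ lev F c)
    (hm' : (permG F (D.bp w))⁻¹ * m * permG F (D.bp w) ∈ lev F c) (v : V) :
    D.A w (ρ ⟨_, hm'⟩ v) = ρ ⟨m, hm⟩ (D.A w v) := by
  have h2 : permG F (D.bp w) * ((permG F (D.bp w))⁻¹ * m * permG F (D.bp w)) *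
      (permG F (D.bp w))⁻¹ = m := by group
  have hm2 : permG F (D.bp w) * ((permG F (D.bp w))⁻¹ * m * permG F (D.bp w)) *
      (permG F (D.bp w))⁻¹ ∈ lev F c := by rw [h2]; exact hm
  have h3 := D.hA w _ hm' hm2 v
  have h4 : (⟨_, hm2⟩ : lev F c) = ⟨m, hm⟩ := Subtype.ext h2
  rw [h4] at h3
  exact h3.symm

theorem Sym_hat2 (D : SymD c ρ W) (w : W) (m : GL κ F) (hm : m ∈ lev F c) :
    (fun x => vl c ((permG F (D.bp w))⁻¹ * m * permG F (D.bp w))
      ((w : Equiv.Perm (Fin n)).symm x)) = vl c m := by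
  funext x
  have h4 := Sym_vl (D.bp w) (w : Equiv.Perm (Fin n)) (D.hbp w) m hm
    ((w : Equiv.Perm (Fin n)).symm x)
  rw [Equiv.apply_symm_apply] at h4
  exact h4.symm

theorem Sym_hat (D : SymD c ρ W) (w : W) (m : GL κ F) (hm : m ∈ lev F c)
    (hm' : (permG F (D.bp w))⁻¹ * m * permG F (D.bp w) ∈ lev F c)
    (x : V ⊗[ℂ] MvPolynomial (Fin n) ℂ) :
    D.AR w (hat c ρ ⟨_, hm'⟩ x) = hat c ρ ⟨m, hm⟩ (D.AR w x) := by
  have e2 := Sym_hat2 D w m hm
  induction x using TensorProduct.induction_on with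
  | zero => simp only [map_zero]
  | tmul v p =>
    have e1 := Sym_hat1 D w m hm hm' v
    have e3 : hat c ρ ⟨_, hm'⟩ (v ⊗ₜ p) = (ρ ⟨_, hm'⟩ v) ⊗ₜ
      shiftP (vl c ((permG F (D.bp w))⁻¹ * m * permG F (D.bp w))) p := rfl
    have e4 : hat c ρ ⟨m, hm⟩ ((D.A w v) ⊗ₜ ren (w : Equiv.Perm (Fin n)) p) =
      (ρ ⟨m, hm⟩ (D.A w v)) ⊗ₜ shiftP (vl c m) (ren (w : Equiv.Perm (Fin n)) p) := rfl
    rw [e3, SymD.AR_tmul, SymD.AR_tmul, e4, e1, ren_shift, e2]
  | add a b ha hb => rw [map_add, map_add, map_add, map_add, ha, hb]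

theorem SW_mem (D : SymD c ρ W) (w : W) (σ σ' : Equiv.Perm (Fin n))
    (h : σ' = (w : Equiv.Perm (Fin n)) * σ) (f : IP c ρ σ) :
    (fun g => D.AR w (f.1 ((permC F c (D.bp w))⁻¹ * g))) ∈ IP c ρ σ' := by
  rw [mem_ISp]
  have hf := (mem_ISp c cst (ordP σ) (ordP_inj σ) (hat c ρ) f.1).1 f.2
  obtain ⟨h1, U, hU, h2⟩ := hf
  refine ⟨fun m hm k hk g => ?_, U, hU, fun g u hu => ?_⟩
  · have hm' := Sym_lev_conj (D.bp w) (w : Equiv.Perm (Fin n)) (D.hbp w) m hm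
    have hk' := Sym_uni_conj (D.bp w) (w : Equiv.Perm (Fin n)) (D.hbp w) σ σ' h k hk
    have h3 := h1 _ hm' _ hk' ((permC F c (D.bp w))⁻¹ * g)
    have h4 : (permC F c (D.bp w))⁻¹ *
        (⟨m, (ordD (F := F) c cst (ordP σ') (ordP_inj σ')).hM hm⟩ *
          ⟨k, (ordD (F := F) c cst (ordP σ') (ordP_inj σ')).hN hk⟩ * g) =
        ⟨_, (ordD (F := F) c cst (ordP σ) (ordP_inj σ)).hM hm'⟩ *
          ⟨_, (ordD (F := F) c cst (ordP σ) (ordP_inj σ)).hN hk'⟩ *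
            ((permC F c (D.bp w))⁻¹ * g) := by
      apply Subtype.ext
      show (permG F (D.bp w))⁻¹ * (m * k * g.1) =
        ((permG F (D.bp w))⁻¹ * m * permG F (D.bp w)) *
          ((permG F (D.bp w))⁻¹ * k * permG F (D.bp w)) * ((permG F (D.bp w))⁻¹ * g.1)
      group
    show D.AR w (f.1 _) = _ • hat c ρ ⟨m, hm⟩ (D.AR w (f.1 _))
    rw [h4, h3, map_smul, Sym_hat D w m hm hm',
      Sym_dh (D.bp w) (w : Equiv.Perm (Fin n)) (D.hbp w) σ σ' h m hm hm']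
  · show D.AR w (f.1 _) = D.AR w (f.1 _)
    rw [← mul_assoc, h2 _ u hu]

/-- `(S_w f)(g) = (A w ⊗ ren w) (f (ẇ⁻¹ g))` -/
def SW (D : SymD c ρ W) (w : W) (σ σ' : Equiv.Perm (Fin n))
    (h : σ' = (w : Equiv.Perm (Fin n)) * σ) : IP c ρ σ →ₗ[ℂ] IP c ρ σ' where
  toFun f := ⟨fun g => D.AR w (f.1 ((permC F c (D.bp w))⁻¹ * g)), SW_mem D w σ σ' h f⟩
  map_add' f f' := Subtype.ext (funext fun g => map_add (D.AR w) _ _)
  map_smul' z f := Subtype.ext (funext fun g => (D.AR w).map_smul z _)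

omit [ValuativeRel F] [TopologicalSpace F] [IsNonarchimedeanLocalField F] in
theorem Sym_permC_mul (w w' : Equiv.Perm κ) :
    permC F c (w * w') = permC F c w * permC F c w' :=
  Subtype.ext (permG_mul w w')

omit [ValuativeRel F] [TopologicalSpace F] [IsNonarchimedeanLocalField F] in
theorem Sym_permC_one : permC F c (1 : Equiv.Perm κ) = 1 :=
  Subtype.ext permG_one

omit [ValuativeRel F] [TopologicalSpace F] [IsNonarchimedeanLocalField F] in
theorem Sym_permC_inv (w : Equiv.Perm κ) :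
    permC F c w⁻¹ = (permC F c w)⁻¹ := by
  rw [eq_inv_iff_mul_eq_one, ← Sym_permC_mul, inv_mul_cancel, Sym_permC_one]

theorem Sym_SW_apply (D : SymD c ρ W) (w : W) (σ σ' : Equiv.Perm (Fin n))
    (h : σ' = (w : Equiv.Perm (Fin n)) * σ) (f : IP c ρ σ)
    (g : lev F (fun i => (cst (c i) : Unit))) :
    (SW D w σ σ' h f).1 g = D.AR w (f.1 ((permC F c (D.bp w))⁻¹ * g)) := rfl

theorem SW_mul (D : SymD c ρ W) (w w' w'' : W) (σ σ' σ'' : Equiv.Perm (Fin n))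
    (h : σ' = (w : Equiv.Perm (Fin n)) * σ) (h' : σ'' = (w' : Equiv.Perm (Fin n)) * σ')
    (h'' : σ'' = (w'' : Equiv.Perm (Fin n)) * σ) (f : IP c ρ σ) :
    SW D w' σ' σ'' h' (SW D w σ σ' h f) = SW D w'' σ σ'' h'' f := by
  have hw : w'' = w' * w := by
    apply Subtype.ext
    rw [Subgroup.coe_mul]
    have h1 : (w'' : Equiv.Perm (Fin n)) * σ = ((w' : Equiv.Perm (Fin n)) * w) * σ := by
      rw [← h'', h', h, mul_assoc]
    exact mul_right_cancel h1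
  subst hw
  refine Subtype.ext (funext fun g => ?_)
  rw [Sym_SW_apply, Sym_SW_apply, Sym_SW_apply, SymD.AR_mul, map_mul, Sym_permC_mul,
    _root_.mul_inv_rev, mul_assoc]

theorem SW_one (D : SymD c ρ W) (σ : Equiv.Perm (Fin n))
    (h : σ = ((1 : W) : Equiv.Perm (Fin n)) * σ) (f : IP c ρ σ) :
    SW D 1 σ σ h f = f := by
  refine Subtype.ext (funext fun g => ?_)
  rw [Sym_SW_apply, SymD.AR_one, map_one, Sym_permC_one, inv_one, one_mul]

theorem SW_equi (D : SymD c ρ W) (w : W) (σ σ' : Equiv.Perm (Fin n))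
    (h : σ' = (w : Equiv.Perm (Fin n)) * σ) :
    Equi (IRp c cst (ordP σ) (ordP_inj σ) (hat c ρ)) (IRp c cst (ordP σ') (ordP_inj σ') (hat c ρ))
      (SW D w σ σ' h) := by
  intro g f
  refine Subtype.ext (funext fun x => ?_)
  exact congrArg (fun z => D.AR w (f.1 z)) (mul_assoc _ x g)

theorem SW_op (D : SymD c ρ W) (w : W) (σ σ' : Equiv.Perm (Fin n))
    (h : σ' = (w : Equiv.Perm (Fin n)) * σ) (y : MvPowerSeries (Fin n) ℂ) (f : IP c ρ σ) :
    SW D w σ σ' h (opI c cst (ordP σ) (ordP_inj σ) ρ y f) =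
      opI c cst (ordP σ') (ordP_inj σ') ρ
        (MvPowerSeries.rename (w : Equiv.Perm (Fin n)) y) (SW D w σ σ' h f) :=
  Subtype.ext (funext fun _ => D.AR_op w y _)

/-- on the kernel of `X a - X b` the functional is `f ↦ AR t (f ẇ)`, `t = swap a b` -/
def SameP (S : RkSys c ρ) (D : SymD c ρ W) (t : W) (a b : Fin n) : Prop :=
  ∀ (τ τ' : Fin n → ℤ) (hτ : Function.Injective τ) (_ : τ' = swO τ a b) (_ : τ a < τ b)
    (L : ISp c (mrg a b) τ hτ (hat c ρ) →ₗ[ℂ] V ⊗[ℂ] MvPolynomial (Fin n) ℂ)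
    (_ : L ∈ X1 c (mrg a b) τ hτ τ' ρ) (_ : IsLead c (mrg a b) τ hτ τ' ρ L (S.e a b))
    (f : ISp c (mrg a b) τ hτ (hat c ρ))
    (_ : opI c (mrg a b) τ hτ ρ (MvPowerSeries.X a - MvPowerSeries.X b) f = 0)
    (x : lev F (fun i => mrg a b (c i))) (_ : x.1 = permG F (D.bp t)), L f = D.AR t (f.1 x)

/-- transport of a test function -/
theorem Sym_KS (D : SymD c ρ W) (w : W) (σ σ' : Equiv.Perm (Fin n))
    (h : σ' = (w : Equiv.Perm (Fin n)) * σ) (h' : σ = ((w⁻¹ : W) : Equiv.Perm (Fin n)) * σ')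
    (r : ℕ) (f : IP c ρ σ') (hf : KS c cst (ordP σ') r f.1) :
    KS c cst (ordP σ) r (IRp c cst (ordP σ) (ordP_inj σ) (hat c ρ) (permC F c (D.bp w))⁻¹
      (SW D w⁻¹ σ' σ h' f)).1 := by
  have hval : ∀ x, (IRp c cst (ordP σ) (ordP_inj σ) (hat c ρ) (permC F c (D.bp w))⁻¹
      (SW D w⁻¹ σ' σ h' f)).1 x =
        D.AR w⁻¹ (f.1 (permC F c (D.bp w) * (x * (permC F c (D.bp w))⁻¹))) := by
    intro x
    show (SW D w⁻¹ σ' σ h' f).1 (x * (permC F c (D.bp w))⁻¹) = _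
    rw [Sym_SW_apply, map_inv, Sym_permC_inv, inv_inv]
  refine ⟨fun g k hk => ?_, fun g hg => ?_⟩
  · rw [hval, hval]
    have h1 : permC F c (D.bp w) * (g * k * (permC F c (D.bp w))⁻¹) =
        (permC F c (D.bp w) * (g * (permC F c (D.bp w))⁻¹)) *
          (permC F c (D.bp w) * k * (permC F c (D.bp w))⁻¹) := by group
    have h2 := hf.1 (permC F c (D.bp w) * (g * (permC F c (D.bp w))⁻¹))
      (permC F c (D.bp w) * k * (permC F c (D.bp w))⁻¹)
      (Kc_normal r (permG F (D.bp w)) k.1 (permG_mem_Kc (D.bp w)) hk)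
    rw [h1, h2]
  · rw [hval] at hg
    have hg' : f.1 (permC F c (D.bp w) * (g * (permC F c (D.bp w))⁻¹)) ≠ 0 := by
      intro h0
      rw [h0, map_zero] at hg
      exact hg rfl
    obtain ⟨p, hp, k, hk, h1⟩ := hf.2 _ hg'
    refine ⟨_, Sym_upp_conj (D.bp w) (w : Equiv.Perm (Fin n)) (D.hbp w) σ σ' h p hp, _,
      (permG_Kc (D.bp w) r k).2 hk, ?_⟩
    have h2 : permG F (D.bp w) * (g.1 * (permG F (D.bp w))⁻¹) = p * k := h1
    have h3 : g.1 = (permG F (D.bp w))⁻¹ * (permG F (D.bp w) * (g.1 * (permG F (D.bp w))⁻¹)) *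
        permG F (D.bp w) := by group
    rw [h2] at h3
    rw [h3]
    group

theorem Sym_npair (w : Equiv.Perm κ) (ω : Equiv.Perm (Fin n)) (hω : ∀ i, c (w i) = ω (c i))
    (σ σ' τ τ' : Equiv.Perm (Fin n)) (h : σ' = ω * σ) (h' : τ' = ω * τ) :
    npair c (cst : Fin n → Unit) (ordP σ) (ordP τ) =
      npair c (cst : Fin n → Unit) (ordP σ') (ordP τ') := by
  unfold npair
  refine Finset.card_bij (fun p _ => (w p.1, w p.2)) ?_ ?_ ?_
  · intro p hp
    simp only [Finset.mem_filter, Finset.mem_univ, true_and] at hp ⊢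
    rw [hω, hω, Sym_ordP ω σ σ' h, Sym_ordP ω σ σ' h, Sym_ordP ω τ τ' h', Sym_ordP ω τ τ' h']
    exact hp
  · intro p _ p' _ hij
    simp only [Prod.mk.injEq] at hij
    exact Prod.ext (w.injective hij.1) (w.injective hij.2)
  · rintro ⟨i, j⟩ hp
    obtain ⟨i, rfl⟩ := w.surjective i
    obtain ⟨j, rfl⟩ := w.surjective j
    refine ⟨(i, j), ?_, rfl⟩
    simp only [Finset.mem_filter, Finset.mem_univ, true_and] at hp ⊢
    rw [hω, hω, Sym_ordP ω σ σ' h, Sym_ordP ω σ σ' h, Sym_ordP ω τ τ' h',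
      Sym_ordP ω τ τ' h'] at hp
    exact hp

theorem Sym_ldP (S : RkSys c ρ) (ω : Equiv.Perm (Fin n))
    (he : ∀ a b : Fin n, a ≠ b → S.e (ω a) (ω b) = MvPowerSeries.rename ω (S.e a b))
    (σ σ' τ τ' : Equiv.Perm (Fin n)) (h : σ' = ω * σ) (h' : τ' = ω * τ) :
    MvPowerSeries.rename ω (ldP S σ τ) = ldP S σ' τ' := by
  unfold ldP
  rw [map_prod]
  refine Finset.prod_bij (fun p _ => (ω p.1, ω p.2)) ?_ ?_ ?_ ?_
  · intro p hp
    unfold cross at hp ⊢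
    simp only [Finset.mem_filter, Finset.mem_univ, true_and] at hp ⊢
    rw [Sym_ordP ω σ σ' h, Sym_ordP ω σ σ' h, Sym_ordP ω τ τ' h', Sym_ordP ω τ τ' h']
    exact hp
  · intro p _ p' _ hij
    simp only [Prod.mk.injEq] at hij
    exact Prod.ext (ω.injective hij.1) (ω.injective hij.2)
  · rintro ⟨i, j⟩ hp
    obtain ⟨i, rfl⟩ := ω.surjective i
    obtain ⟨j, rfl⟩ := ω.surjective j
    refine ⟨(i, j), ?_, rfl⟩
    unfold cross at hp ⊢
    simp only [Finset.mem_filter, Finset.mem_univ, true_and] at hp ⊢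
    rw [Sym_ordP ω σ σ' h, Sym_ordP ω σ σ' h, Sym_ordP ω τ τ' h',
      Sym_ordP ω τ τ' h'] at hp
    exact hp
  · intro p hp
    unfold cross at hp
    simp only [Finset.mem_filter, Finset.mem_univ, true_and] at hp
    refine (he p.1 p.2 ?_).symm
    intro h0
    rw [h0] at hp
    exact lt_irrefl _ hp.1

theorem Sym_rs (τ : Fin n → ℤ) (hτ : Function.Injective τ) (a b : Fin n)
    (h : AdjS (cst : Fin n → Unit) τ a b) (f : ISp c cst τ hτ (hat c ρ))
    (g : lev F (fun i => (cst (c i) : Unit))) (w : Equiv.Perm κ)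
    (x : lev F (fun i => mrg a b (c i))) (hx : x.1 = permG F w) :
    (rs c cst τ hτ a b h (hat c ρ) g f).1 x = f.1 (permC F c w * g) := by
  have e1 : incM c (cst : Fin n → Unit) a b h.hβ x = permC F c w := Subtype.ext hx
  have hk : x.1 ∈ Kc F κ 0 := by
    rw [hx]
    exact permG_mem_Kc w
  have e2 : dh (fun i => mrg a b (c i)) (cst : Fin n → Unit) τ x = 1 :=
    dh_eq_one _ _ _ x (fun y => vl_Kc _ x.1 x.2 hk y)
  have e3 : (rs c cst τ hτ a b h (hat c ρ) g f).1 x =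
      (((dh (fun i => mrg a b (c i)) (cst : Fin n → Unit) τ x)⁻¹ : ℂˣ) : ℂ) •
        f.1 (incM c cst a b h.hβ x * g) := rfl
  rw [e3, e2, e1, inv_one, Units.val_one, one_smul]

theorem Sym_rs_op (τ : Fin n → ℤ) (hτ : Function.Injective τ) (a b : Fin n)
    (h : AdjS (cst : Fin n → Unit) τ a b) (f : ISp c cst τ hτ (hat c ρ))
    (y : MvPowerSeries (Fin n) ℂ) (hf : opI c cst τ hτ ρ y f = 0)
    (g : lev F (fun i => (cst (c i) : Unit))) :
    opI c (mrg a b) τ hτ ρ y (rs c cst τ hτ a b h (hat c ρ) g f) = 0 := by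
  refine Subtype.ext (funext fun x => ?_)
  have e3 : (rs c cst τ hτ a b h (hat c ρ) g f).1 x =
      (((dh (fun i => mrg a b (c i)) (cst : Fin n → Unit) τ x)⁻¹ : ℂˣ) : ℂ) •
        f.1 (incM c cst a b h.hβ x * g) := rfl
  have h4 : (opI c cst τ hτ ρ y f).1 (incM c cst a b h.hβ x * g) = 0 := by
    rw [hf]
    rfl
  have h5 : opE V y (f.1 (incM c cst a b h.hβ x * g)) = 0 := h4
  show opE V y ((rs c cst τ hτ a b h (hat c ρ) g f).1 x) = 0
  rw [e3, map_smul, h5, smul_zero]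

section

variable (hcs : Function.Surjective c)
  (hρ : IsSm ρ) (hi : Irr ρ) (hc : Cusp c ρ) (S : RkSys c ρ)

include hcs hρ hi hc

theorem SW_TT (D : SymD c ρ W)
    (he : ∀ (w : W) (a b : Fin n), a ≠ b →
      S.e ((w : Equiv.Perm (Fin n)) a) ((w : Equiv.Perm (Fin n)) b) =
        MvPowerSeries.rename (w : Equiv.Perm (Fin n)) (S.e a b))
    (w : W) (σ σ' τ τ' : Equiv.Perm (Fin n))
    (h : σ' = (w : Equiv.Perm (Fin n)) * σ) (h' : τ' = (w : Equiv.Perm (Fin n)) * τ)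
    (f : IP c ρ σ) :
    SW D w τ τ' h' (TT c ρ S σ τ f) = TT c ρ S σ' τ' (SW D w σ σ' h f) := by
  have hinv : σ = ((w⁻¹ : W) : Equiv.Perm (Fin n)) * σ' := by
    rw [h, Subgroup.coe_inv, inv_mul_cancel_left]
  have hone : σ = ((1 : W) : Equiv.Perm (Fin n)) * σ := (one_mul σ).symm
  have hG := TT_good c ρ S σ τ
  have key : (SW D w τ τ' h' ∘ₗ TT c ρ S σ τ ∘ₗ SW D w⁻¹ σ' σ hinv) = TT c ρ S σ' τ' := by
    refine TT_unique c hcs ρ hρ hi hc S σ' τ' _ ⟨?_, ?_⟩ ?_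
    · intro g x
      show SW D w τ τ' h' (TT c ρ S σ τ (SW D w⁻¹ σ' σ hinv (IRp c cst (ordP σ') (ordP_inj σ')
        (hat c ρ) g x))) = _
      rw [SW_equi D w⁻¹ σ' σ hinv g x, hG.mem.1 g, SW_equi D w τ τ' h' g]
      rfl
    · intro y x
      show SW D w τ τ' h' (TT c ρ S σ τ (SW D w⁻¹ σ' σ hinv (opI c cst (ordP σ') (ordP_inj σ')
        ρ y x))) = _
      rw [SW_op D w⁻¹ σ' σ hinv y x, hG.mem.2, SW_op D w τ τ' h']
      have h1 : MvPowerSeries.rename (w : Equiv.Perm (Fin n))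
          (MvPowerSeries.rename ((w⁻¹ : W) : Equiv.Perm (Fin n)) y) = y := by
        rw [MvPowerSeries.rename_rename]
        have h2 : ((w : Equiv.Perm (Fin n)) : Fin n → Fin n) ∘
            (((w⁻¹ : W) : Equiv.Perm (Fin n)) : Fin n → Fin n) = id := by
          funext z
          rw [Subgroup.coe_inv]
          exact Equiv.apply_symm_apply _ _
        simp only [h2]
        exact MvPowerSeries.rename_id_apply y
      rw [h1]
      rfl
    · obtain ⟨r₀, hr₀⟩ := hG.lead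
      refine ⟨r₀, fun r hr x hx => ?_⟩
      have h1 := hr₀ r hr _ (Sym_KS D w σ σ' h hinv r x hx)
      have h2 : (TT c ρ S σ τ (IRp c cst (ordP σ) (ordP_inj σ) (hat c ρ)
          (permC F c (D.bp w))⁻¹ (SW D w⁻¹ σ' σ hinv x))).1 1 =
          (TT c ρ S σ τ (SW D w⁻¹ σ' σ hinv x)).1 ((permC F c (D.bp w))⁻¹) := by
        rw [hG.mem.1]
        show (TT c ρ S σ τ (SW D w⁻¹ σ' σ hinv x)).1 (1 * (permC F c (D.bp w))⁻¹) = _
        rw [one_mul]
      have h3 : (IRp c cst (ordP σ) (ordP_inj σ) (hat c ρ)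
          (permC F c (D.bp w))⁻¹ (SW D w⁻¹ σ' σ hinv x)).1 1 = D.AR w⁻¹ (x.1 1) := by
        show (SW D w⁻¹ σ' σ hinv x).1 (1 * (permC F c (D.bp w))⁻¹) = _
        rw [Sym_SW_apply, map_inv, Sym_permC_inv, inv_inv, one_mul, mul_inv_cancel]
      have h4 : (TT c ρ S σ τ (SW D w⁻¹ σ' σ hinv x)).1 ((permC F c (D.bp w))⁻¹) =
          Cr F c cst (ordP σ) (ordP τ) r • opE V (ldP S σ τ) (D.AR w⁻¹ (x.1 1)) := by
        rw [← h2, ← h3]
        exact h1
      show (SW D w τ τ' h' (TT c ρ S σ τ (SW D w⁻¹ σ' σ hinv x))).1 1 = _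
      rw [Sym_SW_apply, mul_one, h4, map_smul, SymD.AR_op, ← SymD.AR_mul, mul_inv_cancel,
        SymD.AR_one, Sym_ldP S (w : Equiv.Perm (Fin n)) (he w) σ σ' τ τ' h h']
      congr 1
      unfold Cr
      rw [Sym_npair (D.bp w) (w : Equiv.Perm (Fin n)) (D.hbp w) σ σ' τ τ' h h']
  have h5 := LinearMap.congr_fun key (SW D w σ σ' h f)
  have h6 : SW D w⁻¹ σ' σ hinv (SW D w σ σ' h f) = f := by
    rw [SW_mul D w w⁻¹ 1 σ σ' σ h hinv hone f, SW_one]
  rw [← h5]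
  show _ = SW D w τ τ' h' (TT c ρ S σ τ (SW D w⁻¹ σ' σ hinv (SW D w σ σ' h f)))
  rw [h6]

/-- on the kernel of `X a - X b` the operator `TT` is the inverse of `S_t`, `t = swap a b` -/
theorem SW_same (D : SymD c ρ W) (σ σ' : Equiv.Perm (Fin n)) (r : ℕ) (h : r + 1 < n)
    (hσ' : σ' = σ * sw n r) (a b : Fin n) (ha : a = σ ⟨r, by omega⟩) (hb : b = σ ⟨r + 1, h⟩)
    (t : W) (ht : (t : Equiv.Perm (Fin n)) = Equiv.swap a b) (hs : SameP S D t a b)
    (hσ : σ = (t : Equiv.Perm (Fin n)) * σ') (f : IP c ρ σ)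
    (hf : opI c cst (ordP σ) (ordP_inj σ) ρ (MvPowerSeries.X a - MvPowerSeries.X b) f = 0) :
    SW D t σ' σ hσ (TT c ρ S σ σ' f) = f := by
  subst hσ' ha hb
  obtain ⟨t1, t2, ht1, ht2, h1, h2, h3⟩ := S.hex (σ ⟨r, by omega⟩) (σ ⟨r + 1, h⟩)
    (adjP σ r h).ne (ordP σ) (swO (ordP σ) (σ ⟨r, by omega⟩) (σ ⟨r + 1, h⟩)) (ordP_inj σ)
    (swO_inj _ (ordP_inj σ) _ _) rfl (by
      rw [ordP_apply, ordP_apply]
      exact_mod_cast Nat.lt_succ_self r)
  have key : ∀ (τ' : Fin n → ℤ) (hτ' : Function.Injective τ')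
      (_ : τ' = swO (ordP σ) (σ ⟨r, by omega⟩) (σ ⟨r + 1, h⟩)),
      ∃ Φ : IP c ρ σ →ₗ[ℂ] ISp c cst τ' hτ' (hat c ρ),
        StepOp c (ordP σ) τ' (ordP_inj σ) hτ' (σ ⟨r, by omega⟩)
          (σ ⟨r + 1, h⟩) ρ (S.e (σ ⟨r, by omega⟩) (σ ⟨r + 1, h⟩)) Φ ∧
        ∀ (f : IP c ρ σ) (g : lev F (fun i => (cst (c i) : Unit))), (Φ f).1 g =
          t1 (rs c cst (ordP σ) (ordP_inj σ) (σ ⟨r, by omega⟩) (σ ⟨r + 1, h⟩) (adjP σ r h)
            (hat c ρ) g f) := by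
    rintro τ' hτ' rfl
    exact ⟨_, stepI_stepOp c (ordP σ) (ordP_inj σ) _ _ (adjP σ r h) ρ t1 ht1 _ h1,
      fun f g => stepI_apply c (ordP σ) (ordP_inj σ) _ _ (adjP σ r h) ρ t1 ht1 f g⟩
  obtain ⟨Φ, hΦ, hΦv⟩ := key (ordP (σ * sw n r)) (ordP_inj _) (ordP_sw σ r h)
  have hT := TT_of_step c hcs ρ hρ hi hc S σ (σ * sw n r) r h rfl Φ hΦ
  have hm : permG F (D.bp t) ∈
      lev F (fun i => mrg (σ ⟨r, by omega⟩) (σ ⟨r + 1, h⟩) (c i)) := by
    refine permG_mem_lev' _ _ fun i => ?_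
    rw [D.hbp t i, ht]
    unfold mrg
    by_cases h4 : c i = σ ⟨r, by omega⟩
    · rw [h4, Equiv.swap_apply_left, if_pos rfl, if_neg (adjP σ r h).ne]
    · by_cases h5 : c i = σ ⟨r + 1, h⟩
      · rw [h5, Equiv.swap_apply_right, if_neg (adjP σ r h).ne, if_pos rfl]
      · rw [Equiv.swap_apply_of_ne_of_ne h4 h5]
  have hval : ∀ g, (TT c ρ S σ (σ * sw n r) f).1 g =
      D.AR t (f.1 (permC F c (D.bp t) * g)) := by
    intro g
    rw [← hT, hΦv]
    have hk := Sym_rs_op (ordP σ) (ordP_inj σ) (σ ⟨r, by omega⟩) (σ ⟨r + 1, h⟩) (adjP σ r h)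
      f _ hf g
    rw [hs (ordP σ) _ (ordP_inj σ) rfl (by
      rw [ordP_apply, ordP_apply]
      exact_mod_cast Nat.lt_succ_self r) t1 ht1 h1 _ hk ⟨_, hm⟩ rfl]
    rw [Sym_rs (ordP σ) (ordP_inj σ) (σ ⟨r, by omega⟩) (σ ⟨r + 1, h⟩) (adjP σ r h) f g
      (D.bp t) ⟨_, hm⟩ rfl]
  refine Subtype.ext (funext fun g => ?_)
  rw [Sym_SW_apply, hval, mul_inv_cancel_left, ← SymD.AR_mul]
  have h6 : t * t = 1 := by
    apply Subtype.ext
    rw [Subgroup.coe_mul, ht, Equiv.swap_mul_self]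
    rfl
  rw [h6, SymD.AR_one]

end

end

end Pool.Agent.Lib.MP_ca1492_al.D5
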