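import Mathlib
import Pool.Agent.Lib.MP_ca1492_al.D5.OpSysB
import Pool.Agent.Lib.MP_ca1492_al.D5.Sym
import Pool.Agent.Lib.MP_ca1492_al.PA.WSys

/-!
# MP_ca1492_al, D5, module Sys: the system `WSys` of the operators between the induced representations

`Strands`: the input (rank one functionals with normalised squares, symmetries). `wsys`: the operators
`opA`, `TT`, `SWt` form a `WSys` (`PA/WSys.lean`).
-/

set_option autoImplicit false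

namespace Pool.Agent.Lib.MP_ca1492_al.D5

open Pool.Agent.Lib.MP_ca1492_al.P
open Topology Matrix ValuativeRel TensorProduct CA1492

noncomputable section

variable {F : Type} [Field F] [ValuativeRel F] [TopologicalSpace F]
  [IsNonarchimedeanLocalField F]
variable {κ : Type} [Fintype κ] [DecidableEq κ]
variable {V : Type} [AddCommGroup V] [Module ℂ V]
variable {n : ℕ}

/-- permutations of the strands preserving the letters -/
def stab {J : Type} (ℓ : Fin n → J) : Subgroup (Equiv.Perm (Fin n)) where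
  carrier := {w | ℓ ∘ w = ℓ}
  mul_mem' := by
    intro a b ha hb
    funext x
    show ℓ (a (b x)) = ℓ x
    rw [show ℓ (a (b x)) = ℓ (b x) from congrFun ha (b x)]
    exact congrFun hb x
  one_mem' := rfl
  inv_mem' := by
    intro a ha
    funext x
    have h1 := congrFun ha (a⁻¹ x)
    have h2 : a (a⁻¹ x) = x := by
      rw [← Equiv.Perm.mul_apply, mul_inv_cancel, Equiv.Perm.one_apply]
    have h3 : ℓ (a (a⁻¹ x)) = ℓ (a⁻¹ x) := h1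
    rw [h2] at h3
    exact h3.symm

theorem mem_stab {J : Type} (ℓ : Fin n → J) (w : Equiv.Perm (Fin n)) :
    w ∈ stab ℓ ↔ ℓ ∘ w = ℓ := Iff.rfl

/-- everything about the strands: rank one functionals, symmetries, in normalised form -/
structure Strands (D : Dat) (ℓ : Fin n → D.J) (c : κ → Fin n)
    (ρ : Representation ℂ (lev F c) V) where
  hcs : Function.Surjective c
  hρ : IsSm ρ
  hi : Irr ρ
  hc : Cusp c ρ
  S : RkSys c ρ
  sy : SymD c ρ (stab ℓ)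
  he : ∀ (w : stab ℓ) (a b : Fin n), a ≠ b →
    S.e ((w : Equiv.Perm (Fin n)) a) ((w : Equiv.Perm (Fin n)) b) =
      MvPowerSeries.rename (w : Equiv.Perm (Fin n)) (S.e a b)
  hq : ∀ a b : Fin n, a ≠ b → S.q a b = PA.QQ D (ℓ a) (ℓ b) a b
  hs : ∀ (a b : Fin n) (_ : a ≠ b) (_ : ℓ a = ℓ b) (t : stab ℓ)
    (_ : (t : Equiv.Perm (Fin n)) = Equiv.swap a b), SameP S sy t a b
  hst : ∀ (w : Equiv.Perm κ) (ω : Equiv.Perm (Fin n)) (_ : ∀ i, c (w i) = ω (c i))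
    (hl : ∀ i j, c (w i) = c (w j) ↔ c i = c j) (A : V ≃ₗ[ℂ] V), IsA c w hl ρ A → ω ∈ stab ℓ
  hu : ∀ a b : Fin n, a ≠ b → ℓ a ≠ ℓ b → IsUnit (S.e a b)
  hu' : ∀ a b : Fin n, a ≠ b → ℓ a = ℓ b → ∃ u : MvPowerSeries (Fin n) ℂ, IsUnit u ∧
    S.e a b = u * (MvPowerSeries.X a - MvPowerSeries.X b)

variable {D : Dat} {ℓ : Fin n → D.J} {c : κ → Fin n} {ρ : Representation ℂ (lev F c) V}

/-- the power series as an algebra of operators -/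
def opA (c : κ → Fin n) (ρ : Representation ℂ (lev F c) V) (σ : Equiv.Perm (Fin n)) :
    PA.O n →ₐ[ℂ] Module.End ℂ (IP c ρ σ) where
  toFun f := opI c cst (ordP σ) (ordP_inj σ) ρ f
  map_one' := LinearMap.ext fun x => opI_one c cst (ordP σ) (ordP_inj σ) ρ x
  map_mul' f g := LinearMap.ext fun x => opI_mul c cst (ordP σ) (ordP_inj σ) ρ f g x
  map_zero' := LinearMap.ext fun x => by
    have h := opI_add c cst (ordP σ) (ordP_inj σ) ρ 0 0 x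
    rw [add_zero] at h
    have h2 := add_eq_left.1 h.symm
    rw [h2]
    rfl
  map_add' f g := LinearMap.ext fun x => opI_add c cst (ordP σ) (ordP_inj σ) ρ f g x
  commutes' z := LinearMap.ext fun x => Subtype.ext (funext fun y => opE_C z (x.1 y))

theorem opA_apply (σ : Equiv.Perm (Fin n)) (f : MvPowerSeries (Fin n) ℂ) (x : IP c ρ σ) :
    opA c ρ σ f x = opI c cst (ordP σ) (ordP_inj σ) ρ f x := rfl

open Classical in
/-- renaming of strands, for all pairs -/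
def SWt (P : Strands D ℓ c ρ) (σ σ' : Equiv.Perm (Fin n)) : IP c ρ σ →ₗ[ℂ] IP c ρ σ' :=
  if h : σ' * σ⁻¹ ∈ stab ℓ then SW P.sy ⟨σ' * σ⁻¹, h⟩ σ σ' (by
    show σ' = σ' * σ⁻¹ * σ
    rw [inv_mul_cancel_right]) else 0

theorem SWt_eq (P : Strands D ℓ c ρ) (t : stab ℓ) (σ σ' : Equiv.Perm (Fin n))
    (h : σ' = (t : Equiv.Perm (Fin n)) * σ) : SWt P σ σ' = SW P.sy t σ σ' h := by
  have h1 : σ' * σ⁻¹ = t := by
    rw [h, mul_inv_cancel_right]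
  have h2 : σ' * σ⁻¹ ∈ stab ℓ := by
    rw [h1]
    exact t.2
  unfold SWt
  rw [dif_pos h2]
  congr 1
  exact Subtype.ext h1

/-- the group action -/
def gI (c : κ → Fin n) (ρ : Representation ℂ (lev F c) V)
    (g : lev F (fun i => (cst (c i) : Unit))) (σ : Equiv.Perm (Fin n)) :
    IP c ρ σ →ₗ[ℂ] IP c ρ σ := IRp c cst (ordP σ) (ordP_inj σ) (hat c ρ) g

/-- the system of operators -/
theorem wsys (P : Strands D ℓ c ρ) :
    PA.WSys D n ℓ (gI c ρ) (opA c ρ) (TT c ρ P.S) (SWt P) where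
  g_op γ σ f x := (opI_equi c cst (ordP σ) (ordP_inj σ) ρ f γ x).symm
  g_T γ r hr σ σ' hσ x := (TT_good c ρ P.S σ σ').mem.1 γ x
  g_S γ t ht σ σ' hσ x := by
    rw [SWt_eq P ⟨t, ht⟩ σ σ' hσ]
    exact SW_equi P.sy ⟨t, ht⟩ σ σ' hσ γ x
  T_op r hr σ σ' hσ f x := (TT_good c ρ P.S σ σ').mem.2 f x
  S_op t ht σ σ' hσ f x := by
    rw [SWt_eq P ⟨t, ht⟩ σ σ' hσ]
    exact SW_op P.sy ⟨t, ht⟩ σ σ' hσ f x
  S_one σ x := by
    rw [SWt_eq P 1 σ σ (by simp)]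
    exact SW_one P.sy σ _ x
  S_S t t' ht ht' σ σ' σ'' h h' x := by
    have h'' : σ'' = ((⟨t', ht'⟩ * ⟨t, ht⟩ : stab ℓ) : Equiv.Perm (Fin n)) * σ := by
      show σ'' = t' * t * σ
      rw [h', h, mul_assoc]
    rw [SWt_eq P ⟨t, ht⟩ σ σ' h, SWt_eq P ⟨t', ht'⟩ σ' σ'' h', SWt_eq P (⟨t', ht'⟩ * ⟨t, ht⟩) σ σ'' h'']
    exact SW_mul P.sy ⟨t, ht⟩ ⟨t', ht'⟩ _ σ σ' σ'' h h' h'' x
  S_T t ht r hr σ σ' σ₁ σ₁' hσ h1 h1' x := by
    rw [SWt_eq P ⟨t, ht⟩ σ σ₁ h1, SWt_eq P ⟨t, ht⟩ σ' σ₁' h1']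
    exact SW_TT P.hcs P.hρ P.hi P.hc P.S P.sy P.he ⟨t, ht⟩ σ σ₁ σ' σ₁' h1 h1' x
  T_T r h σ σ' hσ x := by
    have h1 := LinearMap.congr_fun (TT_sq c P.hcs ρ P.hρ P.hi P.hc P.S σ σ' r h hσ) x
    rw [LinearMap.comp_apply, P.hq _ _ (adjP σ r h).ne] at h1
    exact h1
  far r s hrs hs σ σ₁ σ₂ σ' h1 h2 h3 h4 x :=
    LinearMap.congr_fun (TT_far c P.hcs ρ P.hρ P.hi P.hc P.S σ σ₁ σ₂ σ' r s hrs hs h1 h3 h2 h4) x
  braid r h σ σ₁ σ₂ σ₃ σ₄ σ' h1 h2 h3 h4 h5 h6 x :=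
    LinearMap.congr_fun (TT_braid c P.hcs ρ P.hρ P.hi P.hc P.S σ σ₁ σ₂ σ' σ₃ σ₄ r h h1 h2 h3 h4
      h5 h6) x
  ker r h σ σ' hσ hl x hx := by
    have hsw : sw n r = Equiv.swap ⟨r, by omega⟩ ⟨r + 1, h⟩ := by
      unfold sw
      rw [dif_pos h]
    have ht : ℓ ∘ (Equiv.swap (σ ⟨r, by omega⟩) (σ ⟨r + 1, h⟩)) = ℓ := by
      funext y
      show ℓ (Equiv.swap (σ ⟨r, by omega⟩) (σ ⟨r + 1, h⟩) y) = ℓ y
      rw [Equiv.swap_apply_def]
      split_ifs with h1 h2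
      · rw [h1, hl]
      · rw [h2, hl]
      · rfl
    have hσ2 : σ' = (Equiv.swap (σ ⟨r, by omega⟩) (σ ⟨r + 1, h⟩)) * σ := by
      rw [hσ, hsw, Equiv.mul_swap_eq_swap_mul]
    have hσ3 : σ = (Equiv.swap (σ ⟨r, by omega⟩) (σ ⟨r + 1, h⟩)) * σ' := by
      rw [hσ2, ← mul_assoc, Equiv.swap_mul_self, one_mul]
    have h1 := SW_same P.hcs P.hρ P.hi P.hc P.S P.sy σ σ' r h hσ (σ ⟨r, by omega⟩)
      (σ ⟨r + 1, h⟩) rfl rfl ⟨_, ht⟩ rfl (P.hs _ _ (adjP σ r h).ne hl ⟨_, ht⟩ rfl) hσ3 x hx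
    rw [SWt_eq P ⟨_, ht⟩ σ σ' hσ2]
    have h2 := SW_mul P.sy ⟨_, ht⟩ ⟨_, ht⟩ 1 σ' σ σ' hσ3 hσ2
      (show σ' = ((1 : stab ℓ) : Equiv.Perm (Fin n)) * σ' by simp) (TT c ρ P.S σ σ' x)
    rw [h1, SW_one] at h2
    exact h2.symm
  surj σ f hf := opI_surj c cst (ordP σ) (ordP_inj σ) ρ P.hρ f hf

end

end Pool.Agent.Lib.MP_ca1492_al.D5
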