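import Mathlib
import Pool.Agent.Lib.MP_ca1492_al.D5.Mhom
import Pool.Agent.Lib.MP_ca1492_al.D5.Tst
import Pool.Agent.Lib.MP_ca1492_al.P.CTwo

/-!
# MP_ca1492_al, D5, module TwoA: two strands, definitions and combinatorics

`c : κ → Bool`, `β false = β true` (everything merged), `τ₁`, `τ₂` opposite orders. `sb` = the transposition of
`Bool`. `w : Perm κ` with `c (w i) = sb (c i)` exchanges the two blocks.

* `opp2_twoB`: `cb` is constant, `Bool` has two elements.
* `swap_isSwap`, `isSwap_swap`: `IsSwap cb c s` iff `c (s i) = sb (c i)` for all `i`: if `c (s l) ≠ c l` then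
  `c (s l) = sb (c l)`; for `i` with `c i = c l`: `c (s i) = c (s l)`; for `c i ≠ c l` (so `c i = sb (c l)`):
  `c (s i) ≠ c (s l)`, so `c (s i) = c l`.
* `uni_neg`, `dh_neg`, `Cr_neg`: `τ₂` and `-τ₁` define the same order: `uni_congr`, `ex_congr`
  (`D5/Ord.lean`), for `Cr` the same condition in `npair`.
* `dh_swap`: `ex c β τ₁ (w m w⁻¹) = ex c β τ₂ m`: by `vl_cj` (`vl (w m w⁻¹) (sb x) = vl m x`) and
  `nb (sb x) = nb x` (`w` is a bijection between the blocks), reindex the sums by `sb`; the condition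
  `τ₁ (sb x) < τ₁ (sb y)` is `τ₂ x < τ₂ y`: for `x = y` both false; for `x ≠ y` it is `τ₁ y < τ₁ x`.
-/

set_option autoImplicit false
set_option linter.unusedSectionVars false

namespace Pool.Agent.Lib.MP_ca1492_al.D5

open Pool.Agent.Lib.MP_ca1492_al.P
open Topology Matrix ValuativeRel TensorProduct

noncomputable section

variable {F : Type} [Field F] [ValuativeRel F] [TopologicalSpace F]
  [IsNonarchimedeanLocalField F]
variable {κ : Type} [Fintype κ] [DecidableEq κ]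
variable {ι' : Type}
variable {V E E' : Type} [AddCommGroup V] [Module ℂ V] [AddCommGroup E] [Module ℂ E]
  [AddCommGroup E'] [Module ℂ E']

/-- the transposition of `Bool` -/
abbrev sb : Equiv.Perm Bool := Equiv.swap false true

theorem sb_apply (x : Bool) : sb x = !x := by
  cases x <;> simp [sb]

theorem sb_sb (x : Bool) : sb (sb x) = x := by
  rw [sb_apply, sb_apply, Bool.not_not]

/-- both strands merged, opposite orders -/
structure Opp2 (β : Bool → ι') (τ₁ τ₂ : Bool → ℤ) : Prop where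
  hβ : β false = β true
  h₁ : Function.Injective τ₁
  h₂ : Function.Injective τ₂
  opp : ∀ x y, τ₁ x < τ₁ y ↔ τ₂ y < τ₂ x

theorem Opp2.symm {β : Bool → ι'} {τ₁ τ₂ : Bool → ℤ} (H : Opp2 β τ₁ τ₂) : Opp2 β τ₂ τ₁ :=
  ⟨H.hβ, H.h₂, H.h₁, fun x y => (H.opp y x).symm⟩

theorem Opp2.beta {β : Bool → ι'} {τ₁ τ₂ : Bool → ℤ} (H : Opp2 β τ₁ τ₂) (x y : Bool) :
    β x = β y := by
  have h := H.hβ
  cases x <;> cases y <;> simp [h]

theorem Opp2.neg {β : Bool → ι'} {τ₁ τ₂ : Bool → ℤ} (H : Opp2 β τ₁ τ₂) :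
    Opp2 β τ₁ (fun x => - τ₁ x) :=
  ⟨H.hβ, H.h₁, fun x y h => H.h₁ (neg_injective h), fun x y => (neg_lt_neg_iff).symm⟩

theorem opp2_twoB {β : Bool → ι'} {τ₁ τ₂ : Bool → ℤ} (H : Opp2 β τ₁ τ₂) (c : κ → Bool) :
    TwoB (fun i => β (c i)) c (β false) := by
  refine ⟨fun i j _ h => absurd (H.beta (c i) false) h, fun i j k _ _ _ => ?_⟩
  cases c i <;> cases c j <;> cases c k <;> simp

theorem swap_isSwap {β : Bool → ι'} {τ₁ τ₂ : Bool → ℤ} (H : Opp2 β τ₁ τ₂) (c : κ → Bool)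
    (hcs : Function.Surjective c) (w : Equiv.Perm κ) (hw : ∀ i, c (w i) = sb (c i)) :
    IsSwap (fun i => β (c i)) c w := by
  refine ⟨fun i => H.beta _ _, fun i j => ?_, ?_⟩
  · rw [hw, hw, sb.apply_eq_iff_eq]
  · obtain ⟨i, -⟩ := hcs false
    refine ⟨i, ?_⟩
    rw [hw, sb_apply]
    cases c i <;> simp

theorem isSwap_swap {β : Bool → ι'} (c : κ → Bool) (s : Equiv.Perm κ)
    (hs : IsSwap (fun i => β (c i)) c s) : ∀ i, c (s i) = sb (c i) := by
  obtain ⟨l, hl⟩ := hs.ne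
  have h1 : c (s l) = !(c l) := by
    cases h2 : c (s l) <;> cases h3 : c l <;> simp_all
  intro i
  rw [sb_apply]
  by_cases h : c i = c l
  · rw [(hs.hc i l).2 h, h1, h]
  · have h2 : c (s i) ≠ c (s l) := fun h' => h ((hs.hc i l).1 h')
    rw [h1] at h2
    cases h3 : c (s i) <;> cases h4 : c i <;> cases h5 : c l <;> simp_all

theorem hl_sb (c : κ → Bool) (w : Equiv.Perm κ) (hw : ∀ i, c (w i) = sb (c i)) :
    ∀ i j, c (w i) = c (w j) ↔ c i = c j := by
  intro i j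
  rw [hw, hw, sb.apply_eq_iff_eq]

/-- everything is in the big group -/
theorem mem_big {β : Bool → ι'} {τ₁ τ₂ : Bool → ℤ} (H : Opp2 β τ₁ τ₂) (c : κ → Bool)
    (g : GL κ F) : g ∈ lev F (fun i => β (c i)) := fun i j h => absurd (H.beta (c i) (c j)) h

/-- the permutation matrix in the big group -/
def wdot {β : Bool → ι'} {τ₁ τ₂ : Bool → ℤ} (H : Opp2 β τ₁ τ₂) (c : κ → Bool)
    (w : Equiv.Perm κ) : lev F (fun i => β (c i)) := ⟨permG F w, mem_big H c _⟩

/-- `- τ₁` and `τ₂` define the same order -/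
theorem TwoA_lt {β : Bool → ι'} {τ₁ τ₂ : Bool → ℤ} (H : Opp2 β τ₁ τ₂) (x y : Bool) :
    - τ₁ x < - τ₁ y ↔ τ₂ x < τ₂ y := by
  rw [neg_lt_neg_iff]
  exact H.opp y x

/-- the two blocks have the same size -/
theorem TwoA_nb (c : κ → Bool) (w : Equiv.Perm κ) (hw : ∀ i, c (w i) = sb (c i)) (x : Bool) :
    nb c (sb x) = nb c x := by
  classical
  unfold nb
  congr 1
  symm
  refine Finset.card_bij (fun i _ => w i) ?_ ?_ ?_
  · intro i hi
    have h1 := (Finset.mem_filter.1 hi).2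
    exact Finset.mem_filter.2 ⟨Finset.mem_univ _, by rw [hw, h1]⟩
  · intro i _ j _ h
    exact w.injective h
  · intro j hj
    have h1 := (Finset.mem_filter.1 hj).2
    refine ⟨w.symm j, Finset.mem_filter.2 ⟨Finset.mem_univ _, ?_⟩, w.apply_symm_apply j⟩
    have h2 := hw (w.symm j)
    rw [w.apply_symm_apply, h1] at h2
    exact (sb.injective h2).symm

/-- the order `τ₁ ∘ sb` is the order `τ₂` -/
theorem TwoA_sb {β : Bool → ι'} {τ₁ τ₂ : Bool → ℤ} (H : Opp2 β τ₁ τ₂) (x y : Bool) :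
    τ₁ (sb x) < τ₁ (sb y) ↔ τ₂ x < τ₂ y := by
  rw [← H.opp y x, sb_apply, sb_apply]
  cases x <;> cases y <;> simp

section

variable {β : Bool → ι'} {τ₁ τ₂ : Bool → ℤ} (H : Opp2 β τ₁ τ₂) (c : κ → Bool)

include H in
theorem uni_neg : uni F (fun i => β (c i)) (fun i => - τ₁ (c i)) =
    uni F (fun i => β (c i)) (fun i => τ₂ (c i)) :=
  uni_congr c β (fun x => - τ₁ x) τ₂ H.neg.h₂ H.h₂ fun x y _ => TwoA_lt H x y

include H in
theorem dh_neg (m : lev F c) : dh c β (fun x => - τ₁ x) m = dh c β τ₂ m := by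
  rw [dh_apply, dh_apply, ex_congr c β (fun x => - τ₁ x) τ₂ fun x y _ => TwoA_lt H x y]

include H in
theorem Cr_neg (r : ℕ) : Cr F c β τ₁ (fun x => - τ₁ x) r = Cr F c β τ₁ τ₂ r := by
  have h : npair c β τ₁ (fun x => - τ₁ x) = npair c β τ₁ τ₂ := by
    classical
    unfold npair
    refine congrArg Finset.card (Finset.ext fun p => ?_)
    have h1 := TwoA_lt H (c p.1) (c p.2)
    rw [Finset.mem_filter, Finset.mem_filter]
    exact and_congr_right fun _ => and_congr_right fun _ => and_congr_left fun _ => h1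
  unfold Cr
  rw [h]

include H in
theorem dh_swap (w : Equiv.Perm κ) (hw : ∀ i, c (w i) = sb (c i))
    (hl : ∀ i j, c (w i) = c (w j) ↔ c i = c j) (m : lev F c) :
    dh c β τ₁ (cjH c w hl m) = dh c β τ₂ m := by
  classical
  have key : ex c β τ₁ (cjH c w hl m).1 = ex c β τ₂ m.1 := by
    unfold ex
    rw [← Equiv.sum_comp sb]
    refine Finset.sum_congr rfl fun x _ => ?_
    rw [← Equiv.sum_comp sb]
    refine Finset.sum_congr rfl fun y _ => ?_
    have e : ∀ z, vl c (cjH c w hl m).1 (sb z) = vl c m.1 z := fun z =>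
      vl_cj c w sb hw m.1 m.2 z
    have h1 : (β (sb x) = β (sb y) ∧ τ₁ (sb x) < τ₁ (sb y)) ↔ (β x = β y ∧ τ₂ x < τ₂ y) := by
      rw [TwoA_sb H x y]
      constructor
      · rintro ⟨-, h⟩
        exact ⟨H.beta _ _, h⟩
      · rintro ⟨-, h⟩
        exact ⟨H.beta _ _, h⟩
    rw [e, e, TwoA_nb c w hw, TwoA_nb c w hw]
    exact if_congr h1 rfl rfl
  rw [dh_apply, dh_apply, key]

end

end

end Pool.Agent.Lib.MP_ca1492_al.D5
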