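import Mathlib
import Pool.Agent.Lib.MP_ca1492_al.D5.Lead

/-!
# MP_ca1492_al, D5, module Cof: the socle, cofreeness

`SocI` = the vectors of `I_τ(hat ρ)` killed by all variables.

* `mem_SocI_val`: `opE (X x)` = `id ⊗ ∂_x` (`psEnd_X`), and the common kernel of the `id ⊗ ∂_x` is `V ⊗ 1` (choose a
  basis of `V`, or expand along the monomials; characteristic 0).
* `socIso`: `f ↦ (g ↦ f g ⊗ 1)` is an isomorphism of `ISp ρ` onto `SocI`; it is equivariant; injective because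
  `v ↦ v ⊗ 1` is injective; surjective by `mem_SocI_val` (the function `g ↦ v(g)` with `f g = v(g) ⊗ 1` is in
  `ISp ρ`: `hat c ρ m (v ⊗ 1) = ρ m v ⊗ 1`).
* `nil_mono`: `opI_nil` for the monomials.
* `cof`: for every `d` of degree `K` let `W_d ⊆ V ⊗ Pol` be the common kernel of the `opE (monomial d' 1)` with
  `d'` of degree `K + 1`, or of degree `K` and different from `d`; it is stable. The map
  `e ↦` (constant coefficient of `opE (monomial d 1) e`) is equivariant `W_d → V` (the values of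
  `opE (monomial d 1)` on `W_d` are killed by all variables, so in `V ⊗ 1`) and surjective (it maps `v ⊗ u^d/d!`
  to `v`). `ind_surj` (`P/IndEx.lean`) gives `e_d` with `opI (monomial d 1) e_d = x d` and
  `opI (monomial d' 1) e_d = 0` for the other `d'` of degree `K`; take `e = Σ e_d`.
-/

set_option autoImplicit false

namespace Pool.Agent.Lib.MP_ca1492_al.D5

open Pool.Agent.Lib.MP_ca1492_al.P
open Topology Matrix ValuativeRel TensorProduct

noncomputable section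

variable {F : Type} [Field F] [ValuativeRel F] [TopologicalSpace F]
  [IsNonarchimedeanLocalField F]
variable {κ : Type} [Fintype κ] [DecidableEq κ]
variable {ι ι' : Type} [Fintype ι] [DecidableEq ι]
variable {V : Type} [AddCommGroup V] [Module ℂ V]

/-- the vectors killed by all variables -/
def SocI (c : κ → ι) (β : ι → ι') (τ : ι → ℤ) (hτ : Function.Injective τ)
    (ρ : Representation ℂ (lev F c) V) : Submodule ℂ (ISp c β τ hτ (hat c ρ)) :=
  ⨅ x : ι, LinearMap.ker (opI c β τ hτ ρ (MvPowerSeries.X x))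

theorem mem_SocI (c : κ → ι) (β : ι → ι') (τ : ι → ℤ) (hτ : Function.Injective τ)
    (ρ : Representation ℂ (lev F c) V) (f : ISp c β τ hτ (hat c ρ)) :
    f ∈ SocI c β τ hτ ρ ↔ ∀ x : ι, opI c β τ hτ ρ (MvPowerSeries.X x) f = 0 := by
  unfold SocI
  rw [Submodule.mem_iInf]
  rfl

omit [Fintype ι] [DecidableEq ι] in
theorem Cof_opE_tmul (y : MvPowerSeries ι ℂ) (v : V) (p : MvPolynomial ι ℂ) :
    opE V y (v ⊗ₜ[ℂ] p) = v ⊗ₜ[ℂ] psEnd y p := rfl

omit [Fintype ι] [DecidableEq ι] in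
/-- the common kernel of the variables is `V ⊗ 1` -/
theorem Cof_ker (e : V ⊗[ℂ] MvPolynomial ι ℂ)
    (h : ∀ x : ι, opE V (MvPowerSeries.X x) e = 0) : ∃ v : V, e = v ⊗ₜ[ℂ] (1 : MvPolynomial ι ℂ) := by
  classical
  obtain ⟨b⟩ : Nonempty (Module.Basis (Module.Basis.ofVectorSpaceIndex ℂ V) ℂ V) :=
    ⟨Module.Basis.ofVectorSpace ℂ V⟩
  obtain ⟨p, hp⟩ := TensorProduct.eq_repr_basis_left b e
  have hd : ∀ x i, MvPolynomial.pderiv x (p i) = 0 := by
    intro x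
    have h1 := h x
    rw [← hp, Finsupp.sum, map_sum] at h1
    have h2 : (p.mapRange (MvPolynomial.pderiv x) (map_zero _)).sum
        (fun i n => b i ⊗ₜ[ℂ] n) = 0 := by
      rw [Finsupp.sum_mapRange_index (fun i => TensorProduct.tmul_zero _ _), Finsupp.sum]
      rw [← h1]
      refine Finset.sum_congr rfl fun i _ => ?_
      rw [Cof_opE_tmul, psEnd_X]
    have h3 := TensorProduct.sum_tmul_basis_left_eq_zero b _ h2
    intro i
    have h4 := DFunLike.congr_fun h3 i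
    rw [Finsupp.mapRange_apply] at h4
    exact h4
  refine ⟨p.sum fun i n => MvPolynomial.constantCoeff n • b i, ?_⟩
  rw [← hp, Finsupp.sum, Finsupp.sum, TensorProduct.sum_tmul]
  refine Finset.sum_congr rfl fun i _ => ?_
  conv_lhs => rw [IsoPs_const (p i) fun x => hd x i]
  rw [TensorProduct.smul_tmul, MvPolynomial.smul_eq_C_mul, mul_one]

theorem mem_SocI_val (c : κ → ι) (β : ι → ι') (τ : ι → ℤ) (hτ : Function.Injective τ)
    (ρ : Representation ℂ (lev F c) V) (f : ISp c β τ hτ (hat c ρ)) :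
    f ∈ SocI c β τ hτ ρ ↔ ∀ g, ∃ v : V, f.1 g = v ⊗ₜ 1 := by
  rw [mem_SocI]
  constructor
  · intro h g
    refine Cof_ker (f.1 g) fun x => ?_
    have h1 := congrArg (fun φ : ISp c β τ hτ (hat c ρ) => φ.1 g) (h x)
    exact h1
  · intro h x
    refine Subtype.ext (funext fun g => ?_)
    obtain ⟨v, hv⟩ := h g
    show opE V (MvPowerSeries.X x) (f.1 g) = 0
    rw [hv, Cof_opE_tmul, psEnd_X, MvPolynomial.pderiv_one, TensorProduct.tmul_zero]

/-- `V = V ⊗ 1` -/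
def inc1 (V : Type) [AddCommGroup V] [Module ℂ V] (ι : Type) :
    V →ₗ[ℂ] V ⊗[ℂ] MvPolynomial ι ℂ where
  toFun v := v ⊗ₜ 1
  map_add' a b := TensorProduct.add_tmul a b 1
  map_smul' z a := (TensorProduct.smul_tmul' z a 1)

theorem inc1_equi (c : κ → ι) (ρ : Representation ℂ (lev F c) V) :
    Equi ρ (hat c ρ) (inc1 V ι) := by
  intro m v
  rw [hat_apply]
  show (ρ m v) ⊗ₜ[ℂ] (1 : MvPolynomial ι ℂ) =
    TensorProduct.map (ρ m) (shiftP (vl c m.1)) (v ⊗ₜ[ℂ] (1 : MvPolynomial ι ℂ))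
  rw [TensorProduct.map_tmul]
  congr 1
  rw [← MvPolynomial.C_1, IsoPs2_C]

/-- the constant coefficient -/
def Cof_cc (V : Type) [AddCommGroup V] [Module ℂ V] (ι : Type) :
    V ⊗[ℂ] MvPolynomial ι ℂ →ₗ[ℂ] V :=
  (TensorProduct.rid ℂ V).toLinearMap ∘ₗ
    TensorProduct.map LinearMap.id (MvPolynomial.lcoeff (R := ℂ) (0 : ι →₀ ℕ))

omit [Fintype ι] [DecidableEq ι] in
theorem Cof_cc_one (v : V) : Cof_cc V ι (v ⊗ₜ[ℂ] (1 : MvPolynomial ι ℂ)) = v := by
  have h : MvPolynomial.lcoeff (R := ℂ) (0 : ι →₀ ℕ) 1 = 1 := by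
    show MvPolynomial.coeff 0 (1 : MvPolynomial ι ℂ) = 1
    exact MvPolynomial.coeff_zero_one
  unfold Cof_cc
  rw [LinearMap.comp_apply, TensorProduct.map_tmul, h, LinearMap.id_apply]
  show TensorProduct.rid ℂ V (v ⊗ₜ 1) = v
  rw [TensorProduct.rid_tmul, one_smul]

omit [Fintype ι] [DecidableEq ι] in
theorem Cof_inc1_inj : Function.Injective (inc1 V ι) := by
  intro v w h
  have h1 : Cof_cc V ι (inc1 V ι v) = Cof_cc V ι (inc1 V ι w) := by rw [h]
  have h2 : ∀ u : V, Cof_cc V ι (inc1 V ι u) = u := fun u => Cof_cc_one u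
  rwa [h2, h2] at h1

/-- the embedding of `I_τ(ρ)` -/
def socEmb (c : κ → ι) (β : ι → ι') (τ : ι → ℤ) (hτ : Function.Injective τ)
    (ρ : Representation ℂ (lev F c) V) : ISp c β τ hτ ρ →ₗ[ℂ] ISp c β τ hτ (hat c ρ) where
  toFun f := ⟨fun g => inc1 V ι (f.1 g),
    ISp_map c β τ hτ ρ (hat c ρ) (inc1 V ι) (inc1_equi c ρ) f.1 f.2⟩
  map_add' f f' := Subtype.ext (funext fun g => map_add (inc1 V ι) _ _)
  map_smul' z f := Subtype.ext (funext fun g => map_smul (inc1 V ι) z _)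

theorem socEmb_equi (c : κ → ι) (β : ι → ι') (τ : ι → ℤ) (hτ : Function.Injective τ)
    (ρ : Representation ℂ (lev F c) V) :
    Equi (IRp c β τ hτ ρ) (IRp c β τ hτ (hat c ρ)) (socEmb c β τ hτ ρ) := fun _ _ => rfl

theorem socEmb_inj (c : κ → ι) (β : ι → ι') (τ : ι → ℤ) (hτ : Function.Injective τ)
    (ρ : Representation ℂ (lev F c) V) : Function.Injective (socEmb c β τ hτ ρ) := by
  intro f f' h
  refine Subtype.ext (funext fun g => Cof_inc1_inj (ι := ι) ?_)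
  exact congrArg (fun φ : ISp c β τ hτ (hat c ρ) => φ.1 g) h

theorem socEmb_range (c : κ → ι) (β : ι → ι') (τ : ι → ℤ) (hτ : Function.Injective τ)
    (ρ : Representation ℂ (lev F c) V) :
    LinearMap.range (socEmb c β τ hτ ρ) = SocI c β τ hτ ρ := by
  apply le_antisymm
  · rintro _ ⟨f, rfl⟩
    rw [mem_SocI_val]
    exact fun g => ⟨f.1 g, rfl⟩
  · intro f hf
    rw [mem_SocI_val] at hf
    choose v hv using hf
    have hv' : ∀ g, f.1 g = inc1 V ι (v g) := hv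
    have hmem : v ∈ ISp c β τ hτ ρ := by
      obtain ⟨h1, U, hU, h2⟩ := f.2
      refine ⟨fun m hm n hn g => ?_, U, hU, fun g u hu => ?_⟩
      · apply Cof_inc1_inj (ι := ι)
        rw [← hv', h1 m hm n hn g, hv']
        show (dh c β τ ⟨m, hm⟩ : ℂ) • hat c ρ ⟨m, hm⟩ (inc1 V ι (v g)) =
          inc1 V ι ((dh c β τ ⟨m, hm⟩ : ℂ) • ρ ⟨m, hm⟩ (v g))
        rw [map_smul, inc1_equi c ρ]
      · apply Cof_inc1_inj (ι := ι)
        rw [← hv', ← hv', h2 g u hu]
    exact ⟨⟨v, hmem⟩, Subtype.ext (funext fun g => (hv' g).symm)⟩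

theorem nil_mono (c : κ → ι) (β : ι → ι') (τ : ι → ℤ) (hτ : Function.Injective τ)
    (ρ : Representation ℂ (lev F c) V) (f : ISp c β τ hτ (hat c ρ)) :
    ∃ K : ℕ, ∀ d : ι →₀ ℕ, K ≤ d.degree →
      opI c β τ hτ ρ (MvPowerSeries.monomial d (1 : ℂ)) f = 0 := by
  obtain ⟨K, hK⟩ := opI_nil c β τ hτ ρ f
  refine ⟨K, fun d hd => hK _ fun m hm => ?_⟩
  classical
  rw [MvPowerSeries.coeff_monomial, if_neg]
  rintro rfl
  omega

/-- the common kernel of the monomials of degree `K + 1` and of degree `K`, different from `d` -/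
def Cof_W (V : Type) [AddCommGroup V] [Module ℂ V] (K : ℕ) (d : ι →₀ ℕ) :
    Submodule ℂ (V ⊗[ℂ] MvPolynomial ι ℂ) where
  carrier := {e | ∀ d' : ι →₀ ℕ, (d'.degree = K + 1 ∨ (d'.degree = K ∧ d' ≠ d)) →
    opE V (MvPowerSeries.monomial d' (1 : ℂ)) e = 0}
  add_mem' := by
    intro a b ha hb d' hd'
    rw [map_add, ha d' hd', hb d' hd', add_zero]
  zero_mem' := fun d' _ => map_zero _
  smul_mem' := by
    intro z a ha d' hd'
    rw [map_smul, ha d' hd', smul_zero]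

theorem Cof_W_stab (c : κ → ι) (ρ : Representation ℂ (lev F c) V) (K : ℕ) (d : ι →₀ ℕ) :
    Stab (hat c ρ) (Cof_W V K d) := by
  intro m e he d' hd'
  rw [opE_equi c ρ _ m e, he d' hd', map_zero]

theorem Cof_W_val (K : ℕ) (d : ι →₀ ℕ) (hd : d.degree = K) (e : V ⊗[ℂ] MvPolynomial ι ℂ)
    (he : e ∈ Cof_W V K d) :
    opE V (MvPowerSeries.monomial d (1 : ℂ)) e =
      inc1 V ι (Cof_cc V ι (opE V (MvPowerSeries.monomial d (1 : ℂ)) e)) := by
  obtain ⟨v, hv⟩ := Cof_ker (opE V (MvPowerSeries.monomial d (1 : ℂ)) e) (by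
    intro x
    rw [← opE_mul]
    have h1 : (MvPowerSeries.X x : MvPowerSeries ι ℂ) * MvPowerSeries.monomial d (1 : ℂ) =
        MvPowerSeries.monomial (Finsupp.single x 1 + d) (1 : ℂ) := by
      rw [MvPowerSeries.X, MvPowerSeries.monomial_mul_monomial, one_mul]
    rw [h1]
    refine he _ (Or.inl ?_)
    rw [map_add, Finsupp.degree_single, hd, add_comm])
  rw [hv, Cof_cc_one]
  rfl

omit [Fintype ι] [DecidableEq ι] in
open Classical in
theorem Cof_psEnd (d d' : ι →₀ ℕ) :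
    psEnd (MvPowerSeries.monomial d' (1 : ℂ)) (IsoPs_e d) =
      if d' ≤ d then IsoPs_e (d - d') else 0 := by
  rw [IsoPs_psEnd]
  split_ifs with h
  · rw [Finset.sum_eq_single (d', d - d')]
    · rw [MvPowerSeries.coeff_monomial, if_pos rfl, one_smul]
    · rintro ⟨a, b⟩ hq hne
      rw [MvPowerSeries.coeff_monomial, if_neg, zero_smul]
      intro h'
      have h'' : a = d' := h'
      subst h''
      rw [Finset.HasAntidiagonal.mem_antidiagonal] at hq
      have hq' : a + b = d := hq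
      apply hne
      rw [← hq', add_tsub_cancel_left]
    · intro hn
      exact absurd (Finset.HasAntidiagonal.mem_antidiagonal.mpr (add_tsub_cancel_of_le h)) hn
  · refine Finset.sum_eq_zero fun q hq => ?_
    rw [MvPowerSeries.coeff_monomial, if_neg, zero_smul]
    rintro h'
    rw [Finset.HasAntidiagonal.mem_antidiagonal] at hq
    apply h
    rw [← hq, ← h']
    exact le_self_add

theorem Cof_W_mem (K : ℕ) (d : ι →₀ ℕ) (hd : d.degree = K) (v : V) :
    v ⊗ₜ[ℂ] IsoPs_e d ∈ Cof_W V K d := by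
  intro d' hd'
  rw [Cof_opE_tmul, Cof_psEnd, if_neg, TensorProduct.tmul_zero]
  intro hle
  have h1 : d' + (d - d') = d := add_tsub_cancel_of_le hle
  have h2 : d'.degree + (d - d').degree = d.degree := by rw [← map_add, h1]
  rcases hd' with h3 | ⟨h3, h4⟩
  · omega
  · have h5 : (d - d').degree = 0 := by omega
    rw [Finsupp.degree_eq_zero_iff] at h5
    rw [h5, add_zero] at h1
    exact h4 h1

omit [Fintype ι] [DecidableEq ι] in
theorem Cof_W_top (d : ι →₀ ℕ) (v : V) :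
    opE V (MvPowerSeries.monomial d (1 : ℂ)) (v ⊗ₜ[ℂ] IsoPs_e d) =
      v ⊗ₜ[ℂ] (1 : MvPolynomial ι ℂ) := by
  rw [Cof_opE_tmul, Cof_psEnd, if_pos le_rfl, tsub_self]
  congr 1
  unfold IsoPs_e
  rw [IsoPs_fac_zero, inv_one]
  rfl

/-- the map of `W_d` to `V` -/
def Cof_T (V : Type) [AddCommGroup V] [Module ℂ V] (K : ℕ) (d : ι →₀ ℕ) :
    Cof_W V K d →ₗ[ℂ] V :=
  Cof_cc V ι ∘ₗ opE V (MvPowerSeries.monomial d (1 : ℂ)) ∘ₗ (Cof_W V K d).subtype

theorem Cof_T_val (K : ℕ) (d : ι →₀ ℕ) (hd : d.degree = K) (e : Cof_W V K d) :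
    opE V (MvPowerSeries.monomial d (1 : ℂ)) e.1 = inc1 V ι (Cof_T V K d e) :=
  Cof_W_val K d hd e.1 e.2

theorem Cof_T_surj (K : ℕ) (d : ι →₀ ℕ) (hd : d.degree = K) :
    Function.Surjective (Cof_T V K d) := by
  intro v
  refine ⟨⟨v ⊗ₜ[ℂ] IsoPs_e d, Cof_W_mem K d hd v⟩, ?_⟩
  show Cof_cc V ι (opE V (MvPowerSeries.monomial d (1 : ℂ)) (v ⊗ₜ[ℂ] IsoPs_e d)) = v
  rw [Cof_W_top, Cof_cc_one]

theorem Cof_T_equi (c : κ → ι) (β : ι → ι') (τ : ι → ℤ) (ρ : Representation ℂ (lev F c) V)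
    (K : ℕ) (d : ι →₀ ℕ) (hd : d.degree = K) :
    Equi (twist (dh c β τ) (subRep (hat c ρ) (Cof_W V K d) (Cof_W_stab c ρ K d)))
      (twist (dh c β τ) ρ) (Cof_T V K d) := by
  intro m e
  show Cof_T V K d ((dh c β τ m : ℂ) • subRep (hat c ρ) (Cof_W V K d) (Cof_W_stab c ρ K d) m e) =
    (dh c β τ m : ℂ) • ρ m (Cof_T V K d e)
  rw [map_smul]
  congr 1
  apply Cof_inc1_inj (ι := ι)
  rw [← Cof_T_val K d hd, inc1_equi c ρ, ← Cof_T_val K d hd]
  exact opE_equi c ρ _ m e.1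

/-- cofreeness for one exponent -/
theorem Cof_one (c : κ → ι) (β : ι → ι') (τ : ι → ℤ) (hτ : Function.Injective τ)
    (ρ : Representation ℂ (lev F c) V) (hρ : IsSm ρ) (K : ℕ) (d : ι →₀ ℕ) (hd : d.degree = K)
    (x : ISp c β τ hτ (hat c ρ)) (hx : x ∈ SocI c β τ hτ ρ) :
    ∃ e : ISp c β τ hτ (hat c ρ), opI c β τ hτ ρ (MvPowerSeries.monomial d (1 : ℂ)) e = x ∧
      ∀ d' : ι →₀ ℕ, d'.degree = K → d' ≠ d →
        opI c β τ hτ ρ (MvPowerSeries.monomial d' (1 : ℂ)) e = 0 := by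
  rw [← socEmb_range] at hx
  obtain ⟨y, rfl⟩ := hx
  have hsm := smooth_sub (hat c ρ) (hat_smooth c ρ hρ) (Cof_W V K d) (Cof_W_stab c ρ K d)
  obtain ⟨f, hf⟩ := ind_surj c (fun i => β (c i)) (fun i => τ (c i)) (ordD_cond c β τ hτ)
    (twist (dh c β τ) (subRep (hat c ρ) (Cof_W V K d) (Cof_W_stab c ρ K d)))
    (twist (dh c β τ) ρ) (sm_twist c β τ _ hsm) (sm_twist c β τ ρ hρ) (Cof_T V K d)
    (Cof_T_equi c β τ ρ K d hd) (Cof_T_surj K d hd) y
  have hfg : ∀ g, Cof_T V K d (f.1 g) = y.1 g := fun g =>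
    congrArg (fun φ : ISp c β τ hτ ρ => φ.1 g) hf
  have hmem : (fun g => (f.1 g).1) ∈ ISp c β τ hτ (hat c ρ) :=
    ISp_map c β τ hτ (subRep (hat c ρ) (Cof_W V K d) (Cof_W_stab c ρ K d)) (hat c ρ)
      (Cof_W V K d).subtype (fun _ _ => rfl) f.1 f.2
  refine ⟨⟨_, hmem⟩, Subtype.ext (funext fun g => ?_), fun d' hd' hne =>
    Subtype.ext (funext fun g => ?_)⟩
  · show opE V (MvPowerSeries.monomial d (1 : ℂ)) (f.1 g).1 = inc1 V ι (y.1 g)
    rw [Cof_T_val K d hd, hfg]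
  · exact (f.1 g).2 d' (Or.inr ⟨hd', hne⟩)

/-- cofreeness -/
theorem cof (c : κ → ι) (β : ι → ι') (τ : ι → ℤ) (hτ : Function.Injective τ)
    (ρ : Representation ℂ (lev F c) V) (hρ : IsSm ρ) (K : ℕ)
    (x : (ι →₀ ℕ) → ISp c β τ hτ (hat c ρ)) (hx : ∀ d, x d ∈ SocI c β τ hτ ρ) :
    ∃ e : ISp c β τ hτ (hat c ρ), ∀ d : ι →₀ ℕ, d.degree = K →
      opI c β τ hτ ρ (MvPowerSeries.monomial d (1 : ℂ)) e = x d := by
  classical
  have h1 : ∀ d : ι →₀ ℕ, ∃ e : ISp c β τ hτ (hat c ρ), d.degree = K →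
      opI c β τ hτ ρ (MvPowerSeries.monomial d (1 : ℂ)) e = x d ∧
      ∀ d' : ι →₀ ℕ, d'.degree = K → d' ≠ d →
        opI c β τ hτ ρ (MvPowerSeries.monomial d' (1 : ℂ)) e = 0 := by
    intro d
    by_cases hd : d.degree = K
    · obtain ⟨e, he⟩ := Cof_one c β τ hτ ρ hρ K d hd (x d) (hx d)
      exact ⟨e, fun _ => he⟩
    · exact ⟨0, fun h => absurd h hd⟩
  choose e he using h1
  have hmem : ∀ d : ι →₀ ℕ, d ∈ (Finset.univ : Finset ι).finsuppAntidiag K ↔ d.degree = K := by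
    intro d
    rw [Finset.mem_finsuppAntidiag, Finsupp.degree_eq_sum]
    exact ⟨fun h => h.1, fun h => ⟨h, Finset.subset_univ _⟩⟩
  refine ⟨∑ d ∈ (Finset.univ : Finset ι).finsuppAntidiag K, e d, fun d hd => ?_⟩
  rw [map_sum, Finset.sum_eq_single d]
  · exact (he d hd).1
  · intro d' hd' hne
    exact (he d' ((hmem d').1 hd')).2 d hd (Ne.symm hne)
  · intro h
    exact absurd ((hmem d).2 hd) h

end

end Pool.Agent.Lib.MP_ca1492_al.D5
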