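import Mathlib
import Pool.Agent.Lib.MP_ca1492_al.D5.Cof
import Pool.Agent.Lib.MP_ca1492_al.D5.LeadI

/-!
# MP_ca1492_al, D5, module TwoZ: the level zero part of the induced representation

`em0 : I_τ(ρ) → I_τ(hat ρ)`, `f ↦ f ⊗ 1`; its image is the set of functions killed by all variables.

* `tm1_equi`: `hat m (v ⊗ 1) = ρ m v ⊗ 1` (`shiftP n 1 = 1`, `PolInj2_shift_C`).
* `opI_em0`: `psEnd y 1 = C (constantCoeff y)` (`IsoPs_psEnd` for the monomial `1`, or `IsoPs_X`-free: write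
  `y = C z + Σ X_x y_x`... the simplest is the coefficient formula of `psEnd` in `P/IsoPs.lean`).
* `em0_range`: `z ∈ V ⊗ Pol` with `opE (X x) z = 0` for all `x` is `(π₀ z) ⊗ 1`, `π₀ = id ⊗ (constant coefficient)`:
  in a basis of `V` (or with `schur_sep`-like functionals) the coefficients of `z` are polynomials `p` with
  `psEnd (X x) p = ∂_x p = 0` for all `x`, so `p` is constant (characteristic `0`). Then `f₀ g = π₀ (f.1 g)`; the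
  transformation law for `f₀` follows from the one for `f` and `v ⊗ 1 = v' ⊗ 1 → v = v'`.
* `restr0`: `Φ (em0 f)` is killed by all variables, so it is `em0 (Φ₀ f)` by `em0_range`; `Φ₀` linear and equivariant
  by `em0_inj`, `em0_equi`.
* `tst0`: `sm_fix`, `tst_exists` (`D5/Tst.lean`). `KS_em0`: `KS_map` (and `v ⊗ 1 ≠ 0` only if `v ≠ 0`).
* `lead0`: test function `f` of large level with `f 1 = e ≠ 0`: `(Φ (em0 f))(1) = Cr • opE ℓ (e ⊗ 1) =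
  (Cr * constantCoeff ℓ) • (e ⊗ 1) ≠ 0` (`Cr_ne`).
* `schur0`: `schur` with `ind_adm` for `twist (dh c β τ) ρ` (`cusp_adm` for it: `sm_twist`, `cusp_twist`, and the
  twist of an irreducible representation is irreducible), smooth: `ISp_smooth`.
* `opI_inj`: for `v ≠ 0` and a polynomial `p` there is a test function of `hat c ρ` with value `v ⊗ p` at `1`
  (`hat_smooth`, `sm_fix`, `tst_exists`); so `opE y = opE z` on all `v ⊗ p`, hence on everything, `opE_inj`.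
-/

set_option autoImplicit false
set_option linter.unusedSectionVars false

namespace Pool.Agent.Lib.MP_ca1492_al.D5

open Pool.Agent.Lib.MP_ca1492_al.P
open Topology Matrix ValuativeRel TensorProduct

noncomputable section

variable {F : Type} [Field F] [ValuativeRel F] [TopologicalSpace F]
  [IsNonarchimedeanLocalField F]
variable {κ : Type} [Fintype κ] [DecidableEq κ]
variable {ι ι' : Type} [Fintype ι] [DecidableEq ι]
variable {V : Type} [AddCommGroup V] [Module ℂ V]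

variable (ι V) in
/-- `v ↦ v ⊗ 1` -/
def tm1 : V →ₗ[ℂ] V ⊗[ℂ] MvPolynomial ι ℂ where
  toFun v := v ⊗ₜ[ℂ] (1 : MvPolynomial ι ℂ)
  map_add' v v' := TensorProduct.add_tmul v v' 1
  map_smul' z v := (TensorProduct.smul_tmul' z v (1 : MvPolynomial ι ℂ)).symm

omit [Fintype ι] [DecidableEq ι] in
theorem TwoZ_psEnd_one (y : MvPowerSeries ι ℂ) :
    psEnd y (1 : MvPolynomial ι ℂ) = MvPowerSeries.constantCoeff y • (1 : MvPolynomial ι ℂ) := by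
  classical
  have h1 : (1 : MvPolynomial ι ℂ) = IsoPs_e 0 := by
    unfold IsoPs_e
    rw [IsoPs_fac_zero, inv_one]
    rfl
  rw [h1, IsoPs_psEnd, Finset.sum_eq_single (0, 0)]
  · rfl
  · rintro ⟨a, b⟩ hq hne
    rw [Finset.HasAntidiagonal.mem_antidiagonal] at hq
    have hq' : a + b = 0 := hq
    rw [add_eq_zero] at hq'
    exact absurd (Prod.ext hq'.1 hq'.2) hne
  · intro h
    exact absurd (Finset.HasAntidiagonal.mem_antidiagonal.mpr (add_zero 0)) h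

theorem TwoZ_irr_twist {G : Type} [Group G] {E : Type} [AddCommGroup E] [Module ℂ E]
    (χ : G →* ℂˣ) (σ : Representation ℂ G E) (hσ : Irr σ) : Irr (twist χ σ) := by
  refine ⟨hσ.1, fun U hU => hσ.2 U fun g v hv => ?_⟩
  have h1 : ((χ g : ℂˣ) : ℂ) • σ g v ∈ U := hU g v hv
  have h2 : σ g v = (((χ g)⁻¹ : ℂˣ) : ℂ) • (((χ g : ℂˣ) : ℂ) • σ g v) := by
    rw [smul_smul, ← Units.val_mul, inv_mul_cancel, Units.val_one, one_smul]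
  rw [h2]
  exact U.smul_mem _ h1

theorem tm1_apply (v : V) : tm1 ι V v = v ⊗ₜ[ℂ] (1 : MvPolynomial ι ℂ) := rfl

theorem tm1_inj : Function.Injective (tm1 ι V) := by
  exact Cof_inc1_inj

theorem tm1_equi (c : κ → ι) (ρ : Representation ℂ (lev F c) V) :
    Equi ρ (hat c ρ) (tm1 ι V) := by
  exact inc1_equi c ρ

section

variable (c : κ → ι) (β : ι → ι') (τ : ι → ℤ) (hτ : Function.Injective τ)
  (ρ : Representation ℂ (lev F c) V)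

/-- the embedding of the level zero part -/
def em0 : ISp c β τ hτ ρ →ₗ[ℂ] ISp c β τ hτ (hat c ρ) where
  toFun f := ⟨fun g => tm1 ι V (f.1 g),
    ISp_map c β τ hτ ρ (hat c ρ) (tm1 ι V) (tm1_equi c ρ) f.1 f.2⟩
  map_add' f f' := Subtype.ext (funext fun g => map_add (tm1 ι V) (f.1 g) (f'.1 g))
  map_smul' z f := Subtype.ext (funext fun g => map_smul (tm1 ι V) z (f.1 g))

theorem em0_val (f : ISp c β τ hτ ρ) (g : lev F (fun i => β (c i))) :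
    (em0 c β τ hτ ρ f).1 g = f.1 g ⊗ₜ[ℂ] (1 : MvPolynomial ι ℂ) := rfl

theorem em0_inj : Function.Injective (em0 c β τ hτ ρ) := by
  intro f f' h
  refine Subtype.ext (funext fun g => tm1_inj (ι := ι) ?_)
  exact congrFun (congrArg Subtype.val h) g

theorem em0_equi : Equi (IRp c β τ hτ ρ) (IRp c β τ hτ (hat c ρ)) (em0 c β τ hτ ρ) :=
  fun _ _ => rfl

theorem opI_em0 (y : MvPowerSeries ι ℂ) (f : ISp c β τ hτ ρ) :
    opI c β τ hτ ρ y (em0 c β τ hτ ρ f) =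
      MvPowerSeries.constantCoeff y • em0 c β τ hτ ρ f := by
  refine Subtype.ext (funext fun g => ?_)
  show opE V y (f.1 g ⊗ₜ[ℂ] (1 : MvPolynomial ι ℂ)) =
    MvPowerSeries.constantCoeff y • (f.1 g ⊗ₜ[ℂ] (1 : MvPolynomial ι ℂ))
  rw [Cof_opE_tmul, TwoZ_psEnd_one, TensorProduct.tmul_smul]

theorem em0_range (f : ISp c β τ hτ (hat c ρ))
    (h : ∀ x : ι, opI c β τ hτ ρ (MvPowerSeries.X x) f = 0) :
    ∃ f₀ : ISp c β τ hτ ρ, em0 c β τ hτ ρ f₀ = f := by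
  have h1 : f ∈ SocI c β τ hτ ρ := (mem_SocI c β τ hτ ρ f).2 h
  rw [← socEmb_range] at h1
  obtain ⟨f₀, hf₀⟩ := h1
  exact ⟨f₀, hf₀⟩

theorem KS_em0 (r : ℕ) (f : ISp c β τ hτ ρ) (hf : KS c β τ r f.1) :
    KS c β τ r (em0 c β τ hτ ρ f).1 := KS_map c β τ r f.1 hf (tm1 ι V)

/-- test functions with given value -/
theorem tst0 {E : Type} [AddCommGroup E] [Module ℂ E] (σ : Representation ℂ (lev F c) E)
    (hσ : IsSm σ) (e : E) :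
    ∃ r₀ : ℕ, ∀ r : ℕ, r₀ ≤ r → ∃ f : ISp c β τ hτ σ, KS c β τ r f.1 ∧ f.1 1 = e := by
  obtain ⟨r₀, hr₀⟩ := sm_fix c σ hσ e
  exact ⟨r₀, fun r hr => tst_exists c β τ hτ σ r e (hr₀ r hr)⟩

/-- Schur's lemma for the level zero part -/
theorem schur0 (hρ : IsSm ρ) (hi : Irr ρ) (hc : Cusp c ρ) (hirr : Irr (IRp c β τ hτ ρ))
    (T : ISp c β τ hτ ρ →ₗ[ℂ] ISp c β τ hτ ρ) (hT : Equi (IRp c β τ hτ ρ) (IRp c β τ hτ ρ) T) :
    ∃ z : ℂ, ∀ f, T f = z • f := by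
  have h1 : Adm (twist (dh c β τ) ρ) :=
    cusp_adm c _ (sm_twist c β τ ρ hρ) (TwoZ_irr_twist _ ρ hi) (cusp_twist c β τ ρ hc)
  have h2 : Adm (IRp c β τ hτ ρ) :=
    ind_adm c (fun i => β (c i)) (fun i => τ (c i)) (ordD_cond c β τ hτ) (twist (dh c β τ) ρ)
      (sm_twist c β τ ρ hρ) h1
  exact schur (IRp c β τ hτ ρ) (ISp_smooth c β τ hτ ρ) hirr h2 T hT

theorem opI_inj (hV : ∃ v : V, v ≠ 0) (hρ : IsSm ρ) (y z : MvPowerSeries ι ℂ)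
    (h : ∀ f : ISp c β τ hτ (hat c ρ), opI c β τ hτ ρ y f = opI c β τ hτ ρ z f) : y = z := by
  refine opE_inj hV y z fun e => ?_
  obtain ⟨r₀, hr₀⟩ := tst0 c β τ hτ (hat c ρ) (hat_smooth c ρ hρ) e
  obtain ⟨f, -, hf⟩ := hr₀ r₀ le_rfl
  have h1 := congrArg (fun φ : ISp c β τ hτ (hat c ρ) => φ.1 1) (h f)
  have h2 : opE V y (f.1 1) = opE V z (f.1 1) := h1
  rwa [hf] at h2

end

section

variable (c : κ → ι) (β : ι → ι') (τ₁ τ₂ : ι → ℤ) (hτ₁ : Function.Injective τ₁)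
  (hτ₂ : Function.Injective τ₂) (ρ : Representation ℂ (lev F c) V)

/-- restriction of an equivariant map to the level zero parts -/
theorem restr0 (Φ : ISp c β τ₁ hτ₁ (hat c ρ) →ₗ[ℂ] ISp c β τ₂ hτ₂ (hat c ρ))
    (hΦ : Equi (IRp c β τ₁ hτ₁ (hat c ρ)) (IRp c β τ₂ hτ₂ (hat c ρ)) Φ)
    (h : ∀ (x : ι) (f : ISp c β τ₁ hτ₁ ρ),
      opI c β τ₂ hτ₂ ρ (MvPowerSeries.X x) (Φ (em0 c β τ₁ hτ₁ ρ f)) = 0) :
    ∃ Φ₀ : ISp c β τ₁ hτ₁ ρ →ₗ[ℂ] ISp c β τ₂ hτ₂ ρ,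
      Equi (IRp c β τ₁ hτ₁ ρ) (IRp c β τ₂ hτ₂ ρ) Φ₀ ∧
      ∀ f, em0 c β τ₂ hτ₂ ρ (Φ₀ f) = Φ (em0 c β τ₁ hτ₁ ρ f) := by
  choose Φ₀ hΦ₀ using fun f => em0_range c β τ₂ hτ₂ ρ (Φ (em0 c β τ₁ hτ₁ ρ f)) (fun x => h x f)
  refine ⟨{ toFun := Φ₀
            map_add' := fun f f' => em0_inj c β τ₂ hτ₂ ρ ?_
            map_smul' := fun z f => em0_inj c β τ₂ hτ₂ ρ ?_ }, fun g f => ?_, hΦ₀⟩
  · rw [hΦ₀, map_add, map_add, map_add, hΦ₀, hΦ₀]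
  · rw [hΦ₀, map_smul, map_smul, map_smul, hΦ₀]
    rfl
  · apply em0_inj c β τ₂ hτ₂ ρ
    show em0 c β τ₂ hτ₂ ρ (Φ₀ (IRp c β τ₁ hτ₁ ρ g f)) = em0 c β τ₂ hτ₂ ρ (IRp c β τ₂ hτ₂ ρ g (Φ₀ f))
    rw [hΦ₀, em0_equi c β τ₂ hτ₂ ρ g, hΦ₀, em0_equi c β τ₁ hτ₁ ρ g, hΦ g]

theorem XI_restr0 (Φ : ISp c β τ₁ hτ₁ (hat c ρ) →ₗ[ℂ] ISp c β τ₂ hτ₂ (hat c ρ))
    (hΦ : Φ ∈ XI c β τ₁ hτ₁ τ₂ hτ₂ ρ) :
    ∃ Φ₀ : ISp c β τ₁ hτ₁ ρ →ₗ[ℂ] ISp c β τ₂ hτ₂ ρ,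
      Equi (IRp c β τ₁ hτ₁ ρ) (IRp c β τ₂ hτ₂ ρ) Φ₀ ∧
      ∀ f, em0 c β τ₂ hτ₂ ρ (Φ₀ f) = Φ (em0 c β τ₁ hτ₁ ρ f) := by
  refine restr0 c β τ₁ τ₂ hτ₁ hτ₂ ρ Φ hΦ.1 fun x f => ?_
  rw [← hΦ.2, opI_em0, map_smul, MvPowerSeries.constantCoeff_X, zero_smul]

/-- a leading coefficient with nonzero constant term: nonzero on the level zero part -/
theorem lead0 (hρ : IsSm ρ) (Φ : ISp c β τ₁ hτ₁ (hat c ρ) →ₗ[ℂ] ISp c β τ₂ hτ₂ (hat c ρ))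
    (ℓ : MvPowerSeries ι ℂ) (hℓ : LeadI c β τ₁ hτ₁ τ₂ hτ₂ ρ Φ ℓ)
    (h0 : MvPowerSeries.constantCoeff ℓ ≠ 0) (v : V) (hv : v ≠ 0) :
    ∃ f : ISp c β τ₁ hτ₁ ρ, Φ (em0 c β τ₁ hτ₁ ρ f) ≠ 0 := by
  obtain ⟨r₀, hr₀⟩ := hℓ
  obtain ⟨r₁, hr₁⟩ := tst0 c β τ₁ hτ₁ ρ hρ v
  obtain ⟨f, hf, hfv⟩ := hr₁ (max r₀ r₁) (le_max_right _ _)
  refine ⟨f, fun h1 => ?_⟩
  have h2 := hr₀ (max r₀ r₁) (le_max_left _ _) (em0 c β τ₁ hτ₁ ρ f) (KS_em0 c β τ₁ hτ₁ ρ _ f hf)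
  rw [LinearMap.comp_apply, h1, map_zero, em0_val, hfv, Cof_opE_tmul, TwoZ_psEnd_one,
    TensorProduct.tmul_smul, smul_smul] at h2
  rcases smul_eq_zero.1 h2.symm with h3 | h3
  · exact (mul_ne_zero (Cr_ne c β τ₁ τ₂ _) h0) h3
  · exact hv (tm1_inj (ι := ι) (by rw [tm1_apply, h3, map_zero]))

end

end

end Pool.Agent.Lib.MP_ca1492_al.D5
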