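import Mathlib
import Pool.Agent.Lib.MP_ca1492_al.D5.Nop
import Pool.Agent.Lib.MP_ca1492_al.D5.TwoA
import Pool.Agent.Lib.MP_ca1492_al.D5.TwoZ
import Pool.Agent.Lib.MP_ca1492_al.PA.Coll
import Pool.Agent.Lib.MP_ca1492_al.PA.Deriv
import Pool.Agent.Lib.MP_ca1492_al.PA.Sqrt

/-!
# MP_ca1492_al, D5, module TwoN: the operator `Nop` and power series in the difference of the variables

* `XI_Nop`: `(Φ (Nop f))(g) = L (R_g Nop f)`, `L = ev1 ∘ Φ ∈ X1` (`XI_X1`), `R_g (Nop f) = Nop (R_g f) + vdet g • R_g f`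
  (`Nop_IRp`), `L (Nop (R_g f)) = mulU (L (R_g f))` (`X1_Nop`), `L (R_g f) = (Φ f)(g)`; compare `Nop_val`.
* `sder_of_Nop`: `Nop_opI` gives `opI (sder y) f = 0 = opI 0 f`; `opI_inj` (`D5/TwoZ.lean`).
* `sder_dd`, `rename_dd`: compute. `of_sder`: `of_deriv` (`PA/Deriv.lean`), `Fintype.sum_bool`, no other variable.
  `sder_subst`: `Deriv_kill₂`.
* `dvd_swap`: `dvd_sub_swap` (`PA/Coll.lean`); `prime_dd`: `prime_sub`.
* `kerd_dvd`: define `Ω f = opI y f'` for any `f'` with `opI dd f' = f` (`opI_surj`; well defined by `h`), it is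
  linear, equivariant and commutes with `opI`, so `Ω = opI z` (`XI_self`), `opI y f' = opI (z * dd) f'` for all
  `f'`, `opI_inj`.
* `sqrt_dd`: `C` is invertible; `sqrt_exists` (`PA/Sqrt.lean`) for `C⁻¹`, with constant term `-γ⁻¹`: `θ₀ ^ 2 * C = 1`.
  `sder` is a derivation, so `2 θ₀ sder θ₀ C + θ₀ ^ 2 sder C = 0`, `sder θ₀ = 0` (domain), so
  `θ₀ = θ.subst dd` by `of_sder`. `rename sb θ₀ = θ₀` by `sqrt_unique`.
* `split_dd`: `C ≠ 0`; `of_deriv_unit` gives `C = dd ^ k * U.subst dd`, `k ≤ 1` because `dd ^ 2` does not divide `C`;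
  `θ = U⁻¹` (`PowerSeries.inv` or the unit inverse), `subst` is multiplicative (`PowerSeries.subst_mul`).
-/

set_option autoImplicit false
set_option linter.unusedSectionVars false

namespace Pool.Agent.Lib.MP_ca1492_al.D5

open Pool.Agent.Lib.MP_ca1492_al.P
open Topology Matrix ValuativeRel TensorProduct

noncomputable section

variable {F : Type} [Field F] [ValuativeRel F] [TopologicalSpace F]
  [IsNonarchimedeanLocalField F]
variable {κ : Type} [Fintype κ] [DecidableEq κ]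
variable {V : Type} [AddCommGroup V] [Module ℂ V]

section

variable {ι ι' : Type} [Fintype ι] [DecidableEq ι]
variable (c : κ → ι) (hcs : Function.Surjective c) (β : ι → ι') (τ₁ τ₂ : ι → ℤ)
  (hτ₁ : Function.Injective τ₁) (hτ₂ : Function.Injective τ₂)
  (ρ : Representation ℂ (lev F c) V) (hρ : IsSm ρ) (hi : Irr ρ) (hc : Cusp c ρ)

include hcs hρ hi hc in
theorem XI_Nop (Φ : ISp c β τ₁ hτ₁ (hat c ρ) →ₗ[ℂ] ISp c β τ₂ hτ₂ (hat c ρ))
    (hΦ : Φ ∈ XI c β τ₁ hτ₁ τ₂ hτ₂ ρ) (ℓ : MvPowerSeries ι ℂ)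
    (hℓ : LeadI c β τ₁ hτ₁ τ₂ hτ₂ ρ Φ ℓ) (h0 : sder ℓ = 0) (f : ISp c β τ₁ hτ₁ (hat c ρ)) :
    Φ (Nop c β τ₁ hτ₁ ρ f) = Nop c β τ₂ hτ₂ ρ (Φ f) := by
  refine Subtype.ext (funext fun g => ?_)
  have hL := XI_X1 c β τ₁ hτ₁ τ₂ hτ₂ ρ Φ hΦ
  have hval : ∀ f, (Φ f).1 g =
      (ev1 c β τ₂ hτ₂ (hat c ρ) ∘ₗ Φ) (IRp c β τ₁ hτ₁ (hat c ρ) g f) := by
    intro f
    rw [LinearMap.comp_apply, hΦ.1 g f]
    show _ = (Φ f).1 (1 * g)
    rw [one_mul]
  have h2 : IRp c β τ₁ hτ₁ (hat c ρ) g (Nop c β τ₁ hτ₁ ρ f) =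
      Nop c β τ₁ hτ₁ ρ (IRp c β τ₁ hτ₁ (hat c ρ) g f) +
        (vdet g.1 : ℂ) • IRp c β τ₁ hτ₁ (hat c ρ) g f := by
    rw [Nop_IRp c β τ₁ hτ₁ ρ g f, sub_add_cancel]
  rw [Nop_val, hval (Nop c β τ₁ hτ₁ ρ f), hval f, h2, map_add, map_smul,
    X1_Nop c hcs β τ₁ τ₂ hτ₁ hτ₂ ρ hρ hi hc _ hL ℓ hℓ h0]

theorem sder_of_Nop (hV : ∃ v : V, v ≠ 0) (hρ : IsSm ρ) (y : MvPowerSeries ι ℂ)
    (h : ∀ f : ISp c β τ₁ hτ₁ (hat c ρ), opI c β τ₁ hτ₁ ρ y (Nop c β τ₁ hτ₁ ρ f) =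
      Nop c β τ₁ hτ₁ ρ (opI c β τ₁ hτ₁ ρ y f)) : sder y = 0 := by
  refine opI_inj c β τ₁ hτ₁ ρ hV hρ (sder y) 0 fun f => ?_
  have h1 := Nop_opI c β τ₁ hτ₁ ρ y f
  rw [h f] at h1
  have h2 : opI c β τ₁ hτ₁ ρ 0 f = 0 := Subtype.ext (funext fun g => opE_zero (f.1 g))
  rw [h2]
  exact left_eq_add.1 h1

end

/-- the difference of the two variables -/
def dd : MvPowerSeries Bool ℂ := MvPowerSeries.X false - MvPowerSeries.X true

theorem dd_ne : dd ≠ 0 := CA1492.PA.sub_ne_zero' (by simp)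

theorem prime_dd : Prime dd := CA1492.PA.prime_sub (by simp)

theorem const_dd : MvPowerSeries.constantCoeff dd = 0 := by
  unfold dd
  rw [map_sub, MvPowerSeries.constantCoeff_X, MvPowerSeries.constantCoeff_X, sub_zero]

theorem rename_dd : MvPowerSeries.rename sb dd = -dd := by
  unfold dd
  rw [map_sub, MvPowerSeries.rename_X, MvPowerSeries.rename_X, Equiv.swap_apply_left,
    Equiv.swap_apply_right, neg_sub]

theorem rename_rename_sb (y : MvPowerSeries Bool ℂ) :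
    MvPowerSeries.rename sb (MvPowerSeries.rename sb y) = y := by
  rw [MvPowerSeries.rename_rename]
  have h : (sb : Bool → Bool) ∘ (sb : Bool → Bool) = id := by
    funext x
    exact sb_sb x
  simp only [h]
  exact MvPowerSeries.rename_id_apply y

theorem const_rename (y : MvPowerSeries Bool ℂ) :
    MvPowerSeries.constantCoeff (MvPowerSeries.rename sb y) =
      MvPowerSeries.constantCoeff y := by
  obtain ⟨z, hz⟩ : dd ∣ y - MvPowerSeries.rename sb y := CA1492.PA.dvd_sub_swap false true y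
  have h := congrArg MvPowerSeries.constantCoeff hz
  rw [map_sub, map_mul, const_dd, zero_mul, sub_eq_zero] at h
  exact h.symm

theorem dvd_swap (y : MvPowerSeries Bool ℂ) : dd ∣ y - MvPowerSeries.rename sb y :=
  CA1492.PA.dvd_sub_swap false true y

theorem TwoN_sder (y : MvPowerSeries Bool ℂ) :
    sder y = MvPowerSeries.pderiv ℂ false y + MvPowerSeries.pderiv ℂ true y := by
  unfold sder
  rw [Fintype.sum_bool, add_comm]

theorem TwoN_sder_mul (y z : MvPowerSeries Bool ℂ) : sder (y * z) = y * sder z + z * sder y := by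
  rw [TwoN_sder, TwoN_sder, TwoN_sder, Derivation.leibniz, Derivation.leibniz]
  simp only [smul_eq_mul]
  ring

theorem sder_dd : sder dd = 0 := by
  rw [TwoN_sder]
  unfold dd
  rw [map_sub, map_sub, MvPowerSeries.pderiv_X_self, MvPowerSeries.pderiv_X_self,
    MvPowerSeries.pderiv_X_of_ne (by simp), MvPowerSeries.pderiv_X_of_ne (by simp)]
  ring

theorem sder_subst (G : PowerSeries ℂ) : sder (G.subst dd) = 0 := by
  rw [TwoN_sder]
  exact CA1492.PA.Deriv_kill₂ (by simp) G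

theorem of_sder (y : MvPowerSeries Bool ℂ) (h : sder y = 0) :
    ∃ G : PowerSeries ℂ, y = G.subst dd := by
  rw [TwoN_sder] at h
  exact CA1492.PA.of_deriv (by simp) y (fun c h1 h2 => by cases c <;> simp_all) h

theorem const_subst (G : PowerSeries ℂ) :
    MvPowerSeries.constantCoeff (G.subst dd) = PowerSeries.constantCoeff G :=
  CA1492.PA.subst_const G

theorem sqrt_dd (C : MvPowerSeries Bool ℂ) (hs : sder C = 0)
    (hw : MvPowerSeries.rename sb C = C) (γ : ℂ) (hγ : γ ≠ 0)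
    (hC : MvPowerSeries.constantCoeff C = γ ^ 2) :
    ∃ θ : PowerSeries ℂ, PowerSeries.constantCoeff θ = -γ⁻¹ ∧ (θ.subst dd) ^ 2 * C = 1 ∧
      MvPowerSeries.rename sb (θ.subst dd) = θ.subst dd := by
  have hC0 : MvPowerSeries.constantCoeff C ≠ 0 := by
    rw [hC]
    exact pow_ne_zero 2 hγ
  have hCne : C ≠ 0 := by
    rintro rfl
    exact hC0 (map_zero _)
  have hCi : C⁻¹ * C = 1 := MvPowerSeries.inv_mul_cancel C hC0
  obtain ⟨θ₀, h1, h2⟩ := CA1492.PA.sqrt_exists (C⁻¹) (c := -γ⁻¹) (neg_ne_zero.2 (inv_ne_zero hγ))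
    (by rw [MvPowerSeries.constantCoeff_inv, hC, neg_sq, inv_pow])
  have hθ0 : MvPowerSeries.constantCoeff θ₀ ≠ 0 := by
    rw [h2]
    exact neg_ne_zero.2 (inv_ne_zero hγ)
  have hθne : θ₀ ≠ 0 := by
    rintro rfl
    exact hθ0 (map_zero _)
  have h3 : θ₀ ^ 2 * C = 1 := by rw [h1, hCi]
  have h4 : sder θ₀ = 0 := by
    have h5 : sder (θ₀ * (θ₀ * C)) = 0 := by
      have h6 : θ₀ * (θ₀ * C) = 1 := by rw [← h3]; ring
      rw [h6, TwoN_sder, Derivation.map_one_eq_zero, Derivation.map_one_eq_zero, add_zero]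
    rw [TwoN_sder_mul, TwoN_sder_mul, hs, mul_zero, zero_add] at h5
    have h6 : (2 * θ₀ * C) * sder θ₀ = 0 := by rw [← h5]; ring
    rcases mul_eq_zero.1 h6 with h7 | h7
    · rcases mul_eq_zero.1 h7 with h8 | h8
      · rcases mul_eq_zero.1 h8 with h9 | h9
        · exfalso
          have h10 := congrArg MvPowerSeries.constantCoeff h9
          rw [map_ofNat, map_zero] at h10
          exact two_ne_zero h10
        · exact absurd h9 hθne
      · exact absurd h8 hCne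
    · exact h7
  obtain ⟨θ, rfl⟩ := of_sder θ₀ h4
  refine ⟨θ, by rw [← const_subst, h2], h3, ?_⟩
  refine CA1492.PA.sqrt_unique ?_ (const_rename _) (by rw [const_rename]; exact hθ0)
  have h5 : MvPowerSeries.rename sb (θ.subst dd) ^ 2 * C = 1 := by
    rw [← hw, ← map_pow, ← map_mul]
    rw [h3, map_one]
  exact mul_right_cancel₀ hCne (h5.trans h3.symm)

theorem split_dd (C : MvPowerSeries Bool ℂ) (hs : sder C = 0) (h2 : ¬ dd ^ 2 ∣ C) :
    ∃ (k : ℕ) (θ : PowerSeries ℂ), k ≤ 1 ∧ PowerSeries.constantCoeff θ ≠ 0 ∧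
      θ.subst dd * C = dd ^ k := by
  have hCne : C ≠ 0 := by
    rintro rfl
    exact h2 (dvd_zero _)
  rw [TwoN_sder] at hs
  obtain ⟨k, U, hU, e⟩ := CA1492.PA.of_deriv_unit (by simp) C hCne
    (fun c h1 h2 => by cases c <;> simp_all) hs
  have hsub : PowerSeries.HasSubst dd := CA1492.PA.Deriv_hasSubst false true
  have e' : C = dd ^ k * U.subst dd := e
  have hk : k ≤ 1 := by
    by_contra hk
    apply h2
    rw [e']
    exact Dvd.dvd.mul_right (pow_dvd_pow dd (by omega)) _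
  refine ⟨k, U⁻¹, hk, ?_, ?_⟩
  · rw [PowerSeries.constantCoeff_inv]
    exact inv_ne_zero hU
  · have h3 : (U⁻¹).subst dd * U.subst dd = 1 := by
      rw [← PowerSeries.subst_mul hsub, PowerSeries.inv_mul_cancel U hU,
        ← PowerSeries.coe_substAlgHom hsub, map_one]
    rw [e', mul_left_comm, h3, mul_one]

/-- a power series which kills the kernel of `dd` is divisible by `dd` -/
theorem kerd_dvd {ι' : Type} (c : κ → Bool) (hcs : Function.Surjective c) (β : Bool → ι')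
    (τ : Bool → ℤ) (hτ : Function.Injective τ) (ρ : Representation ℂ (lev F c) V)
    (hρ : IsSm ρ) (hi : Irr ρ) (hc : Cusp c ρ) (y : MvPowerSeries Bool ℂ)
    (h : ∀ f : ISp c β τ hτ (hat c ρ), opI c β τ hτ ρ dd f = 0 → opI c β τ hτ ρ y f = 0) :
    dd ∣ y := by
  have hsurj := opI_surj c β τ hτ ρ hρ dd dd_ne
  obtain ⟨s, hs⟩ := (opI c β τ hτ ρ dd).exists_rightInverse_of_surjective
    (LinearMap.range_eq_top.2 hsurj)
  have hs' : ∀ f, opI c β τ hτ ρ dd (s f) = f := fun f => LinearMap.congr_fun hs f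
  have hΩ : ∀ f, opI c β τ hτ ρ y (s (opI c β τ hτ ρ dd f)) = opI c β τ hτ ρ y f := by
    intro f
    have h1 := h (s (opI c β τ hτ ρ dd f) - f) (by rw [map_sub, hs', sub_self])
    rw [map_sub, sub_eq_zero] at h1
    exact h1
  have hXI : opI c β τ hτ ρ y ∘ₗ s ∈ XI c β τ hτ τ hτ ρ := by
    refine ⟨fun g f => ?_, fun z f => ?_⟩
    · obtain ⟨f, rfl⟩ := hsurj f
      rw [LinearMap.comp_apply, LinearMap.comp_apply, ← opI_equi c β τ hτ ρ dd g f, hΩ, hΩ,
        opI_equi c β τ hτ ρ y g f]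
    · obtain ⟨f, rfl⟩ := hsurj f
      rw [LinearMap.comp_apply, LinearMap.comp_apply, ← opI_mul, mul_comm z dd, opI_mul, hΩ, hΩ,
        ← opI_mul, ← opI_mul, mul_comm]
  obtain ⟨z, hz⟩ := XI_self c hcs β τ hτ ρ hρ hi hc _ hXI
  refine ⟨z, ?_⟩
  refine opI_inj c β τ hτ ρ hi.1 hρ _ _ fun f => ?_
  rw [mul_comm dd z, opI_mul, ← hz, LinearMap.comp_apply, hΩ]

end

end Pool.Agent.Lib.MP_ca1492_al.D5
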