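import Mathlib
import Pool.Agent.Lib.MP_ca1492_al.D5.Func
import Pool.Agent.Lib.MP_ca1492_al.D5.TwoA

/-!
# MP_ca1492_al, D5, module TwoA2: two strands, the value at the exchanging permutation

* `KS_wdot`: `f ẇ = 0` for a test function of level `≥ 1`: if `ẇ = p k`, `p ∈ upp`, `k ∈ Kc 1`: `k = p⁻¹ ẇ`; the entry
  `(i, i)` of `k` is a unit (`k - 1` has entries in `lat 1`), in particular not `0`; `(p⁻¹ ẇ) i i = p⁻¹ i (w i)`
  (or `w⁻¹ i`, see `permG`), and it is `0` if `τ₁ (c (w i)) < τ₁ (c i)` (see the definition of `upp` for the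
  direction): choose `i` with `c i` the bigger (or smaller) of the two colours (`c` surjective). Contradiction.
* `FS_kJ`: `L` is invariant under `uni F cb (τ₂ ∘ c)`, `kerJ` is the span of the `R_n f - f`.
* `ev_wdot`: `(R_m f)(ẇ) = f (ẇ m) = f ((ẇ m ẇ⁻¹) ẇ)` and the transformation law for `ẇ m ẇ⁻¹ ∈ M`; `dh_swap`.
* `ev_surj`: `eval_surj` of `P/CTwo.lean` for `σ' = twist (dh c β τ₁) σ` (`sm_twist`) gives `f` with `f 1 = e`;
  translate by `ẇ⁻¹` (`(R_{ẇ⁻¹} f)(ẇ) = f 1`).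
-/

set_option autoImplicit false
set_option linter.unusedSectionVars false

namespace Pool.Agent.Lib.MP_ca1492_al.D5

open Pool.Agent.Lib.MP_ca1492_al.P
open Topology Matrix ValuativeRel TensorProduct

noncomputable section

variable {F : Type} [Field F] [ValuativeRel F] [TopologicalSpace F]
  [IsNonarchimedeanLocalField F]
variable {κ : Type} [Fintype κ] [DecidableEq κ]
variable {ι' : Type}
variable {V E E' : Type} [AddCommGroup V] [Module ℂ V] [AddCommGroup E] [Module ℂ E]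
  [AddCommGroup E'] [Module ℂ E']

section

variable {β : Bool → ι'} {τ₁ τ₂ : Bool → ℤ} (H : Opp2 β τ₁ τ₂) (c : κ → Bool)

/-- test functions vanish at `ẇ` -/
theorem KS_wdot (hcs : Function.Surjective c) (w : Equiv.Perm κ)
    (hw : ∀ i, c (w i) = sb (c i)) (r : ℕ) (hr : 1 ≤ r) (f : lev F (fun i => β (c i)) → E)
    (hf : KS c β τ₁ r f) : f (wdot H c w) = 0 := by
  by_contra hne
  obtain ⟨p, hp, k, hk, h⟩ := hf.2 _ hne
  have h0 : permG F w = p * k := h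
  have hk' : k = p⁻¹ * permG F w := by
    rw [h0, inv_mul_cancel_left]
  have hp' := (upp F (fun i => β (c i)) (fun i => τ₁ (c i))).inv_mem hp
  obtain ⟨y, hy⟩ : ∃ y : Bool, τ₁ (sb y) < τ₁ y := by
    rcases lt_trichotomy (τ₁ false) (τ₁ true) with h1 | h1 | h1
    · exact ⟨true, by rw [sb_apply]; exact h1⟩
    · exact absurd (H.h₁ h1) Bool.false_ne_true
    · exact ⟨false, by rw [sb_apply]; exact h1⟩
  obtain ⟨i, hi⟩ := hcs y
  have h1 : (k : Matrix κ κ F) i i = 0 := by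
    rw [hk', Units.val_mul, Matrix.mul_apply, Finset.sum_eq_single (w i)]
    · have h2 : ((p⁻¹ : GL κ F) : Matrix κ κ F) i (w i) = 0 := hp'.2 i (w i) (by
        show τ₁ (c (w i)) < τ₁ (c i)
        rw [hw, hi]
        exact hy)
      rw [h2, zero_mul]
    · intro a _ ha
      have h3 : (permG F w : Matrix κ κ F) a i = 0 := by
        show (if w i = a then (1 : F) else 0) = 0
        rw [if_neg (fun h => ha h.symm)]
      rw [h3, mul_zero]
    · intro h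
      exact absurd (Finset.mem_univ _) h
  have h4 := hk.1 i i
  rw [Matrix.sub_apply, h1, Matrix.one_apply_eq, zero_sub] at h4
  have h5 : (1 : F) ∈ lat F r := by
    have h6 := (lat F r).neg_mem h4
    rwa [neg_neg] at h6
  rcases h5 with h5 | h5
  · exact one_ne_zero h5
  · rw [ordF_one] at h5
    omega

/-- the kernel of the Jacquet functor for the opposite order -/
def kJ (σ : Representation ℂ (lev F c) E) : Submodule ℂ (ISp c β τ₁ H.h₁ σ) :=
  (ordD c β τ₂ H.h₂).kerJ (IRp c β τ₁ H.h₁ σ)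

/-- functionals vanish on `kJ` -/
theorem FS_kJ (σ : Representation ℂ (lev F c) E) (σ' : Representation ℂ (lev F c) E')
    (L : ISp c β τ₁ H.h₁ σ →ₗ[ℂ] E') (hL : L ∈ FS c β τ₁ H.h₁ τ₂ σ σ')
    (f : ISp c β τ₁ H.h₁ σ) (hf : f ∈ kJ H c σ) : L f = 0 := by
  refine Submodule.span_induction (p := fun x _ => L x = 0) ?_ ?_ ?_ ?_ hf
  · rintro x ⟨n, hn, v, rfl⟩
    rw [map_sub, hL.1 ⟨n, (ordD c β τ₂ H.h₂).hN hn⟩ hn v, sub_self]
  · exact map_zero L
  · intro x y _ _ hx hy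
    rw [map_add, hx, hy, add_zero]
  · intro a x _ hx
    rw [map_smul, hx, smul_zero]

/-- values at `ẇ` -/
theorem ev_wdot (w : Equiv.Perm κ) (hw : ∀ i, c (w i) = sb (c i))
    (hl : ∀ i j, c (w i) = c (w j) ↔ c i = c j) (σ : Representation ℂ (lev F c) E)
    (m : GL κ F) (hm : m ∈ lev F c) (hm' : m ∈ lev F (fun i => β (c i)))
    (f : ISp c β τ₁ H.h₁ σ) :
    (IRp c β τ₁ H.h₁ σ ⟨m, hm'⟩ f).1 (wdot H c w) =
      (dh c β τ₂ ⟨m, hm⟩ : ℂ) • cjR c w hl σ ⟨m, hm⟩ (f.1 (wdot H c w)) := by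
  have h1 := ((mem_ISp c β τ₁ H.h₁ σ f.1).1 f.2).1 (cjH c w hl ⟨m, hm⟩).1
    (cjH c w hl ⟨m, hm⟩).2 1 (Subgroup.one_mem _) (wdot H c w)
  have h2 : dh c β τ₁ (cjH c w hl ⟨m, hm⟩) = dh c β τ₂ ⟨m, hm⟩ :=
    dh_swap H c w hw hl ⟨m, hm⟩
  have h3 : f.1 (wdot H c w * ⟨m, hm'⟩) =
      (dh c β τ₁ (cjH c w hl ⟨m, hm⟩) : ℂ) • σ (cjH c w hl ⟨m, hm⟩) (f.1 (wdot H c w)) := by
    rw [← h1]
    refine congrArg f.1 (Subtype.ext ?_)
    show permG F w * m = permG F w * m * (permG F w)⁻¹ * 1 * permG F w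
    group
  show f.1 (wdot H c w * ⟨m, hm'⟩) = _
  rw [h3, h2]
  rfl

/-- every vector is a value at `ẇ` (translate `eval_surj` of `P/CTwo.lean`) -/
theorem ev_surj (w : Equiv.Perm κ) (σ : Representation ℂ (lev F c) E) (hσ : IsSm σ) (e : E) :
    ∃ f : ISp c β τ₁ H.h₁ σ, f.1 (wdot H c w) = e := by
  obtain ⟨f, hf⟩ := eval_surj (fun i => β (c i)) c (fun i => τ₁ (c i))
    (ordD_cond c β τ₁ H.h₁) (twist (dh c β τ₁) σ) (sm_twist c β τ₁ σ hσ) e
  refine ⟨IRp c β τ₁ H.h₁ σ (wdot H c w)⁻¹ f, ?_⟩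
  show f.1 (wdot H c w * (wdot H c w)⁻¹) = e
  rw [mul_inv_cancel]
  exact hf

end

end

end Pool.Agent.Lib.MP_ca1492_al.D5
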