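import Mathlib
import Pool.Agent.Lib.MP_ca1492_al.D5.TwoA2

/-!
# MP_ca1492_al, D5, module TwoA3: two strands, the Jacquet modules of the induced representation

Everything is a translation of `two_opp`, `two_opp_swap` of `P/CTwo.lean` to the
normalised induction, for `cb = fun i => β (c i)`, `o = fun i => τ₁ (c i)`,
`σ' = twist (dh c β τ₁) σ` (smooth: `sm_twist`, cuspidal: `cusp_twist`), `x₀ = β false`.

* `open_fun` (no exchanging permutation): `two_opp` gives `Λ`. `Λ ∈ FS`: invariance under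
  `uni F cb (-o) = uni F cb (τ₂ ∘ c)` from `Λ f = 0 ↔ f ∈ kerJ` (`R_n f - f ∈ kerJ`); equivariance by the formula
  with `cfac` and `cfac_dh` (`D5/CellN.lean`) for `w = 1` (`permG 1 = 1`). Test functions: `KS_open`, `lam_KS`
  (`D5/Func.lean`). `kJ` is `kerJ` for `ordD c β τ₂`, which is the one for `-o` (`uni_neg`).
* `open_fun_swap`: the same for `two_opp_swap`, `s = w`.
-/

set_option autoImplicit false
set_option linter.unusedSectionVars false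

namespace Pool.Agent.Lib.MP_ca1492_al.D5

open Pool.Agent.Lib.MP_ca1492_al.P
open Topology Matrix ValuativeRel TensorProduct

noncomputable section

variable {F : Type} [Field F] [ValuativeRel F] [TopologicalSpace F]
  [IsNonarchimedeanLocalField F]
variable {κ : Type} [Fintype κ] [DecidableEq κ]
variable {ι' : Type}
variable {V E E' : Type} [AddCommGroup V] [Module ℂ V] [AddCommGroup E] [Module ℂ E]
  [AddCommGroup E'] [Module ℂ E']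

section

variable {β : Bool → ι'} {τ₁ τ₂ : Bool → ℤ} (H : Opp2 β τ₁ τ₂) (c : κ → Bool)

variable (hcs : Function.Surjective c)
  (σ : Representation ℂ (lev F c) E) (hσ : IsSm σ) (hc : Cusp c σ)

/-- the kernel for the order `-τ₁` -/
theorem TwoA3_kJ (f : ISp c β τ₁ H.h₁ σ) :
    f ∈ (parD c (fun i => β (c i)) (fun i => - τ₁ (c i))
      (ordD_cond c β (fun x => - τ₁ x) H.neg.h₂)).kerJ (IRp c β τ₁ H.h₁ σ) ↔ f ∈ kJ H c σ := by
  have hu := uni_neg (F := F) H c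
  constructor
  · intro hf
    refine Submodule.span_mono ?_ hf
    rintro x ⟨n, hn, v, rfl⟩
    have hn' : n ∈ uni F (fun i => β (c i)) (fun i => - τ₁ (c i)) := hn
    rw [hu] at hn'
    exact ⟨n, hn', v, rfl⟩
  · intro hf
    refine Submodule.span_mono ?_ hf
    rintro x ⟨n, hn, v, rfl⟩
    have hn' : n ∈ uni F (fun i => β (c i)) (fun i => τ₂ (c i)) := hn
    rw [← hu] at hn'
    exact ⟨n, hn', v, rfl⟩

/-- the factor of the cell `1` -/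
theorem TwoA3_fac (m : GL κ F) (hm : m ∈ lev F c) (hm' : m ∈ lev F (fun i => β (c i))) (e : E) :
    cfac (F := F) (fun i => β (c i)) (fun i => τ₁ (c i)) c (fun i => - τ₁ (c i))
      (ordD_cond c β (fun x => - τ₁ x) H.neg.h₂) 1 (fun _ => rfl) ⟨m, hm'⟩ •
      (twist (dh c β τ₁) σ) ⟨m, hm⟩ e = (dh c β τ₂ ⟨m, hm⟩ : ℂ) • σ ⟨m, hm⟩ e := by
  have h1 := cfac_dh c β τ₁ (fun x => - τ₁ x) H.neg.h₂ H.h₁ 1 (fun _ => rfl)
    (fun _ _ => Iff.rfl) m hm hm'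
  have h2 := CTwo_conj_one (fun i => β (c i)) c ⟨m, hm'⟩ hm (fun _ _ => Iff.rfl)
  have h3 : (⟨permG F (1 : Equiv.Perm κ) * m * (permG F (1 : Equiv.Perm κ))⁻¹,
      permG_conj_mem c c 1 (fun _ _ => Iff.rfl) m hm⟩ : lev F c) = ⟨m, hm⟩ := h2
  rw [h3, dh_neg H c] at h1
  rw [← h1]
  show _ • ((dh c β τ₁ ⟨m, hm⟩ : ℂ) • σ ⟨m, hm⟩) e = _
  rw [LinearMap.smul_apply, smul_smul]

/-- the value on test functions -/
theorem TwoA3_KS (hσ : IsSm σ) (Λ : ISp c β τ₁ H.h₁ σ →ₗ[ℂ] E)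
    (hΛ : ∀ f ∈ IndOn (ordD c β τ₁ H.h₁) (twist (dh c β τ₁) σ)
      (gcell (F := F) (fun i => β (c i)) (fun i => τ₁ (c i)) (fun i => - τ₁ (c i)) 1),
      Λ f = (glCD (F := F) (fun i => β (c i)) (fun i => τ₁ (c i)) c (fun i => - τ₁ (c i))
        (ordD_cond c β (fun x => - τ₁ x) H.neg.h₂) 1 (fun _ => rfl)).Lam f.1 1) (r : ℕ)
    (hr : 1 ≤ r) (f : ISp c β τ₁ H.h₁ σ) (hf : KS c β τ₁ r f.1) :
    Λ f = Cr F c β τ₁ τ₂ r • f.1 1 := by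
  have h1 := KS_open c β τ₁ (fun x => - τ₁ x) H.h₁ H.neg.h₂ (fun x y _ => H.neg.opp x y) σ r hr f hf
  have h2 := lam_KS c β τ₁ (fun x => - τ₁ x) H.h₁ H.neg.h₂ σ hσ r hr f hf
  rw [← Cr_neg H c r, ← h2]
  exact hΛ f h1

include hcs hσ hc

/-- no exchanging permutation: the Jacquet module is `σ` -/
theorem open_fun (hno : ∀ w : Equiv.Perm κ, ¬ ∀ i, c (w i) = sb (c i)) :
    ∃ Λ ∈ FS c β τ₁ H.h₁ τ₂ σ σ, (∀ f, Λ f = 0 ↔ f ∈ kJ H c σ) ∧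
      ∀ r : ℕ, 1 ≤ r → ∀ f : ISp c β τ₁ H.h₁ σ, KS c β τ₁ r f.1 →
        Λ f = Cr F c β τ₁ τ₂ r • f.1 1 := by
  obtain ⟨Λ, -, h2, h3, h4⟩ := two_opp (fun i => β (c i)) c (β false) (opp2_twoB H c)
    (fun i => τ₁ (c i)) (ordD_cond c β τ₁ H.h₁) (ordD_cond c β (fun x => - τ₁ x) H.neg.h₂)
    (twist (dh c β τ₁) σ) (sm_twist c β τ₁ σ hσ) (cusp_twist c β τ₁ σ hc)
    (fun s hs => hno s (isSwap_swap c s hs))
  have h2' : ∀ f : ISp c β τ₁ H.h₁ σ, Λ f = 0 ↔ f ∈ kJ H c σ :=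
    fun f => (h2 f).trans (TwoA3_kJ H c σ f)
  refine ⟨Λ, ⟨fun n hn f => ?_, fun m hm hm' f => ?_⟩, h2', TwoA3_KS H c σ hσ Λ h4⟩
  · have h5 : IRp c β τ₁ H.h₁ σ n f - f ∈ kJ H c σ :=
      Submodule.subset_span ⟨n.1, hn, f, rfl⟩
    have h6 := (h2' _).2 h5
    have h7 := LinearMap.map_sub Λ (IRp c β τ₁ H.h₁ σ n f) f
    exact sub_eq_zero.1 (h7.symm.trans h6)
  · rw [← TwoA3_fac H c σ m hm hm']
    exact h3 f ⟨m, hm'⟩ hm

/-- `w` exchanges the blocks: `0 → σ → J → σ^w → 0`, the second map is the evaluation at `ẇ` -/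
theorem open_fun_swap (w : Equiv.Perm κ) (hw : ∀ i, c (w i) = sb (c i)) :
    (∀ f ∈ kJ H c σ, f.1 (wdot H c w) = 0) ∧
    ∃ Λ : ISp c β τ₁ H.h₁ σ →ₗ[ℂ] E,
      (∀ f : ISp c β τ₁ H.h₁ σ, f.1 (wdot H c w) = 0 → (Λ f = 0 ↔ f ∈ kJ H c σ)) ∧
      (∀ (m : GL κ F) (hm : m ∈ lev F c) (hm' : m ∈ lev F (fun i => β (c i)))
        (f : ISp c β τ₁ H.h₁ σ), f.1 (wdot H c w) = 0 →
        Λ (IRp c β τ₁ H.h₁ σ ⟨m, hm'⟩ f) = (dh c β τ₂ ⟨m, hm⟩ : ℂ) • σ ⟨m, hm⟩ (Λ f)) ∧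
      ∀ r : ℕ, 1 ≤ r → ∀ f : ISp c β τ₁ H.h₁ σ, KS c β τ₁ r f.1 →
        Λ f = Cr F c β τ₁ τ₂ r • f.1 1 := by
  obtain ⟨h0, Λ, -, h2, h3, h4⟩ := two_opp_swap (fun i => β (c i)) c (β false) (opp2_twoB H c)
    (fun i => τ₁ (c i)) (ordD_cond c β τ₁ H.h₁) (ordD_cond c β (fun x => - τ₁ x) H.neg.h₂)
    (twist (dh c β τ₁) σ) (sm_twist c β τ₁ σ hσ) (cusp_twist c β τ₁ σ hc) w
    (swap_isSwap H c hcs w hw) (mem_big H c _)
  refine ⟨fun f hf => h0 f ((TwoA3_kJ H c σ f).2 hf), Λ, fun f hf => ?_, fun m hm hm' f hf => ?_,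
    TwoA3_KS H c σ hσ Λ h4⟩
  · exact (h2 f hf).trans (TwoA3_kJ H c σ f)
  · rw [← TwoA3_fac H c σ m hm hm']
    exact h3 f ⟨m, hm'⟩ hm hf

end

end

end Pool.Agent.Lib.MP_ca1492_al.D5
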