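import Mathlib
import Pool.Agent.Lib.MP_ca1492_al.D5.TwoA3

/-!
# MP_ca1492_al, D5, module TwoB: two strands, the open cell functional and the functionals which vanish on
test functions

* `test_val`: for every `e` there is a test function with `f 1 = e` of some level `r ≥ 1`: `sm_fix`, `tst_exists`.
* `tw_zero` (no exchanging permutation), `L ∈ FS σ σ'` zero on test functions: for `f` let `e = Λ f` (`open_fun`)
  and `φ` a test function of level `r` with `φ 1 = Cr⁻¹ e` (`test_val`, `Cr_ne`); `Λ (f - φ) = 0`, so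
  `f - φ ∈ kJ` and `L f = L φ = 0` (`FS_kJ`).
* `tw_zero_sw`: the same for `f` with `f ẇ = 0` (`open_fun_swap`, `KS_wdot`): `L f = 0`. So `L f` depends only on `f ẇ`;
  by `ev_surj` there is a linear map `a` with `L f = a (f ẇ)` (choose preimages, or
  `LinearMap.range`/quotient argument: `a = (L descended to ISp / ker ev) ∘ (iso)⁻¹`), and `ev_wdot` gives the
  equivariance (cancel the nonzero scalar `dh`).
-/

set_option autoImplicit false
set_option linter.unusedSectionVars false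

namespace Pool.Agent.Lib.MP_ca1492_al.D5

open Pool.Agent.Lib.MP_ca1492_al.P
open Topology Matrix ValuativeRel TensorProduct

noncomputable section

variable {F : Type} [Field F] [ValuativeRel F] [TopologicalSpace F]
  [IsNonarchimedeanLocalField F]
variable {κ : Type} [Fintype κ] [DecidableEq κ]
variable {ι' : Type}
variable {V E E' : Type} [AddCommGroup V] [Module ℂ V] [AddCommGroup E] [Module ℂ E]
  [AddCommGroup E'] [Module ℂ E']

variable {β : Bool → ι'} {τ₁ τ₂ : Bool → ℤ} (H : Opp2 β τ₁ τ₂) (c : κ → Bool)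

/-- a functional vanishes on test functions -/
def Van (σ : Representation ℂ (lev F c) E) (L : ISp c β τ₁ H.h₁ σ →ₗ[ℂ] E') : Prop :=
  ∀ r : ℕ, 1 ≤ r → ∀ f : ISp c β τ₁ H.h₁ σ, KS c β τ₁ r f.1 → L f = 0

theorem test_val (σ : Representation ℂ (lev F c) E) (hσ : IsSm σ) (e : E) :
    ∃ r : ℕ, 1 ≤ r ∧ ∃ f : ISp c β τ₁ H.h₁ σ, KS c β τ₁ r f.1 ∧ f.1 1 = e := by
  obtain ⟨r₀, hr₀⟩ := sm_fix c σ hσ e
  exact ⟨max r₀ 1, le_max_right _ _,
    tst_exists c β τ₁ H.h₁ σ (max r₀ 1) e (hr₀ _ (le_max_left _ _))⟩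

/-- evaluation at `ẇ` -/
def TwoB_ev (w : Equiv.Perm κ) (σ : Representation ℂ (lev F c) E) :
    ISp c β τ₁ H.h₁ σ →ₗ[ℂ] E where
  toFun f := f.1 (wdot H c w)
  map_add' _ _ := rfl
  map_smul' _ _ := rfl

theorem TwoB_ev_apply (w : Equiv.Perm κ) (σ : Representation ℂ (lev F c) E)
    (f : ISp c β τ₁ H.h₁ σ) : TwoB_ev H c w σ f = f.1 (wdot H c w) := rfl

section

variable (hcs : Function.Surjective c)
  (σ : Representation ℂ (lev F c) E) (hσ : IsSm σ) (hc : Cusp c σ)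
  (σ' : Representation ℂ (lev F c) E')

include hcs hσ hc

theorem tw_zero (hno : ∀ w : Equiv.Perm κ, ¬ ∀ i, c (w i) = sb (c i))
    (L : ISp c β τ₁ H.h₁ σ →ₗ[ℂ] E') (hL : L ∈ FS c β τ₁ H.h₁ τ₂ σ σ')
    (h0 : Van H c σ L) : L = 0 := by
  obtain ⟨Λ, -, hker, hval⟩ := open_fun H c hcs σ hσ hc hno
  apply LinearMap.ext
  intro f
  rw [LinearMap.zero_apply]
  obtain ⟨r, hr, φ, hφ, hφ1⟩ := test_val H c σ hσ (Λ f)
  have hC : Cr F c β τ₁ τ₂ r ≠ 0 := Cr_ne c β τ₁ τ₂ r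
  have h1 : Λ (f - (Cr F c β τ₁ τ₂ r)⁻¹ • φ) = 0 := by
    rw [map_sub, map_smul, hval r hr φ hφ, hφ1, smul_smul, inv_mul_cancel₀ hC, one_smul, sub_self]
  have h2 := FS_kJ H c σ σ' L hL _ ((hker _).1 h1)
  rw [map_sub, map_smul, h0 r hr φ hφ, smul_zero, sub_zero] at h2
  exact h2

theorem tw_zero_sw (w : Equiv.Perm κ) (hw : ∀ i, c (w i) = sb (c i))
    (hl : ∀ i j, c (w i) = c (w j) ↔ c i = c j)
    (L : ISp c β τ₁ H.h₁ σ →ₗ[ℂ] E') (hL : L ∈ FS c β τ₁ H.h₁ τ₂ σ σ')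
    (h0 : Van H c σ L) :
    ∃ a : E →ₗ[ℂ] E', Equi (cjR c w hl σ) σ' a ∧
      ∀ f : ISp c β τ₁ H.h₁ σ, L f = a (f.1 (wdot H c w)) := by
  obtain ⟨-, Λ, hker, -, hval⟩ := open_fun_swap H c hcs σ hσ hc w hw
  have hev : Function.Surjective (TwoB_ev H c w σ) := fun e => ev_surj H c w σ hσ e
  have hle : LinearMap.ker (TwoB_ev H c w σ) ≤ LinearMap.ker L := by
    intro f hf
    rw [LinearMap.mem_ker] at hf ⊢
    obtain ⟨r, hr, φ, hφ, hφ1⟩ := test_val H c σ hσ (Λ f)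
    have hC : Cr F c β τ₁ τ₂ r ≠ 0 := Cr_ne c β τ₁ τ₂ r
    have h3 : TwoB_ev H c w σ (f - (Cr F c β τ₁ τ₂ r)⁻¹ • φ) = 0 := by
      rw [map_sub, map_smul, hf, TwoB_ev_apply, KS_wdot H c hcs w hw r hr φ.1 hφ, smul_zero,
        sub_zero]
    have h1 : Λ (f - (Cr F c β τ₁ τ₂ r)⁻¹ • φ) = 0 := by
      rw [map_sub, map_smul, hval r hr φ hφ, hφ1, smul_smul, inv_mul_cancel₀ hC, one_smul,
        sub_self]
    have h2 := FS_kJ H c σ σ' L hL _ ((hker _ h3).1 h1)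
    rw [map_sub, map_smul, h0 r hr φ hφ, smul_zero, sub_zero] at h2
    exact h2
  obtain ⟨a, ha⟩ : ∃ a : E →ₗ[ℂ] E', ∀ f, a (TwoB_ev H c w σ f) = L f := by
    refine ⟨((LinearMap.ker (TwoB_ev H c w σ)).liftQ L hle) ∘ₗ
      ((TwoB_ev H c w σ).quotKerEquivOfSurjective hev).symm.toLinearMap, fun f => ?_⟩
    have h1 : ((TwoB_ev H c w σ).quotKerEquivOfSurjective hev).symm (TwoB_ev H c w σ f) =
        Submodule.Quotient.mk f := by
      rw [LinearEquiv.symm_apply_eq]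
      rfl
    show ((LinearMap.ker (TwoB_ev H c w σ)).liftQ L hle)
      (((TwoB_ev H c w σ).quotKerEquivOfSurjective hev).symm (TwoB_ev H c w σ f)) = L f
    rw [h1]
    rfl
  refine ⟨a, fun m e => ?_, fun f => (ha f).symm⟩
  obtain ⟨f, rfl⟩ := hev e
  have h1 := hL.2 m.1 m.2 (mem_big H c m.1) f
  rw [← ha, ← ha, TwoB_ev_apply, ev_wdot H c w hw hl σ m.1 m.2 (mem_big H c m.1) f, map_smul] at h1
  have h2 : ((dh c β τ₂ m : ℂˣ) : ℂ) ≠ 0 := Units.ne_zero _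
  exact smul_right_injective _ h2 h1

end

end

end Pool.Agent.Lib.MP_ca1492_al.D5
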