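import Mathlib
import Pool.Agent.Lib.MP_ca1492_al.D5.TwoA3

/-!
# MP_ca1492_al, D5, module TwoC: two strands, existence of the open cell functional

* `tw_exists`, no exchanging permutation: `open_fun` for `σ = hat c ρ` (smooth: `hat_smooth`, cuspidal: `cusp_hat`).
  With `w` exchanging: let `D = ordD c β τ₂`, `π = IRp τ₁ (hat c ρ)` (smooth), `J = Jac π = ISp / kerJ`,
  `U ≤ J` the image of `{f | f ẇ = 0}` (stable by `ev_wdot`); `Λ` of `open_fun_swap` defines an equivariant map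
  `U → V ⊗ Pol` to `twist (dh c β τ₂) (hat c ρ)`, which is injective (`inj_twist`, `hat_inj`), so it extends to
  `Θ : J → V ⊗ Pol` (`IsInjSm`, `jac_smooth`); `T f = Θ [f]`. `T ∈ FS`; on test functions `f ẇ = 0` (`KS_wdot`), so
  `T f = Λ f`. (Well defined: if `f, f'` with `f ẇ = f' ẇ = 0` have the same class then `f - f' ∈ kJ`,
  `Λ (f - f') = 0`.)
-/

set_option autoImplicit false
set_option linter.unusedSectionVars false

namespace Pool.Agent.Lib.MP_ca1492_al.D5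

open Pool.Agent.Lib.MP_ca1492_al.P
open Topology Matrix ValuativeRel TensorProduct

noncomputable section

variable {F : Type} [Field F] [ValuativeRel F] [TopologicalSpace F]
  [IsNonarchimedeanLocalField F]
variable {κ : Type} [Fintype κ] [DecidableEq κ]
variable {ι' : Type}
variable {V E E' : Type} [AddCommGroup V] [Module ℂ V] [AddCommGroup E] [Module ℂ E]
  [AddCommGroup E'] [Module ℂ E']

variable {β : Bool → ι'} {τ₁ τ₂ : Bool → ℤ} (H : Opp2 β τ₁ τ₂) (c : κ → Bool)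

/-- the open cell functional -/
theorem tw_exists (hcs : Function.Surjective c) (ρ : Representation ℂ (lev F c) V)
    (hρ : IsSm ρ) (hi : Irr ρ) (hc : Cusp c ρ) :
    ∃ T ∈ FS c β τ₁ H.h₁ τ₂ (hat c ρ) (hat c ρ),
      ∀ r : ℕ, 1 ≤ r → ∀ f : ISp c β τ₁ H.h₁ (hat c ρ), KS c β τ₁ r f.1 →
        T f = Cr F c β τ₁ τ₂ r • f.1 1 := by
  have hsm : IsSm (hat c ρ) := hat_smooth c ρ hρ
  have hcu : Cusp c (hat c ρ) := cusp_hat c ρ hc
  by_cases hno : ∀ w : Equiv.Perm κ, ¬ ∀ i, c (w i) = sb (c i)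
  · obtain ⟨Λ, hΛ, -, hΛ2⟩ := open_fun H c hcs (hat c ρ) hsm hcu hno
    exact ⟨Λ, hΛ, hΛ2⟩
  · push Not at hno
    obtain ⟨w, hw⟩ := hno
    have hl := hl_sb c w hw
    obtain ⟨h0, Λ, h1, h2, h3⟩ := open_fun_swap H c hcs (hat c ρ) hsm hcu w hw
    -- the Jacquet module
    set π := IRp c β τ₁ H.h₁ (hat c ρ) with hπ
    have hπs : IsSm π := ISp_smooth c β τ₁ H.h₁ (hat c ρ)
    set D := ordD (F := F) c β τ₂ H.h₂ with hD
    have hkJ : kJ H c (hat c ρ) = D.kerJ π := rfl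
    -- evaluation
    let ev : ISp c β τ₁ H.h₁ (hat c ρ) →ₗ[ℂ] V ⊗[ℂ] MvPolynomial Bool ℂ :=
      { toFun := fun f => f.1 (wdot H c w)
        map_add' := fun _ _ => rfl
        map_smul' := fun _ _ => rfl }
    have hev : D.kerJ π ≤ LinearMap.ker ev := fun f hf => h0 f hf
    have hΛk : D.kerJ π ≤ LinearMap.ker Λ := fun f hf => (h1 f (h0 f hf)).2 hf
    let ev' := (D.kerJ π).liftQ ev hev
    let Λ' := (D.kerJ π).liftQ Λ hΛk
    let U : Submodule ℂ (ISp c β τ₁ H.h₁ (hat c ρ) ⧸ D.kerJ π) := LinearMap.ker ev'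
    have hjac : ∀ (m : lev F c) (f : ISp c β τ₁ H.h₁ (hat c ρ)),
        D.Jac π m ((D.kerJ π).mkQ f) = (D.kerJ π).mkQ (π ⟨m.1, D.hM m.2⟩ f) := fun m f => rfl
    have hevw : ∀ (m : lev F c) (f : ISp c β τ₁ H.h₁ (hat c ρ)), f.1 (wdot H c w) = 0 →
        (π ⟨m.1, D.hM m.2⟩ f).1 (wdot H c w) = 0 := by
      intro m f hf
      rw [hπ, ev_wdot H c w hw hl (hat c ρ) m.1 m.2 (D.hM m.2) f, hf, map_zero, smul_zero]
    have hU : Stab (D.Jac π) U := by
      intro m u hu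
      obtain ⟨f, rfl⟩ := (D.kerJ π).mkQ_surjective u
      have hf : f.1 (wdot H c w) = 0 := hu
      rw [hjac]
      exact hevw m f hf
    have hequi : Equi (subRep (D.Jac π) U hU) (twist (dh c β τ₂) (hat c ρ))
        (Λ' ∘ₗ U.subtype) := by
      rintro m ⟨u, hu⟩
      obtain ⟨f, rfl⟩ := (D.kerJ π).mkQ_surjective u
      have hf : f.1 (wdot H c w) = 0 := hu
      show Λ (π ⟨m.1, D.hM m.2⟩ f) = (dh c β τ₂ m : ℂ) • hat c ρ m (Λ f)
      exact h2 m.1 m.2 (D.hM m.2) f hf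
    have hinj : IsInjSm (twist (dh c β τ₂) (hat c ρ)) :=
      inj_twist c β τ₂ (hat c ρ) (hat_inj c ρ hcs hρ hi hc)
    obtain ⟨Θ, hΘ, hΘU⟩ := hinj _ (D.Jac π) (D.jac_smooth π hπs) U hU _ hequi
    refine ⟨Θ ∘ₗ (D.kerJ π).mkQ, ⟨fun n hn f => ?_, fun m hm hm' f => ?_⟩, fun r hr f hf => ?_⟩
    · show Θ ((D.kerJ π).mkQ (π n f)) = Θ ((D.kerJ π).mkQ f)
      congr 1
      rw [← sub_eq_zero, ← map_sub]
      refine (Submodule.Quotient.mk_eq_zero _).2 ?_
      exact Submodule.subset_span ⟨n.1, hn, f, rfl⟩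
    · have h4 := hΘ ⟨m, hm⟩ ((D.kerJ π).mkQ f)
      rw [hjac] at h4
      exact h4
    · have h5 : f.1 (wdot H c w) = 0 := KS_wdot H c hcs w hw r hr f.1 hf
      have h6 := hΘU ⟨(D.kerJ π).mkQ f, h5⟩
      show Θ ((D.kerJ π).mkQ f) = _
      rw [← h3 r hr f hf]
      exact h6

end

end Pool.Agent.Lib.MP_ca1492_al.D5
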