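import Mathlib
import Pool.Agent.Lib.MP_ca1492_al.D5.Nop
import Pool.Agent.Lib.MP_ca1492_al.D5.TwoA
import Pool.Agent.Lib.MP_ca1492_al.D5.TwoZ

/-!
# MP_ca1492_al, D5, module TwoS: two isomorphic strands, the exchange operator

`Sw2 c ρ`: an involution `w` of `κ` exchanging the two blocks and an isomorphism `A` of `V`, `A² = 1`,
`A (ρ(ẇ m ẇ⁻¹) v) = ρ(m) (A v)`. `AR = A ⊗ ren sb`, `(swI f)(g) = AR (f (ẇ g))`, from `I_τ₁` to `I_τ₂`.

* `AR_AR`, `AR_op`: on `v ⊗ p`: `ren_ren`, `ren_psEnd`. `AR_hat`: `hat_cj`, or on `v ⊗ p`: `ren_shift`, `vl_cj`.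
  `AR_mulU`: `ren sb (sumX * p) = sumX * ren sb p`. `AR_tm1`: clear.
* `wdot_mul`: `permG` is multiplicative (`CRank_permG_mul`), `w * w = 1`. `wdot_vdet`: `vdet_mul`, `vdet_Kc`,
  `wdot_K`.
* `conj_upp2`, `conj_uni2`: `CTwo_conj_upp`, `CTwo_conj_uni` (`P/CTwo.lean`) with `swap_isSwap`, `opp2_twoB`, and
  `uni_neg` (or `upp_congr`) to replace `-τ₁` by `τ₂`.
* `swI_mem`: `f (ẇ m n g) = f ((ẇ m ẇ⁻¹) (ẇ n ẇ⁻¹) (ẇ g))`, `conj_uni2`, `dh_swap`, `AR_hat`.
-/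

set_option autoImplicit false
set_option linter.unusedSectionVars false

namespace Pool.Agent.Lib.MP_ca1492_al.D5

open Pool.Agent.Lib.MP_ca1492_al.P
open Topology Matrix ValuativeRel TensorProduct

noncomputable section

variable {F : Type} [Field F] [ValuativeRel F] [TopologicalSpace F]
  [IsNonarchimedeanLocalField F]
variable {κ : Type} [Fintype κ] [DecidableEq κ]
variable {ι' : Type}
variable {V : Type} [AddCommGroup V] [Module ℂ V]

/-- an isomorphism of `ρ` with its conjugate by an exchange of the two blocks -/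
structure Sw2 (c : κ → Bool) (ρ : Representation ℂ (lev F c) V) where
  w : Equiv.Perm κ
  hw : ∀ i, c (w i) = sb (c i)
  hww : ∀ i, w (w i) = i
  A : V ≃ₗ[ℂ] V
  hA : IsA c w (hl_sb c w hw) ρ A
  hAA : ∀ v, A (A v) = v

variable {c : κ → Bool} {ρ : Representation ℂ (lev F c) V}

/-- `A ⊗ ren sb` -/
def Sw2.AR (D : Sw2 c ρ) : V ⊗[ℂ] MvPolynomial Bool ℂ →ₗ[ℂ] V ⊗[ℂ] MvPolynomial Bool ℂ :=
  TensorProduct.map (D.A : V →ₗ[ℂ] V) (ren sb)

theorem Sw2.AR_tmul (D : Sw2 c ρ) (v : V) (p : MvPolynomial Bool ℂ) :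
    D.AR (v ⊗ₜ[ℂ] p) = D.A v ⊗ₜ[ℂ] ren sb p := rfl

theorem Sw2.AR_AR (D : Sw2 c ρ) (x : V ⊗[ℂ] MvPolynomial Bool ℂ) : D.AR (D.AR x) = x := by
  induction x using TensorProduct.induction_on with
  | zero => rw [map_zero, map_zero]
  | add a b ha hb => rw [map_add, map_add, ha, hb]
  | tmul v p =>
    have h := Mhom_ren_symm sb p
    rw [Equiv.symm_swap] at h
    rw [D.AR_tmul, D.AR_tmul, D.hAA, h]

theorem Sw2.AR_op (D : Sw2 c ρ) (y : MvPowerSeries Bool ℂ)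
    (x : V ⊗[ℂ] MvPolynomial Bool ℂ) :
    D.AR (opE V y x) = opE V (MvPowerSeries.rename sb y) (D.AR x) := by
  induction x using TensorProduct.induction_on with
  | zero => rw [map_zero, map_zero, map_zero]
  | add a b ha hb => rw [map_add, map_add, ha, hb, map_add, map_add]
  | tmul v p => rw [opE_tmul, D.AR_tmul, D.AR_tmul, opE_tmul, ren_psEnd]

theorem Sw2.AR_hat (D : Sw2 c ρ) :
    Equi (cjR c D.w (hl_sb c D.w D.hw) (hat c ρ)) (hat c ρ) D.AR := by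
  intro m x
  show D.AR (hat c ρ (cjH c D.w (hl_sb c D.w D.hw) m) x) = hat c ρ m (D.AR x)
  induction x using TensorProduct.induction_on with
  | zero => rw [map_zero, map_zero, map_zero]
  | add a b ha hb => rw [map_add, map_add, ha, hb, map_add, map_add]
  | tmul v p =>
    have h1 : (fun x => vl c (cjH c D.w (hl_sb c D.w D.hw) m).1 (sb.symm x)) = vl c m.1 := by
      funext x
      rw [Equiv.symm_swap]
      exact vl_cj c D.w sb D.hw m.1 m.2 x
    have h2 : D.A (ρ (cjH c D.w (hl_sb c D.w D.hw) m) v) = ρ m (D.A v) := D.hA m v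
    rw [hat_tmul, D.AR_tmul, D.AR_tmul, hat_tmul, ren_shift, h1, h2]

theorem Sw2.AR_mulU (D : Sw2 c ρ) (x : V ⊗[ℂ] MvPolynomial Bool ℂ) :
    D.AR (mulU Bool V x) = mulU Bool V (D.AR x) := by
  induction x using TensorProduct.induction_on with
  | zero => rw [map_zero, map_zero, map_zero]
  | add a b ha hb => rw [map_add, map_add, ha, hb, map_add, map_add]
  | tmul v p =>
    have h1 : MvPolynomial.rename sb (sumX Bool) = sumX Bool := by
      unfold sumX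
      rw [Fintype.sum_bool, map_add, MvPolynomial.rename_X, MvPolynomial.rename_X, sb_apply,
        sb_apply]
      exact add_comm _ _
    have h2 : ren sb (sumX Bool * p) = sumX Bool * ren sb p := by
      show MvPolynomial.rename sb (sumX Bool * p) = sumX Bool * MvPolynomial.rename sb p
      rw [map_mul, h1]
    rw [mulU_tmul, D.AR_tmul, D.AR_tmul, mulU_tmul, h2]

theorem Sw2.AR_tm1 (D : Sw2 c ρ) (v : V) : D.AR (tm1 Bool V v) = tm1 Bool V (D.A v) := by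
  have h : ren sb (1 : MvPolynomial Bool ℂ) = 1 :=
    map_one (MvPolynomial.rename (R := ℂ) (sb : Bool → Bool))
  rw [tm1_apply, tm1_apply, D.AR_tmul, h]

section

variable {β : Bool → ι'} {τ₁ τ₂ : Bool → ℤ} (H : Opp2 β τ₁ τ₂)

theorem wdot_symm (w : Equiv.Perm κ) :
    (wdot H.symm c w : lev F (fun i => β (c i))) = wdot H c w := rfl

theorem wdot_mul (w : Equiv.Perm κ) (hww : ∀ i, w (w i) = i) :
    (wdot H c w : lev F (fun i => β (c i))) * wdot H c w = 1 := by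
  apply Subtype.ext
  show permG F w * permG F w = 1
  have h : w * w = 1 := Equiv.ext fun i => hww i
  rw [← CRank_permG_mul, h, CTwo_permG_one]

theorem wdot_K (w : Equiv.Perm κ) : permG F w ∈ Kc F κ 0 := permG_mem_Kc w

theorem wdot_vdet (w : Equiv.Perm κ) (g : lev F (fun i => β (c i))) :
    vdet ((wdot H c w * g : lev F (fun i => β (c i))) : GL κ F) = vdet g.1 := by
  show vdet (permG F w * g.1) = vdet g.1
  rw [vdet_mul, vdet_Kc _ (wdot_K w), zero_add]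

include H in
theorem conj_upp2 (hcs : Function.Surjective c) (w : Equiv.Perm κ)
    (hw : ∀ i, c (w i) = sb (c i)) (q : GL κ F)
    (hq : q ∈ upp F (fun i => β (c i)) (fun i => τ₂ (c i))) :
    permG F w * q * (permG F w)⁻¹ ∈ upp F (fun i => β (c i)) (fun i => τ₁ (c i)) := by
  refine CTwo_conj_upp (fun i => β (c i)) c (β false) (opp2_twoB H c) (fun i => τ₁ (c i))
    (ordD_cond c β τ₁ H.h₁) w (swap_isSwap H c hcs w hw) q ?_
  rw [← upp_congr c β (fun x => - τ₁ x) τ₂ H.neg.h₂ H.h₂ fun x y _ => TwoA_lt H x y] at hq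
  exact hq

include H in
theorem conj_uni2 (hcs : Function.Surjective c) (w : Equiv.Perm κ)
    (hw : ∀ i, c (w i) = sb (c i)) (q : GL κ F)
    (hq : q ∈ uni F (fun i => β (c i)) (fun i => τ₂ (c i))) :
    permG F w * q * (permG F w)⁻¹ ∈ uni F (fun i => β (c i)) (fun i => τ₁ (c i)) := by
  refine CTwo_conj_uni (fun i => β (c i)) c (β false) (opp2_twoB H c) (fun i => τ₁ (c i))
    (ordD_cond c β τ₁ H.h₁) w (swap_isSwap H c hcs w hw) q ?_
  rw [← uni_neg H c] at hq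
  exact hq

theorem swI_mem (hcs : Function.Surjective c) (D : Sw2 c ρ)
    (f : ISp c β τ₁ H.h₁ (hat c ρ)) :
    (fun g => D.AR (f.1 (wdot H c D.w * g))) ∈ ISp c β τ₂ H.h₂ (hat c ρ) := by
  obtain ⟨h1, U, hU, h2⟩ := (mem_ISp c β τ₁ H.h₁ (hat c ρ) f.1).1 f.2
  refine (mem_ISp c β τ₂ H.h₂ (hat c ρ) _).2 ⟨fun m hm n hn g => ?_, U, hU, fun g u hu => ?_⟩
  · have h3 := h1 (cjH c D.w (hl_sb c D.w D.hw) ⟨m, hm⟩).1 (cjH c D.w (hl_sb c D.w D.hw) ⟨m, hm⟩).2
      (permG F D.w * n * (permG F D.w)⁻¹) (conj_uni2 H hcs D.w D.hw n hn) (wdot H c D.w * g)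
    have h4 : dh c β τ₁ (cjH c D.w (hl_sb c D.w D.hw) ⟨m, hm⟩) = dh c β τ₂ ⟨m, hm⟩ :=
      dh_swap H c D.w D.hw (hl_sb c D.w D.hw) ⟨m, hm⟩
    have h5 : wdot H c D.w * (⟨m, (ordD (F := F) c β τ₂ H.h₂).hM hm⟩ *
        ⟨n, (ordD (F := F) c β τ₂ H.h₂).hN hn⟩ * g) =
        ⟨(cjH c D.w (hl_sb c D.w D.hw) ⟨m, hm⟩).1, (ordD (F := F) c β τ₁ H.h₁).hM
          (cjH c D.w (hl_sb c D.w D.hw) ⟨m, hm⟩).2⟩ *
        ⟨permG F D.w * n * (permG F D.w)⁻¹, (ordD (F := F) c β τ₁ H.h₁).hN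
          (conj_uni2 H hcs D.w D.hw n hn)⟩ * (wdot H c D.w * g) := by
      apply Subtype.ext
      show permG F D.w * (m * n * g.1) = permG F D.w * m * (permG F D.w)⁻¹ *
        (permG F D.w * n * (permG F D.w)⁻¹) * (permG F D.w * g.1)
      group
    show D.AR (f.1 (wdot H c D.w * _)) = _
    rw [h5, h3, map_smul]
    have h6 : D.AR (hat c ρ (cjH c D.w (hl_sb c D.w D.hw) ⟨m, hm⟩) (f.1 (wdot H c D.w * g))) =
        hat c ρ ⟨m, hm⟩ (D.AR (f.1 (wdot H c D.w * g))) := D.AR_hat ⟨m, hm⟩ _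
    show (dh c β τ₁ (cjH c D.w (hl_sb c D.w D.hw) ⟨m, hm⟩) : ℂ) • D.AR (hat c ρ
      (cjH c D.w (hl_sb c D.w D.hw) ⟨m, hm⟩) (f.1 (wdot H c D.w * g))) = _
    rw [h4, h6]
  · show D.AR (f.1 (wdot H c D.w * (g * u))) = D.AR (f.1 (wdot H c D.w * g))
    rw [← mul_assoc, h2 _ u hu]

/-- the exchange operator -/
def swI (hcs : Function.Surjective c) (D : Sw2 c ρ) :
    ISp c β τ₁ H.h₁ (hat c ρ) →ₗ[ℂ] ISp c β τ₂ H.h₂ (hat c ρ) where
  toFun f := ⟨fun g => D.AR (f.1 (wdot H c D.w * g)), swI_mem H hcs D f⟩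
  map_add' f f' := Subtype.ext (funext fun g => map_add D.AR _ _)
  map_smul' z f := Subtype.ext (funext fun g => D.AR.map_smul z _)

theorem swI_val (hcs : Function.Surjective c) (D : Sw2 c ρ)
    (f : ISp c β τ₁ H.h₁ (hat c ρ)) (g : lev F (fun i => β (c i))) :
    (swI H hcs D f).1 g = D.AR (f.1 (wdot H c D.w * g)) := rfl

theorem swI_equi (hcs : Function.Surjective c) (D : Sw2 c ρ) :
    Equi (IRp c β τ₁ H.h₁ (hat c ρ)) (IRp c β τ₂ H.h₂ (hat c ρ)) (swI H hcs D) := by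
  intro g f
  refine Subtype.ext (funext fun x => ?_)
  exact congrArg (fun z => D.AR (f.1 z)) (mul_assoc _ x g)

theorem swI_swI (hcs : Function.Surjective c) (D : Sw2 c ρ)
    (f : ISp c β τ₁ H.h₁ (hat c ρ)) : swI H.symm hcs D (swI H hcs D f) = f := by
  refine Subtype.ext (funext fun x => ?_)
  show D.AR (D.AR (f.1 (wdot H c D.w * (wdot H c D.w * x)))) = f.1 x
  rw [D.AR_AR, ← mul_assoc, wdot_mul H D.w D.hww, one_mul]

theorem swI_op (hcs : Function.Surjective c) (D : Sw2 c ρ) (y : MvPowerSeries Bool ℂ)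
    (f : ISp c β τ₁ H.h₁ (hat c ρ)) :
    swI H hcs D (opI c β τ₁ H.h₁ ρ y f) =
      opI c β τ₂ H.h₂ ρ (MvPowerSeries.rename sb y) (swI H hcs D f) :=
  Subtype.ext (funext fun _ => D.AR_op y _)

end

end

end Pool.Agent.Lib.MP_ca1492_al.D5
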