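import Mathlib
import Pool.Agent.Lib.MP_ca1492_al.D5.TwoB
import Pool.Agent.Lib.MP_ca1492_al.D5.TwoC
import Pool.Agent.Lib.MP_ca1492_al.D5.TwoS

/-!
# MP_ca1492_al, D5, module TwoT: two strands, operators which vanish on test functions

* `XI_of_X`: `comm_of_X` for `ev1 ∘ Φ` (`FS_of_hom`), then as in `homL_XI` (`D5/LeadI.lean`):
  `(Φ f)(g) = (Φ (R_g f))(1)` (equivariance) and `opI y (R_g f) = R_g (opI y f)` (`opI_equi`).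
* `tw_theta`: `homL T` for `T` of `tw_exists` (`homL_equi`, `homL_apply` at `g = 1`).
* `van_diff`: `L = ev1 ∘ Ξ ∈ FS` (`FS_of_hom`) and `Van H c (hat c ρ) L`. If no permutation exchanges the blocks:
  `tw_zero` for `hat c ρ` (`hat_smooth`, `cusp_hat`). Otherwise `tw_zero_sw` gives `a`; if `a ≠ 0` then `cell_hom` with
  `ω = sb` contradicts `hno`; so `L = 0`. `L = 0` implies `Ξ = 0`: `(Ξ f)(g) = L (R_g f)`.
* `van_same`: `tw_zero_sw` for `w = D.w` gives `a` with `L f = a (f ẇ)`; if `a = 0` take `g = 0`. Otherwise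
  `cell_hom` (`ω = sb`, `sb.symm = sb`): `a (v ⊗ p) = A' v ⊗ psEnd f₁ (ren sb p)`, `A' = z D.A` (`schur_A`), so
  `a = opE g ∘ D.AR` with `g = C z * f₁` (`psEnd` of a constant: `opE_C`, `opE_mul`); then
  `(Ξ f)(x) = L (R_x f) = opE g (AR (f (ẇ x)))`.
-/

set_option autoImplicit false
set_option linter.unusedSectionVars false

namespace Pool.Agent.Lib.MP_ca1492_al.D5

open Pool.Agent.Lib.MP_ca1492_al.P
open Topology Matrix ValuativeRel TensorProduct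

noncomputable section

variable {F : Type} [Field F] [ValuativeRel F] [TopologicalSpace F]
  [IsNonarchimedeanLocalField F]
variable {κ : Type} [Fintype κ] [DecidableEq κ]
variable {V : Type} [AddCommGroup V] [Module ℂ V]

/-- the value at `g` -/
theorem TwoT_val {ι ι' : Type} [Fintype ι] [DecidableEq ι] (c : κ → ι) (β : ι → ι')
    (τ₁ τ₂ : ι → ℤ) (hτ₁ : Function.Injective τ₁) (hτ₂ : Function.Injective τ₂)
    (ρ : Representation ℂ (lev F c) V)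
    (Φ : ISp c β τ₁ hτ₁ (hat c ρ) →ₗ[ℂ] ISp c β τ₂ hτ₂ (hat c ρ))
    (hΦ : Equi (IRp c β τ₁ hτ₁ (hat c ρ)) (IRp c β τ₂ hτ₂ (hat c ρ)) Φ)
    (f : ISp c β τ₁ hτ₁ (hat c ρ)) (g : lev F (fun i => β (c i))) :
    (Φ f).1 g = (Φ (IRp c β τ₁ hτ₁ (hat c ρ) g f)).1 1 := by
  rw [hΦ]
  show _ = (Φ f).1 (1 * g)
  rw [one_mul]

theorem XI_of_X {ι ι' : Type} [Fintype ι] [DecidableEq ι] (c : κ → ι) (β : ι → ι')
    (τ₁ τ₂ : ι → ℤ) (hτ₁ : Function.Injective τ₁) (hτ₂ : Function.Injective τ₂)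
    (ρ : Representation ℂ (lev F c) V)
    (Φ : ISp c β τ₁ hτ₁ (hat c ρ) →ₗ[ℂ] ISp c β τ₂ hτ₂ (hat c ρ))
    (hΦ : Equi (IRp c β τ₁ hτ₁ (hat c ρ)) (IRp c β τ₂ hτ₂ (hat c ρ)) Φ)
    (h : ∀ (x : ι) (f : ISp c β τ₁ hτ₁ (hat c ρ)),
      Φ (opI c β τ₁ hτ₁ ρ (MvPowerSeries.X x) f) =
        opI c β τ₂ hτ₂ ρ (MvPowerSeries.X x) (Φ f)) : Φ ∈ XI c β τ₁ hτ₁ τ₂ hτ₂ ρ := by
  have h1 := comm_of_X c β τ₁ τ₂ hτ₁ ρ (ev1 c β τ₂ hτ₂ (hat c ρ) ∘ₗ Φ)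
    (FS_of_hom c β τ₁ τ₂ hτ₁ hτ₂ (hat c ρ) (hat c ρ) Φ hΦ) (by
      intro x f
      rw [LinearMap.comp_apply, h]
      rfl)
  refine ⟨hΦ, fun y f => Subtype.ext (funext fun g => ?_)⟩
  have h2 := h1.2 y (IRp c β τ₁ hτ₁ (hat c ρ) g f)
  have h3 : (Φ (opI c β τ₁ hτ₁ ρ y (IRp c β τ₁ hτ₁ (hat c ρ) g f))).1 1 =
      opE V y ((Φ (IRp c β τ₁ hτ₁ (hat c ρ) g f)).1 1) := h2
  rw [TwoT_val c β τ₁ τ₂ hτ₁ hτ₂ ρ Φ hΦ]
  have h4 : IRp c β τ₁ hτ₁ (hat c ρ) g (opI c β τ₁ hτ₁ ρ y f) =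
      opI c β τ₁ hτ₁ ρ y (IRp c β τ₁ hτ₁ (hat c ρ) g f) := rfl
  rw [h4, h3, ← TwoT_val c β τ₁ τ₂ hτ₁ hτ₂ ρ Φ hΦ]
  rfl

variable {ι' : Type} {β : Bool → ι'} {τ₁ τ₂ : Bool → ℤ}

/-- `ρ` is not isomorphic to its conjugates by exchanges of the two blocks -/
def NoIso (c : κ → Bool) (ρ : Representation ℂ (lev F c) V) : Prop :=
  ∀ (w : Equiv.Perm κ) (hw : ∀ i, c (w i) = sb (c i)) (A : V ≃ₗ[ℂ] V),
    ¬ IsA c w (hl_sb c w hw) ρ A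

section

variable (H : Opp2 β τ₁ τ₂) {c : κ → Bool} {ρ : Representation ℂ (lev F c) V}
  (hcs : Function.Surjective c) (hρ : IsSm ρ) (hi : Irr ρ) (hc : Cusp c ρ)

/-- vanishing on test functions -/
def VanI (Ξ : ISp c β τ₁ H.h₁ (hat c ρ) →ₗ[ℂ] ISp c β τ₂ H.h₂ (hat c ρ)) : Prop :=
  ∀ r : ℕ, 1 ≤ r → ∀ f : ISp c β τ₁ H.h₁ (hat c ρ), KS c β τ₁ r f.1 → (Ξ f).1 1 = 0

include hcs hρ hi hc

/-- the open cell operator -/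
theorem tw_theta : ∃ Θ : ISp c β τ₁ H.h₁ (hat c ρ) →ₗ[ℂ] ISp c β τ₂ H.h₂ (hat c ρ),
    Equi (IRp c β τ₁ H.h₁ (hat c ρ)) (IRp c β τ₂ H.h₂ (hat c ρ)) Θ ∧
    ∀ r : ℕ, 1 ≤ r → ∀ f : ISp c β τ₁ H.h₁ (hat c ρ), KS c β τ₁ r f.1 →
      (Θ f).1 1 = Cr F c β τ₁ τ₂ r • f.1 1 := by
  obtain ⟨T, hT, hT2⟩ := tw_exists H c hcs ρ hρ hi hc
  refine ⟨homL c β τ₁ τ₂ H.h₁ H.h₂ (hat c ρ) (hat c ρ) T hT,
    homL_equi c β τ₁ τ₂ H.h₁ H.h₂ (hat c ρ) (hat c ρ) T hT, fun r hr f hf => ?_⟩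
  rw [homL_apply, map_one, Module.End.one_apply]
  exact hT2 r hr f hf

theorem van_diff (hno : NoIso c ρ)
    (Ξ : ISp c β τ₁ H.h₁ (hat c ρ) →ₗ[ℂ] ISp c β τ₂ H.h₂ (hat c ρ))
    (hΞ : Equi (IRp c β τ₁ H.h₁ (hat c ρ)) (IRp c β τ₂ H.h₂ (hat c ρ)) Ξ)
    (h0 : VanI H Ξ) : Ξ = 0 := by
  have hL := FS_of_hom c β τ₁ τ₂ H.h₁ H.h₂ (hat c ρ) (hat c ρ) Ξ hΞ
  have hL0 : ev1 c β τ₂ H.h₂ (hat c ρ) ∘ₗ Ξ = 0 := by
    by_cases hex : ∀ w : Equiv.Perm κ, ¬ ∀ i, c (w i) = sb (c i)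
    · exact tw_zero H c hcs (hat c ρ) (hat_smooth c ρ hρ) (cusp_hat c ρ hc) (hat c ρ) hex _ hL
        (fun r hr f hf => h0 r hr f hf)
    · push Not at hex
      obtain ⟨w, hw⟩ := hex
      obtain ⟨a, ha, hLa⟩ := tw_zero_sw H c hcs (hat c ρ) (hat_smooth c ρ hρ) (cusp_hat c ρ hc)
        (hat c ρ) w hw (hl_sb c w hw) _ hL (fun r hr f hf => h0 r hr f hf)
      have ha0 : a = 0 := by
        by_contra hne
        obtain ⟨A, -, hA, -⟩ := cell_hom c hcs w sb hw (hl_sb c w hw) ρ hρ hi hc a ha hne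
        exact hno w hw A hA
      refine LinearMap.ext fun f => ?_
      rw [hLa, ha0]
      rfl
  refine LinearMap.ext fun f => Subtype.ext (funext fun g => ?_)
  rw [TwoT_val c β τ₁ τ₂ H.h₁ H.h₂ ρ Ξ hΞ]
  exact LinearMap.congr_fun hL0 (IRp c β τ₁ H.h₁ (hat c ρ) g f)

theorem van_same (D : Sw2 c ρ)
    (Ξ : ISp c β τ₁ H.h₁ (hat c ρ) →ₗ[ℂ] ISp c β τ₂ H.h₂ (hat c ρ))
    (hΞ : Equi (IRp c β τ₁ H.h₁ (hat c ρ)) (IRp c β τ₂ H.h₂ (hat c ρ)) Ξ)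
    (h0 : VanI H Ξ) :
    ∃ g : MvPowerSeries Bool ℂ, ∀ f, Ξ f = opI c β τ₂ H.h₂ ρ g (swI H hcs D f) := by
  have hL := FS_of_hom c β τ₁ τ₂ H.h₁ H.h₂ (hat c ρ) (hat c ρ) Ξ hΞ
  obtain ⟨a, ha, hLa⟩ := tw_zero_sw H c hcs (hat c ρ) (hat_smooth c ρ hρ) (cusp_hat c ρ hc)
    (hat c ρ) D.w D.hw (hl_sb c D.w D.hw) _ hL (fun r hr f hf => h0 r hr f hf)
  have key : ∀ g : MvPowerSeries Bool ℂ, (∀ x, a x = opE V g (D.AR x)) →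
      ∀ f, Ξ f = opI c β τ₂ H.h₂ ρ g (swI H hcs D f) := by
    intro g hg f
    refine Subtype.ext (funext fun x => ?_)
    rw [TwoT_val c β τ₁ τ₂ H.h₁ H.h₂ ρ Ξ hΞ]
    have h1 : (Ξ (IRp c β τ₁ H.h₁ (hat c ρ) x f)).1 1 = a (f.1 (wdot H c D.w * x)) :=
      hLa (IRp c β τ₁ H.h₁ (hat c ρ) x f)
    rw [h1, hg]
    rfl
  by_cases ha0 : a = 0
  · refine ⟨0, key 0 fun x => ?_⟩
    rw [ha0, opE_zero]
    rfl
  · obtain ⟨A', f₁, hA', hf₁⟩ := cell_hom c hcs D.w sb D.hw (hl_sb c D.w D.hw) ρ hρ hi hc a ha ha0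
    obtain ⟨z, -, hz⟩ := schur_A c D.w (hl_sb c D.w D.hw) ρ hρ hi hc A' D.A hA' D.hA
    refine ⟨MvPowerSeries.C z * f₁, key _ fun x => ?_⟩
    induction x using TensorProduct.induction_on with
    | zero => simp
    | add x y hx hy => rw [map_add, hx, hy, map_add, map_add]
    | tmul v p =>
      rw [hf₁, hz, D.AR_tmul, opE_mul, opE_C, opE_tmul, Equiv.symm_swap,
        TensorProduct.smul_tmul']

end

end

end Pool.Agent.Lib.MP_ca1492_al.D5
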