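import Mathlib
import Pool.Agent.Lib.MP_ca1492_al.D4.Sgn
import Pool.Agent.Lib.MP_ca1492_al.D5.TwoT
import Pool.Agent.Lib.MP_ca1492_al.P.LevT

/-!
# MP_ca1492_al, D5, module TwoQ: two strands, transport to `Fin n` and the standard blocks

`e : Fin n ≃ κ` with `c (e i) = blk n d i` (`blk` = `true` on the first `d` indices). `plR e he ρ` = the transported
representation of `lev F (blk n d)`. `tS s` = the standard orders of `Bool`: `true` before `false` for `s = true`, after
for `s = false`; `tS s (blk n d i) = odS n d s i`.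

* `exists_e`: `n = card κ`, `d = #{i | c i = true}`; glue `Fin d ≃ {i // c i = true}` and
  `{i : Fin n // ¬ i < d} ≃ {i // c i ≠ true}` (`Equiv.subtypeCongr`-like, or `Fintype.equivOfCardEq` on both parts and
  `Equiv.sumCompl`); `1 ≤ d` and `d < n` from `hcs`.
* `tS_od`, `tS_inj`, `tS_not`: cases. `tS_sg`: the two values are different and have one of the two orders.
* `trX_ex`: `ISp c β τ hτ σ = ISp c β (tS s) _ σ` (`ISp_congr`), then `indT` (`P/LevT.lean`) for
  `e`, `c' = c`, `cb' = β ∘ c`, `o' = tS s ∘ c`, `cb = one n`, `o = odS n d s`; the representations agree: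
  `pull (levT) (twist (dh c β (tS s)) σ) = nsg s (plR σ)` because `dh c β (tS s) (levT m) = dlh .. m` (`dh_dlh`).
* `dh_dlh`: `dlh_eq_dh` (`D5/CellN.lean`) for `tS s`, then `dlh_T` (`P/LevT.lean`).
* `pl_nIso`: `T ≠ 0` with `T (ρ m v) = ρ m' (T v)` (`m' = w m w⁻¹`) has stable kernel and stable range (every `m'` occurs),
  so `T` is bijective (`hi`), and `T⁻¹` is `IsA` for the permutation `e wsw e⁻¹` of `κ` (`glT` of `permG` is `permG`,
  entrywise), contradiction to `hno`.
-/

set_option autoImplicit false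
set_option linter.unusedSectionVars false

namespace Pool.Agent.Lib.MP_ca1492_al.D5

open Pool.Agent.Lib.MP_ca1492_al.P
open Topology Matrix ValuativeRel TensorProduct

noncomputable section

variable {F : Type} [Field F] [ValuativeRel F] [TopologicalSpace F]
  [IsNonarchimedeanLocalField F]
variable {κ : Type} [Fintype κ] [DecidableEq κ]
variable {V E E' : Type} [AddCommGroup V] [Module ℂ V] [AddCommGroup E] [Module ℂ E]
  [AddCommGroup E'] [Module ℂ E']

/-- the standard orders of two strands -/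
def tS (s : Bool) : Bool → ℤ := fun x => if x = true then 0 else (if s = true then 1 else -1)

theorem tS_inj (s : Bool) : Function.Injective (tS s) := by
  intro x y h
  cases s <;> cases x <;> cases y <;> simp [tS] at h ⊢

theorem tS_od (n d : ℕ) (s : Bool) (i : Fin n) :
    tS s (PC.D4.blk n d i) = PC.D4.odS n d s i := by
  unfold tS PC.D4.blk PC.D4.odS PC.D4.od
  by_cases h : i.1 < d <;> cases s <;> simp [h]

theorem tS_not (s x y : Bool) : tS s x < tS s y ↔ tS (!s) y < tS (!s) x := by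
  cases s <;> cases x <;> cases y <;> simp [tS]

theorem tS_sg (τ : Bool → ℤ) (hτ : Function.Injective τ) :
    ∃ s : Bool, ∀ x y, τ x < τ y ↔ tS s x < tS s y := by
  have hne : τ true ≠ τ false := fun h => by simpa using hτ h
  rcases lt_or_gt_of_ne hne with h | h
  · refine ⟨true, fun x y => ?_⟩
    cases x <;> cases y <;> simp [tS] <;> omega
  · refine ⟨false, fun x y => ?_⟩
    cases x <;> cases y <;> simp [tS] <;> omega

theorem exists_e (c : κ → Bool) (hcs : Function.Surjective c) :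
    ∃ (n d : ℕ) (_ : 1 ≤ d) (_ : d < n) (e : Fin n ≃ κ), ∀ i, c (e i) = PC.D4.blk n d i := by
  obtain ⟨xt, hxt⟩ := hcs true
  obtain ⟨xf, hxf⟩ := hcs false
  have h1 : 1 ≤ Fintype.card {i // c i = true} := Fintype.card_pos_iff.2 ⟨⟨xt, hxt⟩⟩
  have h2 : 1 ≤ Fintype.card {i // ¬ c i = true} :=
    Fintype.card_pos_iff.2 ⟨⟨xf, by rw [hxf]; simp⟩⟩
  let eA : Fin (Fintype.card {i // c i = true}) ≃ {i // c i = true} := (Fintype.equivFin _).symm
  let eB : Fin (Fintype.card {i // ¬ c i = true}) ≃ {i // ¬ c i = true} :=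
    (Fintype.equivFin _).symm
  refine ⟨Fintype.card {i // c i = true} + Fintype.card {i // ¬ c i = true},
    Fintype.card {i // c i = true}, h1, by omega,
    finSumFinEquiv.symm.trans ((Equiv.sumCongr eA eB).trans (Equiv.sumCompl fun i => c i = true)),
    fun i => ?_⟩
  refine Fin.addCases (fun j => ?_) (fun j => ?_) i
  · rw [Equiv.trans_apply, finSumFinEquiv_symm_apply_castAdd]
    show c (eA j).1 = _
    rw [(eA j).2]
    simp [PC.D4.blk]
  · rw [Equiv.trans_apply, finSumFinEquiv_symm_apply_natAdd]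
    show c (eB j).1 = _
    have h3 := (eB j).2
    rw [Bool.not_eq_true] at h3
    rw [h3]
    simp [PC.D4.blk]

section

variable {n d : ℕ} (e : Fin n ≃ κ) {c : κ → Bool} (he : ∀ i, c (e i) = PC.D4.blk n d i)

include he in
theorem he_iff (i j : Fin n) : c (e i) = c (e j) ↔ PC.D4.blk n d i = PC.D4.blk n d j := by
  rw [he, he]

/-- the transported representation -/
def plR (ρ : Representation ℂ (lev F c) E) : Representation ℂ (lev F (PC.D4.blk n d)) E :=
  pull (levT F e (he_iff e he)) ρ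

theorem plR_apply (ρ : Representation ℂ (lev F c) E) (m : lev F (PC.D4.blk n d)) (v : E) :
    plR e he ρ m v = ρ (levT F e (he_iff e he) m) v := rfl

theorem plR_equi (ρ : Representation ℂ (lev F c) E) (ρ' : Representation ℂ (lev F c) E')
    (T : E →ₗ[ℂ] E') (hT : Equi ρ ρ' T) : Equi (plR e he ρ) (plR e he ρ') T :=
  fun m v => hT (levT F e (he_iff e he) m) v

theorem plR_sm (ρ : Representation ℂ (lev F c) E) (h : IsSm ρ) : IsSm (plR e he ρ) :=
  (pull_sm _ ρ).2 h

theorem plR_irr (ρ : Representation ℂ (lev F c) E) (h : Irr ρ) : Irr (plR e he ρ) :=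
  (pull_irr _ ρ).2 h

theorem plR_cusp (ρ : Representation ℂ (lev F c) E) (h : Cusp c ρ) :
    Cusp (PC.D4.blk n d) (plR e he ρ) := (cusp_T e (he_iff e he) ρ).2 h

theorem pl_nIso (ρ : Representation ℂ (lev F c) V) (hi : Irr ρ) (hno : NoIso c ρ)
    (h1 : 1 ≤ d) (hd : d ≤ n) (hn : n = d + d) : PC.D4.NIso hd (plR e he ρ) := by
  intro T hT
  by_contra hT0
  let W : Equiv.Perm κ := e.symm.trans ((PC.D4.wsw n d hd).trans e)
  have hWe : ∀ i, W (e i) = e (PC.D4.wsw n d hd i) := fun i => by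
    show e (PC.D4.wsw n d hd (e.symm (e i))) = _
    rw [e.symm_apply_apply]
  have hW : ∀ i, c (W i) = sb (c i) := by
    intro i
    obtain ⟨i, rfl⟩ := e.surjective i
    rw [hWe, he, he]
    subst hn
    simp only [PC.D4.wsw, PC.D4.blk, Equiv.coe_fn_mk, Nat.add_sub_cancel]
    by_cases hi : i.1 < d
    · simp [hi]
    · have h3 : i.1 - d < d := by omega
      simp [hi, h3]
  have hc1 : ∀ m : lev F (PC.D4.blk n d), ∃ m' : lev F (PC.D4.blk n d),
      m'.1 = permG F (PC.D4.wsw n d hd) * m.1 * (permG F (PC.D4.wsw n d hd))⁻¹ ∧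
      levT F e (he_iff e he) m' = cjH c W (hl_sb c W hW) (levT F e (he_iff e he) m) := by
    intro m
    refine ⟨⟨_, permG_conj_mem _ _ (PC.D4.wsw n d hd) (PC.D4.wsw_swap hd hn h1).hc m.1 m.2⟩, rfl,
      ?_⟩
    apply Subtype.ext
    apply Units.ext
    ext i j
    obtain ⟨i, rfl⟩ := e.surjective i
    obtain ⟨j, rfl⟩ := e.surjective j
    obtain ⟨i, rfl⟩ := (PC.D4.wsw n d hd).surjective i
    obtain ⟨j, rfl⟩ := (PC.D4.wsw n d hd).surjective j
    rw [levT_val, glT_apply, permG_conj, ← hWe, ← hWe]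
    show _ = ((permG F W * (levT F e (he_iff e he) m).1 * (permG F W)⁻¹ : GL κ F) :
      Matrix κ κ F) (W (e i)) (W (e j))
    rw [permG_conj, levT_val, glT_apply]
  have hT' : ∀ (m : lev F c) (v : V), T (ρ m v) = ρ (cjH c W (hl_sb c W hW) m) (T v) := by
    intro m v
    obtain ⟨m, rfl⟩ := (levT F e (he_iff e he)).surjective m
    obtain ⟨m', h3, h4⟩ := hc1 m
    rw [← h4]
    exact hT m m' h3 v
  have hsurj : ∀ m : lev F c, ∃ m₀, cjH c W (hl_sb c W hW) m₀ = m := by
    intro m
    have hl' : ∀ i j, c (W.symm i) = c (W.symm j) ↔ c i = c j := by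
      intro i j
      have h5 := hl_sb c W hW (W.symm i) (W.symm j)
      rw [W.apply_symm_apply, W.apply_symm_apply] at h5
      exact h5.symm
    refine ⟨⟨_, permG_conj_mem c c W.symm hl' m.1 m.2⟩, Subtype.ext ?_⟩
    show permG F W * (permG F W.symm * m.1 * (permG F W.symm)⁻¹) * (permG F W)⁻¹ = m.1
    have h6 : permG F W * permG F W.symm = 1 := by
      rw [← permG_mul]
      have h7 : W * W.symm = 1 := mul_inv_cancel W
      rw [h7, permG_one]
    have h8 : permG F W.symm = (permG F W)⁻¹ := eq_inv_of_mul_eq_one_right h6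
    rw [h8]
    group
  have hker : LinearMap.ker T = ⊥ := by
    rcases hi.2 (LinearMap.ker T) (by
      intro m v hv
      rw [LinearMap.mem_ker] at hv ⊢
      rw [hT', hv, map_zero]) with h | h
    · exact h
    · exact absurd (LinearMap.ker_eq_top.1 h) hT0
  have hran : LinearMap.range T = ⊤ := by
    rcases hi.2 (LinearMap.range T) (by
      rintro m _ ⟨v, rfl⟩
      obtain ⟨m₀, rfl⟩ := hsurj m
      exact ⟨ρ m₀ v, hT' m₀ v⟩) with h | h
    · exact absurd (LinearMap.range_eq_bot.1 h) hT0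
    · exact h
  let A : V ≃ₗ[ℂ] V := (LinearEquiv.ofBijective T
    ⟨LinearMap.ker_eq_bot.1 hker, LinearMap.range_eq_top.1 hran⟩).symm
  have hA : ∀ v, A (T v) = v := fun v => (LinearEquiv.ofBijective T
    ⟨LinearMap.ker_eq_bot.1 hker, LinearMap.range_eq_top.1 hran⟩).symm_apply_apply v
  refine hno W hW A ?_
  intro m u
  obtain ⟨v, rfl⟩ := LinearMap.range_eq_top.1 hran u
  show A (ρ (cjH c W (hl_sb c W hW) m) (T v)) = ρ m (A (T v))
  rw [← hT', hA, hA]

variable {ι' : Type} {β : Bool → ι'} (hβ : ∀ x y : Bool, β x = β y)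

/-- the isomorphism of the big groups -/
def gT : lev F (PC.D4.one n) ≃ₜ* lev F (fun i => β (c i)) :=
  levT F e (fun i j => ⟨fun _ => rfl, fun _ => hβ (c (e i)) (c (e j))⟩)

theorem gT_val (g : lev F (PC.D4.one n)) : (gT e (c := c) hβ g).1 = glT F e g.1 := rfl

include hβ he in
theorem dh_dlh (s : Bool) (m : lev F (PC.D4.blk n d)) :
    dh c β (tS s) (levT F e (he_iff e he) m) =
      dlh (PC.D4.blk n d) (PC.D4.one n) (PC.D4.odS n d s) (PC.D4.blkS_iff n d s) m := by
  have h1 := dlh_eq_dh c β (tS s) (tS_inj s) (levT F e (he_iff e he) m)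
  apply Units.ext
  rw [← h1, dlh_T e (PC.D4.blk n d) (PC.D4.one n) (PC.D4.odS n d s) (PC.D4.blkS_iff n d s) c
    (fun i => β (c i)) (fun i => tS s (c i)) (ordD_cond c β (tS s) (tS_inj s)) (he_iff e he)
    (fun i j => ⟨fun _ => rfl, fun _ => hβ (c (e i)) (c (e j))⟩) (fun i => by rw [he, tS_od]) m]

/-- transport of the induced representation -/
theorem trX_ex (τ : Bool → ℤ) (hτ : Function.Injective τ) (s : Bool)
    (hs : ∀ x y, τ x < τ y ↔ tS s x < tS s y) (σ : Representation ℂ (lev F c) E) :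
    ∃ Θ : ISp c β τ hτ σ ≃ₗ[ℂ] PC.D4.XnS s (plR e he σ),
      (∀ f g, (Θ f).1 g = f.1 (gT e (c := c) hβ g)) ∧
      ∀ (g : lev F (PC.D4.one n)) (f : ISp c β τ hτ σ),
        Θ (IRp c β τ hτ σ (gT e hβ g) f) = PC.D4.InS s (plR e he σ) g (Θ f) := by
  obtain ⟨Θ₁, h1, h2⟩ := indT e (PC.D4.blk n d) (PC.D4.one n) (PC.D4.odS n d s)
    (PC.D4.blkS_iff n d s) c (fun i => β (c i)) (fun i => tS s (c i))
    (ordD_cond c β (tS s) (tS_inj s)) (he_iff e he)
    (fun i j => ⟨fun _ => rfl, fun _ => hβ (c (e i)) (c (e j))⟩) (fun i => by rw [he, tS_od])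
    (twist (dh c β (tS s)) σ)
  have h3 : pull (levT F e (he_iff e he)) (twist (dh c β (tS s)) σ) =
      PC.D4.nsg s (plR e he σ) := by
    apply MonoidHom.ext
    intro m
    show (dh c β (tS s) (levT F e (he_iff e he) m) : ℂ) • σ (levT F e (he_iff e he) m) =
      (dlh (PC.D4.blk n d) (PC.D4.one n) (PC.D4.odS n d s) (PC.D4.blkS_iff n d s) m : ℂ) •
        σ (levT F e (he_iff e he) m)
    rw [dh_dlh e he hβ]
  have hcg := ISp_congr c β τ (tS s) hτ (tS_inj s) (fun x y _ => hs x y) σ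
  revert Θ₁ h1 h2
  rw [h3]
  intro Θ₁ h1 h2
  refine ⟨(LinearEquiv.ofEq _ _ hcg).trans Θ₁, fun f g => ?_, fun g f => ?_⟩
  · exact h1 _ g
  · exact h2 g (LinearEquiv.ofEq _ _ hcg f)

end

end

end Pool.Agent.Lib.MP_ca1492_al.D5
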