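import Mathlib
import Pool.Agent.Lib.MP_ca1492_al.D4.Dbl
import Pool.Agent.Lib.MP_ca1492_al.D5.TwoN
import Pool.Agent.Lib.MP_ca1492_al.D5.TwoQ

/-!
# MP_ca1492_al, D5, module TwoJ: the self-extension `dbl 1 ρ` inside `hat ρ`

`qJ (v, w) = v ⊗ 1 + w ⊗ (u_true - u_false)` is an equivariant embedding of `dbl 1 (plR ρ)` into `plR (hat c ρ)`; it
induces an embedding `J` of `XnS s (dbl 1 (plR ρ))` into `I_τ(hat ρ)`, whose image is the set of all `f` with
`opI (X false + X true) f = 0` and `opI (dd ^ 2) f = 0`.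

* `qJ_inj`: coefficients of `1` and of `u_true`. `qJ_equi`: `shiftP v (u_true - u_false) = u_true - u_false + (v true - v false)`
  (`PolInj2_shift_mul`, `PolInj2_shift_C`, see `shiftP_sumX` in `D5/Nop.lean`), `vl_T` (`P/LevT.lean`).
* `qJ_dd`: `psEnd dd` is `∂_false - ∂_true` (see `IsoPs_X`, `psEnd_mulX`, `pderiv` of `dd`).
* `qJ_range`: a polynomial `p` in `u_false, u_true` with `(∂_false + ∂_true) p = 0` and `(∂_false - ∂_true)^2 p = 0` is
  `a + b (u_true - u_false)`: all second derivatives vanish (`∂_false² + 2 ∂_false ∂_true + ∂_true² = 0` and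
  `(∂_false - ∂_true)² = 0`, `∂_false = -∂_true` on `p`, so `4 ∂_true² p = 0`), so `p` has degree `≤ 1` ...
  Do this for the coefficients in a basis of `V` (`TensorProduct.equivFinsuppOfBasisLeft`, or write
  `z = Σ v_i ⊗ p_i` with independent `v_i`).
* `J_ex`: `J = Θ⁻¹ ∘ mapS s _ _ qJ` with `Θ` of `trX_ex` for `hat c ρ`. For the image: the values of `Θ f` are in the
  range of `qJ` by `qJ_range`; the preimage function is in `XnS` because `qJ` is injective and equivariant.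
* Last statement of `J_ex`: for `f₀` take `F₀ = Θ' f₀`, `Θ'` of `trX_ex` for `ρ`: `J (inlS F₀) = em0 f₀`.


-/

set_option autoImplicit false
set_option linter.unusedSectionVars false

namespace Pool.Agent.Lib.MP_ca1492_al.D5

open Pool.Agent.Lib.MP_ca1492_al.P
open Topology Matrix ValuativeRel TensorProduct

noncomputable section

variable {F : Type} [Field F] [ValuativeRel F] [TopologicalSpace F]
  [IsNonarchimedeanLocalField F]
variable {κ : Type} [Fintype κ] [DecidableEq κ]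
variable {V : Type} [AddCommGroup V] [Module ℂ V]

variable (V) in
/-- `(v, w) ↦ v ⊗ 1 + w ⊗ (u_true - u_false)` -/
def qJ : V × V →ₗ[ℂ] V ⊗[ℂ] MvPolynomial Bool ℂ :=
  tm1 Bool V ∘ₗ LinearMap.fst ℂ V V +
    ((TensorProduct.mk ℂ V (MvPolynomial Bool ℂ)).flip
      (MvPolynomial.X true - MvPolynomial.X false)) ∘ₗ LinearMap.snd ℂ V V

theorem qJ_apply (v w : V) : qJ V (v, w) = v ⊗ₜ[ℂ] (1 : MvPolynomial Bool ℂ) +
    w ⊗ₜ[ℂ] (MvPolynomial.X true - MvPolynomial.X false : MvPolynomial Bool ℂ) := rfl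

theorem TwoJ_one (w : V) : qJ V (w, 0) = w ⊗ₜ[ℂ] (1 : MvPolynomial Bool ℂ) := by
  rw [qJ_apply, TensorProduct.zero_tmul, add_zero]

theorem TwoJ_opX (x : Bool) (v w : V) : opE V (MvPowerSeries.X x) (qJ V (v, w)) =
    (if x = true then (1 : ℂ) else -1) • (w ⊗ₜ[ℂ] (1 : MvPolynomial Bool ℂ)) := by
  rw [qJ_apply, map_add, opE_tmul, opE_tmul, psEnd_X, psEnd_X, MvPolynomial.pderiv_one,
    TensorProduct.tmul_zero, zero_add, map_sub]
  cases x
  · rw [MvPolynomial.pderiv_X_self, MvPolynomial.pderiv_X_of_ne (by decide), zero_sub,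
      TensorProduct.tmul_neg]
    simp
  · rw [MvPolynomial.pderiv_X_self, MvPolynomial.pderiv_X_of_ne (by decide), sub_zero]
    simp

theorem TwoJ_neg (f : MvPowerSeries Bool ℂ) (z : V ⊗[ℂ] MvPolynomial Bool ℂ) :
    opE V (-f) z = -opE V f z := by
  have h := opE_add (V := V) f (-f) z
  rw [add_neg_cancel] at h
  have h0 : opE V (0 : MvPowerSeries Bool ℂ) z = 0 := by
    have h2 := opE_add (V := V) (0 : MvPowerSeries Bool ℂ) 0 z
    rw [add_zero] at h2
    exact left_eq_add.1 h2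
  rw [h0] at h
  exact (neg_eq_of_add_eq_zero_right h.symm).symm

theorem TwoJ_dd (z : V ⊗[ℂ] MvPolynomial Bool ℂ) :
    opE V dd z = opE V (MvPowerSeries.X false) z - opE V (MvPowerSeries.X true) z := by
  unfold dd
  rw [sub_eq_add_neg, opE_add, TwoJ_neg, ← sub_eq_add_neg]

theorem TwoJ_ddq (v w : V) : opE V dd (qJ V (v, w)) = (-2 : ℂ) • qJ V (w, 0) := by
  rw [TwoJ_dd, TwoJ_opX, TwoJ_opX, TwoJ_one, ← sub_smul]
  congr 1
  simp
  norm_num

theorem qJ_inj : Function.Injective (qJ V) := by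
  rw [injective_iff_map_eq_zero]
  rintro ⟨v, w⟩ h
  have h1 := TwoJ_ddq v w
  rw [h, map_zero, TwoJ_one] at h1
  have h2 : w ⊗ₜ[ℂ] (1 : MvPolynomial Bool ℂ) = 0 :=
    (smul_eq_zero.1 h1.symm).resolve_left (by norm_num)
  have hw : w = 0 := tm1_inj (ι := Bool) (by rw [tm1_apply, h2, map_zero])
  subst hw
  rw [TwoJ_one] at h
  have hv : v = 0 := tm1_inj (ι := Bool) (by rw [tm1_apply, h, map_zero])
  subst hv
  rfl

theorem qJ_dd (v w : V) : opE V dd (qJ V (v, w)) = (-2 : ℂ) • qJ V (w, 0) := by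
  exact TwoJ_ddq v w

theorem qJ_range (z : V ⊗[ℂ] MvPolynomial Bool ℂ) :
    (∃ x, qJ V x = z) ↔
      (opE V (MvPowerSeries.X false + MvPowerSeries.X true) z = 0 ∧ opE V (dd ^ 2) z = 0) := by
  constructor
  · rintro ⟨⟨v, w⟩, rfl⟩
    refine ⟨?_, ?_⟩
    · rw [opE_add, TwoJ_opX, TwoJ_opX, ← add_smul]
      simp
    · rw [pow_two, opE_mul, TwoJ_ddq, map_smul, TwoJ_ddq]
      have h0 : ((0 : V), (0 : V)) = 0 := rfl
      rw [h0, map_zero, smul_zero, smul_zero]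
  · rintro ⟨h1, h2⟩
    rw [opE_add] at h1
    rw [pow_two, opE_mul] at h2
    set y := opE V (MvPowerSeries.X true) z with hy
    have h3 : opE V (MvPowerSeries.X false) z = -y := eq_neg_of_add_eq_zero_left h1
    have h4 : opE V dd z = (-2 : ℂ) • y := by
      rw [TwoJ_dd, h3, ← hy]
      module
    have h5 : opE V (MvPowerSeries.X false) y = opE V (MvPowerSeries.X true) y := by
      rw [h4, map_smul, TwoJ_dd] at h2
      exact sub_eq_zero.1 ((smul_eq_zero.1 h2).resolve_left (by norm_num))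
    have h6 : opE V (MvPowerSeries.X false) y = -opE V (MvPowerSeries.X true) y := by
      rw [hy, ← opE_mul, mul_comm, opE_mul, h3, map_neg]
    have h7 : opE V (MvPowerSeries.X true) y = 0 := by
      rw [h5] at h6
      have h8 : (2 : ℂ) • opE V (MvPowerSeries.X true) y = 0 := by
        rw [two_smul]
        nth_rewrite 1 [h6]
        exact neg_add_cancel _
      exact (smul_eq_zero.1 h8).resolve_left (by norm_num)
    obtain ⟨w, hw⟩ := Cof_ker y (by
      intro x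
      cases x
      · rw [h5, h7]
      · exact h7)
    obtain ⟨v, hv⟩ := Cof_ker (z - qJ V (0, w)) (by
      intro x
      rw [map_sub, TwoJ_opX]
      cases x
      · rw [h3, hw]
        simp
      · rw [← hy, hw]
        simp)
    refine ⟨(v, w), ?_⟩
    rw [sub_eq_iff_eq_add] at hv
    rw [hv, ← TwoJ_one, ← map_add]
    simp

section

variable {n d : ℕ} (e : Fin n ≃ κ) {c : κ → Bool} (he : ∀ i, c (e i) = PC.D4.blk n d i)
  (ρ : Representation ℂ (lev F c) V)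

theorem qJ_equi : Equi (PC.D4.dbl 1 (plR e he ρ)) (plR e he (hat c ρ)) (qJ V) := by
  rintro m ⟨v, w⟩
  rw [PC.D4.dbl_apply, plR_apply, plR_apply, plR_apply, qJ_apply, qJ_apply, map_add, hat_tmul,
    hat_tmul]
  have h3 : ∀ x : Bool, shiftP (vl c (levT F e (he_iff e he) m).1) (MvPolynomial.X x) =
      MvPolynomial.X x + MvPolynomial.C (vl (PC.D4.blk n d) m.1 x : ℂ) := by
    intro x
    have h := PolInj2_shift_mul (vl c (levT F e (he_iff e he) m).1) 1 x
    rw [one_mul] at h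
    have h4 := PolInj2_shift_C (vl c (levT F e (he_iff e he) m).1) 1
    rw [map_one] at h4
    rw [h, h4, one_mul, levT_val, vl_T e (PC.D4.blk n d) c he]
  have h4 := PolInj2_shift_C (vl c (levT F e (he_iff e he) m).1) 1
  rw [map_one] at h4
  rw [h4, map_sub, h3, h3]
  have h5 : (MvPolynomial.X true + MvPolynomial.C (vl (PC.D4.blk n d) m.1 true : ℂ) -
      (MvPolynomial.X false + MvPolynomial.C (vl (PC.D4.blk n d) m.1 false : ℂ)) :
        MvPolynomial Bool ℂ) = (MvPolynomial.X true - MvPolynomial.X false) +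
      (PC.D4.lam m : ℂ) • (1 : MvPolynomial Bool ℂ) := by
    unfold PC.D4.lam
    rw [MvPolynomial.smul_eq_C_mul, mul_one, Int.cast_sub, map_sub]
    ring
  rw [h5, TensorProduct.tmul_add, TensorProduct.add_tmul, TensorProduct.tmul_smul, one_mul,
    TensorProduct.smul_tmul']
  abel

theorem TwoJ_mem {W W₂ : Type} [AddCommGroup W] [Module ℂ W] [AddCommGroup W₂] [Module ℂ W₂]
    (s : Bool) (σ : Representation ℂ (lev F (PC.D4.blk n d)) W)
    (σ₂ : Representation ℂ (lev F (PC.D4.blk n d)) W₂) (T : W →ₗ[ℂ] W₂) (hT : Equi σ σ₂ T)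
    (hTi : Function.Injective T) (f : PC.D4.XnS s σ₂) (G : lev F (PC.D4.one n) → W)
    (hG : ∀ g, T (G g) = f.1 g) : G ∈ PC.D4.XnS s σ := by
  obtain ⟨U, hU, h2⟩ := f.2.2
  refine ⟨fun m hm u hu g => ?_, U, hU, fun g u hu => ?_⟩
  · apply hTi
    have h1 := f.2.1 m hm u hu g
    rw [hG, h1, ← hG]
    show (dlh (PC.D4.blk n d) (PC.D4.one n) (PC.D4.odS n d s) (PC.D4.blkS_iff n d s) ⟨m, hm⟩ : ℂ) •
        σ₂ ⟨m, hm⟩ (T (G g)) =
      T ((dlh (PC.D4.blk n d) (PC.D4.one n) (PC.D4.odS n d s) (PC.D4.blkS_iff n d s) ⟨m, hm⟩ : ℂ) •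
        σ ⟨m, hm⟩ (G g))
    rw [map_smul, hT]
  · apply hTi
    rw [hG, hG, h2 g u hu]

variable {ι' : Type} {β : Bool → ι'} (hβ : ∀ x y : Bool, β x = β y)

/-- the embedding of the self-extension -/
theorem J_ex (τ : Bool → ℤ) (hτ : Function.Injective τ) (s : Bool)
    (hs : ∀ x y, τ x < τ y ↔ tS s x < tS s y) :
    ∃ J : PC.D4.XnS s (PC.D4.dbl 1 (plR e he ρ)) →ₗ[ℂ] ISp c β τ hτ (hat c ρ),
      Function.Injective J ∧
      (∀ (g : lev F (PC.D4.one n)) G, J (PC.D4.InS s (PC.D4.dbl 1 (plR e he ρ)) g G) =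
        IRp c β τ hτ (hat c ρ) (gT e hβ g) (J G)) ∧
      (∀ G, opI c β τ hτ ρ dd (J G) =
        (-2 : ℂ) • J (PC.D4.inlS s 1 (plR e he ρ) (PC.D4.qS s 1 (plR e he ρ) G))) ∧
      (∀ f, (∃ G, J G = f) ↔ opI c β τ hτ ρ (MvPowerSeries.X false + MvPowerSeries.X true) f = 0 ∧
        opI c β τ hτ ρ (dd ^ 2) f = 0) ∧
      ∀ f₀ : ISp c β τ hτ ρ, ∃ G₀ : PC.D4.XnS s (plR e he ρ),
        J (PC.D4.inlS s 1 (plR e he ρ) G₀) = em0 c β τ hτ ρ f₀ := by
  obtain ⟨Θ, hΘ1, hΘ2⟩ := trX_ex e he hβ τ hτ s hs (hat c ρ)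
  obtain ⟨Θ', hΘ'1, -⟩ := trX_ex e he hβ τ hτ s hs ρ
  set M := PC.D4.mapS s (PC.D4.dbl 1 (plR e he ρ)) (plR e he (hat c ρ)) (qJ V)
    (qJ_equi e he ρ) with hM
  have hMa : ∀ G g, (M G).1 g = qJ V (G.1 g) := fun G g => rfl
  have hΘJ : ∀ G, Θ ((Θ.symm.toLinearMap ∘ₗ M) G) = M G := fun G => Θ.apply_symm_apply (M G)
  refine ⟨Θ.symm.toLinearMap ∘ₗ M, ?_, fun g G => ?_, fun G => ?_, fun f => ?_, fun f₀ => ?_⟩
  · refine Θ.symm.injective.comp ?_
    intro G G' h
    refine Subtype.ext (funext fun g => qJ_inj ?_)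
    rw [← hMa, ← hMa, h]
  · apply Θ.injective
    rw [hΘJ, hΘ2, hΘJ]
    exact PC.D4.mapS_equi s (PC.D4.dbl 1 (plR e he ρ)) (plR e he (hat c ρ)) (qJ V)
      (qJ_equi e he ρ) g G
  · apply Θ.injective
    rw [map_smul, hΘJ]
    refine Subtype.ext (funext fun g => ?_)
    rw [hΘ1]
    show opE V dd (((Θ.symm.toLinearMap ∘ₗ M) G).1 (gT e hβ g)) = (-2 : ℂ) • qJ V ((G.1 g).2, 0)
    rw [← hΘ1, hΘJ, hMa]
    exact TwoJ_ddq (G.1 g).1 (G.1 g).2
  · have key : ∀ y : MvPowerSeries Bool ℂ, opI c β τ hτ ρ y f = 0 ↔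
        ∀ g, opE V y ((Θ f).1 g) = 0 := by
      intro y
      constructor
      · intro h g
        rw [hΘ1]
        exact congrFun (congrArg Subtype.val h) (gT e hβ g)
      · intro h
        refine Subtype.ext (funext fun g => ?_)
        obtain ⟨g', rfl⟩ := (gT e (c := c) hβ).surjective g
        have h1 := h g'
        rw [hΘ1] at h1
        exact h1
    rw [key, key]
    constructor
    · rintro ⟨G, rfl⟩
      have h1 : ∀ g, (∃ x, qJ V x = (Θ ((Θ.symm.toLinearMap ∘ₗ M) G)).1 g) := fun g =>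
        ⟨G.1 g, by rw [hΘJ, hMa]⟩
      exact ⟨fun g => ((qJ_range _).1 (h1 g)).1, fun g => ((qJ_range _).1 (h1 g)).2⟩
    · rintro ⟨h1, h2⟩
      choose G hG using fun g => (qJ_range ((Θ f).1 g)).2 ⟨h1 g, h2 g⟩
      refine ⟨⟨G, TwoJ_mem s _ _ (qJ V) (qJ_equi e he ρ) qJ_inj (Θ f) G hG⟩, ?_⟩
      apply Θ.injective
      rw [hΘJ]
      exact Subtype.ext (funext fun g => hG g)
  · refine ⟨Θ' f₀, ?_⟩
    apply Θ.injective
    rw [hΘJ]
    refine Subtype.ext (funext fun g => ?_)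
    rw [hΘ1, em0_val, ← hΘ'1]
    exact TwoJ_one ((Θ' f₀).1 g)

end

end

end Pool.Agent.Lib.MP_ca1492_al.D5
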