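import Mathlib
import Pool.Agent.Lib.MP_ca1492_al.D5.TwoJ

/-!
# MP_ca1492_al, D5, module TwoR: two strands, translation of the theorems of the folder `D4`

The theorems on `XnS s ρ` (folder `D4`) are hypotheses here: `HypIrr`, `HypIb`.

* `tw_irr`: `exists_e`, `tS_sg` (for `τ₁`, and `tS_not` with `H.opp` for `τ₂`), `trX_ex` for `ρ` and both orders: the
  transported map `XnS s (plR ρ) → XnS (!s) (plR ρ)` is equivariant and injective; `plR_sm`, `plR_irr`, `plR_cusp`,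
  `pl_nIso`. Irreducibility is transported back by `Θ` and `gT` (`pull_irr`, or directly: a stable subspace of
  `ISp` has a stable image).
* `tw_ib`: suppose `C = dd ^ 2 * C₂`. `J₁`, `J₂` of `J_ex` for `τ₁`, `τ₂`. `Φ` commutes with `opI`, so it maps the image of `J₁`
  into the image of `J₂`; `A G` = the unique `G'` with `J₂ G' = Φ (J₁ G)`, linear and equivariant; the same for `Φ'`
  and `B`. `A (inlS (qS G)) = inlS (qS (A G))` by the third property of `J` and `Φ ∘ opI dd = opI dd ∘ Φ`.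
  `A ∘ inlS ∘ qS ≠ 0`: `lead0` gives `f₀ : ISp τ₁ ρ` with `Φ (em0 f₀) ≠ 0`; `em0 f₀ = J₁ (inlS G₀)` and `G₀ = qS G` (`qS_surj`).
  `B (A G) = 0`: `J₁ (B (A G)) = Φ' (Φ (J₁ G)) = opI C (J₁ G) = opI C₂ (opI (dd ^ 2) (J₁ G)) = 0`. The same for `A B`.
-/

set_option autoImplicit false
set_option linter.unusedSectionVars false

namespace Pool.Agent.Lib.MP_ca1492_al.D5

open Pool.Agent.Lib.MP_ca1492_al.P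
open Topology Matrix ValuativeRel TensorProduct

noncomputable section

variable (F : Type) [Field F] [ValuativeRel F] [TopologicalSpace F]
  [IsNonarchimedeanLocalField F]

/-- irreducibility from an injective operator (folder `D4`) -/
def HypIrr : Prop :=
  ∀ (n d : ℕ) (_ : 1 ≤ d) (hd : d < n) (s : Bool) (W : Type) (_ : AddCommGroup W)
    (_ : Module ℂ W) (ρ : Representation ℂ (lev F (PC.D4.blk n d)) W)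
    (_ : IsSm ρ) (_ : Irr ρ) (_ : Cusp (PC.D4.blk n d) ρ)
    (_ : n = d + d → PC.D4.NIso hd.le ρ)
    (A : PC.D4.XnS s ρ →ₗ[ℂ] PC.D4.XnS (!s) ρ)
    (_ : Equi (PC.D4.InS s ρ) (PC.D4.InS (!s) ρ) A) (_ : Function.Injective A),
    Irr (PC.D4.InS s ρ)

/-- the theorem on the self-extension (folder `D4`) -/
def HypIb : Prop :=
  ∀ (n d : ℕ) (_ : 1 ≤ d) (hd : d < n) (s : Bool) (W : Type) (_ : AddCommGroup W)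
    (_ : Module ℂ W) (ρ : Representation ℂ (lev F (PC.D4.blk n d)) W)
    (_ : IsSm ρ) (_ : Irr ρ) (_ : Cusp (PC.D4.blk n d) ρ)
    (_ : n = d + d → PC.D4.NIso hd.le ρ)
    (A : PC.D4.XnS s (PC.D4.dbl 1 ρ) →ₗ[ℂ] PC.D4.XnS (!s) (PC.D4.dbl 1 ρ))
    (_ : Equi (PC.D4.InS s (PC.D4.dbl 1 ρ)) (PC.D4.InS (!s) (PC.D4.dbl 1 ρ)) A)
    (B : PC.D4.XnS (!s) (PC.D4.dbl 1 ρ) →ₗ[ℂ] PC.D4.XnS s (PC.D4.dbl 1 ρ))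
    (_ : Equi (PC.D4.InS (!s) (PC.D4.dbl 1 ρ)) (PC.D4.InS s (PC.D4.dbl 1 ρ)) B)
    (_ : ∀ G, A (PC.D4.inlS s 1 ρ (PC.D4.qS s 1 ρ G)) =
      PC.D4.inlS (!s) 1 ρ (PC.D4.qS (!s) 1 ρ (A G)))
    (_ : ∀ G, B (PC.D4.inlS (!s) 1 ρ (PC.D4.qS (!s) 1 ρ G)) =
      PC.D4.inlS s 1 ρ (PC.D4.qS s 1 ρ (B G)))
    (_ : ∃ G, A (PC.D4.inlS s 1 ρ (PC.D4.qS s 1 ρ G)) ≠ 0)
    (_ : ∃ G, B (PC.D4.inlS (!s) 1 ρ (PC.D4.qS (!s) 1 ρ G)) ≠ 0),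
    ¬ ((∀ G, A (B G) = 0) ∧ ∀ G, B (A G) = 0)

variable {F}
variable {κ : Type} [Fintype κ] [DecidableEq κ]
variable {V : Type} [AddCommGroup V] [Module ℂ V]

/-- irreducibility is transported back by an isomorphism -/
theorem TwoR_irr {G G' V₁ V₂ : Type} [Group G] [Group G'] [AddCommGroup V₁] [Module ℂ V₁]
    [AddCommGroup V₂] [Module ℂ V₂] (π₁ : Representation ℂ G' V₁) (π₂ : Representation ℂ G V₂)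
    (Θ : V₁ ≃ₗ[ℂ] V₂) (φ : G → G') (h : ∀ g v, Θ (π₁ (φ g) v) = π₂ g (Θ v)) (h2 : Irr π₂) :
    Irr π₁ := by
  refine ⟨?_, fun U hU => ?_⟩
  · obtain ⟨v, hv⟩ := h2.1
    exact ⟨Θ.symm v, fun h0 => hv (by rw [← Θ.apply_symm_apply v, h0, map_zero])⟩
  · rcases h2.2 (U.map Θ.toLinearMap) (by
      rintro g _ ⟨v, hv, rfl⟩
      exact ⟨π₁ (φ g) v, hU (φ g) v hv, h g v⟩) with h3 | h3
    · left
      rw [Submodule.map_eq_bot_iff] at h3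
      exact h3
    · right
      rw [eq_top_iff]
      intro v _
      have h4 : Θ v ∈ U.map Θ.toLinearMap := by
        rw [h3]
        exact Submodule.mem_top
      obtain ⟨w, hw, hwv⟩ := h4
      have h5 : w = v := Θ.injective hwv
      exact h5 ▸ hw

/-- lifting through injective maps -/
theorem TwoR_lift {X₁ X₂ Y₁ Y₂ : Type} [AddCommGroup X₁] [Module ℂ X₁] [AddCommGroup X₂]
    [Module ℂ X₂] [AddCommGroup Y₁] [Module ℂ Y₁] [AddCommGroup Y₂] [Module ℂ Y₂]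
    (J₁ : X₁ →ₗ[ℂ] Y₁) (J₂ : X₂ →ₗ[ℂ] Y₂) (hJ₂ : Function.Injective J₂) (Φ : Y₁ →ₗ[ℂ] Y₂)
    (h : ∀ G, ∃ G', J₂ G' = Φ (J₁ G)) : ∃ A : X₁ →ₗ[ℂ] X₂, ∀ G, J₂ (A G) = Φ (J₁ G) := by
  choose A hA using h
  exact ⟨{ toFun := A
           map_add' := fun x y => hJ₂ (by rw [hA, map_add, map_add, map_add, hA, hA])
           map_smul' := fun z x => hJ₂ (by
            rw [hA, RingHom.id_apply, map_smul, map_smul, map_smul, hA]) }, hA⟩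

section half

variable {ι' : Type} {β : Bool → ι'} {c : κ → Bool}

theorem TwoR_half (ρ : Representation ℂ (lev F c) V) (hρ : IsSm ρ) (v : V) (hv : v ≠ 0)
    {n d : ℕ} (e : Fin n ≃ κ) (he : ∀ i, c (e i) = PC.D4.blk n d i)
    (hβ : ∀ x y : Bool, β x = β y) (τ₁ τ₂ : Bool → ℤ) (h₁ : Function.Injective τ₁)
    (h₂ : Function.Injective τ₂) (s s' : Bool)
    (J₁ : PC.D4.XnS s (PC.D4.dbl 1 (plR e he ρ)) →ₗ[ℂ] ISp c β τ₁ h₁ (hat c ρ))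
    (J₂ : PC.D4.XnS s' (PC.D4.dbl 1 (plR e he ρ)) →ₗ[ℂ] ISp c β τ₂ h₂ (hat c ρ))
    (j2 : Function.Injective J₂)
    (e1 : ∀ (g : lev F (PC.D4.one n)) G, J₁ (PC.D4.InS s (PC.D4.dbl 1 (plR e he ρ)) g G) =
        IRp c β τ₁ h₁ (hat c ρ) (gT e hβ g) (J₁ G))
    (e2 : ∀ (g : lev F (PC.D4.one n)) G, J₂ (PC.D4.InS s' (PC.D4.dbl 1 (plR e he ρ)) g G) =
        IRp c β τ₂ h₂ (hat c ρ) (gT e hβ g) (J₂ G))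
    (d1 : ∀ G, opI c β τ₁ h₁ ρ dd (J₁ G) =
        (-2 : ℂ) • J₁ (PC.D4.inlS s 1 (plR e he ρ) (PC.D4.qS s 1 (plR e he ρ) G)))
    (d2 : ∀ G, opI c β τ₂ h₂ ρ dd (J₂ G) =
        (-2 : ℂ) • J₂ (PC.D4.inlS s' 1 (plR e he ρ) (PC.D4.qS s' 1 (plR e he ρ) G)))
    (r1 : ∀ G, opI c β τ₁ h₁ ρ (MvPowerSeries.X false + MvPowerSeries.X true) (J₁ G) = 0 ∧
        opI c β τ₁ h₁ ρ (dd ^ 2) (J₁ G) = 0)
    (r2 : ∀ f, opI c β τ₂ h₂ ρ (MvPowerSeries.X false + MvPowerSeries.X true) f = 0 →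
        opI c β τ₂ h₂ ρ (dd ^ 2) f = 0 → ∃ G, J₂ G = f)
    (m1 : ∀ f₀ : ISp c β τ₁ h₁ ρ, ∃ G₀ : PC.D4.XnS s (plR e he ρ),
        J₁ (PC.D4.inlS s 1 (plR e he ρ) G₀) = em0 c β τ₁ h₁ ρ f₀)
    (Φ : ISp c β τ₁ h₁ (hat c ρ) →ₗ[ℂ] ISp c β τ₂ h₂ (hat c ρ))
    (hΦ : Φ ∈ XI c β τ₁ h₁ τ₂ h₂ ρ) (ℓ : MvPowerSeries Bool ℂ)
    (hℓ : LeadI c β τ₁ h₁ τ₂ h₂ ρ Φ ℓ) (h0 : MvPowerSeries.constantCoeff ℓ ≠ 0) :
    ∃ A : PC.D4.XnS s (PC.D4.dbl 1 (plR e he ρ)) →ₗ[ℂ]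
        PC.D4.XnS s' (PC.D4.dbl 1 (plR e he ρ)),
      Equi (PC.D4.InS s (PC.D4.dbl 1 (plR e he ρ))) (PC.D4.InS s' (PC.D4.dbl 1 (plR e he ρ))) A ∧
      (∀ G, A (PC.D4.inlS s 1 (plR e he ρ) (PC.D4.qS s 1 (plR e he ρ) G)) =
        PC.D4.inlS s' 1 (plR e he ρ) (PC.D4.qS s' 1 (plR e he ρ) (A G))) ∧
      (∃ G, A (PC.D4.inlS s 1 (plR e he ρ) (PC.D4.qS s 1 (plR e he ρ) G)) ≠ 0) ∧
      ∀ G, J₂ (A G) = Φ (J₁ G) := by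
  obtain ⟨A, hA⟩ := TwoR_lift J₁ J₂ j2 Φ (fun G => r2 _
    (by rw [← hΦ.2, (r1 G).1, map_zero]) (by rw [← hΦ.2, (r1 G).2, map_zero]))
  refine ⟨A, fun g G => j2 ?_, fun G => j2 ?_, ?_, hA⟩
  · rw [hA, e1, hΦ.1, e2, hA]
  · have h3 : (-2 : ℂ) • J₂ (A (PC.D4.inlS s 1 (plR e he ρ) (PC.D4.qS s 1 (plR e he ρ) G))) =
        (-2 : ℂ) • J₂ (PC.D4.inlS s' 1 (plR e he ρ) (PC.D4.qS s' 1 (plR e he ρ) (A G))) := by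
      rw [hA, ← map_smul, ← d1, hΦ.2, ← hA, d2]
    exact smul_right_injective _ (by norm_num : (-2 : ℂ) ≠ 0) h3
  · obtain ⟨f₀, hf₀⟩ := lead0 c β τ₁ τ₂ h₁ h₂ ρ hρ Φ ℓ hℓ h0 v hv
    obtain ⟨G₀, hG₀⟩ := m1 f₀
    obtain ⟨G, rfl⟩ := PC.D4.qS_surj s 1 (plR e he ρ) (plR_sm e he ρ hρ) G₀
    refine ⟨G, fun h => hf₀ ?_⟩
    rw [← hG₀, ← hA, h, map_zero]

end half

variable {ι' : Type} {β : Bool → ι'} {τ₁ τ₂ : Bool → ℤ}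
variable (H : Opp2 β τ₁ τ₂) {c : κ → Bool} {ρ : Representation ℂ (lev F c) V}
  (hcs : Function.Surjective c) (hρ : IsSm ρ) (hi : Irr ρ) (hc : Cusp c ρ)

include hcs hρ hi hc

theorem tw_irr (hyp : HypIrr F) (hno : NoIso c ρ)
    (A : ISp c β τ₁ H.h₁ ρ →ₗ[ℂ] ISp c β τ₂ H.h₂ ρ)
    (hA : Equi (IRp c β τ₁ H.h₁ ρ) (IRp c β τ₂ H.h₂ ρ) A) (hinj : Function.Injective A) :
    Irr (IRp c β τ₁ H.h₁ ρ) := by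
  obtain ⟨n, d, h1, hd, e, he⟩ := exists_e c hcs
  obtain ⟨s, hs⟩ := tS_sg τ₁ H.h₁
  have hs₂ : ∀ x y, τ₂ x < τ₂ y ↔ tS (!s) x < tS (!s) y := fun x y =>
    ((H.opp y x).symm.trans (hs y x)).trans (tS_not s y x)
  obtain ⟨Θ₁, -, hΘ₁⟩ := trX_ex e he H.beta τ₁ H.h₁ s hs ρ
  obtain ⟨Θ₂, -, hΘ₂⟩ := trX_ex e he H.beta τ₂ H.h₂ (!s) hs₂ ρ
  have h3 := hyp n d h1 hd s V _ _ (plR e he ρ) (plR_sm e he ρ hρ) (plR_irr e he ρ hi)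
    (plR_cusp e he ρ hc) (fun hn => pl_nIso e he ρ hi hno h1 hd.le hn)
    (Θ₂.toLinearMap ∘ₗ A ∘ₗ Θ₁.symm.toLinearMap) (by
      intro g G
      obtain ⟨f, rfl⟩ := Θ₁.surjective G
      show Θ₂ (A (Θ₁.symm (PC.D4.InS s (plR e he ρ) g (Θ₁ f)))) =
        PC.D4.InS (!s) (plR e he ρ) g (Θ₂ (A (Θ₁.symm (Θ₁ f))))
      rw [← hΘ₁, Θ₁.symm_apply_apply, Θ₁.symm_apply_apply, hA, hΘ₂])
    (fun x y hxy => Θ₁.symm.injective (hinj (Θ₂.injective hxy)))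
  exact TwoR_irr _ _ Θ₁ (gT e H.beta) hΘ₁ h3

theorem tw_ib (hyp : HypIb F) (hno : NoIso c ρ)
    (Φ : ISp c β τ₁ H.h₁ (hat c ρ) →ₗ[ℂ] ISp c β τ₂ H.h₂ (hat c ρ))
    (hΦ : Φ ∈ XI c β τ₁ H.h₁ τ₂ H.h₂ ρ)
    (Φ' : ISp c β τ₂ H.h₂ (hat c ρ) →ₗ[ℂ] ISp c β τ₁ H.h₁ (hat c ρ))
    (hΦ' : Φ' ∈ XI c β τ₂ H.h₂ τ₁ H.h₁ ρ) (ℓ ℓ' : MvPowerSeries Bool ℂ)
    (hℓ : LeadI c β τ₁ H.h₁ τ₂ H.h₂ ρ Φ ℓ) (h0 : MvPowerSeries.constantCoeff ℓ ≠ 0)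
    (hℓ' : LeadI c β τ₂ H.h₂ τ₁ H.h₁ ρ Φ' ℓ') (h0' : MvPowerSeries.constantCoeff ℓ' ≠ 0)
    (C : MvPowerSeries Bool ℂ) (hC : ∀ f, Φ' (Φ f) = opI c β τ₁ H.h₁ ρ C f)
    (hC' : ∀ f, Φ (Φ' f) = opI c β τ₂ H.h₂ ρ C f) : ¬ dd ^ 2 ∣ C := by
  rintro ⟨C₂, hC₂⟩
  obtain ⟨n, d, h1, hd, e, he⟩ := exists_e c hcs
  obtain ⟨s, hs⟩ := tS_sg τ₁ H.h₁
  have hs₂ : ∀ x y, τ₂ x < τ₂ y ↔ tS (!s) x < tS (!s) y := fun x y =>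
    ((H.opp y x).symm.trans (hs y x)).trans (tS_not s y x)
  obtain ⟨J₁, j1, e1, d1, r1, m1⟩ := J_ex e he ρ H.beta τ₁ H.h₁ s hs
  obtain ⟨J₂, j2, e2, d2, r2, m2⟩ := J_ex e he ρ H.beta τ₂ H.h₂ (!s) hs₂
  obtain ⟨v, hv⟩ := hi.1
  obtain ⟨A, a1, a2, a3, a4⟩ := TwoR_half ρ hρ v hv e he H.beta τ₁ τ₂ H.h₁ H.h₂ s (!s) J₁ J₂ j2
    e1 e2 d1 d2 (fun G => (r1 _).1 ⟨G, rfl⟩) (fun f h5 h6 => (r2 f).2 ⟨h5, h6⟩) m1 Φ hΦ ℓ hℓ h0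
  obtain ⟨B, b1, b2, b3, b4⟩ := TwoR_half ρ hρ v hv e he H.beta τ₂ τ₁ H.h₂ H.h₁ (!s) s J₂ J₁ j1
    e2 e1 d2 d1 (fun G => (r2 _).1 ⟨G, rfl⟩) (fun f h5 h6 => (r1 f).2 ⟨h5, h6⟩) m2 Φ' hΦ' ℓ' hℓ'
    h0'
  refine hyp n d h1 hd s V _ _ (plR e he ρ) (plR_sm e he ρ hρ) (plR_irr e he ρ hi)
    (plR_cusp e he ρ hc) (fun hn => pl_nIso e he ρ hi hno h1 hd.le hn) A a1 B b1 a2 b2 a3 b3
    ⟨fun G => j2 ?_, fun G => j1 ?_⟩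
  · rw [a4, b4, hC', hC₂, mul_comm, opI_mul, ((r2 _).1 ⟨G, rfl⟩).2, map_zero, map_zero]
  · rw [b4, a4, hC, hC₂, mul_comm, opI_mul, ((r1 _).1 ⟨G, rfl⟩).2, map_zero, map_zero]

end

end Pool.Agent.Lib.MP_ca1492_al.D5
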