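import Mathlib
import Pool.Agent.Lib.MP_ca1492_al.D5.TwoN

/-!
# MP_ca1492_al, D5, module TwoX: operators in both directions

General facts on `Φ ∈ XI τ₁ τ₂` and `Φ' ∈ XI τ₂ τ₁` (any number of strands).

* `comp_op`: `Φ' ∘ Φ = opI C` (`XI_comp`, `XI_self`) and `Φ ∘ Φ' = opI C'`; `Φ ∘ opI C = Φ ∘ Φ' ∘ Φ = opI C' ∘ Φ` and
  `Φ ∘ opI C = opI C ∘ Φ`, so `opI (C - C') ∘ Φ = 0`, which has leading coefficient `(C - C') * ℓ` (`LeadI_op`), and `0`;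
  `lead_unique`, `ℓ ≠ 0`.
* `comp_sder`: `opI C (Nop f) = Φ' (Φ (Nop f)) = Nop (opI C f)` (`XI_Nop`), `sder_of_Nop`.
* `LeadI_comp_op`: `opI y ∘ Φ ∈ XI` (`Φ ∈ XI`): `opI_equi`, `opI_mul`, `mul_comm`.
* `irr_inj`: `ker Φ₀` is stable. `irr_of_zero`: if `Φ₀' ∘ Φ₀ = 0`, `Φ₀ ∘ Φ₀' = 0` and both are nonzero then neither
  representation is irreducible: if `Irr π₁` then `Φ₀` is injective, and `Φ₀ ∘ Φ₀' = 0` gives `Φ₀' = 0`; the same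
  for `π₂`.
-/

set_option autoImplicit false
set_option linter.unusedSectionVars false

namespace Pool.Agent.Lib.MP_ca1492_al.D5

open Pool.Agent.Lib.MP_ca1492_al.P
open Topology Matrix ValuativeRel TensorProduct

noncomputable section

variable {F : Type} [Field F] [ValuativeRel F] [TopologicalSpace F]
  [IsNonarchimedeanLocalField F]
variable {κ : Type} [Fintype κ] [DecidableEq κ]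
variable {V : Type} [AddCommGroup V] [Module ℂ V]

section

variable {ι ι' : Type} [Fintype ι] [DecidableEq ι]
variable (c : κ → ι) (β : ι → ι') (τ₁ τ₂ : ι → ℤ)
  (hτ₁ : Function.Injective τ₁) (hτ₂ : Function.Injective τ₂)
  (ρ : Representation ℂ (lev F c) V)

theorem XI_op (Φ : ISp c β τ₁ hτ₁ (hat c ρ) →ₗ[ℂ] ISp c β τ₂ hτ₂ (hat c ρ))
    (hΦ : Φ ∈ XI c β τ₁ hτ₁ τ₂ hτ₂ ρ) (y : MvPowerSeries ι ℂ) :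
    opI c β τ₂ hτ₂ ρ y ∘ₗ Φ ∈ XI c β τ₁ hτ₁ τ₂ hτ₂ ρ := by
  refine ⟨fun g f => ?_, fun y' f => ?_⟩
  · rw [LinearMap.comp_apply, hΦ.1 g f, opI_equi c β τ₂ hτ₂ ρ y g]
    rfl
  · rw [LinearMap.comp_apply, LinearMap.comp_apply, hΦ.2 y' f, ← opI_mul, ← opI_mul, mul_comm]

variable (hcs : Function.Surjective c) (hρ : IsSm ρ) (hi : Irr ρ) (hc : Cusp c ρ)

include hcs hρ hi hc

theorem comp_op (Φ : ISp c β τ₁ hτ₁ (hat c ρ) →ₗ[ℂ] ISp c β τ₂ hτ₂ (hat c ρ))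
    (hΦ : Φ ∈ XI c β τ₁ hτ₁ τ₂ hτ₂ ρ)
    (Φ' : ISp c β τ₂ hτ₂ (hat c ρ) →ₗ[ℂ] ISp c β τ₁ hτ₁ (hat c ρ))
    (hΦ' : Φ' ∈ XI c β τ₂ hτ₂ τ₁ hτ₁ ρ) (ℓ : MvPowerSeries ι ℂ)
    (hℓ : LeadI c β τ₁ hτ₁ τ₂ hτ₂ ρ Φ ℓ) (h0 : ℓ ≠ 0) :
    ∃ C : MvPowerSeries ι ℂ, (∀ f, Φ' (Φ f) = opI c β τ₁ hτ₁ ρ C f) ∧
      ∀ f, Φ (Φ' f) = opI c β τ₂ hτ₂ ρ C f := by
  obtain ⟨C, hC⟩ := XI_self c hcs β τ₁ hτ₁ ρ hρ hi hc (Φ' ∘ₗ Φ)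
    (XI_comp c β τ₁ τ₂ τ₁ hτ₁ hτ₂ hτ₁ ρ Φ Φ' hΦ hΦ')
  obtain ⟨C', hC'⟩ := XI_self c hcs β τ₂ hτ₂ ρ hρ hi hc (Φ ∘ₗ Φ')
    (XI_comp c β τ₂ τ₁ τ₂ hτ₂ hτ₁ hτ₂ ρ Φ' Φ hΦ' hΦ)
  have h1 : ∀ f, Φ' (Φ f) = opI c β τ₁ hτ₁ ρ C f := fun f => LinearMap.congr_fun hC f
  have h2 : ∀ f, Φ (Φ' f) = opI c β τ₂ hτ₂ ρ C' f := fun f => LinearMap.congr_fun hC' f
  have h3 : opI c β τ₂ hτ₂ ρ C ∘ₗ Φ = opI c β τ₂ hτ₂ ρ C' ∘ₗ Φ := by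
    refine LinearMap.ext fun f => ?_
    rw [LinearMap.comp_apply, LinearMap.comp_apply, ← h2, h1, hΦ.2]
  have h4 := LeadI_op c β τ₁ τ₂ hτ₁ hτ₂ ρ Φ ℓ C hℓ
  have h5 := LeadI_op c β τ₁ τ₂ hτ₁ hτ₂ ρ Φ ℓ C' hℓ
  rw [h3] at h4
  have h6 : C * ℓ = C' * ℓ := lead_unique c β τ₁ τ₂ hτ₁ ρ hρ hi _ _ _ h4 h5
  have h7 : C = C' := mul_right_cancel₀ h0 h6
  refine ⟨C, h1, fun f => ?_⟩
  rw [h7]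
  exact h2 f

theorem comp_sder (Φ : ISp c β τ₁ hτ₁ (hat c ρ) →ₗ[ℂ] ISp c β τ₂ hτ₂ (hat c ρ))
    (hΦ : Φ ∈ XI c β τ₁ hτ₁ τ₂ hτ₂ ρ)
    (Φ' : ISp c β τ₂ hτ₂ (hat c ρ) →ₗ[ℂ] ISp c β τ₁ hτ₁ (hat c ρ))
    (hΦ' : Φ' ∈ XI c β τ₂ hτ₂ τ₁ hτ₁ ρ) (ℓ ℓ' : MvPowerSeries ι ℂ)
    (hℓ : LeadI c β τ₁ hτ₁ τ₂ hτ₂ ρ Φ ℓ) (h0 : sder ℓ = 0)
    (hℓ' : LeadI c β τ₂ hτ₂ τ₁ hτ₁ ρ Φ' ℓ') (h0' : sder ℓ' = 0) (C : MvPowerSeries ι ℂ)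
    (hC : ∀ f, Φ' (Φ f) = opI c β τ₁ hτ₁ ρ C f) : sder C = 0 := by
  refine sder_of_Nop c β τ₁ hτ₁ ρ hi.1 hρ C fun f => ?_
  rw [← hC, XI_Nop c hcs β τ₁ τ₂ hτ₁ hτ₂ ρ hρ hi hc Φ hΦ ℓ hℓ h0 f,
    XI_Nop c hcs β τ₂ τ₁ hτ₂ hτ₁ ρ hρ hi hc Φ' hΦ' ℓ' hℓ' h0', hC]

end

section

variable {G : Type} [Group G] {V₁ V₂ : Type} [AddCommGroup V₁] [Module ℂ V₁]
  [AddCommGroup V₂] [Module ℂ V₂] (π₁ : Representation ℂ G V₁) (π₂ : Representation ℂ G V₂)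

/-- a nonzero equivariant map from an irreducible representation is injective -/
theorem irr_inj (hi : Irr π₁) (A : V₁ →ₗ[ℂ] V₂) (hA : Equi π₁ π₂ A) (h0 : A ≠ 0) :
    Function.Injective A := by
  rw [← LinearMap.ker_eq_bot]
  rcases hi.2 (LinearMap.ker A) (fun g v hv => by
    rw [LinearMap.mem_ker] at hv ⊢
    rw [hA g v, hv, map_zero]) with h | h
  · exact h
  · exact absurd (LinearMap.ker_eq_top.1 h) h0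

theorem irr_of_zero (A : V₁ →ₗ[ℂ] V₂) (hA : Equi π₁ π₂ A) (B : V₂ →ₗ[ℂ] V₁)
    (hB : Equi π₂ π₁ B) (hA0 : A ≠ 0) (hB0 : B ≠ 0) (hAB : ∀ v, A (B v) = 0)
    (hBA : ∀ v, B (A v) = 0) : ¬ Irr π₁ ∧ ¬ Irr π₂ := by
  refine ⟨fun h => hB0 (LinearMap.ext fun v => ?_), fun h => hA0 (LinearMap.ext fun v => ?_)⟩
  · refine irr_inj π₁ π₂ h A hA hA0 ?_
    rw [hAB, LinearMap.zero_apply, map_zero]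
  · refine irr_inj π₂ π₁ h B hB hB0 ?_
    rw [hBA, LinearMap.zero_apply, map_zero]

end

end

end Pool.Agent.Lib.MP_ca1492_al.D5
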