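import Mathlib
import Pool.Agent.Lib.MP_ca1492_al.D5.TwoR
import Pool.Agent.Lib.MP_ca1492_al.D5.TwoX

/-!
# MP_ca1492_al, D5, module TwoD: two strands which are not isomorphic

* `diff_XI`: `Θ` of `tw_theta`; for a variable `x` the operator `Θ ∘ opI (X x) - opI (X x) ∘ Θ` is equivariant and
  vanishes at `1` on test functions (`KS_opI`, `opI y f` at `1` is `opE y (f 1)`), so it is `0` (`van_diff`), and `Θ ∈ XI`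
  (`XI_of_X`). Leading coefficient `1` (`r₀ = 1`, `opE_one`).
* `diff_main`: `Φ₁`, `Φ'` from `diff_XI` for `H` and `H.symm`; `C` from `comp_op` (`ℓ = 1`), `sder C = 0`
  (`comp_sder`, `sder 1 = 0`), `¬ dd ^ 2 ∣ C` (`tw_ib`), `split_dd` gives `k`, `θ`; `Φ = opI (θ.subst dd) ∘ Φ₁`
  (`XI_op`, `LeadI_op`). If `k = 0`: `Φ' ∘ Φ = 1`, `Φ ∘ Φ' = 1`, so `Φ`, `Φ'` and their restrictions to the level
  zero parts (`XI_restr0`, `em0_inj`) are injective, `tw_irr` for `H` and for `H.symm`. If `k = 1`: the restrictions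
  `Φ₀`, `Φ₀'` satisfy `Φ₀' Φ₀ = 0`, `Φ₀ Φ₀' = 0` (`opI_em0`, `const_dd`), and are nonzero (`lead0`, constant terms of the
  leading coefficients: `const_subst`, `1`), so both representations are not irreducible (`irr_of_zero`).
-/

set_option autoImplicit false
set_option linter.unusedSectionVars false

namespace Pool.Agent.Lib.MP_ca1492_al.D5

open Pool.Agent.Lib.MP_ca1492_al.P
open Topology Matrix ValuativeRel TensorProduct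

noncomputable section

variable {F : Type} [Field F] [ValuativeRel F] [TopologicalSpace F]
  [IsNonarchimedeanLocalField F]
variable {κ : Type} [Fintype κ] [DecidableEq κ]
variable {V : Type} [AddCommGroup V] [Module ℂ V]
variable {ι' : Type} {β : Bool → ι'} {τ₁ τ₂ : Bool → ℤ}
variable (H : Opp2 β τ₁ τ₂) {c : κ → Bool} {ρ : Representation ℂ (lev F c) V}
  (hcs : Function.Surjective c) (hρ : IsSm ρ) (hi : Irr ρ) (hc : Cusp c ρ)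

include hcs hρ hi hc

theorem diff_XI (hno : NoIso c ρ) :
    ∃ Φ ∈ XI c β τ₁ H.h₁ τ₂ H.h₂ ρ, LeadI c β τ₁ H.h₁ τ₂ H.h₂ ρ Φ 1 := by
  obtain ⟨Θ, hΘ, hΘ2⟩ := tw_theta H hcs hρ hi hc
  refine ⟨Θ, XI_of_X c β τ₁ τ₂ H.h₁ H.h₂ ρ Θ hΘ fun x f => ?_, 1, fun r hr f hf => ?_⟩
  · have h1 := van_diff H hcs hρ hi hc hno
      (Θ ∘ₗ opI c β τ₁ H.h₁ ρ (MvPowerSeries.X x) -
        opI c β τ₂ H.h₂ ρ (MvPowerSeries.X x) ∘ₗ Θ) (fun g f => by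
          rw [LinearMap.sub_apply, LinearMap.sub_apply, LinearMap.comp_apply,
            LinearMap.comp_apply, LinearMap.comp_apply, LinearMap.comp_apply,
            opI_equi c β τ₁ H.h₁ ρ _ g f, hΘ g, hΘ g, opI_equi c β τ₂ H.h₂ ρ _ g, map_sub])
      (fun r hr f hf => by
        have h2 := hΘ2 r hr f hf
        have h3 := hΘ2 r hr _ (KS_opI c β τ₁ H.h₁ ρ (MvPowerSeries.X x) r f hf)
        show (Θ (opI c β τ₁ H.h₁ ρ (MvPowerSeries.X x) f)).1 1 -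
          opE V (MvPowerSeries.X x) ((Θ f).1 1) = 0
        rw [h2, h3, map_smul]
        exact sub_self _)
    have h2 := LinearMap.congr_fun h1 f
    rw [LinearMap.sub_apply, LinearMap.zero_apply] at h2
    exact sub_eq_zero.1 h2
  · rw [opE_one]
    exact hΘ2 r hr f hf

/-- two strands which are not isomorphic: the normalised operators. `k = 1` in the reducible case -/
theorem diff_main (hyp : HypIrr F) (hyp' : HypIb F) (hno : NoIso c ρ) :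
    ∃ (k : ℕ) (θ : PowerSeries ℂ)
      (Φ : ISp c β τ₁ H.h₁ (hat c ρ) →ₗ[ℂ] ISp c β τ₂ H.h₂ (hat c ρ))
      (Φ' : ISp c β τ₂ H.h₂ (hat c ρ) →ₗ[ℂ] ISp c β τ₁ H.h₁ (hat c ρ)),
      k ≤ 1 ∧ PowerSeries.constantCoeff θ ≠ 0 ∧
      Φ ∈ XI c β τ₁ H.h₁ τ₂ H.h₂ ρ ∧ Φ' ∈ XI c β τ₂ H.h₂ τ₁ H.h₁ ρ ∧
      LeadI c β τ₁ H.h₁ τ₂ H.h₂ ρ Φ (θ.subst dd) ∧ LeadI c β τ₂ H.h₂ τ₁ H.h₁ ρ Φ' 1 ∧
      (∀ f, Φ' (Φ f) = opI c β τ₁ H.h₁ ρ (dd ^ k) f) ∧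
      (∀ f, Φ (Φ' f) = opI c β τ₂ H.h₂ ρ (dd ^ k) f) ∧
      (k = 0 ↔ Irr (IRp c β τ₁ H.h₁ ρ)) ∧ (k = 0 ↔ Irr (IRp c β τ₂ H.h₂ ρ)) := by
  obtain ⟨Φ₁, hΦ₁, hL₁⟩ := diff_XI H hcs hρ hi hc hno
  obtain ⟨Φ', hΦ', hL'⟩ := diff_XI H.symm hcs hρ hi hc hno
  have h10 : MvPowerSeries.constantCoeff (1 : MvPowerSeries Bool ℂ) ≠ 0 := by
    rw [map_one]
    exact one_ne_zero
  have hs1 : sder (1 : MvPowerSeries Bool ℂ) = 0 := by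
    rw [TwoN_sder, Derivation.map_one_eq_zero, Derivation.map_one_eq_zero, add_zero]
  obtain ⟨C, hC, hC'⟩ := comp_op c β τ₁ τ₂ H.h₁ H.h₂ ρ hcs hρ hi hc Φ₁ hΦ₁ Φ' hΦ' 1 hL₁
    one_ne_zero
  have hsC := comp_sder c β τ₁ τ₂ H.h₁ H.h₂ ρ hcs hρ hi hc Φ₁ hΦ₁ Φ' hΦ' 1 1 hL₁ hs1 hL' hs1 C hC
  have hdC := tw_ib H hcs hρ hi hc hyp' hno Φ₁ hΦ₁ Φ' hΦ' 1 1 hL₁ h10 hL' h10 C hC hC'
  obtain ⟨k, θ, hk, hθ, hθC⟩ := split_dd C hsC hdC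
  have hΦ : opI c β τ₂ H.h₂ ρ (θ.subst dd) ∘ₗ Φ₁ ∈ XI c β τ₁ H.h₁ τ₂ H.h₂ ρ :=
    XI_op c β τ₁ τ₂ H.h₁ H.h₂ ρ Φ₁ hΦ₁ _
  have hL : LeadI c β τ₁ H.h₁ τ₂ H.h₂ ρ (opI c β τ₂ H.h₂ ρ (θ.subst dd) ∘ₗ Φ₁)
      (θ.subst dd) := by
    have h1 := LeadI_op c β τ₁ τ₂ H.h₁ H.h₂ ρ Φ₁ 1 (θ.subst dd) hL₁
    rwa [mul_one] at h1
  have h12 : ∀ f, Φ' ((opI c β τ₂ H.h₂ ρ (θ.subst dd) ∘ₗ Φ₁) f) =
      opI c β τ₁ H.h₁ ρ (dd ^ k) f := by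
    intro f
    rw [LinearMap.comp_apply, hΦ'.2, hC, ← opI_mul, hθC]
  have h21 : ∀ f, (opI c β τ₂ H.h₂ ρ (θ.subst dd) ∘ₗ Φ₁) (Φ' f) =
      opI c β τ₂ H.h₂ ρ (dd ^ k) f := by
    intro f
    rw [LinearMap.comp_apply, hC', ← opI_mul, hθC]
  have hθ0 : MvPowerSeries.constantCoeff (θ.subst dd) ≠ 0 := by
    rw [const_subst]
    exact hθ
  generalize hΦd : opI c β τ₂ H.h₂ ρ (θ.subst dd) ∘ₗ Φ₁ = Φ at hΦ hL h12 h21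
  obtain ⟨Φ₀, hΦ₀, hΦ₀e⟩ := XI_restr0 c β τ₁ τ₂ H.h₁ H.h₂ ρ Φ hΦ
  obtain ⟨Φ₀', hΦ₀', hΦ₀e'⟩ := XI_restr0 c β τ₂ τ₁ H.h₂ H.h₁ ρ Φ' hΦ'
  have key0 : k = 0 → Irr (IRp c β τ₁ H.h₁ ρ) ∧ Irr (IRp c β τ₂ H.h₂ ρ) := by
    intro hk0
    have e12 : ∀ f, Φ' (Φ f) = f := by
      intro f
      rw [h12, hk0, pow_zero, opI_one]
    have e21 : ∀ f, Φ (Φ' f) = f := by
      intro f
      rw [h21, hk0, pow_zero, opI_one]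
    refine ⟨tw_irr H hcs hρ hi hc hyp hno Φ₀ hΦ₀ ?_,
      tw_irr H.symm hcs hρ hi hc hyp hno Φ₀' hΦ₀' ?_⟩
    · intro f f' hff
      apply em0_inj c β τ₁ H.h₁ ρ
      rw [← e12 (em0 c β τ₁ H.h₁ ρ f), ← e12 (em0 c β τ₁ H.h₁ ρ f'), ← hΦ₀e, ← hΦ₀e, hff]
    · intro f f' hff
      apply em0_inj c β τ₂ H.h₂ ρ
      rw [← e21 (em0 c β τ₂ H.h₂ ρ f), ← e21 (em0 c β τ₂ H.h₂ ρ f'), ← hΦ₀e', ← hΦ₀e', hff]
  have key1 : k ≠ 0 → ¬ Irr (IRp c β τ₁ H.h₁ ρ) ∧ ¬ Irr (IRp c β τ₂ H.h₂ ρ) := by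
    intro hk0
    have hcd : MvPowerSeries.constantCoeff (dd ^ k) = 0 := by
      rw [map_pow, const_dd, zero_pow hk0]
    obtain ⟨v, hv⟩ := hi.1
    obtain ⟨f₁, hf₁⟩ := lead0 c β τ₁ τ₂ H.h₁ H.h₂ ρ hρ Φ _ hL hθ0 v hv
    obtain ⟨f₂, hf₂⟩ := lead0 c β τ₂ τ₁ H.h₂ H.h₁ ρ hρ Φ' _ hL' h10 v hv
    refine irr_of_zero (IRp c β τ₁ H.h₁ ρ) (IRp c β τ₂ H.h₂ ρ) Φ₀ hΦ₀ Φ₀' hΦ₀' ?_ ?_ ?_ ?_
    · rintro rfl
      apply hf₁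
      rw [← hΦ₀e, LinearMap.zero_apply, map_zero]
    · rintro rfl
      apply hf₂
      rw [← hΦ₀e', LinearMap.zero_apply, map_zero]
    · intro f
      apply em0_inj c β τ₂ H.h₂ ρ
      rw [hΦ₀e, hΦ₀e', h21, opI_em0, hcd, zero_smul, map_zero]
    · intro f
      apply em0_inj c β τ₁ H.h₁ ρ
      rw [hΦ₀e', hΦ₀e, h12, opI_em0, hcd, zero_smul, map_zero]
  refine ⟨k, θ, Φ, Φ', hk, hθ, hΦ, hΦ', hL, hL', h12, h21,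
    ⟨fun h => (key0 h).1, fun h => ?_⟩, ⟨fun h => (key0 h).2, fun h => ?_⟩⟩
  · by_contra hk0
    exact (key1 hk0).1 h
  · by_contra hk0
    exact (key1 hk0).2 h

end

end Pool.Agent.Lib.MP_ca1492_al.D5
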