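import Mathlib
import Pool.Agent.Lib.MP_ca1492_al.D5.TwoA2
import Pool.Agent.Lib.MP_ca1492_al.D5.TwoN
import Pool.Agent.Lib.MP_ca1492_al.D5.TwoS

/-!
# MP_ca1492_al, D5, module TwoS2: properties of the exchange operator

* `swI_Nop`: `AR_mulU`, `vdet (ẇ g) = vdet g` (`vdet_mul`).
* `swI_KS`: `KS_wdot`.
* `Cr_symm`: the pairs `(i, j)` and `(j, i)` in `npair`.
* `swI_conj`: membership: `swI_equi`, `swI_op`, `rename_rename_sb`. Leading coefficient: let `f` be a test function of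
  level `r` in `I_τ₂`; `f' = R_ẇ (swI f) ∈ I_τ₁`, `f' g = AR (f (ẇ g ẇ))`, is a test function of level `r`
  (`ẇ ∈ Kc 0` normalises `Kc r`; `g = (ẇ p ẇ⁻¹)(ẇ k ẇ⁻¹)` if `ẇ g ẇ = p k`; `conj_upp2`), `f' 1 = AR (f 1)`.
  `(swI Φ swI f)(1) = AR ((Φ swI f)(ẇ)) = AR ((Φ f')(1)) = AR (Cr • opE ℓ (AR (f 1))) = Cr • opE (rename ℓ) (f 1)`.
* `swI_restr`: `restr0`, `swI_op`, `opI_em0`. Value at `1` on test functions: `swI_KS` and `tm1_inj`.
  Conjugation of `Kc r` by `permG`: `P/PatTop.lean` (line 114), `Kc_normal` (`P/Cong.lean`).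
-/

set_option autoImplicit false
set_option linter.unusedSectionVars false

namespace Pool.Agent.Lib.MP_ca1492_al.D5

open Pool.Agent.Lib.MP_ca1492_al.P
open Topology Matrix ValuativeRel TensorProduct

noncomputable section

variable {F : Type} [Field F] [ValuativeRel F] [TopologicalSpace F]
  [IsNonarchimedeanLocalField F]
variable {κ : Type} [Fintype κ] [DecidableEq κ]
variable {ι' : Type}
variable {V : Type} [AddCommGroup V] [Module ℂ V]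

variable {c : κ → Bool} {ρ : Representation ℂ (lev F c) V}

section

variable {β : Bool → ι'} {τ₁ τ₂ : Bool → ℤ} (H : Opp2 β τ₁ τ₂)

theorem swI_Nop (hcs : Function.Surjective c) (D : Sw2 c ρ)
    (f : ISp c β τ₁ H.h₁ (hat c ρ)) :
    swI H hcs D (Nop c β τ₁ H.h₁ ρ f) = Nop c β τ₂ H.h₂ ρ (swI H hcs D f) := by
  refine Subtype.ext (funext fun g => ?_)
  show D.AR (mulU Bool V (f.1 (wdot H c D.w * g)) +
      (vdet ((wdot H c D.w * g : lev F (fun i => β (c i))) : GL κ F) : ℂ) •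
        f.1 (wdot H c D.w * g)) =
    mulU Bool V (D.AR (f.1 (wdot H c D.w * g))) +
      (vdet g.1 : ℂ) • D.AR (f.1 (wdot H c D.w * g))
  rw [map_add, map_smul, D.AR_mulU, wdot_vdet]

theorem swI_KS (hcs : Function.Surjective c) (D : Sw2 c ρ) (r : ℕ) (hr : 1 ≤ r)
    (f : ISp c β τ₁ H.h₁ (hat c ρ)) (hf : KS c β τ₁ r f.1) : (swI H hcs D f).1 1 = 0 := by
  rw [swI_val, mul_one, KS_wdot H c hcs D.w D.hw r hr f.1 hf, map_zero]

theorem Cr_symm (c : κ → Bool) (r : ℕ) : Cr F c β τ₁ τ₂ r = Cr F c β τ₂ τ₁ r := by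
  have h : npair c β τ₁ τ₂ = npair c β τ₂ τ₁ := by
    classical
    unfold npair
    refine Finset.card_bij (fun p _ => (p.2, p.1)) ?_ ?_ ?_
    · intro p hp
      obtain ⟨h1, h2, h3⟩ := (Finset.mem_filter.1 hp).2
      exact Finset.mem_filter.2 ⟨Finset.mem_univ _, h1.symm, h3, h2⟩
    · rintro ⟨a, b⟩ _ ⟨a', b'⟩ _ h
      rw [Prod.mk.injEq] at h ⊢
      exact ⟨h.2, h.1⟩
    · intro p hp
      obtain ⟨h1, h2, h3⟩ := (Finset.mem_filter.1 hp).2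
      exact ⟨(p.2, p.1), Finset.mem_filter.2 ⟨Finset.mem_univ _, h1.symm, h3, h2⟩, rfl⟩
  unfold Cr
  rw [h]

/-- translation of a test function -/
theorem TwoS2_KS (hcs : Function.Surjective c) (D : Sw2 c ρ) (r : ℕ)
    (f : ISp c β τ₂ H.h₂ (hat c ρ)) (hf : KS c β τ₂ r f.1) :
    KS c β τ₁ r (IRp c β τ₁ H.h₁ (hat c ρ) (wdot H c D.w) (swI H.symm hcs D f)).1 := by
  have hww : permG F D.w * permG F D.w = 1 :=
    congrArg Subtype.val (wdot_mul (F := F) (c := c) H D.w D.hww)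
  have hinv : (permG F D.w)⁻¹ = permG F D.w := inv_eq_of_mul_eq_one_right hww
  have hval : ∀ g, (IRp c β τ₁ H.h₁ (hat c ρ) (wdot H c D.w) (swI H.symm hcs D f)).1 g =
      D.AR (f.1 (wdot H c D.w * (g * wdot H c D.w))) := fun _ => rfl
  refine ⟨fun g k hk => ?_, fun g hg => ?_⟩
  · have hk' : (permG F D.w)⁻¹ * k.1 * permG F D.w ∈ Kc F κ r := (permG_Kc D.w r k.1).2 hk
    have e : wdot H c D.w * (g * k * wdot H c D.w) = wdot H c D.w * (g * wdot H c D.w) *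
        (⟨(permG F D.w)⁻¹ * k.1 * permG F D.w, mem_big H c _⟩ : lev F (fun i => β (c i))) := by
      apply Subtype.ext
      show permG F D.w * (g.1 * k.1 * permG F D.w) = permG F D.w * (g.1 * permG F D.w) *
        ((permG F D.w)⁻¹ * k.1 * permG F D.w)
      group
    rw [hval, hval, e, hf.1 _ _ hk']
  · rw [hval] at hg
    obtain ⟨p, hp, k, hk, h⟩ := hf.2 (wdot H c D.w * (g * wdot H c D.w))
      (fun h => hg (by rw [h, map_zero]))
    refine ⟨permG F D.w * p * (permG F D.w)⁻¹, conj_upp2 H hcs D.w D.hw p hp,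
      permG F D.w * k * (permG F D.w)⁻¹, Kc_normal r _ _ (wdot_K D.w) hk, ?_⟩
    have h' : permG F D.w * (g.1 * permG F D.w) = p * k := h
    have h2 : permG F D.w * p * (permG F D.w)⁻¹ * (permG F D.w * k * (permG F D.w)⁻¹) =
        permG F D.w * (p * k) * (permG F D.w)⁻¹ := by group
    rw [h2, ← h', hinv]
    calc g.1 = (permG F D.w * permG F D.w) * g.1 * (permG F D.w * permG F D.w) := by
          rw [hww, one_mul, mul_one]
      _ = _ := by simp only [mul_assoc]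

/-- conjugation by the exchange operator -/
theorem swI_conj (hcs : Function.Surjective c) (D : Sw2 c ρ)
    (Φ : ISp c β τ₁ H.h₁ (hat c ρ) →ₗ[ℂ] ISp c β τ₂ H.h₂ (hat c ρ))
    (hΦ : Φ ∈ XI c β τ₁ H.h₁ τ₂ H.h₂ ρ) (ℓ : MvPowerSeries Bool ℂ)
    (hℓ : LeadI c β τ₁ H.h₁ τ₂ H.h₂ ρ Φ ℓ) :
    swI H.symm hcs D ∘ₗ Φ ∘ₗ swI H.symm hcs D ∈ XI c β τ₂ H.h₂ τ₁ H.h₁ ρ ∧
    LeadI c β τ₂ H.h₂ τ₁ H.h₁ ρ (swI H.symm hcs D ∘ₗ Φ ∘ₗ swI H.symm hcs D)
      (MvPowerSeries.rename sb ℓ) := by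
  refine ⟨⟨fun g f => ?_, fun y f => ?_⟩, ?_⟩
  · show swI H.symm hcs D (Φ (swI H.symm hcs D (IRp c β τ₂ H.h₂ (hat c ρ) g f))) =
      IRp c β τ₁ H.h₁ (hat c ρ) g (swI H.symm hcs D (Φ (swI H.symm hcs D f)))
    have h1 : swI H.symm hcs D (IRp c β τ₂ H.h₂ (hat c ρ) g f) =
        IRp c β τ₁ H.h₁ (hat c ρ) g (swI H.symm hcs D f) := swI_equi H.symm hcs D g f
    have h2 := hΦ.1 g (swI H.symm hcs D f)
    rw [h1, h2]
    exact swI_equi H.symm hcs D g _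
  · show swI H.symm hcs D (Φ (swI H.symm hcs D (opI c β τ₂ H.h₂ ρ y f))) =
      opI c β τ₁ H.h₁ ρ y (swI H.symm hcs D (Φ (swI H.symm hcs D f)))
    have h1 : swI H.symm hcs D (opI c β τ₂ H.h₂ ρ y f) =
        opI c β τ₁ H.h₁ ρ (MvPowerSeries.rename sb y) (swI H.symm hcs D f) :=
      swI_op H.symm hcs D y f
    have h2 := hΦ.2 (MvPowerSeries.rename sb y) (swI H.symm hcs D f)
    have h3 : swI H.symm hcs D (opI c β τ₂ H.h₂ ρ (MvPowerSeries.rename sb y)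
        (Φ (swI H.symm hcs D f))) = opI c β τ₁ H.h₁ ρ
        (MvPowerSeries.rename sb (MvPowerSeries.rename sb y))
        (swI H.symm hcs D (Φ (swI H.symm hcs D f))) :=
      swI_op H.symm hcs D _ _
    rw [h1, h2, h3, rename_rename_sb]
  · obtain ⟨r₀, hr⟩ := hℓ
    refine ⟨r₀, fun r hrr f hf => ?_⟩
    have hKS := TwoS2_KS H hcs D r f hf
    have h1 := hr r hrr _ hKS
    have hone : wdot (F := F) H c D.w * (1 * wdot H c D.w) = 1 := by
      rw [one_mul, wdot_mul H D.w D.hww]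
    have h2 : (IRp c β τ₁ H.h₁ (hat c ρ) (wdot H c D.w) (swI H.symm hcs D f)).1 1 =
        D.AR (f.1 1) := by
      show D.AR (f.1 (wdot H c D.w * (1 * wdot H c D.w))) = _
      rw [hone]
    have h3 : (ev1 c β τ₂ H.h₂ (hat c ρ) ∘ₗ Φ)
        (IRp c β τ₁ H.h₁ (hat c ρ) (wdot H c D.w) (swI H.symm hcs D f)) =
        (Φ (swI H.symm hcs D f)).1 (wdot H c D.w) := by
      show (Φ (IRp c β τ₁ H.h₁ (hat c ρ) (wdot H c D.w) (swI H.symm hcs D f))).1 1 = _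
      rw [hΦ.1 (wdot H c D.w) (swI H.symm hcs D f)]
      show (Φ (swI H.symm hcs D f)).1 (1 * wdot H c D.w) = _
      rw [one_mul]
    rw [h3, h2] at h1
    show D.AR ((Φ (swI H.symm hcs D f)).1 (wdot H c D.w * 1)) = _
    rw [mul_one, h1, map_smul, D.AR_op, D.AR_AR, Cr_symm]

/-- the exchange operator on the level zero part -/
theorem swI_restr (hcs : Function.Surjective c) (D : Sw2 c ρ) :
    ∃ S₀ : ISp c β τ₁ H.h₁ ρ →ₗ[ℂ] ISp c β τ₂ H.h₂ ρ,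
      Equi (IRp c β τ₁ H.h₁ ρ) (IRp c β τ₂ H.h₂ ρ) S₀ ∧
      (∀ f, em0 c β τ₂ H.h₂ ρ (S₀ f) = swI H hcs D (em0 c β τ₁ H.h₁ ρ f)) ∧
      ∀ r : ℕ, 1 ≤ r → ∀ f : ISp c β τ₁ H.h₁ ρ, KS c β τ₁ r f.1 → (S₀ f).1 1 = 0 := by
  obtain ⟨S₀, h1, h2⟩ := restr0 c β τ₁ τ₂ H.h₁ H.h₂ ρ (swI H hcs D) (swI_equi H hcs D)
    (fun x f => by
      have h3 := swI_op H hcs D (MvPowerSeries.X (sb x)) (em0 c β τ₁ H.h₁ ρ f)
      have h4 : MvPowerSeries.rename sb (MvPowerSeries.X (sb x) : MvPowerSeries Bool ℂ) =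
          MvPowerSeries.X x := by
        rw [MvPowerSeries.rename_X, sb_sb]
      rw [h4, opI_em0, MvPowerSeries.constantCoeff_X, zero_smul, map_zero] at h3
      exact h3.symm)
  refine ⟨S₀, h1, h2, fun r hr f hf => ?_⟩
  refine tm1_inj (ι := Bool) ?_
  have h3 : tm1 Bool V ((S₀ f).1 1) = (em0 c β τ₂ H.h₂ ρ (S₀ f)).1 1 := rfl
  rw [h3, h2, map_zero, swI_KS H hcs D r hr _ (KS_em0 c β τ₁ H.h₁ ρ r f hf)]

end

end

end Pool.Agent.Lib.MP_ca1492_al.D5
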