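import Mathlib
import Pool.Agent.Lib.MP_ca1492_al.D5.TwoS2
import Pool.Agent.Lib.MP_ca1492_al.D5.TwoT

/-!
# MP_ca1492_al, D5, module TwoE: two isomorphic strands, the operator `Θ`

`S = swI H hcs D`, `S' = swI H.symm hcs D`, `y₀ = X false`, `y₁ = X true`, `dd = y₀ - y₁`. `TS Θ g`: the properties of the
open cell operator: `Θ y₀ - y₀ Θ = g S`, `Θ y₁ - y₁ Θ = - g S`.

* `same_ex`: `Θ` of `tw_theta`; `Θ ∘ opI y₀ - opI y₀ ∘ Θ` is equivariant and vanishes at `1` on test functions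
  (`KS_opI`), so it is `opI g ∘ S` (`van_same`); the same for `y₁` with `g₁`. Compute `Θ (y₀ y₁ f) = Θ (y₁ y₀ f)` in both
  ways (`swI_op`, `rename sb y₀ = y₁`): `y₀ g₁ S f + g y₀ S f = y₁ g S f + g₁ y₁ S f`, so `dd * (g + g₁)` acts as `0` on
  all `S f`, and `S` is surjective (`swI_swI` for `H.symm`); `opI_inj`, `dd_ne`: `g₁ = - g`.
* `same_XI`: equivariance: `opI_equi`, `swI_equi`. Commutation with `y₀`: `dd (Θ y₀ - y₀ Θ) + g (S y₀ - y₀ S) =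
  dd g S + g (y₁ - y₀) S = 0`; with `y₁` similarly; `XI_of_X`.
* `same_lead`: `r₀ = 1`, on a test function `S f` vanishes at `1` (`swI_KS`).
* `same_ker`: `Θ (dd f) = dd (Θ f) + 2 g S f` and `Θ (dd f) = 0`.
* `same_gamma`: suppose `constantCoeff g = 0`. For `f ∈ ISp τ₁ ρ`: `y₀ Θ (em0 f) = Θ (y₀ em0 f) - g S (em0 f) = 0`
  (`opI_em0`; `S (em0 f) = em0 (S₀ f)`, `swI_restr`), the same for `y₁`; so `restr0` gives `Θ₀`. Let `S₀`, `S₀'` be the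
  restrictions of `S`, `S'`, `S₀' S₀ = 1` (`swI_swI`, `em0_inj`). `S₀' Θ₀` is an endomorphism of `IRp τ₁ ρ`, so it is a
  scalar `z` (`schur0`, `hirr`), `Θ₀ = z S₀`. On a test function `f` with `f 1 = v ≠ 0` (`tst0`, level `r ≥ 1`):
  `(Θ₀ f) 1 = Cr • v ≠ 0` (`em0_val`, `tm1_inj`, `Cr_ne`), but `(S₀ f) 1 = 0`. Contradiction.
-/

set_option autoImplicit false
set_option linter.unusedSectionVars false

namespace Pool.Agent.Lib.MP_ca1492_al.D5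

open Pool.Agent.Lib.MP_ca1492_al.P
open Topology Matrix ValuativeRel TensorProduct

noncomputable section

variable {F : Type} [Field F] [ValuativeRel F] [TopologicalSpace F]
  [IsNonarchimedeanLocalField F]
variable {κ : Type} [Fintype κ] [DecidableEq κ]
variable {V : Type} [AddCommGroup V] [Module ℂ V]
section

variable {ι ι' : Type} [Fintype ι] [DecidableEq ι]
variable (c : κ → ι) (β : ι → ι') (τ : ι → ℤ) (hτ : Function.Injective τ)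
  (ρ : Representation ℂ (lev F c) V)

theorem TwoE_opI_zero (f : ISp c β τ hτ (hat c ρ)) : opI c β τ hτ ρ 0 f = 0 :=
  Subtype.ext (funext fun g => opE_zero (f.1 g))

theorem TwoE_opI_neg (y : MvPowerSeries ι ℂ) (f : ISp c β τ hτ (hat c ρ)) :
    opI c β τ hτ ρ (-y) f = - opI c β τ hτ ρ y f := by
  rw [eq_neg_iff_add_eq_zero, ← opI_add, neg_add_cancel, TwoE_opI_zero]

theorem TwoE_opI_sub (y z : MvPowerSeries ι ℂ) (f : ISp c β τ hτ (hat c ρ)) :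
    opI c β τ hτ ρ (y - z) f = opI c β τ hτ ρ y f - opI c β τ hτ ρ z f := by
  rw [sub_eq_add_neg, opI_add, TwoE_opI_neg, ← sub_eq_add_neg]

theorem TwoE_opI_comm (y z : MvPowerSeries ι ℂ) (f : ISp c β τ hτ (hat c ρ)) :
    opI c β τ hτ ρ y (opI c β τ hτ ρ z f) = opI c β τ hτ ρ z (opI c β τ hτ ρ y f) := by
  rw [← opI_mul, mul_comm, opI_mul]

theorem TwoE_val (y : MvPowerSeries ι ℂ) (f : ISp c β τ hτ (hat c ρ))
    (g : lev F (fun i => β (c i))) : (opI c β τ hτ ρ y f).1 g = opE V y (f.1 g) := rfl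

end

theorem TwoE_ren0 : MvPowerSeries.rename sb (MvPowerSeries.X false : MvPowerSeries Bool ℂ) =
    MvPowerSeries.X true := by
  rw [MvPowerSeries.rename_X]
  congr 1

theorem TwoE_ren1 : MvPowerSeries.rename sb (MvPowerSeries.X true : MvPowerSeries Bool ℂ) =
    MvPowerSeries.X false := by
  rw [MvPowerSeries.rename_X]
  congr 1

variable {ι' : Type} {β : Bool → ι'} {τ₁ τ₂ : Bool → ℤ}
variable (H : Opp2 β τ₁ τ₂) {c : κ → Bool} {ρ : Representation ℂ (lev F c) V}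
  (hcs : Function.Surjective c) (D : Sw2 c ρ)

/-- the properties of the open cell operator -/
structure TS (Θ : ISp c β τ₁ H.h₁ (hat c ρ) →ₗ[ℂ] ISp c β τ₂ H.h₂ (hat c ρ))
    (g : MvPowerSeries Bool ℂ) : Prop where
  equi : Equi (IRp c β τ₁ H.h₁ (hat c ρ)) (IRp c β τ₂ H.h₂ (hat c ρ)) Θ
  tst : ∀ r : ℕ, 1 ≤ r → ∀ f : ISp c β τ₁ H.h₁ (hat c ρ), KS c β τ₁ r f.1 →
    (Θ f).1 1 = Cr F c β τ₁ τ₂ r • f.1 1
  x0 : ∀ f, Θ (opI c β τ₁ H.h₁ ρ (MvPowerSeries.X false) f) =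
    opI c β τ₂ H.h₂ ρ (MvPowerSeries.X false) (Θ f) + opI c β τ₂ H.h₂ ρ g (swI H hcs D f)
  x1 : ∀ f, Θ (opI c β τ₁ H.h₁ ρ (MvPowerSeries.X true) f) =
    opI c β τ₂ H.h₂ ρ (MvPowerSeries.X true) (Θ f) - opI c β τ₂ H.h₂ ρ g (swI H hcs D f)

/-- the operator `dd Θ + g S` -/
def PhS (Θ : ISp c β τ₁ H.h₁ (hat c ρ) →ₗ[ℂ] ISp c β τ₂ H.h₂ (hat c ρ))
    (g : MvPowerSeries Bool ℂ) :
    ISp c β τ₁ H.h₁ (hat c ρ) →ₗ[ℂ] ISp c β τ₂ H.h₂ (hat c ρ) :=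
  opI c β τ₂ H.h₂ ρ dd ∘ₗ Θ + opI c β τ₂ H.h₂ ρ g ∘ₗ swI H hcs D

theorem same_ex (hρ : IsSm ρ) (hi : Irr ρ) (hc : Cusp c ρ) :
    ∃ (Θ : ISp c β τ₁ H.h₁ (hat c ρ) →ₗ[ℂ] ISp c β τ₂ H.h₂ (hat c ρ))
      (g : MvPowerSeries Bool ℂ), TS H hcs D Θ g := by
  obtain ⟨Θ, hΘ, htst⟩ := tw_theta H hcs hρ hi hc
  have key : ∀ x : Bool, ∃ g : MvPowerSeries Bool ℂ, ∀ f,
      Θ (opI c β τ₁ H.h₁ ρ (MvPowerSeries.X x) f) -
        opI c β τ₂ H.h₂ ρ (MvPowerSeries.X x) (Θ f) =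
        opI c β τ₂ H.h₂ ρ g (swI H hcs D f) := by
    intro x
    refine van_same H hcs hρ hi hc D (Θ ∘ₗ opI c β τ₁ H.h₁ ρ (MvPowerSeries.X x) -
      opI c β τ₂ H.h₂ ρ (MvPowerSeries.X x) ∘ₗ Θ) (fun y f => ?_) (fun r hr f hf => ?_)
    · show Θ (opI c β τ₁ H.h₁ ρ (MvPowerSeries.X x) (IRp c β τ₁ H.h₁ (hat c ρ) y f)) -
        opI c β τ₂ H.h₂ ρ (MvPowerSeries.X x) (Θ (IRp c β τ₁ H.h₁ (hat c ρ) y f)) =
        IRp c β τ₂ H.h₂ (hat c ρ) y (Θ (opI c β τ₁ H.h₁ ρ (MvPowerSeries.X x) f) -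
          opI c β τ₂ H.h₂ ρ (MvPowerSeries.X x) (Θ f))
      rw [opI_equi, hΘ, hΘ, opI_equi, map_sub]
    · show (Θ (opI c β τ₁ H.h₁ ρ (MvPowerSeries.X x) f)).1 1 -
        opE V (MvPowerSeries.X x) ((Θ f).1 1) = 0
      rw [htst r hr _ (KS_opI c β τ₁ H.h₁ ρ (MvPowerSeries.X x) r f hf), htst r hr f hf,
        map_smul, TwoE_val, sub_self]
  obtain ⟨g, hg⟩ := key false
  obtain ⟨g₁, hg₁⟩ := key true
  have h0 : ∀ f, Θ (opI c β τ₁ H.h₁ ρ (MvPowerSeries.X false) f) =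
      opI c β τ₂ H.h₂ ρ (MvPowerSeries.X false) (Θ f) +
        opI c β τ₂ H.h₂ ρ g (swI H hcs D f) := fun f => by
    rw [← hg f]
    abel
  have h1 : ∀ f, Θ (opI c β τ₁ H.h₁ ρ (MvPowerSeries.X true) f) =
      opI c β τ₂ H.h₂ ρ (MvPowerSeries.X true) (Θ f) +
        opI c β τ₂ H.h₂ ρ g₁ (swI H hcs D f) := fun f => by
    rw [← hg₁ f]
    abel
  have h2 : dd * (g + g₁) = 0 := by
    refine opI_inj c β τ₂ H.h₂ ρ hi.1 hρ _ _ fun f' => ?_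
    obtain ⟨f, rfl⟩ : ∃ f, swI H hcs D f = f' := ⟨swI H.symm hcs D f', swI_swI H.symm hcs D f'⟩
    rw [TwoE_opI_zero]
    have h3 : Θ (opI c β τ₁ H.h₁ ρ (MvPowerSeries.X false)
        (opI c β τ₁ H.h₁ ρ (MvPowerSeries.X true) f)) =
        Θ (opI c β τ₁ H.h₁ ρ (MvPowerSeries.X true)
          (opI c β τ₁ H.h₁ ρ (MvPowerSeries.X false) f)) := by
      rw [TwoE_opI_comm]
    rw [h0, h1, h1, h0, swI_op, swI_op, TwoE_ren0, TwoE_ren1, map_add, map_add,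
      TwoE_opI_comm c β τ₂ H.h₂ ρ (MvPowerSeries.X true) (MvPowerSeries.X false) (Θ f),
      add_assoc, add_assoc, add_right_inj] at h3
    rw [← opI_mul, ← opI_mul, ← opI_mul, ← opI_mul, ← opI_add, ← opI_add] at h3
    rw [show dd * (g + g₁) = (MvPowerSeries.X false * g₁ + g * MvPowerSeries.X false) -
      (MvPowerSeries.X true * g + g₁ * MvPowerSeries.X true) by unfold dd; ring,
      TwoE_opI_sub, h3, sub_self]
  have h3 : g₁ = - g := by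
    rcases mul_eq_zero.1 h2 with h | h
    · exact absurd h dd_ne
    · rw [eq_neg_iff_add_eq_zero, add_comm]
      exact h
  refine ⟨Θ, g, hΘ, htst, h0, fun f => ?_⟩
  rw [h1 f, h3, TwoE_opI_neg, ← sub_eq_add_neg]

section

variable (Θ : ISp c β τ₁ H.h₁ (hat c ρ) →ₗ[ℂ] ISp c β τ₂ H.h₂ (hat c ρ))
  (g : MvPowerSeries Bool ℂ) (hT : TS H hcs D Θ g)

include hT

theorem TwoE_PhS (f : ISp c β τ₁ H.h₁ (hat c ρ)) : PhS H hcs D Θ g f =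
    opI c β τ₂ H.h₂ ρ dd (Θ f) + opI c β τ₂ H.h₂ ρ g (swI H hcs D f) := rfl

theorem same_XI : PhS H hcs D Θ g ∈ XI c β τ₁ H.h₁ τ₂ H.h₂ ρ := by
  refine XI_of_X c β τ₁ τ₂ H.h₁ H.h₂ ρ _ (fun y f => ?_) (fun x f => ?_)
  · rw [TwoE_PhS H hcs D Θ g hT, TwoE_PhS H hcs D Θ g hT, hT.equi, swI_equi, map_add, opI_equi,
      opI_equi]
  · rw [TwoE_PhS H hcs D Θ g hT, TwoE_PhS H hcs D Θ g hT, map_add, swI_op]
    cases x with
    | false =>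
      rw [hT.x0, map_add, TwoE_ren0, TwoE_opI_comm c β τ₂ H.h₂ ρ dd (MvPowerSeries.X false),
        add_assoc]
      congr 1
      rw [← opI_mul, ← opI_mul, ← opI_add, ← opI_mul]
      congr 2
      unfold dd
      ring
    | true =>
      rw [hT.x1, map_sub, TwoE_ren1, TwoE_opI_comm c β τ₂ H.h₂ ρ dd (MvPowerSeries.X true),
        sub_add]
      rw [sub_eq_add_neg]
      congr 1
      rw [neg_sub, ← opI_mul, ← opI_mul, ← opI_mul, ← TwoE_opI_sub]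
      congr 2
      unfold dd
      ring

theorem same_lead : LeadI c β τ₁ H.h₁ τ₂ H.h₂ ρ (PhS H hcs D Θ g) dd := by
  refine ⟨1, fun r hr f hf => ?_⟩
  show opE V dd ((Θ f).1 1) + opE V g ((swI H hcs D f).1 1) = _
  rw [hT.tst r hr f hf, swI_KS H hcs D r hr f hf, map_smul, map_zero, add_zero]

theorem same_ker (f : ISp c β τ₁ H.h₁ (hat c ρ)) (hf : opI c β τ₁ H.h₁ ρ dd f = 0) :
    PhS H hcs D Θ g f = - opI c β τ₂ H.h₂ ρ g (swI H hcs D f) := by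
  have h1 : Θ (opI c β τ₁ H.h₁ ρ dd f) = opI c β τ₂ H.h₂ ρ dd (Θ f) +
      (opI c β τ₂ H.h₂ ρ g (swI H hcs D f) + opI c β τ₂ H.h₂ ρ g (swI H hcs D f)) := by
    unfold dd
    rw [TwoE_opI_sub, map_sub, hT.x0, hT.x1, TwoE_opI_sub]
    abel
  rw [hf, map_zero] at h1
  rw [TwoE_PhS H hcs D Θ g hT, eq_neg_iff_add_eq_zero, add_assoc, ← h1]

theorem same_gamma (hρ : IsSm ρ) (hi : Irr ρ) (hc : Cusp c ρ)
    (hirr : Irr (IRp c β τ₁ H.h₁ ρ)) : MvPowerSeries.constantCoeff g ≠ 0 := by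
  intro h0
  obtain ⟨S₀, hS1, hS2, hS3⟩ := swI_restr H hcs D
  obtain ⟨S₀', hS1', hS2', -⟩ := swI_restr H.symm hcs D
  have hg : ∀ f, opI c β τ₂ H.h₂ ρ g (swI H hcs D (em0 c β τ₁ H.h₁ ρ f)) = 0 := by
    intro f
    rw [← hS2, opI_em0, h0, zero_smul]
  have hX : ∀ (x : Bool) (f : ISp c β τ₁ H.h₁ ρ),
      opI c β τ₂ H.h₂ ρ (MvPowerSeries.X x) (Θ (em0 c β τ₁ H.h₁ ρ f)) = 0 := by
    intro x f
    have h1 : opI c β τ₁ H.h₁ ρ (MvPowerSeries.X x) (em0 c β τ₁ H.h₁ ρ f) = 0 := by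
      rw [opI_em0, MvPowerSeries.constantCoeff_X, zero_smul]
    cases x with
    | false =>
      have h2 := hT.x0 (em0 c β τ₁ H.h₁ ρ f)
      rw [h1, map_zero, hg, add_zero] at h2
      exact h2.symm
    | true =>
      have h2 := hT.x1 (em0 c β τ₁ H.h₁ ρ f)
      rw [h1, map_zero, hg, sub_zero] at h2
      exact h2.symm
  obtain ⟨Θ₀, hΘ1, hΘ2⟩ := restr0 c β τ₁ τ₂ H.h₁ H.h₂ ρ Θ hT.equi hX
  have hSS : ∀ f, S₀' (S₀ f) = f := by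
    intro f
    apply em0_inj c β τ₁ H.h₁ ρ
    rw [hS2', hS2, swI_swI]
  have hSS' : ∀ f, S₀ (S₀' f) = f := by
    intro f
    apply em0_inj c β τ₂ H.h₂ ρ
    rw [hS2, hS2']
    exact swI_swI H.symm hcs D _
  obtain ⟨z, hz⟩ := schur0 c β τ₁ H.h₁ ρ hρ hi hc hirr (S₀' ∘ₗ Θ₀) (fun y f => by
    rw [LinearMap.comp_apply, hΘ1, hS1', LinearMap.comp_apply])
  have hz' : ∀ f, Θ₀ f = z • S₀ f := by
    intro f
    rw [← map_smul, ← hz f, LinearMap.comp_apply, hSS']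
  obtain ⟨v, hv⟩ := hi.1
  obtain ⟨r₀, hr⟩ := tst0 c β τ₁ H.h₁ ρ hρ v
  obtain ⟨f, hf1, hf2⟩ := hr (max r₀ 1) (le_max_left _ _)
  have h1 : (Θ₀ f).1 1 = 0 := by
    rw [hz']
    show z • (S₀ f).1 1 = 0
    rw [hS3 _ (le_max_right _ _) f hf1, smul_zero]
  have h2 := hT.tst _ (le_max_right r₀ 1) _ (KS_em0 c β τ₁ H.h₁ ρ _ f hf1)
  rw [← hΘ2, em0_val, em0_val, h1, TensorProduct.zero_tmul, hf2] at h2
  have h3 := (smul_eq_zero.1 h2.symm).resolve_left (Cr_ne c β τ₁ τ₂ _)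
  apply hv
  apply tm1_inj (ι := Bool)
  rw [map_zero]
  exact h3

end

end

end Pool.Agent.Lib.MP_ca1492_al.D5
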