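import Mathlib
import Pool.Agent.Lib.MP_ca1492_al.D5.TwoE
import Pool.Agent.Lib.MP_ca1492_al.D5.TwoX

/-!
# MP_ca1492_al, D5, module TwoG: two isomorphic strands, the normalised operators

`Φ = PhS H hcs D Θ g`, `S`, `S'` as in `TwoE.lean`, `Ψ = S' Φ`.

* `same_sq`: `Ψ opI y = opI (rename y) Ψ`, so `Ψ² ∈ XI τ₁ τ₁`, `Ψ² = opI C` (`XI_self`). `Ψ opI C = opI C Ψ` and
  `Ψ opI C = opI (rename C) Ψ`: `opI (C - rename C) Ψ = 0`, apply `S` (`swI_op`, `swI_swI`):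
  `opI (rename (C - rename C)) ∘ Φ = 0` has leading coefficient `rename (..) * dd` (`LeadI_op`), so it is `0`
  (`lead_unique`, `dd_ne`), `C = rename C`. `sder C = 0`: `Φ` commutes with `Nop` (`XI_Nop`, `sder_dd`), `S'` too (`swI_Nop`), so
  `opI C` commutes with `Nop`: `sder_of_Nop`. `dd ∣ C - g ^ 2`: if `opI dd f = 0` then `Ψ f = - opI (rename g) (S' S f) =
  - opI (rename g) f` (`same_ker`), which is again killed by `dd`, so `Ψ² f = opI ((rename g) ^ 2) f`; `kerd_dvd` gives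
  `dd ∣ C - (rename g) ^ 2`, and `dd ∣ g - rename g` (`dvd_swap`).
* `same_theta`: `γ = constantCoeff g ≠ 0` (`same_gamma`), `constantCoeff C = γ ^ 2`, `sqrt_dd` gives `θ`;
  `(θ' g - 1)(θ' g + 1) = - θ' ^ 2 (C - g ^ 2)` with `θ' = θ.subst dd`, so `dd` divides one of the factors (`prime_dd`), not
  the first (constant term `-2`).
* `same_main`: `Φ_t = opI θ' ∘ Φ` (`XI_op`, `LeadI_op`: leading coefficient `θ' * dd`). `S' Φ_t S' Φ_t = opI (θ' ^ 2) Ψ² = 1`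
  (`swI_op`, `rename θ' = θ'`). `Φ' = S' Φ_t S'`, `swI_conj`: leading coefficient `rename (θ' * dd) = - θ' * dd`.
  `Φ_t Φ' = S (S' Φ_t S' Φ_t) S' = 1`. For `opI dd f = 0`: `Φ_t f = - opI (θ' g) (S f) = S f - opI h (opI dd (S f)) = S f`
  where `θ' g + 1 = h dd`, and `opI dd (S f) = - S (opI dd f) = 0`. For `Φ'`: `S' Φ_t S' f = S' S S' f = S' f`.
-/

set_option autoImplicit false
set_option linter.unusedSectionVars false

namespace Pool.Agent.Lib.MP_ca1492_al.D5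

open Pool.Agent.Lib.MP_ca1492_al.P
open Topology Matrix ValuativeRel TensorProduct

noncomputable section

variable {F : Type} [Field F] [ValuativeRel F] [TopologicalSpace F]
  [IsNonarchimedeanLocalField F]
variable {κ : Type} [Fintype κ] [DecidableEq κ]
variable {V : Type} [AddCommGroup V] [Module ℂ V]
section

variable {ι ι' : Type} [Fintype ι] [DecidableEq ι]
variable (c : κ → ι) (β : ι → ι') (τ : ι → ℤ) (hτ : Function.Injective τ)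
  (ρ : Representation ℂ (lev F c) V)

theorem TwoG_opI_zero (f : ISp c β τ hτ (hat c ρ)) : opI c β τ hτ ρ 0 f = 0 :=
  Subtype.ext (funext fun g => opE_zero (f.1 g))

theorem TwoG_opI_neg (y : MvPowerSeries ι ℂ) (f : ISp c β τ hτ (hat c ρ)) :
    opI c β τ hτ ρ (-y) f = - opI c β τ hτ ρ y f := by
  rw [eq_neg_iff_add_eq_zero, ← opI_add, neg_add_cancel, TwoG_opI_zero]

theorem TwoG_opI_sub (y z : MvPowerSeries ι ℂ) (f : ISp c β τ hτ (hat c ρ)) :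
    opI c β τ hτ ρ (y - z) f = opI c β τ hτ ρ y f - opI c β τ hτ ρ z f := by
  rw [sub_eq_add_neg, opI_add, TwoG_opI_neg, ← sub_eq_add_neg]

end

variable {ι' : Type} {β : Bool → ι'} {τ₁ τ₂ : Bool → ℤ}
variable (H : Opp2 β τ₁ τ₂) {c : κ → Bool} {ρ : Representation ℂ (lev F c) V}
  (hcs : Function.Surjective c) (D : Sw2 c ρ) (hρ : IsSm ρ) (hi : Irr ρ) (hc : Cusp c ρ)

include hρ hi hc

section

variable (Θ : ISp c β τ₁ H.h₁ (hat c ρ) →ₗ[ℂ] ISp c β τ₂ H.h₂ (hat c ρ))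
  (g : MvPowerSeries Bool ℂ) (hT : TS H hcs D Θ g)

include hT

theorem same_sq : ∃ C : MvPowerSeries Bool ℂ,
    (∀ f, swI H.symm hcs D (PhS H hcs D Θ g (swI H.symm hcs D (PhS H hcs D Θ g f))) =
      opI c β τ₁ H.h₁ ρ C f) ∧
    MvPowerSeries.rename sb C = C ∧ sder C = 0 ∧ dd ∣ C - g ^ 2 := by
  have hΦ := same_XI H hcs D Θ g hT
  have hld := same_lead H hcs D Θ g hT
  obtain ⟨Φ, hΦe⟩ : ∃ Φ, Φ = PhS H hcs D Θ g := ⟨_, rfl⟩
  have hker : ∀ f, opI c β τ₁ H.h₁ ρ dd f = 0 →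
      Φ f = - opI c β τ₂ H.h₂ ρ g (swI H hcs D f) := by
    rw [hΦe]
    exact same_ker H hcs D Θ g hT
  rw [← hΦe] at hΦ hld ⊢
  have hop : ∀ y f, swI H.symm hcs D (Φ (opI c β τ₁ H.h₁ ρ y f)) =
      opI c β τ₁ H.h₁ ρ (MvPowerSeries.rename sb y) (swI H.symm hcs D (Φ f)) := by
    intro y f
    rw [hΦ.2, swI_op H.symm]
  have hQ : swI H.symm hcs D ∘ₗ Φ ∘ₗ swI H.symm hcs D ∘ₗ Φ ∈
      XI c β τ₁ H.h₁ τ₁ H.h₁ ρ := by
    refine ⟨fun x f => ?_, fun y f => ?_⟩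
    · show swI H.symm hcs D (Φ (swI H.symm hcs D (Φ (IRp c β τ₁ H.h₁ (hat c ρ) x f)))) =
        IRp c β τ₁ H.h₁ (hat c ρ) x (swI H.symm hcs D (Φ (swI H.symm hcs D (Φ f))))
      rw [hΦ.1, swI_equi H.symm, hΦ.1, swI_equi H.symm]
    · show swI H.symm hcs D (Φ (swI H.symm hcs D (Φ (opI c β τ₁ H.h₁ ρ y f)))) =
        opI c β τ₁ H.h₁ ρ y (swI H.symm hcs D (Φ (swI H.symm hcs D (Φ f))))
      rw [hop, hop, rename_rename_sb]
  obtain ⟨C, hC0⟩ := XI_self c hcs β τ₁ H.h₁ ρ hρ hi hc _ hQ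
  have hC : ∀ f, swI H.symm hcs D (Φ (swI H.symm hcs D (Φ f))) = opI c β τ₁ H.h₁ ρ C f :=
    fun f => LinearMap.congr_fun hC0 f
  -- `C` is symmetric
  have hsym : MvPowerSeries.rename sb C = C := by
    have h1 : ∀ f, opI c β τ₁ H.h₁ ρ (MvPowerSeries.rename sb C) (swI H.symm hcs D (Φ f)) =
        opI c β τ₁ H.h₁ ρ C (swI H.symm hcs D (Φ f)) := by
      intro f
      rw [← hop C f, ← hC f, hC (swI H.symm hcs D (Φ f))]
    have h2 : ∀ f, opI c β τ₂ H.h₂ ρ C (Φ f) =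
        opI c β τ₂ H.h₂ ρ (MvPowerSeries.rename sb C) (Φ f) := by
      intro f
      have h3 := congrArg (swI H hcs D) (h1 f)
      have h4 := swI_swI H.symm hcs D (Φ f)
      have h5 : swI H hcs D (swI H.symm hcs D (Φ f)) = Φ f := h4
      rw [swI_op H, swI_op H, rename_rename_sb, h5] at h3
      exact h3
    have h3 : LeadI c β τ₁ H.h₁ τ₂ H.h₂ ρ (opI c β τ₂ H.h₂ ρ C ∘ₗ Φ) (C * dd) :=
      LeadI_op c β τ₁ τ₂ H.h₁ H.h₂ ρ Φ dd C hld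
    have h4 : LeadI c β τ₁ H.h₁ τ₂ H.h₂ ρ
        (opI c β τ₂ H.h₂ ρ (MvPowerSeries.rename sb C) ∘ₗ Φ)
        (MvPowerSeries.rename sb C * dd) :=
      LeadI_op c β τ₁ τ₂ H.h₁ H.h₂ ρ Φ dd _ hld
    have h5 : opI c β τ₂ H.h₂ ρ C ∘ₗ Φ =
        opI c β τ₂ H.h₂ ρ (MvPowerSeries.rename sb C) ∘ₗ Φ := LinearMap.ext h2
    rw [h5] at h3
    have h6 := lead_unique c β τ₁ τ₂ H.h₁ ρ hρ hi _ _ _ h3 h4
    exact (mul_right_cancel₀ dd_ne h6).symm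
  refine ⟨C, hC, hsym, ?_, ?_⟩
  · refine sder_of_Nop c β τ₁ H.h₁ ρ hi.1 hρ C fun f => ?_
    have h1 : ∀ f, swI H.symm hcs D (Φ (Nop c β τ₁ H.h₁ ρ f)) =
        Nop c β τ₁ H.h₁ ρ (swI H.symm hcs D (Φ f)) := by
      intro f
      rw [XI_Nop c hcs β τ₁ τ₂ H.h₁ H.h₂ ρ hρ hi hc Φ hΦ dd hld sder_dd f, swI_Nop H.symm]
    rw [← hC, h1, h1, hC]
  · have h1 : dd ∣ C - (MvPowerSeries.rename sb g) ^ 2 := by
      refine kerd_dvd c hcs β τ₁ H.h₁ ρ hρ hi hc _ fun f hf => ?_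
      have h2 : ∀ f, opI c β τ₁ H.h₁ ρ dd f = 0 → swI H.symm hcs D (Φ f) =
          - opI c β τ₁ H.h₁ ρ (MvPowerSeries.rename sb g) f := by
        intro f hf
        rw [hker f hf, map_neg, swI_op H.symm, swI_swI H]
      have h3 : opI c β τ₁ H.h₁ ρ dd (- opI c β τ₁ H.h₁ ρ (MvPowerSeries.rename sb g) f) =
          0 := by
        rw [map_neg, ← opI_mul, mul_comm, opI_mul, hf, map_zero, neg_zero]
      have h4 : opI c β τ₁ H.h₁ ρ C f =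
          opI c β τ₁ H.h₁ ρ ((MvPowerSeries.rename sb g) ^ 2) f := by
        rw [← hC, h2 f hf, h2 _ h3, map_neg, neg_neg, ← opI_mul, pow_two]
      rw [TwoG_opI_sub, h4, sub_self]
    have h2 := dvd_swap g
    have h3 : C - g ^ 2 = (C - (MvPowerSeries.rename sb g) ^ 2) -
        (g - MvPowerSeries.rename sb g) * (g + MvPowerSeries.rename sb g) := by ring
    rw [h3]
    exact dvd_sub h1 (Dvd.dvd.mul_right h2 _)

theorem same_theta (hirr : Irr (IRp c β τ₁ H.h₁ ρ)) (C : MvPowerSeries Bool ℂ)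
    (h1 : MvPowerSeries.rename sb C = C) (h2 : sder C = 0) (h3 : dd ∣ C - g ^ 2) :
    ∃ θ : PowerSeries ℂ, PowerSeries.constantCoeff θ ≠ 0 ∧
      MvPowerSeries.rename sb (θ.subst dd) = θ.subst dd ∧ (θ.subst dd) ^ 2 * C = 1 ∧
      dd ∣ θ.subst dd * g + 1 := by
  have hγ := same_gamma H hcs D Θ g hT hρ hi hc hirr
  have hC : MvPowerSeries.constantCoeff C = (MvPowerSeries.constantCoeff g) ^ 2 := by
    obtain ⟨a, ha⟩ := h3
    have h4 := congrArg MvPowerSeries.constantCoeff ha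
    rw [map_sub, map_pow, map_mul, const_dd, zero_mul] at h4
    exact sub_eq_zero.1 h4
  obtain ⟨θ, hθ1, hθ2, hθ3⟩ := sqrt_dd C h2 h1 _ hγ hC
  refine ⟨θ, ?_, hθ3, hθ2, ?_⟩
  · rw [hθ1]
    exact neg_ne_zero.2 (inv_ne_zero hγ)
  · have h4 : dd ∣ (θ.subst dd * g - 1) * (θ.subst dd * g + 1) := by
      obtain ⟨a, ha⟩ := h3
      refine ⟨-((θ.subst dd) ^ 2 * a), ?_⟩
      have h5 : (θ.subst dd * g - 1) * (θ.subst dd * g + 1) =
          (θ.subst dd) ^ 2 * g ^ 2 - (θ.subst dd) ^ 2 * C := by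
        rw [hθ2]
        ring
      rw [h5]
      have h6 : (θ.subst dd) ^ 2 * g ^ 2 - (θ.subst dd) ^ 2 * C =
          - ((θ.subst dd) ^ 2 * (C - g ^ 2)) := by ring
      rw [h6, ha]
      ring
    rcases prime_dd.dvd_or_dvd h4 with h5 | h5
    · exfalso
      obtain ⟨a, ha⟩ := h5
      have h6 := congrArg MvPowerSeries.constantCoeff ha
      rw [map_sub, map_mul, map_mul, const_dd, zero_mul, const_subst, hθ1, map_one,
        neg_mul, inv_mul_cancel₀ hγ] at h6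
      norm_num at h6
    · exact h5

end

/-- two isomorphic strands: the normalised operators -/
theorem same_main (hirr : Irr (IRp c β τ₁ H.h₁ ρ)) :
    ∃ (θ : PowerSeries ℂ)
      (Φ : ISp c β τ₁ H.h₁ (hat c ρ) →ₗ[ℂ] ISp c β τ₂ H.h₂ (hat c ρ))
      (Φ' : ISp c β τ₂ H.h₂ (hat c ρ) →ₗ[ℂ] ISp c β τ₁ H.h₁ (hat c ρ)),
      PowerSeries.constantCoeff θ ≠ 0 ∧
      MvPowerSeries.rename sb (θ.subst dd) = θ.subst dd ∧
      Φ ∈ XI c β τ₁ H.h₁ τ₂ H.h₂ ρ ∧ Φ' ∈ XI c β τ₂ H.h₂ τ₁ H.h₁ ρ ∧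
      LeadI c β τ₁ H.h₁ τ₂ H.h₂ ρ Φ (dd * θ.subst dd) ∧
      LeadI c β τ₂ H.h₂ τ₁ H.h₁ ρ Φ' (-(dd * θ.subst dd)) ∧
      (∀ f, Φ' (Φ f) = f) ∧ (∀ f, Φ (Φ' f) = f) ∧
      (∀ f, opI c β τ₁ H.h₁ ρ dd f = 0 → Φ f = swI H hcs D f) ∧
      ∀ f, opI c β τ₂ H.h₂ ρ dd f = 0 → Φ' f = swI H.symm hcs D f := by
  obtain ⟨Θ, g, hT⟩ := same_ex H hcs D hρ hi hc
  obtain ⟨C, hC1, hC2, hC3, hC4⟩ := same_sq H hcs D hρ hi hc Θ g hT
  obtain ⟨θ, hθ1, hθ2, hθ3, hθ4⟩ := same_theta H hcs D hρ hi hc Θ g hT hirr C hC2 hC3 hC4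
  have hΦ := same_XI H hcs D Θ g hT
  have hld := same_lead H hcs D Θ g hT
  have hker := same_ker H hcs D Θ g hT
  generalize PhS H hcs D Θ g = Φ₀ at hC1 hΦ hld hker
  obtain ⟨Φ, hΦe⟩ : ∃ Φ, Φ = opI c β τ₂ H.h₂ ρ (θ.subst dd) ∘ₗ Φ₀ := ⟨_, rfl⟩
  have hval : ∀ f, Φ f = opI c β τ₂ H.h₂ ρ (θ.subst dd) (Φ₀ f) := by
    intro f
    rw [hΦe]
    rfl
  have h1 : Φ ∈ XI c β τ₁ H.h₁ τ₂ H.h₂ ρ := by
    rw [hΦe]
    exact XI_op c β τ₁ τ₂ H.h₁ H.h₂ ρ Φ₀ hΦ _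
  have h2 : LeadI c β τ₁ H.h₁ τ₂ H.h₂ ρ Φ (dd * θ.subst dd) := by
    rw [hΦe, mul_comm]
    exact LeadI_op c β τ₁ τ₂ H.h₁ H.h₂ ρ Φ₀ dd _ hld
  obtain ⟨h3, h4⟩ := swI_conj H hcs D Φ h1 _ h2
  rw [map_mul, rename_dd, hθ2, neg_mul] at h4
  have hS : ∀ f, swI H hcs D (swI H.symm hcs D f) = f := fun f => swI_swI H.symm hcs D f
  have h5 : ∀ f, swI H.symm hcs D (Φ (swI H.symm hcs D (Φ f))) = f := by
    intro f
    rw [hval, hval, swI_op H.symm, swI_op H.symm, hθ2, hΦ.2, swI_op H.symm, hθ2, hC1,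
      ← opI_mul, ← opI_mul, ← pow_two, hθ3, opI_one]
  have hdd : ∀ f, opI c β τ₁ H.h₁ ρ dd f = 0 → opI c β τ₂ H.h₂ ρ dd (swI H hcs D f) = 0 := by
    intro f hf
    have h6 := swI_op H hcs D dd f
    rw [hf, map_zero, rename_dd, TwoG_opI_neg] at h6
    exact neg_eq_zero.1 h6.symm
  have h6 : ∀ f, opI c β τ₁ H.h₁ ρ dd f = 0 → Φ f = swI H hcs D f := by
    intro f hf
    obtain ⟨a, ha⟩ := hθ4
    have h7 : θ.subst dd * g = dd * a - 1 := by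
      rw [← ha]
      ring
    rw [hval, hker f hf, map_neg, ← opI_mul, h7, TwoG_opI_sub, opI_one, mul_comm, opI_mul,
      hdd f hf, map_zero, zero_sub, neg_neg]
  refine ⟨θ, Φ, swI H.symm hcs D ∘ₗ Φ ∘ₗ swI H.symm hcs D, hθ1, hθ2, h1, h3, h2, h4, h5,
    fun f => ?_, h6, fun f hf => ?_⟩
  · show Φ (swI H.symm hcs D (Φ (swI H.symm hcs D f))) = f
    have h7 := congrArg (swI H hcs D) (h5 (swI H.symm hcs D f))
    rw [hS, hS] at h7
    exact h7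
  · show swI H.symm hcs D (Φ (swI H.symm hcs D f)) = swI H.symm hcs D f
    have h7 : opI c β τ₁ H.h₁ ρ dd (swI H.symm hcs D f) = 0 := by
      have h8 := swI_op H.symm hcs D dd f
      rw [hf, map_zero, rename_dd, TwoG_opI_neg] at h8
      exact neg_eq_zero.1 h8.symm
    rw [h6 _ h7, hS]

end

end Pool.Agent.Lib.MP_ca1492_al.D5
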