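import Mathlib
import Pool.Agent.Lib.MP_ca1492_al.D4.IrrInj
import Pool.Agent.Lib.MP_ca1492_al.D4.Mk
import Pool.Agent.Lib.MP_ca1492_al.D5.TwoR

/-!
# MP_ca1492_al, D5, module TwoH: the two theorems of the folder `D4` used in `D5/TwoR.lean`
-/

set_option autoImplicit false

namespace Pool.Agent.Lib.MP_ca1492_al.D5

open Pool.Agent.Lib.MP_ca1492_al.P
open Topology Matrix ValuativeRel TensorProduct

noncomputable section

variable (F : Type) [Field F] [ValuativeRel F] [TopologicalSpace F]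
  [IsNonarchimedeanLocalField F]

theorem hypIrr : HypIrr F := fun _n _d h1 hd s _W _ _ ρ hρ hi hc hni A hA hinj =>
  PC.D4.irr_of_inj h1 hd s ρ hρ hi hc hni A hA hinj

theorem hypIb : HypIb F := fun _n _d h1 hd s _W _ _ ρ hρ hi hc hni A hA B hB tA tB A0 B0 h =>
  PC.D4.no_double h1 hd s ρ hρ hi hc hni 1 one_ne_zero A B hA hB tA tB A0 B0 h.1 h.2

end

end Pool.Agent.Lib.MP_ca1492_al.D5
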