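import Mathlib
import Pool.Agent.Lib.MP_ca1492_al.D5.TwoD
import Pool.Agent.Lib.MP_ca1492_al.D5.TwoH

/-!
# MP_ca1492_al, D5, module TwoL: two strands, reducible case: the pair of operators of `PC.D4.rank_one`

If the induced representation is not irreducible then `k = 1` in `diff_main`; the restrictions `A`, `B` of the
two normalised operators satisfy `A B = 0`, `B A = 0`, `A ≠ 0`, `B ≠ 0`; they are transported to `Fin n`.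
-/

set_option autoImplicit false
set_option linter.unusedSectionVars false

namespace Pool.Agent.Lib.MP_ca1492_al.D5

open Pool.Agent.Lib.MP_ca1492_al.P
open Topology Matrix ValuativeRel TensorProduct

noncomputable section

variable {F : Type} [Field F] [ValuativeRel F] [TopologicalSpace F]
  [IsNonarchimedeanLocalField F]
variable {κ : Type} [Fintype κ] [DecidableEq κ]
variable {V : Type} [AddCommGroup V] [Module ℂ V]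
variable {ι' : Type} {β : Bool → ι'} {τ₁ τ₂ : Bool → ℤ}
variable (H : Opp2 β τ₁ τ₂) {c : κ → Bool} {ρ : Representation ℂ (lev F c) V}
  (hcs : Function.Surjective c) (hρ : IsSm ρ) (hi : Irr ρ) (hc : Cusp c ρ)

include hcs hρ hi hc

theorem tw_AB (hno : NoIso c ρ) (hni : ¬ Irr (IRp c β τ₁ H.h₁ ρ)) :
    ∃ (A : ISp c β τ₁ H.h₁ ρ →ₗ[ℂ] ISp c β τ₂ H.h₂ ρ)
      (B : ISp c β τ₂ H.h₂ ρ →ₗ[ℂ] ISp c β τ₁ H.h₁ ρ),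
      Equi (IRp c β τ₁ H.h₁ ρ) (IRp c β τ₂ H.h₂ ρ) A ∧
      Equi (IRp c β τ₂ H.h₂ ρ) (IRp c β τ₁ H.h₁ ρ) B ∧ A ≠ 0 ∧ B ≠ 0 ∧
      (∀ x, A (B x) = 0) ∧ ∀ x, B (A x) = 0 := by
  obtain ⟨k, θ, Φ, Φ', hk, hθ, hΦ, hΦ', hL, hL', h12, h21, hk1, hk2⟩ :=
    diff_main H hcs hρ hi hc (hypIrr F) (hypIb F) hno
  have hk0 : k ≠ 0 := fun h => hni (hk1.1 h)
  have hθ0 : MvPowerSeries.constantCoeff (θ.subst dd) ≠ 0 := by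
    rw [const_subst]
    exact hθ
  have h10 : MvPowerSeries.constantCoeff (1 : MvPowerSeries Bool ℂ) ≠ 0 := by
    rw [map_one]
    exact one_ne_zero
  obtain ⟨Φ₀, hΦ₀, hΦ₀e⟩ := XI_restr0 c β τ₁ τ₂ H.h₁ H.h₂ ρ Φ hΦ
  obtain ⟨Φ₀', hΦ₀', hΦ₀e'⟩ := XI_restr0 c β τ₂ τ₁ H.h₂ H.h₁ ρ Φ' hΦ'
  have hcd : MvPowerSeries.constantCoeff (dd ^ k) = 0 := by
    rw [map_pow, const_dd, zero_pow hk0]
  obtain ⟨v, hv⟩ := hi.1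
  obtain ⟨f₁, hf₁⟩ := lead0 c β τ₁ τ₂ H.h₁ H.h₂ ρ hρ Φ _ hL hθ0 v hv
  obtain ⟨f₂, hf₂⟩ := lead0 c β τ₂ τ₁ H.h₂ H.h₁ ρ hρ Φ' _ hL' h10 v hv
  refine ⟨Φ₀, Φ₀', hΦ₀, hΦ₀', ?_, ?_, ?_, ?_⟩
  · rintro rfl
    apply hf₁
    rw [← hΦ₀e, LinearMap.zero_apply, map_zero]
  · rintro rfl
    apply hf₂
    rw [← hΦ₀e', LinearMap.zero_apply, map_zero]
  · intro f
    apply em0_inj c β τ₂ H.h₂ ρ
    rw [hΦ₀e, hΦ₀e', h21, opI_em0, hcd, zero_smul, map_zero]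
  · intro f
    apply em0_inj c β τ₁ H.h₁ ρ
    rw [hΦ₀e', hΦ₀e, h12, opI_em0, hcd, zero_smul, map_zero]

/-- transport to `Fin n` -/
theorem tw_r1 (hno : NoIso c ρ) (hni : ¬ Irr (IRp c β τ₁ H.h₁ ρ)) :
    ∃ (n d : ℕ) (_ : 1 ≤ d) (_ : d < n) (e : Fin n ≃ κ) (he : ∀ i, c (e i) = PC.D4.blk n d i)
      (s : Bool) (A : PC.D4.XnS s (plR e he ρ) →ₗ[ℂ] PC.D4.XnS (!s) (plR e he ρ))
      (B : PC.D4.XnS (!s) (plR e he ρ) →ₗ[ℂ] PC.D4.XnS s (plR e he ρ)),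
      Equi (PC.D4.InS s (plR e he ρ)) (PC.D4.InS (!s) (plR e he ρ)) A ∧
      Equi (PC.D4.InS (!s) (plR e he ρ)) (PC.D4.InS s (plR e he ρ)) B ∧ A ≠ 0 ∧ B ≠ 0 ∧
      (∀ x, A (B x) = 0) ∧ ∀ x, B (A x) = 0 := by
  obtain ⟨A, B, hA, hB, hA0, hB0, hAB, hBA⟩ := tw_AB H hcs hρ hi hc hno hni
  obtain ⟨n, d, h1, hd, e, he⟩ := exists_e c hcs
  obtain ⟨s, hs⟩ := tS_sg τ₁ H.h₁
  have hs₂ : ∀ x y, τ₂ x < τ₂ y ↔ tS (!s) x < tS (!s) y := fun x y =>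
    ((H.opp y x).symm.trans (hs y x)).trans (tS_not s y x)
  obtain ⟨Θ₁, -, hΘ₁⟩ := trX_ex e he H.beta τ₁ H.h₁ s hs ρ
  obtain ⟨Θ₂, -, hΘ₂⟩ := trX_ex e he H.beta τ₂ H.h₂ (!s) hs₂ ρ
  refine ⟨n, d, h1, hd, e, he, s, Θ₂.toLinearMap ∘ₗ A ∘ₗ Θ₁.symm.toLinearMap,
    Θ₁.toLinearMap ∘ₗ B ∘ₗ Θ₂.symm.toLinearMap, ?_, ?_, ?_, ?_, ?_, ?_⟩
  · intro g G
    obtain ⟨f, rfl⟩ := Θ₁.surjective G
    show Θ₂ (A (Θ₁.symm (PC.D4.InS s (plR e he ρ) g (Θ₁ f)))) =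
      PC.D4.InS (!s) (plR e he ρ) g (Θ₂ (A (Θ₁.symm (Θ₁ f))))
    rw [← hΘ₁, Θ₁.symm_apply_apply, Θ₁.symm_apply_apply, hA, hΘ₂]
  · intro g G
    obtain ⟨f, rfl⟩ := Θ₂.surjective G
    show Θ₁ (B (Θ₂.symm (PC.D4.InS (!s) (plR e he ρ) g (Θ₂ f)))) =
      PC.D4.InS s (plR e he ρ) g (Θ₁ (B (Θ₂.symm (Θ₂ f))))
    rw [← hΘ₂, Θ₂.symm_apply_apply, Θ₂.symm_apply_apply, hB, hΘ₁]
  · intro h
    apply hA0
    ext1 f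
    have h3 := LinearMap.congr_fun h (Θ₁ f)
    have h4 : Θ₂ (A (Θ₁.symm (Θ₁ f))) = 0 := h3
    rw [Θ₁.symm_apply_apply] at h4
    exact (Θ₂.map_eq_zero_iff).1 h4
  · intro h
    apply hB0
    ext1 f
    have h3 := LinearMap.congr_fun h (Θ₂ f)
    have h4 : Θ₁ (B (Θ₂.symm (Θ₂ f))) = 0 := h3
    rw [Θ₂.symm_apply_apply] at h4
    exact (Θ₁.map_eq_zero_iff).1 h4
  · intro x
    show Θ₂ (A (Θ₁.symm (Θ₁ (B (Θ₂.symm x))))) = 0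
    rw [Θ₁.symm_apply_apply, hAB, map_zero]
  · intro x
    show Θ₁ (B (Θ₂.symm (Θ₂ (A (Θ₁.symm x))))) = 0
    rw [Θ₂.symm_apply_apply, hBA, map_zero]

end

end Pool.Agent.Lib.MP_ca1492_al.D5
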