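import Mathlib
import Pool.Agent.Lib.MP_ca1492_al.D5.Cof

/-!
# MP_ca1492_al, D5, module Dim: equivariant maps from the socle

`HomSoc` = the equivariant maps from the socle of `I_τ₁(hat ρ)` to `I_τ₂(hat ρ)`.

* `homSoc_finrank`: the map `HomSoc → FS c β τ₁ hτ₁ τ₂ ρ (hat c ρ)`, `Φ ↦ ev1 ∘ Φ ∘ socEmb` is injective: if
  `(Φ (socEmb f))(1) = 0` for all `f` then `(Φ (socEmb f))(g) = (Φ (socEmb (R_g f)))(1) = 0`, and `socEmb` is onto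
  the socle (`socEmb_range`). It is in `FS` by `FS_of_hom`. Then `FS_finrank` with `σ = ρ`, `σ' = hat c ρ`: for `a ≠ 0`,
  `Equi (cjR c w hl ρ) (hat c ρ) a`: `cell_hom0` gives `A` with `IsA c w hl ρ A`, `a v = A v ⊗ 1`, so `ω ∈ S` by
  hypothesis; another `a'` is `0` or `A' v ⊗ 1`, `A' = z A` by `schur_A`.
-/

set_option autoImplicit false

namespace Pool.Agent.Lib.MP_ca1492_al.D5

open Pool.Agent.Lib.MP_ca1492_al.P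
open Topology Matrix ValuativeRel TensorProduct

noncomputable section

variable {F : Type} [Field F] [ValuativeRel F] [TopologicalSpace F]
  [IsNonarchimedeanLocalField F]
variable {κ : Type} [Fintype κ] [DecidableEq κ]
variable {ι ι' : Type} [Fintype ι] [DecidableEq ι]
variable {V : Type} [AddCommGroup V] [Module ℂ V]

/-- equivariant maps from the socle -/
def HomSoc (c : κ → ι) (β : ι → ι') (τ₁ τ₂ : ι → ℤ) (hτ₁ : Function.Injective τ₁)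
    (hτ₂ : Function.Injective τ₂) (ρ : Representation ℂ (lev F c) V) :
    Submodule ℂ (SocI c β τ₁ hτ₁ ρ →ₗ[ℂ] ISp c β τ₂ hτ₂ (hat c ρ)) where
  carrier := {Φ | ∀ (g : lev F (fun i => β (c i))) (x : SocI c β τ₁ hτ₁ ρ)
    (hx : IRp c β τ₁ hτ₁ (hat c ρ) g x.1 ∈ SocI c β τ₁ hτ₁ ρ),
    Φ ⟨IRp c β τ₁ hτ₁ (hat c ρ) g x.1, hx⟩ = IRp c β τ₂ hτ₂ (hat c ρ) g (Φ x)}
  zero_mem' := fun g x hx => by simp
  add_mem' := by
    intro a b ha hb g x hx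
    rw [LinearMap.add_apply, LinearMap.add_apply, map_add, ha g x hx, hb g x hx]
  smul_mem' := by
    intro z a ha g x hx
    rw [LinearMap.smul_apply, LinearMap.smul_apply, map_smul, ha g x hx]

/-- monotonicity of the dimension, for semimodules (to avoid instance problems) -/
theorem Dim_fin {A B : Type} [AddCommMonoid A] [Module ℂ A] [AddCommMonoid B] [Module ℂ B]
    (hB : Module.Finite ℂ B) (f : A →ₗ[ℂ] B) (hf : Function.Injective f) :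
    Module.Finite ℂ A ∧ Module.finrank ℂ A ≤ Module.finrank ℂ B := by
  let iA : AddCommGroup A := Module.addCommMonoidToAddCommGroup ℂ
  let iB : AddCommGroup B := Module.addCommMonoidToAddCommGroup ℂ
  have h1 : IsNoetherian ℂ B := isNoetherian_of_isNoetherianRing_of_finite ℂ B
  exact ⟨Module.Finite.of_injective f hf, LinearMap.finrank_le_finrank_of_injective hf⟩

/-- the embedding of `I_τ(ρ)` into the socle -/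
def Dim_soc (c : κ → ι) (β : ι → ι') (τ : ι → ℤ) (hτ : Function.Injective τ)
    (ρ : Representation ℂ (lev F c) V) : ISp c β τ hτ ρ →ₗ[ℂ] SocI c β τ hτ ρ :=
  LinearMap.codRestrict (SocI c β τ hτ ρ) (socEmb c β τ hτ ρ) fun f => by
    rw [← socEmb_range]
    exact ⟨f, rfl⟩

theorem Dim_soc_surj (c : κ → ι) (β : ι → ι') (τ : ι → ℤ) (hτ : Function.Injective τ)
    (ρ : Representation ℂ (lev F c) V) : Function.Surjective (Dim_soc c β τ hτ ρ) := by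
  rintro ⟨x, hx⟩
  rw [← socEmb_range] at hx
  obtain ⟨f, hf⟩ := hx
  exact ⟨f, Subtype.ext hf⟩

theorem Dim_equi (c : κ → ι) (β : ι → ι') (τ₁ τ₂ : ι → ℤ) (hτ₁ : Function.Injective τ₁)
    (hτ₂ : Function.Injective τ₂) (ρ : Representation ℂ (lev F c) V)
    (Φ : HomSoc c β τ₁ τ₂ hτ₁ hτ₂ ρ) :
    Equi (IRp c β τ₁ hτ₁ ρ) (IRp c β τ₂ hτ₂ (hat c ρ)) (Φ.1 ∘ₗ Dim_soc c β τ₁ hτ₁ ρ) := by
  intro g f
  have h1 : IRp c β τ₁ hτ₁ (hat c ρ) g (Dim_soc c β τ₁ hτ₁ ρ f).1 ∈ SocI c β τ₁ hτ₁ ρ :=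
    (Dim_soc c β τ₁ hτ₁ ρ (IRp c β τ₁ hτ₁ ρ g f)).2
  exact Φ.2 g (Dim_soc c β τ₁ hτ₁ ρ f) h1

/-- the functional of an equivariant map -/
def Dim_J (c : κ → ι) (β : ι → ι') (τ₁ τ₂ : ι → ℤ) (hτ₁ : Function.Injective τ₁)
    (hτ₂ : Function.Injective τ₂) (ρ : Representation ℂ (lev F c) V) :
    HomSoc c β τ₁ τ₂ hτ₁ hτ₂ ρ →ₗ[ℂ] FS c β τ₁ hτ₁ τ₂ ρ (hat c ρ) where
  toFun Φ := ⟨ev1 c β τ₂ hτ₂ (hat c ρ) ∘ₗ (Φ.1 ∘ₗ Dim_soc c β τ₁ hτ₁ ρ),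
    FS_of_hom c β τ₁ τ₂ hτ₁ hτ₂ ρ (hat c ρ) _ (Dim_equi c β τ₁ τ₂ hτ₁ hτ₂ ρ Φ)⟩
  map_add' _ _ := rfl
  map_smul' _ _ := rfl

theorem Dim_J_inj (c : κ → ι) (β : ι → ι') (τ₁ τ₂ : ι → ℤ) (hτ₁ : Function.Injective τ₁)
    (hτ₂ : Function.Injective τ₂) (ρ : Representation ℂ (lev F c) V) :
    Function.Injective (Dim_J c β τ₁ τ₂ hτ₁ hτ₂ ρ) := by
  intro Φ Ψ h
  refine Subtype.ext (LinearMap.ext fun x => ?_)
  obtain ⟨f, rfl⟩ := Dim_soc_surj c β τ₁ hτ₁ ρ x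
  refine Subtype.ext (funext fun g => ?_)
  have h1 : ∀ Ξ : HomSoc c β τ₁ τ₂ hτ₁ hτ₂ ρ,
      (Dim_J c β τ₁ τ₂ hτ₁ hτ₂ ρ Ξ).1 (IRp c β τ₁ hτ₁ ρ g f) =
        (Ξ.1 (Dim_soc c β τ₁ hτ₁ ρ f)).1 g := by
    intro Ξ
    have h2 := Dim_equi c β τ₁ τ₂ hτ₁ hτ₂ ρ Ξ g f
    show ((Ξ.1 ∘ₗ Dim_soc c β τ₁ hτ₁ ρ) (IRp c β τ₁ hτ₁ ρ g f)).1 1 = _
    rw [h2]
    show (Ξ.1 (Dim_soc c β τ₁ hτ₁ ρ f)).1 (1 * g) = _
    rw [one_mul]
  rw [← h1 Φ, ← h1 Ψ, h]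

theorem homSoc_finrank (c : κ → ι) (hcs : Function.Surjective c) (β : ι → ι') (τ₁ τ₂ : ι → ℤ)
    (hτ₁ : Function.Injective τ₁) (hτ₂ : Function.Injective τ₂)
    (ρ : Representation ℂ (lev F c) V) (hρ : IsSm ρ) (hi : Irr ρ) (hc : Cusp c ρ)
    (S : Finset (Equiv.Perm ι))
    (hS : ∀ (w : Equiv.Perm κ) (ω : Equiv.Perm ι) (_ : ∀ i, c (w i) = ω (c i))
      (hl : ∀ i j, c (w i) = c (w j) ↔ c i = c j) (A : V ≃ₗ[ℂ] V), IsA c w hl ρ A → ω ∈ S) :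
    Module.Finite ℂ (HomSoc c β τ₁ τ₂ hτ₁ hτ₂ ρ) ∧
      Module.finrank ℂ (HomSoc c β τ₁ τ₂ hτ₁ hτ₂ ρ) ≤ S.card := by
  obtain ⟨h1, h2⟩ := FS_finrank c hcs β τ₁ τ₂ hτ₁ hτ₂ ρ hρ hc (hat c ρ) S (by
    intro w ω hω hl _ a ha h0
    obtain ⟨A, hA, haA⟩ := cell_hom0 c hcs w ω hω hl ρ hρ hi hc a ha h0
    refine ⟨hS w ω hω hl A hA, fun a' ha' => ?_⟩
    by_cases h0' : a' = 0
    · exact ⟨0, by rw [h0', zero_smul]⟩
    · obtain ⟨A', hA', haA'⟩ := cell_hom0 c hcs w ω hω hl ρ hρ hi hc a' ha' h0'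
      obtain ⟨z, -, hz⟩ := schur_A c w hl ρ hρ hi hc A' A hA' hA
      refine ⟨z, LinearMap.ext fun v => ?_⟩
      rw [LinearMap.smul_apply, haA', haA, hz v, TensorProduct.smul_tmul'])
  have h3 := Dim_J_inj c β τ₁ τ₂ hτ₁ hτ₂ ρ
  obtain ⟨h4, h5⟩ := Dim_fin h1 (Dim_J c β τ₁ τ₂ hτ₁ hτ₂ ρ) h3
  exact ⟨h4, h5.trans h2⟩

end

end Pool.Agent.Lib.MP_ca1492_al.D5
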