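import Mathlib
import Pool.Agent.Lib.MP_ca1492_al.D5.LeadI

/-!
# MP_ca1492_al, D5, module Opp: the coefficient of the open cell

For opposite orders `τ₁`, `τ₂` every equivariant map `Φ : I_τ₁ → I_τ₂` (commuting with the power series or not)
has a leading coefficient `Lam Φ` (`olead_exists`), linear in `Φ`.

* `Lam_spec`: choice. `Lam_eq`: uniqueness, `lead_unique`. `Lam_add`, `Lam_smul`: `Lam_eq`.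
* `Lam_op`: if `f` is a test function then `opI y f` is one, with value `opE y (f 1)` at `1`.
* `Lam_op'`: `(opI y (Φ f))(1) = opE y ((Φ f)(1))`.
* `Lam_lead`: for `Φ ∈ XI` with `LeadI Φ ℓ`: `lead_unique`.
* `Lam_soc`: let `v ≠ 0` in `V` and `r ≥ 1` large such that `M ∩ K_r` fixes `v` (`sm_fix`); the test function `f` of
  level `r` with `f 1 = v ⊗ 1` (`tst_exists`; `hat c ρ m (v ⊗ 1) = ρ m v ⊗ 1`) is killed by all variables: the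
  function `opI (X x) f` is a test function with value `v ⊗ ∂_x 1 = 0` at `1`, so it is `0` (`KS_ext`). So
  `0 = (Φ f)(1) = Cr • opE ℓ (v ⊗ 1) = Cr • constantCoeff ℓ • (v ⊗ 1)`.
-/

set_option autoImplicit false

namespace Pool.Agent.Lib.MP_ca1492_al.D5

open Pool.Agent.Lib.MP_ca1492_al.P
open Topology Matrix ValuativeRel TensorProduct

noncomputable section

variable {F : Type} [Field F] [ValuativeRel F] [TopologicalSpace F]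
  [IsNonarchimedeanLocalField F]
variable {κ : Type} [Fintype κ] [DecidableEq κ]
variable {ι ι' : Type} [Fintype ι] [DecidableEq ι]
variable {V : Type} [AddCommGroup V] [Module ℂ V]

theorem Opp_psEnd_one {ι : Type} (f : MvPowerSeries ι ℂ) :
    psEnd f 1 = MvPowerSeries.constantCoeff f • (1 : MvPolynomial ι ℂ) := by
  classical
  have h := psEnd_mono f 0
  have h1 : (MvPolynomial.monomial (0 : ι →₀ ℕ) (1 : ℂ)) = 1 := rfl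
  rw [h1] at h
  rw [h, Finset.sum_eq_single (0, 0)]
  · have h2 := fac_ne_zero (0 : ι →₀ ℕ)
    rw [div_self h2, mul_one, MvPowerSeries.coeff_zero_eq_constantCoeff_apply,
      ← mul_one (MvPowerSeries.constantCoeff f), ← smul_eq_mul, ← MvPolynomial.smul_monomial]
    simp only [smul_eq_mul, mul_one]
    rfl
  · rintro ⟨a, b⟩ hp hne
    rw [Finset.HasAntidiagonal.mem_antidiagonal] at hp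
    simp only [add_eq_zero] at hp
    exact absurd (Prod.ext hp.1 hp.2) hne
  · intro h3
    exact absurd (Finset.HasAntidiagonal.mem_antidiagonal.2 (add_zero 0)) h3

section

variable (c : κ → ι) (hcs : Function.Surjective c) (β : ι → ι') (τ₁ τ₂ : ι → ℤ)
  (hτ₁ : Function.Injective τ₁) (hτ₂ : Function.Injective τ₂)
  (ho : ∀ x y, β x = β y → (τ₁ x < τ₁ y ↔ τ₂ y < τ₂ x))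
  (ρ : Representation ℂ (lev F c) V) (hρ : IsSm ρ) (hi : Irr ρ) (hc : Cusp c ρ)

include hcs hτ₂ ho hρ hi hc

theorem lam_exists (Φ : ISp c β τ₁ hτ₁ (hat c ρ) →ₗ[ℂ] ISp c β τ₂ hτ₂ (hat c ρ))
    (hΦ : Equi (IRp c β τ₁ hτ₁ (hat c ρ)) (IRp c β τ₂ hτ₂ (hat c ρ)) Φ) :
    ∃ ℓ : MvPowerSeries ι ℂ, ∀ r : ℕ, 1 ≤ r → ∀ f : ISp c β τ₁ hτ₁ (hat c ρ),
      KS c β τ₁ r f.1 → (Φ f).1 1 = Cr F c β τ₁ τ₂ r • opE V ℓ (f.1 1) :=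
  olead_exists c hcs β τ₁ τ₂ hτ₁ hτ₂ ρ hρ hi hc ho (ev1 c β τ₂ hτ₂ (hat c ρ) ∘ₗ Φ)
    (FS_of_hom c β τ₁ τ₂ hτ₁ hτ₂ (hat c ρ) (hat c ρ) Φ hΦ)

/-- the coefficient of the open cell -/
def Lam (Φ : ISp c β τ₁ hτ₁ (hat c ρ) →ₗ[ℂ] ISp c β τ₂ hτ₂ (hat c ρ))
    (hΦ : Equi (IRp c β τ₁ hτ₁ (hat c ρ)) (IRp c β τ₂ hτ₂ (hat c ρ)) Φ) : MvPowerSeries ι ℂ :=
  (lam_exists c hcs β τ₁ τ₂ hτ₁ hτ₂ ho ρ hρ hi hc Φ hΦ).choose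

theorem Lam_spec (Φ : ISp c β τ₁ hτ₁ (hat c ρ) →ₗ[ℂ] ISp c β τ₂ hτ₂ (hat c ρ))
    (hΦ : Equi (IRp c β τ₁ hτ₁ (hat c ρ)) (IRp c β τ₂ hτ₂ (hat c ρ)) Φ) (r : ℕ) (hr : 1 ≤ r)
    (f : ISp c β τ₁ hτ₁ (hat c ρ)) (hf : KS c β τ₁ r f.1) :
    (Φ f).1 1 = Cr F c β τ₁ τ₂ r •
      opE V (Lam c hcs β τ₁ τ₂ hτ₁ hτ₂ ho ρ hρ hi hc Φ hΦ) (f.1 1) :=
  (lam_exists c hcs β τ₁ τ₂ hτ₁ hτ₂ ho ρ hρ hi hc Φ hΦ).choose_spec r hr f hf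

theorem Lam_eq (Φ : ISp c β τ₁ hτ₁ (hat c ρ) →ₗ[ℂ] ISp c β τ₂ hτ₂ (hat c ρ))
    (hΦ : Equi (IRp c β τ₁ hτ₁ (hat c ρ)) (IRp c β τ₂ hτ₂ (hat c ρ)) Φ)
    (ℓ : MvPowerSeries ι ℂ) (h : LeadI c β τ₁ hτ₁ τ₂ hτ₂ ρ Φ ℓ) :
    Lam c hcs β τ₁ τ₂ hτ₁ hτ₂ ho ρ hρ hi hc Φ hΦ = ℓ :=
  lead_unique c β τ₁ τ₂ hτ₁ ρ hρ hi (ev1 c β τ₂ hτ₂ (hat c ρ) ∘ₗ Φ) _ _
    ⟨1, fun r hr f hf => Lam_spec c hcs β τ₁ τ₂ hτ₁ hτ₂ ho ρ hρ hi hc Φ hΦ r hr f hf⟩ h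

theorem Opp_lead (Φ : ISp c β τ₁ hτ₁ (hat c ρ) →ₗ[ℂ] ISp c β τ₂ hτ₂ (hat c ρ))
    (hΦ : Equi (IRp c β τ₁ hτ₁ (hat c ρ)) (IRp c β τ₂ hτ₂ (hat c ρ)) Φ) :
    LeadI c β τ₁ hτ₁ τ₂ hτ₂ ρ Φ (Lam c hcs β τ₁ τ₂ hτ₁ hτ₂ ho ρ hρ hi hc Φ hΦ) :=
  ⟨1, fun r hr f hf => Lam_spec c hcs β τ₁ τ₂ hτ₁ hτ₂ ho ρ hρ hi hc Φ hΦ r hr f hf⟩

theorem Lam_add (Φ Ψ : ISp c β τ₁ hτ₁ (hat c ρ) →ₗ[ℂ] ISp c β τ₂ hτ₂ (hat c ρ))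
    (hΦ : Equi (IRp c β τ₁ hτ₁ (hat c ρ)) (IRp c β τ₂ hτ₂ (hat c ρ)) Φ)
    (hΨ : Equi (IRp c β τ₁ hτ₁ (hat c ρ)) (IRp c β τ₂ hτ₂ (hat c ρ)) Ψ)
    (h : Equi (IRp c β τ₁ hτ₁ (hat c ρ)) (IRp c β τ₂ hτ₂ (hat c ρ)) (Φ + Ψ)) :
    Lam c hcs β τ₁ τ₂ hτ₁ hτ₂ ho ρ hρ hi hc (Φ + Ψ) h =
      Lam c hcs β τ₁ τ₂ hτ₁ hτ₂ ho ρ hρ hi hc Φ hΦ +
      Lam c hcs β τ₁ τ₂ hτ₁ hτ₂ ho ρ hρ hi hc Ψ hΨ :=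
  Lam_eq c hcs β τ₁ τ₂ hτ₁ hτ₂ ho ρ hρ hi hc (Φ + Ψ) h _
    (LeadI_add c β τ₁ τ₂ hτ₁ hτ₂ ρ Φ Ψ _ _
      (Opp_lead c hcs β τ₁ τ₂ hτ₁ hτ₂ ho ρ hρ hi hc Φ hΦ)
      (Opp_lead c hcs β τ₁ τ₂ hτ₁ hτ₂ ho ρ hρ hi hc Ψ hΨ))

theorem Lam_smul (z : ℂ) (Φ : ISp c β τ₁ hτ₁ (hat c ρ) →ₗ[ℂ] ISp c β τ₂ hτ₂ (hat c ρ))
    (hΦ : Equi (IRp c β τ₁ hτ₁ (hat c ρ)) (IRp c β τ₂ hτ₂ (hat c ρ)) Φ)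
    (h : Equi (IRp c β τ₁ hτ₁ (hat c ρ)) (IRp c β τ₂ hτ₂ (hat c ρ)) (z • Φ)) :
    Lam c hcs β τ₁ τ₂ hτ₁ hτ₂ ho ρ hρ hi hc (z • Φ) h =
      z • Lam c hcs β τ₁ τ₂ hτ₁ hτ₂ ho ρ hρ hi hc Φ hΦ := by
  refine Lam_eq c hcs β τ₁ τ₂ hτ₁ hτ₂ ho ρ hρ hi hc (z • Φ) h _ ⟨1, fun r hr f hf => ?_⟩
  have h1 := Lam_spec c hcs β τ₁ τ₂ hτ₁ hτ₂ ho ρ hρ hi hc Φ hΦ r hr f hf
  show z • (Φ f).1 1 = _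
  rw [h1, MvPowerSeries.smul_eq_C_mul, opE_mul, opE_C, smul_comm]

theorem Lam_op (y : MvPowerSeries ι ℂ)
    (Φ : ISp c β τ₁ hτ₁ (hat c ρ) →ₗ[ℂ] ISp c β τ₂ hτ₂ (hat c ρ))
    (hΦ : Equi (IRp c β τ₁ hτ₁ (hat c ρ)) (IRp c β τ₂ hτ₂ (hat c ρ)) Φ)
    (h : Equi (IRp c β τ₁ hτ₁ (hat c ρ)) (IRp c β τ₂ hτ₂ (hat c ρ))
      (Φ ∘ₗ opI c β τ₁ hτ₁ ρ y)) :
    Lam c hcs β τ₁ τ₂ hτ₁ hτ₂ ho ρ hρ hi hc (Φ ∘ₗ opI c β τ₁ hτ₁ ρ y) h =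
      y * Lam c hcs β τ₁ τ₂ hτ₁ hτ₂ ho ρ hρ hi hc Φ hΦ := by
  refine Lam_eq c hcs β τ₁ τ₂ hτ₁ hτ₂ ho ρ hρ hi hc _ h _ ⟨1, fun r hr f hf => ?_⟩
  have h1 := Lam_spec c hcs β τ₁ τ₂ hτ₁ hτ₂ ho ρ hρ hi hc Φ hΦ r hr
    (opI c β τ₁ hτ₁ ρ y f) (KS_map c β τ₁ r f.1 hf (opE V y))
  show (Φ (opI c β τ₁ hτ₁ ρ y f)).1 1 = _
  rw [h1, mul_comm, opE_mul]
  rfl

theorem Lam_op' (y : MvPowerSeries ι ℂ)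
    (Φ : ISp c β τ₁ hτ₁ (hat c ρ) →ₗ[ℂ] ISp c β τ₂ hτ₂ (hat c ρ))
    (hΦ : Equi (IRp c β τ₁ hτ₁ (hat c ρ)) (IRp c β τ₂ hτ₂ (hat c ρ)) Φ)
    (h : Equi (IRp c β τ₁ hτ₁ (hat c ρ)) (IRp c β τ₂ hτ₂ (hat c ρ))
      (opI c β τ₂ hτ₂ ρ y ∘ₗ Φ)) :
    Lam c hcs β τ₁ τ₂ hτ₁ hτ₂ ho ρ hρ hi hc (opI c β τ₂ hτ₂ ρ y ∘ₗ Φ) h =
      y * Lam c hcs β τ₁ τ₂ hτ₁ hτ₂ ho ρ hρ hi hc Φ hΦ :=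
  Lam_eq c hcs β τ₁ τ₂ hτ₁ hτ₂ ho ρ hρ hi hc _ h _
    (LeadI_op c β τ₁ τ₂ hτ₁ hτ₂ ρ Φ _ y (Opp_lead c hcs β τ₁ τ₂ hτ₁ hτ₂ ho ρ hρ hi hc Φ hΦ))

theorem Lam_soc (Φ : ISp c β τ₁ hτ₁ (hat c ρ) →ₗ[ℂ] ISp c β τ₂ hτ₂ (hat c ρ))
    (hΦ : Equi (IRp c β τ₁ hτ₁ (hat c ρ)) (IRp c β τ₂ hτ₂ (hat c ρ)) Φ)
    (h0 : ∀ f : ISp c β τ₁ hτ₁ (hat c ρ),
      (∀ x : ι, opI c β τ₁ hτ₁ ρ (MvPowerSeries.X x) f = 0) → Φ f = 0) :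
    MvPowerSeries.constantCoeff (Lam c hcs β τ₁ τ₂ hτ₁ hτ₂ ho ρ hρ hi hc Φ hΦ) = 0 := by
  obtain ⟨v, hv⟩ := hi.1
  obtain ⟨r₀, hr₀⟩ := sm_fix c (hat c ρ) (hat_smooth c ρ hρ) (v ⊗ₜ (1 : MvPolynomial ι ℂ))
  obtain ⟨f, hf, hf1⟩ := tst_exists c β τ₁ hτ₁ (hat c ρ) (max r₀ 1) _
    (hr₀ (max r₀ 1) (le_max_left _ _))
  have hk : ∀ x : ι, opI c β τ₁ hτ₁ ρ (MvPowerSeries.X x) f = 0 := by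
    intro x
    have hz : KS c β τ₁ (max r₀ 1) ((0 : ISp c β τ₁ hτ₁ (hat c ρ)).1) :=
      ⟨fun _ _ _ => rfl, fun _ h => absurd rfl h⟩
    refine KS_ext c β τ₁ hτ₁ (hat c ρ) (max r₀ 1) (opI c β τ₁ hτ₁ ρ (MvPowerSeries.X x) f) 0
      (KS_map c β τ₁ _ f.1 hf (opE V (MvPowerSeries.X x))) hz ?_
    show opE V (MvPowerSeries.X x) (f.1 1) = 0
    rw [hf1]
    show v ⊗ₜ[ℂ] psEnd (MvPowerSeries.X x) 1 = 0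
    rw [Opp_psEnd_one, MvPowerSeries.constantCoeff_X, zero_smul, TensorProduct.tmul_zero]
  have h1 := Lam_spec c hcs β τ₁ τ₂ hτ₁ hτ₂ ho ρ hρ hi hc Φ hΦ _ (le_max_right r₀ 1) f hf
  rw [h0 f hk, hf1] at h1
  have h2 : (0 : V ⊗[ℂ] MvPolynomial ι ℂ) = Cr F c β τ₁ τ₂ (max r₀ 1) •
      (v ⊗ₜ[ℂ] psEnd (Lam c hcs β τ₁ τ₂ hτ₁ hτ₂ ho ρ hρ hi hc Φ hΦ) 1) := h1
  rw [Opp_psEnd_one] at h2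
  have h3 := (smul_eq_zero.1 h2.symm).resolve_left (Cr_ne c β τ₁ τ₂ _)
  have h4 := congrArg (HatInj_E V (0 : ι → ℤ)) h3
  rw [HatInj_E_tmul, map_zero] at h4
  have h5 := (smul_eq_zero.1 h4).resolve_right hv
  unfold evZ at h5
  simpa using h5

end

end

end Pool.Agent.Lib.MP_ca1492_al.D5
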