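import Mathlib
import Pool.Agent.Lib.MP_ca1492_al.D5.Dim
import Pool.Agent.Lib.MP_ca1492_al.D5.Opp
import Pool.Agent.Lib.MP_ca1492_al.D5.Sys
import Pool.Agent.Lib.MP_ca1492_al.PA.WBas

/-!
# MP_ca1492_al, D5, module CK: the completed KLR algebra of the strands
-/

set_option autoImplicit false

namespace Pool.Agent.Lib.MP_ca1492_al.D5

open Pool.Agent.Lib.MP_ca1492_al.P
open Topology Matrix ValuativeRel TensorProduct CA1492

noncomputable section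

variable {F : Type} [Field F] [ValuativeRel F] [TopologicalSpace F]
  [IsNonarchimedeanLocalField F]
variable {κ : Type} [Fintype κ] [DecidableEq κ]
variable {V : Type} [AddCommGroup V] [Module ℂ V]
variable {n : ℕ}
variable {D : Dat} {ℓ : Fin n → D.J} {c : κ → Fin n} {ρ : Representation ℂ (lev F c) V}

theorem ck_soc (c : κ → Fin n) (ρ : Representation ℂ (lev F c) V) (σ : Equiv.Perm (Fin n))
    (x : IP c ρ σ) : x ∈ PA.SocW (opA c ρ) σ ↔ x ∈ SocI c cst (ordP σ) (ordP_inj σ) ρ := by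
  rw [mem_SocI]
  exact Iff.rfl

/-- comparison of the two forms of the equivariant maps from the socle -/
def ckF (c : κ → Fin n) (ρ : Representation ℂ (lev F c) V) (σ σ' : Equiv.Perm (Fin n)) :
    PA.HomW (gI c ρ) (opA c ρ) σ σ' →ₗ[ℂ]
      HomSoc c cst (ordP σ) (ordP σ') (ordP_inj σ) (ordP_inj σ') ρ where
  toFun f := ⟨{ toFun := fun x => f.1 ⟨x.1, (ck_soc c ρ σ x.1).2 x.2⟩
                map_add' := fun x y => map_add f.1 ⟨x.1, _⟩ ⟨y.1, _⟩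
                map_smul' := fun z x => map_smul f.1 z ⟨x.1, _⟩ }, fun g x hx =>
    f.2 g ⟨x.1, (ck_soc c ρ σ x.1).2 x.2⟩ ((ck_soc c ρ σ _).2 hx)⟩
  map_add' f f' := rfl
  map_smul' z f := rfl

theorem ckF_bij (c : κ → Fin n) (ρ : Representation ℂ (lev F c) V)
    (σ σ' : Equiv.Perm (Fin n)) : Function.Bijective (ckF c ρ σ σ') := by
  constructor
  · intro f f' h
    refine Subtype.ext (LinearMap.ext fun x => ?_)
    have h1 := LinearMap.congr_fun (congrArg Subtype.val h) ⟨x.1, (ck_soc c ρ σ x.1).1 x.2⟩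
    exact h1
  · intro f
    refine ⟨⟨{ toFun := fun x => f.1 ⟨x.1, (ck_soc c ρ σ x.1).1 x.2⟩
               map_add' := fun x y => map_add f.1 ⟨x.1, _⟩ ⟨y.1, _⟩
               map_smul' := fun z x => map_smul f.1 z ⟨x.1, _⟩ }, fun g x hx =>
      f.2 g ⟨x.1, (ck_soc c ρ σ x.1).1 x.2⟩ ((ck_soc c ρ σ _).1 hx)⟩, ?_⟩
    rfl

/-- the remaining hypotheses -/
theorem wbas (P : Strands D ℓ c ρ) :
    PA.WBas D n ℓ (gI c ρ) (opA c ρ) (TT c ρ P.S) P.S.e where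
  nil σ x := nil_mono c cst (ordP σ) (ordP_inj σ) ρ x
  cof σ K x hx := cof c cst (ordP σ) (ordP_inj σ) ρ P.hρ K x
    (fun d => (ck_soc c ρ σ (x d)).1 (hx d))
  hdim σ σ' := by
    have h1 := homSoc_finrank c P.hcs cst (ordP σ) (ordP σ') (ordP_inj σ) (ordP_inj σ') ρ
      P.hρ P.hi P.hc (Finset.univ.filter fun t : Equiv.Perm (Fin n) => ℓ ∘ t = ℓ)
      (fun w ω hω hl A hA => by
        rw [Finset.mem_filter]
        exact ⟨Finset.mem_univ _, P.hst w ω hω hl A hA⟩)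
    have e := LinearEquiv.ofBijective (ckF c ρ σ σ') (ckF_bij c ρ σ σ')
    haveI := h1.1
    exact ⟨Module.Finite.equiv e.symm, by
      rw [LinearEquiv.finrank_eq e]
      exact h1.2⟩
  T_self σ x := by
    rw [TT_self c P.hcs ρ P.hρ P.hi P.hc P.S σ]
    rfl
  T_step σ σ' σ'' r h hσ hr x :=
    LinearMap.congr_fun (TT_step c P.hcs ρ P.hρ P.hi P.hc P.S σ σ' σ'' r h hσ (by
      unfold ordP
      exact_mod_cast hr)) x
  eu := P.hu
  eq := P.hu'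
  lam σ σ' hσ' := by
    have ho : ∀ x y : Fin n, (cst x : Unit) = cst y → (ordP σ x < ordP σ y ↔
        ordP σ' y < ordP σ' x) := by
      intro x y _
      rw [hσ']
      exact ordP_rev σ x y
    have hl : ∀ (Φ : PA.HG (gI c ρ) σ σ'), Equi (IRp c cst (ordP σ) (ordP_inj σ) (hat c ρ))
        (IRp c cst (ordP σ') (ordP_inj σ') (hat c ρ)) Φ.1 := fun Φ g x => Φ.2 g x
    refine ⟨{ toFun := fun Φ => Lam c P.hcs cst (ordP σ) (ordP σ') (ordP_inj σ) (ordP_inj σ')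
                ho ρ P.hρ P.hi P.hc Φ.1 (hl Φ)
              map_add' := fun Φ Ψ => Lam_add c P.hcs cst (ordP σ) (ordP σ') (ordP_inj σ)
                (ordP_inj σ') ho ρ P.hρ P.hi P.hc Φ.1 Ψ.1 (hl Φ) (hl Ψ) (hl (Φ + Ψ))
              map_smul' := fun z Φ => Lam_smul c P.hcs cst (ordP σ) (ordP σ') (ordP_inj σ)
                (ordP_inj σ') ho ρ P.hρ P.hi P.hc z Φ.1 (hl Φ) (hl (z • Φ)) }, ?_, ?_, ?_, ?_⟩
    · intro Φ Ψ f h
      have h1 : Ψ.1 = Φ.1 ∘ₗ opI c cst (ordP σ) (ordP_inj σ) ρ f := LinearMap.ext h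
      have h2 : Equi (IRp c cst (ordP σ) (ordP_inj σ) (hat c ρ))
          (IRp c cst (ordP σ') (ordP_inj σ') (hat c ρ))
          (Φ.1 ∘ₗ opI c cst (ordP σ) (ordP_inj σ) ρ f) := h1 ▸ hl Ψ
      have h3 := Lam_op c P.hcs cst (ordP σ) (ordP σ') (ordP_inj σ) (ordP_inj σ') ho ρ P.hρ
        P.hi P.hc f Φ.1 (hl Φ) h2
      have h4 : ∀ (Ξ : IP c ρ σ →ₗ[ℂ] IP c ρ σ') (e : Ψ.1 = Ξ)
          (h : Equi (IRp c cst (ordP σ) (ordP_inj σ) (hat c ρ))
          (IRp c cst (ordP σ') (ordP_inj σ') (hat c ρ)) Ξ),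
          Lam c P.hcs cst (ordP σ) (ordP σ') (ordP_inj σ) (ordP_inj σ')
            ho ρ P.hρ P.hi P.hc Ψ.1 (hl Ψ) = Lam c P.hcs cst (ordP σ) (ordP σ') (ordP_inj σ)
            (ordP_inj σ') ho ρ P.hρ P.hi P.hc Ξ h := by
        rintro Ξ rfl h
        rfl
      exact (h4 _ h1 h2).trans h3
    · intro Φ Ψ f h
      have h1 : Ψ.1 = opI c cst (ordP σ') (ordP_inj σ') ρ f ∘ₗ Φ.1 := LinearMap.ext h
      have h2 : Equi (IRp c cst (ordP σ) (ordP_inj σ) (hat c ρ))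
          (IRp c cst (ordP σ') (ordP_inj σ') (hat c ρ))
          (opI c cst (ordP σ') (ordP_inj σ') ρ f ∘ₗ Φ.1) := h1 ▸ hl Ψ
      have h3 := Lam_op' c P.hcs cst (ordP σ) (ordP σ') (ordP_inj σ) (ordP_inj σ') ho ρ P.hρ
        P.hi P.hc f Φ.1 (hl Φ) h2
      have h4 : ∀ (Ξ : IP c ρ σ →ₗ[ℂ] IP c ρ σ') (e : Ψ.1 = Ξ)
          (h : Equi (IRp c cst (ordP σ) (ordP_inj σ) (hat c ρ))
          (IRp c cst (ordP σ') (ordP_inj σ') (hat c ρ)) Ξ),
          Lam c P.hcs cst (ordP σ) (ordP σ') (ordP_inj σ) (ordP_inj σ')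
            ho ρ P.hρ P.hi P.hc Ψ.1 (hl Ψ) = Lam c P.hcs cst (ordP σ) (ordP σ') (ordP_inj σ)
            (ordP_inj σ') ho ρ P.hρ P.hi P.hc Ξ h := by
        rintro Ξ rfl h
        rfl
      exact (h4 _ h1 h2).trans h3
    · intro Φ h
      have h1 : Φ.1 = TT c ρ P.S σ σ' := LinearMap.ext h
      have h2 : LeadI c cst (ordP σ) (ordP_inj σ) (ordP σ') (ordP_inj σ') ρ Φ.1
          (ldP P.S σ σ') := by
        rw [h1]
        exact (TT_good c ρ P.S σ σ').lead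
      refine (Lam_eq c P.hcs cst (ordP σ) (ordP σ') (ordP_inj σ) (ordP_inj σ') ho ρ P.hρ
        P.hi P.hc Φ.1 (hl Φ) _ h2).trans ?_
      unfold ldP
      refine Finset.prod_congr ?_ fun _ _ => rfl
      rw [hσ', cross_rev]
      refine Finset.filter_congr fun p _ => ?_
      unfold ordP
      exact_mod_cast Iff.rfl
    · intro Φ h
      exact Lam_soc c P.hcs cst (ordP σ) (ordP σ') (ordP_inj σ) (ordP_inj σ') ho ρ P.hρ
        P.hi P.hc Φ.1 (hl Φ) (fun f hf => h f hf)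

/-- the completed KLR algebra -/
theorem ck (P : Strands D ℓ c ρ) :
    ∃ φ : R D n →ₐ[ℂ] PA.EqE (wsys P), (∀ w, φ (ew w) = PA.wE (wsys P) w) ∧
      (∀ k, φ (yk k) = PA.wθ (wsys P) (MvPowerSeries.X k)) ∧
      PA.SSys D n (PA.wE (wsys P)) (PA.wθ (wsys P)) (PA.wΦ (wsys P)) (fun r => φ (ps r)) ∧
      PA.CKLR D n φ (PA.wθ (wsys P)) {w | ∃ σ : Equiv.Perm (Fin n), ℓ ∘ σ = w} :=
  PA.wbas_cklr (wsys P) (wbas P)

end

end Pool.Agent.Lib.MP_ca1492_al.D5
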