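import Mathlib
import Pool.Agent.Lib.MP_ca1492_al.D5.Lead

/-!
# MP_ca1492_al, D5, module Cmp: the equivariant map of a functional, composition

`homF L hL : ISp τ₁ σ → ISp τ₂ σ'` is the equivariant map `(homF L f)(g) = L (R_g f)` of a functional
`L ∈ FS τ₁ τ₂ σ σ'`.
-/

set_option autoImplicit false

namespace Pool.Agent.Lib.MP_ca1492_al.P

open Topology Matrix ValuativeRel TensorProduct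

noncomputable section

variable {F : Type} [Field F] [ValuativeRel F] [TopologicalSpace F]
  [IsNonarchimedeanLocalField F]
variable {κ : Type} [Fintype κ] [DecidableEq κ]
variable {ι ι' : Type} [Fintype ι] [DecidableEq ι]
variable {V E E' E'' : Type} [AddCommGroup V] [Module ℂ V] [AddCommGroup E] [Module ℂ E]
  [AddCommGroup E'] [Module ℂ E'] [AddCommGroup E''] [Module ℂ E'']

section

variable (c : κ → ι) (β : ι → ι') (τ₁ τ₂ τ₃ : ι → ℤ) (hτ₁ : Function.Injective τ₁)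
  (hτ₂ : Function.Injective τ₂) (hτ₃ : Function.Injective τ₃)
  (σ : Representation ℂ (lev F c) E) (σ' : Representation ℂ (lev F c) E')
  (σ'' : Representation ℂ (lev F c) E'')

/-- the equivariant map of a functional -/
def homF (L : ISp c β τ₁ hτ₁ σ →ₗ[ℂ] E') (hL : L ∈ FS c β τ₁ hτ₁ τ₂ σ σ') :
    ISp c β τ₁ hτ₁ σ →ₗ[ℂ] ISp c β τ₂ hτ₂ σ' :=
  (hom_of_FS c β τ₁ τ₂ hτ₁ hτ₂ σ σ' L hL).choose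

theorem homF_equi (L : ISp c β τ₁ hτ₁ σ →ₗ[ℂ] E') (hL : L ∈ FS c β τ₁ hτ₁ τ₂ σ σ') :
    Equi (IRp c β τ₁ hτ₁ σ) (IRp c β τ₂ hτ₂ σ') (homF c β τ₁ τ₂ hτ₁ hτ₂ σ σ' L hL) :=
  (hom_of_FS c β τ₁ τ₂ hτ₁ hτ₂ σ σ' L hL).choose_spec.1

theorem homF_val (L : ISp c β τ₁ hτ₁ σ →ₗ[ℂ] E') (hL : L ∈ FS c β τ₁ hτ₁ τ₂ σ σ')
    (f : ISp c β τ₁ hτ₁ σ) (g : lev F (fun i => β (c i))) :
    (homF c β τ₁ τ₂ hτ₁ hτ₂ σ σ' L hL f).1 g = L (IRp c β τ₁ hτ₁ σ g f) :=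
  (hom_of_FS c β τ₁ τ₂ hτ₁ hτ₂ σ σ' L hL).choose_spec.2 f g

theorem homF_one (L : ISp c β τ₁ hτ₁ σ →ₗ[ℂ] E') (hL : L ∈ FS c β τ₁ hτ₁ τ₂ σ σ')
    (f : ISp c β τ₁ hτ₁ σ) : (homF c β τ₁ τ₂ hτ₁ hτ₂ σ σ' L hL f).1 1 = L f := by
  rw [homF_val, map_one, Module.End.one_apply]

/-- an equivariant map is determined by its functional -/
theorem homF_unique (L : ISp c β τ₁ hτ₁ σ →ₗ[ℂ] E') (hL : L ∈ FS c β τ₁ hτ₁ τ₂ σ σ')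
    (Φ : ISp c β τ₁ hτ₁ σ →ₗ[ℂ] ISp c β τ₂ hτ₂ σ')
    (hΦ : Equi (IRp c β τ₁ hτ₁ σ) (IRp c β τ₂ hτ₂ σ') Φ) (h : ∀ f, (Φ f).1 1 = L f) :
    Φ = homF c β τ₁ τ₂ hτ₁ hτ₂ σ σ' L hL := by
  refine LinearMap.ext fun f => Subtype.ext (funext fun g => ?_)
  rw [homF_val, ← h, hΦ]
  show (Φ f).1 g = (Φ f).1 (1 * g)
  rw [one_mul]

theorem homF_congr (L L' : ISp c β τ₁ hτ₁ σ →ₗ[ℂ] E') (hL : L ∈ FS c β τ₁ hτ₁ τ₂ σ σ')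
    (hL' : L' ∈ FS c β τ₁ hτ₁ τ₂ σ σ') (h : ∀ f, L f = L' f) :
    homF c β τ₁ τ₂ hτ₁ hτ₂ σ σ' L hL = homF c β τ₁ τ₂ hτ₁ hτ₂ σ σ' L' hL' := by
  obtain rfl : L = L' := LinearMap.ext h
  rfl

/-- the value at `g` as the value at `1` of the translate -/
theorem ev1_IRp (σ : Representation ℂ (lev F c) E) (f : ISp c β τ₁ hτ₁ σ)
    (g : lev F (fun i => β (c i))) : (IRp c β τ₁ hτ₁ σ g f).1 1 = f.1 g := by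
  show f.1 (1 * g) = f.1 g
  rw [one_mul]

theorem FS_comp (L : ISp c β τ₁ hτ₁ σ →ₗ[ℂ] E') (hL : L ∈ FS c β τ₁ hτ₁ τ₂ σ σ')
    (L' : ISp c β τ₂ hτ₂ σ' →ₗ[ℂ] E'') (hL' : L' ∈ FS c β τ₂ hτ₂ τ₃ σ' σ'') :
    L' ∘ₗ homF c β τ₁ τ₂ hτ₁ hτ₂ σ σ' L hL ∈ FS c β τ₁ hτ₁ τ₃ σ σ'' := by
  refine ⟨fun n hn f => ?_, fun m hm hm' f => ?_⟩
  · rw [LinearMap.comp_apply, homF_equi, hL'.1 n hn]
    rfl
  · rw [LinearMap.comp_apply, homF_equi, hL'.2 m hm hm']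
    rfl

theorem homF_comp (L : ISp c β τ₁ hτ₁ σ →ₗ[ℂ] E') (hL : L ∈ FS c β τ₁ hτ₁ τ₂ σ σ')
    (L' : ISp c β τ₂ hτ₂ σ' →ₗ[ℂ] E'') (hL' : L' ∈ FS c β τ₂ hτ₂ τ₃ σ' σ'')
    (f : ISp c β τ₁ hτ₁ σ) :
    homF c β τ₁ τ₃ hτ₁ hτ₃ σ σ'' (L' ∘ₗ homF c β τ₁ τ₂ hτ₁ hτ₂ σ σ' L hL)
        (FS_comp c β τ₁ τ₂ τ₃ hτ₁ hτ₂ σ σ' σ'' L hL L' hL') f =
      homF c β τ₂ τ₃ hτ₂ hτ₃ σ' σ'' L' hL' (homF c β τ₁ τ₂ hτ₁ hτ₂ σ σ' L hL f) := by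
  refine Subtype.ext (funext fun g => ?_)
  rw [homF_val, homF_val, LinearMap.comp_apply, homF_equi]

end

section

variable (c : κ → ι) (β : ι → ι') (τ₁ τ₂ τ₃ : ι → ℤ) (hτ₁ : Function.Injective τ₁)
  (hτ₂ : Function.Injective τ₂) (hτ₃ : Function.Injective τ₃)
  (ρ : Representation ℂ (lev F c) V)

/-- the equivariant map of an intertwining functional commutes with power series -/
theorem homF_op (L : ISp c β τ₁ hτ₁ (hat c ρ) →ₗ[ℂ] V ⊗[ℂ] MvPolynomial ι ℂ)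
    (hL : L ∈ X1 c β τ₁ hτ₁ τ₂ ρ) (y : MvPowerSeries ι ℂ) (f : ISp c β τ₁ hτ₁ (hat c ρ)) :
    homF c β τ₁ τ₂ hτ₁ hτ₂ (hat c ρ) (hat c ρ) L hL.1 (opI c β τ₁ hτ₁ ρ y f) =
      opI c β τ₂ hτ₂ ρ y (homF c β τ₁ τ₂ hτ₁ hτ₂ (hat c ρ) (hat c ρ) L hL.1 f) := by
  refine Subtype.ext (funext fun g => ?_)
  rw [homF_val]
  show _ = opE V y ((homF c β τ₁ τ₂ hτ₁ hτ₂ (hat c ρ) (hat c ρ) L hL.1 f).1 g)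
  rw [homF_val, ← hL.2, ← opI_equi c β τ₁ hτ₁ ρ y g f]

theorem X1_comp (L : ISp c β τ₁ hτ₁ (hat c ρ) →ₗ[ℂ] V ⊗[ℂ] MvPolynomial ι ℂ)
    (hL : L ∈ X1 c β τ₁ hτ₁ τ₂ ρ)
    (L' : ISp c β τ₂ hτ₂ (hat c ρ) →ₗ[ℂ] V ⊗[ℂ] MvPolynomial ι ℂ)
    (hL' : L' ∈ X1 c β τ₂ hτ₂ τ₃ ρ) :
    L' ∘ₗ homF c β τ₁ τ₂ hτ₁ hτ₂ (hat c ρ) (hat c ρ) L hL.1 ∈ X1 c β τ₁ hτ₁ τ₃ ρ := by
  refine ⟨FS_comp c β τ₁ τ₂ τ₃ hτ₁ hτ₂ _ _ _ L hL.1 L' hL'.1, fun y f => ?_⟩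
  rw [LinearMap.comp_apply, homF_op c β τ₁ τ₂ hτ₁ hτ₂ ρ L hL, hL'.2]
  rfl

/-- `ev1` is an intertwining functional -/
theorem X1_ev1 : ev1 c β τ₁ hτ₁ (hat c ρ) ∈ X1 c β τ₁ hτ₁ τ₁ ρ := by
  refine ⟨FS_of_hom c β τ₁ τ₁ hτ₁ hτ₁ (hat c ρ) (hat c ρ) LinearMap.id (fun _ _ => rfl), ?_⟩
  intro y f
  rfl

/-- extensionality by the values at `1` of all translates -/
theorem ISp_ext_IRp (σ : Representation ℂ (lev F c) E) (f f' : ISp c β τ₁ hτ₁ σ)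
    (h : ∀ g : lev F (fun i => β (c i)), (IRp c β τ₁ hτ₁ σ g f).1 1 =
      (IRp c β τ₁ hτ₁ σ g f').1 1) : f = f' := by
  refine Subtype.ext (funext fun g => ?_)
  rw [← ev1_IRp, ← ev1_IRp c β τ₁ hτ₁ σ f', h]

end

end

end Pool.Agent.Lib.MP_ca1492_al.P
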