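import Mathlib
import Pool.Agent.Lib.MP_ca1492_al.D5.Cof
import Pool.Agent.Lib.MP_ca1492_al.P.FaithA

/-!
# MP_ca1492_al, D5, module CogA: irreducible subquotients of `hat ρ`

* `Cog_fam`: an irreducible quotient of a representation with a finite jointly injective (modulo the kernel)
  family of maps to an irreducible `ρ` is isomorphic to `ρ`.
* `Cog_irr`: an irreducible subquotient of `hat ρ` is isomorphic to `ρ`.
-/

set_option autoImplicit false

namespace Pool.Agent.Lib.MP_ca1492_al.D5

open Pool.Agent.Lib.MP_ca1492_al.P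
open Topology Matrix ValuativeRel TensorProduct

noncomputable section

section

variable {G : Type} [Group G] [TopologicalSpace G] [IsTopologicalGroup G]
variable {V W : Type} [AddCommGroup V] [Module ℂ V] [AddCommGroup W] [Module ℂ W]

theorem Cog_fam (ρ : Representation ℂ G V) (hi : Irr ρ) (θ : Representation ℂ G W) (hθ : Irr θ)
    {M : Type} [DecidableEq M] (s : Finset M) :
    ∀ (S : Type) [AddCommGroup S] [Module ℂ S] (α : Representation ℂ G S) (r : S →ₗ[ℂ] W)
      (_ : Equi α θ r) (_ : r ≠ 0) (f : M → S →ₗ[ℂ] V) (_ : ∀ m ∈ s, Equi α ρ (f m))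
      (_ : ∀ x, (∀ m ∈ s, f m x = 0) → r x = 0),
      ∃ A : W ≃ₗ[ℂ] V, Equi θ ρ (A : W →ₗ[ℂ] V) := by
  induction s using Finset.induction_on with
  | empty =>
    intro S _ _ α r hr h0 f hf hk
    exact absurd (LinearMap.ext fun x => hk x fun m hm => absurd hm (Finset.notMem_empty m)) h0
  | insert m s hm ih =>
    intro S _ _ α r hr h0 f hf hk
    have hfm := hf m (Finset.mem_insert_self m s)
    have hK : Stab α (LinearMap.ker (f m)) := ker_stab α ρ (f m) hfm
    by_cases hz : r ∘ₗ (LinearMap.ker (f m)).subtype = 0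
    · have hfac : ∀ a, f m a = 0 → r a = 0 := fun a ha =>
        LinearMap.congr_fun hz ⟨a, ha⟩
      have hsurj : Function.Surjective (f m) := by
        rw [← LinearMap.range_eq_top]
        rcases hi.2 _ (range_stab α ρ (f m) hfm) with h | h
        · exfalso
          apply h0
          refine LinearMap.ext fun x => hfac x ?_
          have h1 : f m x ∈ LinearMap.range (f m) := ⟨x, rfl⟩
          rw [h] at h1
          exact (Submodule.mem_bot ℂ).1 h1
        · exact h
      obtain ⟨q, hq⟩ := FaithA_factor (f m) hsurj r hfac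
      have hqe : Equi ρ θ q := by
        intro g v
        obtain ⟨x, rfl⟩ := hsurj v
        rw [← hfm g x, hq, hq, hr g x]
      have hq0 : q ≠ 0 := by
        rintro rfl
        exact h0 (LinearMap.ext fun x => (hq x).symm)
      have hb := irr_equi ρ θ q hqe hi hθ hq0
      refine ⟨(LinearEquiv.ofBijective q hb).symm, fun g w => ?_⟩
      obtain ⟨v, rfl⟩ := hb.2 w
      have h1 : ∀ v, (LinearEquiv.ofBijective q hb).symm (q v) = v := fun v =>
        (LinearEquiv.ofBijective q hb).symm_apply_apply v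
      show (LinearEquiv.ofBijective q hb).symm (θ g (q v)) =
        ρ g ((LinearEquiv.ofBijective q hb).symm (q v))
      rw [← hqe g v, h1, h1]
    · refine ih (LinearMap.ker (f m)) (subRep α _ hK) (r ∘ₗ (LinearMap.ker (f m)).subtype)
        (fun g x => hr g x.1) hz (fun m' => f m' ∘ₗ (LinearMap.ker (f m)).subtype)
        (fun m' hm' g x => hf m' (Finset.mem_insert_of_mem hm') g x.1) (fun x hx => ?_)
      refine hk x.1 fun m' hm' => ?_
      rcases Finset.mem_insert.1 hm' with h | h
      · rw [h]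
        exact x.2
      · exact hx m' h

end

variable {F : Type} [Field F] [ValuativeRel F] [TopologicalSpace F]
  [IsNonarchimedeanLocalField F]
variable {κ : Type} [Fintype κ] [DecidableEq κ]
variable {ι : Type} [Fintype ι] [DecidableEq ι]
variable {V : Type} [AddCommGroup V] [Module ℂ V]

omit [Fintype ι] [DecidableEq ι] in
theorem Cog_nilP (p : MvPolynomial ι ℂ) : ∃ K : ℕ, ∀ d : ι →₀ ℕ, K ≤ d.degree →
    psEnd (MvPowerSeries.monomial d (1 : ℂ)) p = 0 := by
  classical
  induction p using MvPolynomial.induction_on' with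
  | monomial β a =>
    refine ⟨β.degree + 1, fun d hd => ?_⟩
    have h1 : (MvPolynomial.monomial β a : MvPolynomial ι ℂ) =
        a • MvPolynomial.monomial β (1 : ℂ) := by
      rw [MvPolynomial.smul_monomial, smul_eq_mul, mul_one]
    rw [h1, map_smul, psEnd_mono, Finset.sum_eq_zero, smul_zero]
    intro p hp
    rw [MvPowerSeries.coeff_monomial, if_neg, zero_mul, map_zero]
    intro h
    have h2 := Finset.HasAntidiagonal.mem_antidiagonal.1 hp
    have h3 : β.degree = p.1.degree + p.2.degree := by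
      rw [← h2, map_add]
    rw [h] at h3
    omega
  | add p q hp hq =>
    obtain ⟨K, hK⟩ := hp
    obtain ⟨K', hK'⟩ := hq
    refine ⟨max K K', fun d hd => ?_⟩
    rw [map_add, hK d (le_trans (le_max_left _ _) hd), hK' d (le_trans (le_max_right _ _) hd),
      add_zero]

omit [Fintype ι] [DecidableEq ι] in
theorem Cog_nil (e : V ⊗[ℂ] MvPolynomial ι ℂ) : ∃ K : ℕ, ∀ d : ι →₀ ℕ, K ≤ d.degree →
    opE V (MvPowerSeries.monomial d (1 : ℂ)) e = 0 := by
  induction e using TensorProduct.induction_on with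
  | zero => exact ⟨0, fun d _ => map_zero _⟩
  | tmul v p =>
    obtain ⟨K, hK⟩ := Cog_nilP p
    refine ⟨K, fun d hd => ?_⟩
    rw [Cof_opE_tmul, hK d hd, TensorProduct.tmul_zero]
  | add a b ha hb =>
    obtain ⟨K, hK⟩ := ha
    obtain ⟨K', hK'⟩ := hb
    refine ⟨max K K', fun d hd => ?_⟩
    rw [map_add, hK d (le_trans (le_max_left _ _) hd), hK' d (le_trans (le_max_right _ _) hd),
      add_zero]

/-- an irreducible subquotient of `hat ρ` is isomorphic to `ρ` -/
theorem Cog_irr (c : κ → ι) (ρ : Representation ℂ (lev F c) V) (hi : Irr ρ)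
    {W : Type} [AddCommGroup W] [Module ℂ W] (θ : Representation ℂ (lev F c) W) (hθ : Irr θ)
    (E' : Submodule ℂ (V ⊗[ℂ] MvPolynomial ι ℂ)) (hE : Stab (hat c ρ) E') (r : E' →ₗ[ℂ] W)
    (hr : Equi (subRep (hat c ρ) E' hE) θ r) (h0 : r ≠ 0) :
    ∃ A : W ≃ₗ[ℂ] V, Equi θ ρ (A : W →ₗ[ℂ] V) := by
  classical
  -- the filtration
  let Q : ℕ → Prop := fun d => ∃ e : E', (∀ m : ι →₀ ℕ, d ≤ m.degree →
    opE V (MvPowerSeries.monomial m (1 : ℂ)) e.1 = 0) ∧ r e ≠ 0
  have hQ : ∃ d, Q d := by
    by_contra hcon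
    apply h0
    refine LinearMap.ext fun e => ?_
    by_contra he
    obtain ⟨K, hK⟩ := Cog_nil e.1
    exact hcon ⟨K, e, hK, he⟩
  obtain ⟨d, ⟨e₀, he₀, hre₀⟩, hmin⟩ : ∃ d, Q d ∧ ∀ d', d' < d → ¬ Q d' :=
    ⟨Nat.find hQ, Nat.find_spec hQ, fun d' hd' => Nat.find_min hQ hd'⟩
  cases d with
  | zero =>
    exfalso
    apply hre₀
    have h1 := he₀ 0 (Nat.zero_le _)
    have h2 : (MvPowerSeries.monomial (0 : ι →₀ ℕ) (1 : ℂ) : MvPowerSeries ι ℂ) = 1 := rfl
    rw [h2, opE_one] at h1
    have h3 : e₀ = 0 := Subtype.ext h1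
    rw [h3, map_zero]
  | succ d =>
    -- the subspace
    let S : Submodule ℂ E' :=
      { carrier := {e | ∀ m : ι →₀ ℕ, d + 1 ≤ m.degree →
          opE V (MvPowerSeries.monomial m (1 : ℂ)) e.1 = 0}
        add_mem' := by
          intro a b ha hb m hm
          show opE V _ (a.1 + b.1) = 0
          rw [map_add, ha m hm, hb m hm, add_zero]
        zero_mem' := fun m _ => map_zero _
        smul_mem' := by
          intro z a ha m hm
          show opE V _ (z • a.1) = 0
          rw [map_smul, ha m hm, smul_zero] }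
    have hS : Stab (subRep (hat c ρ) E' hE) S := by
      intro g e he m hm
      show opE V _ (hat c ρ g e.1) = 0
      rw [opE_equi c ρ _ g e.1, he m hm, map_zero]
    have hval : ∀ (e : S) (m : ι →₀ ℕ), m.degree = d →
        opE V (MvPowerSeries.monomial m (1 : ℂ)) e.1.1 =
          inc1 V ι (Cof_cc V ι (opE V (MvPowerSeries.monomial m (1 : ℂ)) e.1.1)) := by
      intro e m hm
      obtain ⟨v, hv⟩ := Cof_ker (opE V (MvPowerSeries.monomial m (1 : ℂ)) e.1.1) (by
        intro x
        rw [← opE_mul]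
        have h1 : (MvPowerSeries.X x : MvPowerSeries ι ℂ) * MvPowerSeries.monomial m (1 : ℂ) =
            MvPowerSeries.monomial (Finsupp.single x 1 + m) (1 : ℂ) := by
          rw [MvPowerSeries.X, MvPowerSeries.monomial_mul_monomial, one_mul]
        rw [h1]
        refine e.2 _ ?_
        rw [map_add, Finsupp.degree_single, hm]
        omega)
      rw [hv, Cof_cc_one]
      rfl
    refine Cog_fam ρ hi θ hθ ((Finset.univ : Finset ι).finsuppAntidiag d) S
      (subRep (subRep (hat c ρ) E' hE) S hS) (r ∘ₗ S.subtype) (fun g x => hr g x.1) ?_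
      (fun m => Cof_cc V ι ∘ₗ opE V (MvPowerSeries.monomial m (1 : ℂ)) ∘ₗ E'.subtype ∘ₗ S.subtype)
      ?_ ?_
    · intro h
      exact hre₀ (LinearMap.congr_fun h ⟨e₀, he₀⟩)
    · intro m hm g x
      have hm' : m.degree = d := by
        rw [Finset.mem_finsuppAntidiag] at hm
        rw [Finsupp.degree_eq_sum]
        exact hm.1
      show Cof_cc V ι (opE V (MvPowerSeries.monomial m (1 : ℂ)) (hat c ρ g x.1.1)) =
        ρ g (Cof_cc V ι (opE V (MvPowerSeries.monomial m (1 : ℂ)) x.1.1))
      rw [opE_equi c ρ _ g x.1.1, hval x m hm', ← inc1_equi c ρ g]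
      show Cof_cc V ι (_ ⊗ₜ 1) = ρ g (Cof_cc V ι (_ ⊗ₜ 1))
      rw [Cof_cc_one, Cof_cc_one]
    · intro x hx
      by_contra hne
      refine hmin d (Nat.lt_succ_self d) ⟨x.1, fun m hm => ?_, hne⟩
      rcases Nat.lt_or_eq_of_le hm with h | h
      · exact x.2 m h
      · have h1 : m ∈ (Finset.univ : Finset ι).finsuppAntidiag d := by
          rw [Finset.mem_finsuppAntidiag, ← Finsupp.degree_eq_sum]
          exact ⟨h.symm, Finset.subset_univ _⟩
        have h2 := hx m h1
        have h3 : Cof_cc V ι (opE V (MvPowerSeries.monomial m (1 : ℂ)) x.1.1) = 0 := h2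
        rw [hval x m h.symm, h3, map_zero]

end

end Pool.Agent.Lib.MP_ca1492_al.D5
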