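import Mathlib
import Pool.Agent.Lib.MP_ca1492_al.D5.CogA
import Pool.Agent.Lib.MP_ca1492_al.D5.UpA
import Pool.Agent.Lib.MP_ca1492_al.P.FaithB

/-!
# MP_ca1492_al, D5, module Cog: the cogenerator property

`cog_main`: every nonzero subquotient of `I_τ₁(hat ρ)` (all blocks merged) has a nonzero equivariant map to
some `I_τ(hat ρ)`.
-/

set_option autoImplicit false

namespace Pool.Agent.Lib.MP_ca1492_al.D5

open Pool.Agent.Lib.MP_ca1492_al.P
open Topology Matrix ValuativeRel TensorProduct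

noncomputable section

variable {F : Type} [Field F] [ValuativeRel F] [TopologicalSpace F]
  [IsNonarchimedeanLocalField F]
variable {κ : Type} [Fintype κ] [DecidableEq κ]
variable {ι : Type} [Fintype ι] [DecidableEq ι]
variable {V : Type} [AddCommGroup V] [Module ℂ V]

/-- the normalisation of the cell of `w` -/
theorem Cog_fac (c : κ → ι) (τ₁ τ : ι → ℤ) (hτ₁ : Function.Injective τ₁)
    (hτ : Function.Injective τ) (w : Equiv.Perm κ)
    (hw : ∀ i, (cst (c (w i)) : Unit) = cst (c i))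
    (h₂ : ∀ i j : κ, ((cst (c i) : Unit), τ (c (w i))) = (cst (c j), τ (c (w j))) ↔
      (cst (c i) : Unit) = cst (c j) ∧ τ (c (w i)) = τ (c (w j)))
    (m : GL κ F) (hm : m ∈ lev F c)
    (hm' : (permG F w)⁻¹ * m * permG F w ∈ lev F (fun i => (cst (c i) : Unit))) :
    cfac (F := F) (fun i => (cst (c i) : Unit)) (fun i => τ₁ (c i))
        (fun i => ((cst (c i) : Unit), τ (c (w i)))) (fun i => τ (c (w i))) h₂ w hw
        ⟨(permG F w)⁻¹ * m * permG F w, hm'⟩ * (dh c cst τ₁ ⟨m, hm⟩ : ℂ) =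
      (dh c cst τ ⟨m, hm⟩ : ℂ) := by
  have hl : ∀ i j, c (w i) = c (w j) ↔
      ((cst (c i) : Unit), τ (c (w i))) = (cst (c j), τ (c (w j))) := by
    intro i j
    rw [h₂]
    exact ⟨fun h => ⟨rfl, congrArg τ h⟩, fun h => hτ h.2⟩
  have hm2 : (permG F w)⁻¹ * m * permG F w ∈
      lev F (fun i => ((cst (c i) : Unit), τ (c (w i)))) := by
    intro i j hij
    rw [CGLb_conj]
    exact hm _ _ fun h => hij ((hl i j).1 h)
  have h1 := cfac_half (F := F) (fun i => (cst (c i) : Unit)) c (fun i => τ₁ (c i))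
    (ordD_cond c cst τ₁ hτ₁) (fun i => ((cst (c i) : Unit), τ (c (w i))))
    (fun i => τ (c (w i))) h₂ w hw hl ⟨(permG F w)⁻¹ * m * permG F w, hm'⟩ hm2
  have e1 : permG F w * ((permG F w)⁻¹ * m * permG F w) * (permG F w)⁻¹ = m := by group
  have e2 : ∀ (m₁ : GL κ F) (h : m₁ ∈ lev F c) (_ : m₁ = m),
      (dlh c (fun i => (cst (c i) : Unit)) (fun i => τ₁ (c i)) (ordD_cond c cst τ₁ hτ₁)
        ⟨m₁, h⟩ : ℂ) = (dh c cst τ₁ ⟨m, hm⟩ : ℂ) := by
    rintro m₁ h rfl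
    exact dlh_eq_dh c cst τ₁ hτ₁ _
  rw [e2 _ _ e1] at h1
  rw [h1, ← dlh_eq_dh c cst τ hτ, dlh_val, dlh_val]
  have h3 := mdl_uni_conj (F := F) (fun i => (cst (c i) : Unit)) c (fun i => τ (c i))
    (ordD_cond c cst τ hτ) (fun i => ((cst (c i) : Unit), τ (c (w i))))
    (fun i => τ (c (w i))) h₂ w hw hl ((permG F w)⁻¹ * m * permG F w) hm2
  rw [e1] at h3
  rw [← h3]

/-- the cogenerator property -/
theorem cog_main (c : κ → ι) (hcs : Function.Surjective c) (ρ : Representation ℂ (lev F c) V)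
    (hρ : IsSm ρ) (hi : Irr ρ) (hc : Cusp c ρ) (τ₁ : ι → ℤ) (hτ₁ : Function.Injective τ₁)
    (X₁ : Submodule ℂ (ISp c cst τ₁ hτ₁ (hat c ρ)))
    (hX : Stab (IRp c cst τ₁ hτ₁ (hat c ρ)) X₁) {U : Type} [AddCommGroup U] [Module ℂ U]
    (π : Representation ℂ (lev F (fun i => (cst (c i) : Unit))) U) (p : X₁ →ₗ[ℂ] U)
    (hp : Equi (V := X₁) (W := U) (subRep (IRp c cst τ₁ hτ₁ (hat c ρ)) X₁ hX) π p)
    (hs : Function.Surjective p) (h0 : ∃ u : U, u ≠ 0) :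
    ∃ (τ : ι → ℤ) (hτ : Function.Injective τ) (Φ : U →ₗ[ℂ] ISp c cst τ hτ (hat c ρ)),
      Equi π (IRp c cst τ hτ (hat c ρ)) Φ ∧ Φ ≠ 0 := by
  have hπ : IsSm π := smooth_of_surj _ π
    (smooth_sub _ (ISp_smooth c cst τ₁ hτ₁ (hat c ρ)) X₁ hX) p hp hs
  obtain ⟨o, h, U', hU', W, _, _, τr, T, E', hE, r, w, hw, -, hτi, -, hTs, hTe, hrs, hrel⟩ :=
    faith_sub (fun i => (cst (c i) : Unit)) c (fun i => τ₁ (c i)) (ordD_cond c cst τ₁ hτ₁)
      (twist (dh c cst τ₁) (hat c ρ)) (sm_twist c cst τ₁ _ (hat_smooth c ρ hρ))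
      (cusp_twist c cst τ₁ _ (cusp_hat c ρ hc)) X₁ hX π p hp hs h0
  -- the order
  obtain ⟨τ, rfl⟩ : ∃ τ : ι → ℤ, o = fun i => τ (c i) := by
    refine ⟨fun x => o (Function.surjInv hcs x), funext fun i => ?_⟩
    exact ((h i (Function.surjInv hcs (c i))).1 (Function.surjInv_eq hcs (c i)).symm).2
  have hτ : Function.Injective τ := by
    intro x y hxy
    obtain ⟨i, rfl⟩ := hcs x
    obtain ⟨j, rfl⟩ := hcs y
    exact (h i j).2 ⟨rfl, hxy⟩
  -- the twisted representation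
  set χ : lev F c →* ℂˣ := dh c cst τ with hχ
  have hW0 : ∃ v : W, v ≠ 0 := hτi.1
  have hE2 : Stab (hat c ρ) E' := by
    intro g e he
    have h1 := hE g e he
    have h2 : ((dh c cst τ₁ g : ℂˣ) : ℂ) • hat c ρ g e ∈ E' := h1
    exact (Submodule.smul_mem_iff E' (Units.ne_zero _)).1 h2
  have hθi : Irr (twist χ⁻¹ τr) := by
    refine ⟨hτi.1, fun Y hY => hτi.2 Y fun g v hv => ?_⟩
    have h2 : (((χ⁻¹) g : ℂˣ) : ℂ) • τr g v ∈ Y := hY g v hv
    exact (Submodule.smul_mem_iff Y (Units.ne_zero _)).1 h2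
  have hre : Equi (subRep (hat c ρ) E' hE2) (twist χ⁻¹ τr) r := by
    intro g e
    have hcb : g.1 ∈ lev F (fun i => (cst (c i) : Unit)) := fun i j hij => absurd rfl hij
    have h1 := hrel g.1 g.2 hcb e
    have h2 : subRep (twist (dh c cst τ₁) (hat c ρ)) E' hE ⟨g.1, g.2⟩ e =
        ((dh c cst τ₁ g : ℂˣ) : ℂ) • subRep (hat c ρ) E' hE2 g e := Subtype.ext rfl
    have h3 := Cog_fac c τ₁ τ hτ₁ hτ w hw (fun i j => Prod.mk.injEq _ _ _ _ ▸ Iff.rfl) g.1 g.2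
      (conj_lev_mem (fun i => (cst (c i) : Unit)) w hw g.1 hcb)
    have h4 : ((χ g : ℂˣ) : ℂ) • r (subRep (hat c ρ) E' hE2 g e) = τr g (r e) := by
      refine Eq.trans ?_ h1
      rw [h2, map_smul, smul_smul]
      congr 1
      exact h3.symm
    show _ = (((χ⁻¹) g : ℂˣ) : ℂ) • τr g (r e)
    rw [← h4, smul_smul, ← Units.val_mul, MonoidHom.inv_apply, inv_mul_cancel, Units.val_one,
      one_smul]
  have hr0 : r ≠ 0 := by
    rintro rfl
    obtain ⟨v, hv⟩ := hW0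
    obtain ⟨e, he⟩ := hrs v
    exact hv he.symm
  obtain ⟨A, hA⟩ := Cog_irr c ρ hi (twist χ⁻¹ τr) hθi E' hE2 r hre hr0
  -- the homomorphism on the Jacquet module
  have hφ : Equi ((ordD c cst τ hτ).Jac (subRep π U' hU')) (twist (dh c cst τ) (hat c ρ))
      (inc1 V ι ∘ₗ (A : W →ₗ[ℂ] V) ∘ₗ T) := by
    intro g x
    have h1 : T ((ordD c cst τ hτ).Jac (subRep π U' hU') g x) = τr g (T x) := hTe g x
    have h2 : τr g (T x) = ((χ g : ℂˣ) : ℂ) • twist χ⁻¹ τr g (T x) := by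
      show _ = ((χ g : ℂˣ) : ℂ) • ((((χ⁻¹) g : ℂˣ) : ℂ) • τr g (T x))
      rw [smul_smul, ← Units.val_mul, MonoidHom.inv_apply, mul_inv_cancel, Units.val_one,
        one_smul]
    show inc1 V ι (A (T ((ordD c cst τ hτ).Jac (subRep π U' hU') g x))) =
      ((dh c cst τ g : ℂˣ) : ℂ) • hat c ρ g (inc1 V ι (A (T x)))
    rw [h1, h2, map_smul, map_smul, ← inc1_equi c ρ g (A (T x))]
    congr 2
    exact hA g (T x)
  have hsm' := smooth_sub π hπ U' hU'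
  have hf := (ordD c cst τ hτ).frobFun_equi (subRep π U' hU') hsm' _ _ hφ
  set f := (ordD c cst τ hτ).frobFun (subRep π U' hU') hsm' _ _ hφ with hfdef
  obtain ⟨Φ, hΦ, hΦf⟩ := ISp_inj c hcs cst τ hτ ρ hρ hi hc U π hπ U' hU' f hf
  refine ⟨τ, hτ, Φ, hΦ, fun h => ?_⟩
  obtain ⟨v, hv⟩ := hW0
  obtain ⟨x, rfl⟩ := hTs v
  obtain ⟨u, rfl⟩ := Submodule.Quotient.mk_surjective _ x
  apply hv
  have h1 : f u = 0 := by
    rw [← hΦf u, h]
    rfl
  have h2 : inc1 V ι (A (T (Submodule.Quotient.mk (subRep π U' hU' 1 u)))) = 0 :=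
    congrFun (congrArg Subtype.val h1) 1
  rw [map_one] at h2
  have h3 : inc1 V ι (A (T (Submodule.Quotient.mk u))) = inc1 V ι 0 := by
    rw [map_zero]
    exact h2
  have h4 := Cof_inc1_inj h3
  exact A.map_eq_zero_iff.1 h4

end

end Pool.Agent.Lib.MP_ca1492_al.D5
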