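import Mathlib
import Pool.Agent.Lib.MP_ca1492_al.Cmp.PairS
import Pool.Agent.Lib.MP_ca1492_al.D5.Sys
import Pool.Agent.Lib.MP_ca1492_al.P.TenIso

/-!
# MP_ca1492_al, D5, module Mk: the strands of a family of letters

`TwoN`: normalised pairs of functionals for all words with two letters. `mkStrands`: the structure
`Strands` for every word of letters.
-/

set_option autoImplicit false

namespace Pool.Agent.Lib.MP_ca1492_al.D5

open Pool.Agent.Lib.MP_ca1492_al.P
open Topology Matrix ValuativeRel TensorProduct CA1492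
open Pool.Agent.Lib.MP_ca1492_al.Q (GLRep)

noncomputable section

variable {F : Type} [Field F] [ValuativeRel F] [TopologicalSpace F]
  [IsNonarchimedeanLocalField F]

/-- normalised pairs of functionals for all words with two letters -/
structure TwoN (D : Dat) (RJ : D.J → GLRep F) (e q : D.J → D.J → PowerSeries ℂ) : Prop where
  cusp : ∀ j, (RJ j).Cusp
  inj : ∀ i j, (RJ i).Isom (RJ j) → i = j
  ps : ∀ l₂ : Bool → D.J,
    PS RJ l₂ e q false true (fun _ => ()) pairB_bool oP oM oP_inj oM_inj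
  hq : ∀ i j, q i j = if i = j then 1 else if D.arr i j = true then PowerSeries.X
    else if D.arr j i = true then -PowerSeries.X else 1
  hu : ∀ i j, i ≠ j → IsUnit (e i j)
  hu' : ∀ i, ∃ u : PowerSeries ℂ, IsUnit u ∧ e i i = u * PowerSeries.X

variable {D : Dat} {RJ : D.J → GLRep F} {e q : D.J → D.J → PowerSeries ℂ}

theorem pairB_mrg' {ι : Type} [DecidableEq ι] (a b : ι) : PairB (mrg a b) a b := pairB_mrg a b

variable {n : ℕ} (ℓ : Fin n → D.J)

/-- the functionals of the pairs -/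
def mkS (h : TwoN D RJ e q) :
    RkSys (sc fun a => RJ (ℓ a)) (tenRep fun a => RJ (ℓ a)) where
  e a b := (e (ℓ a) (ℓ b)).subst (MvPowerSeries.X a - MvPowerSeries.X b : MvPowerSeries (Fin n) ℂ)
  q a b := (q (ℓ a) (ℓ b)).subst (MvPowerSeries.X a - MvPowerSeries.X b : MvPowerSeries (Fin n) ℂ)
  hex a b hab τ τ' hτ hτ' h1 h2 := by
    have h3 : τ' b < τ' a := by
      rw [h1]
      show τ (Equiv.swap a b b) < τ (Equiv.swap a b a)
      rw [Equiv.swap_apply_right, Equiv.swap_apply_left]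
      exact h2
    obtain ⟨t, ht, t', ht', hl, hl', hc, -⟩ := PS_all RJ ℓ e q h.cusp h.ps a b hab (mrg a b)
      (pairB_mrg' a b) τ τ' hτ hτ' h2 h3
    refine ⟨t, t', ht, ht', hl, hl', fun f => ?_⟩
    exact hc f _ fun g => homL_apply _ _ _ _ _ _ _ _ _ _ f g

theorem stab_let (w : stab ℓ) (a : Fin n) : ℓ ((w : Equiv.Perm (Fin n)) a) = ℓ a :=
  congrFun w.2 a

/-- the symmetries -/
def mkSym (RJ : D.J → GLRep F) :
    SymD (sc fun a => RJ (ℓ a)) (tenRep fun a => RJ (ℓ a)) (stab ℓ) where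
  bp := {
    toFun := fun w => bperm RJ ℓ w (stab_let ℓ w)
    map_one' := bperm_one RJ ℓ _
    map_mul' := fun w w' => bperm_mul RJ ℓ w w' (stab_let ℓ w) (stab_let ℓ w') _ }
  A := {
    toFun := fun w => Aw RJ ℓ w (stab_let ℓ w)
    map_one' := LinearEquiv.ext fun t => Aw_one RJ ℓ _ t
    map_mul' := fun w w' => LinearEquiv.ext fun t =>
      Aw_mul RJ ℓ w w' (stab_let ℓ w) (stab_let ℓ w') _ t }
  hbp w i := rfl
  hA w m hm hm' v := Aw_inter RJ ℓ w (stab_let ℓ w) ⟨m, hm⟩ v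

theorem mk_subst_unit (u : PowerSeries ℂ) (hu : IsUnit u) (a b : Fin n) :
    IsUnit (u.subst (MvPowerSeries.X a - MvPowerSeries.X b : MvPowerSeries (Fin n) ℂ)) := by
  rw [← PowerSeries.coe_substAlgHom (PA.Deriv_hasSubst a b)]
  exact hu.map _

theorem mk_same (RJ : D.J → GLRep F) (a b : Fin n) (hl : ℓ a = ℓ b) (β : Fin n → Fin n)
    (hβ : ∀ x, β (Equiv.swap a b x) = β x) (τ : Fin n → ℤ) (hτ : Function.Injective τ)
    (t : stab ℓ) (ht : (t : Equiv.Perm (Fin n)) = Equiv.swap a b)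
    (f : ISp (sc fun a => RJ (ℓ a)) β τ hτ (hat (sc fun a => RJ (ℓ a)) (tenRep fun a => RJ (ℓ a))))
    (x : lev F (fun i => β (sc (fun a => RJ (ℓ a)) i)))
    (hx : x.1 = permG F ((mkSym ℓ RJ).bp t)) :
    P.SW RJ ℓ (Equiv.swap a b) (swap_letter ℓ hl) β hβ τ hτ f = (mkSym ℓ RJ).AR t (f.1 x) := by
  obtain ⟨t, ht'⟩ := t
  subst ht
  have h1 : x = ⟨(permG F (bperm RJ ℓ (Equiv.swap a b) (swap_letter ℓ hl)))⁻¹,
      bperm_lev RJ ℓ (Equiv.swap a b) (swap_letter ℓ hl) β hβ⟩ := by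
    apply Subtype.ext
    rw [hx]
    show permG F (bperm RJ ℓ (Equiv.swap a b) (swap_letter ℓ hl)) = _
    symm
    rw [inv_eq_iff_mul_eq_one, ← permG_mul, ← bperm_mul RJ ℓ _ _ (swap_letter ℓ hl)
      (swap_letter ℓ hl) (fun y => by rw [Equiv.swap_mul_self]; rfl)]
    have h2 : ∀ (w : Equiv.Perm (Fin n)) (hw : ∀ a, ℓ (w a) = ℓ a) (_ : w = 1),
        permG F (bperm RJ ℓ w hw) = 1 := by
      rintro w hw rfl
      rw [bperm_one, permG_one]
    exact h2 _ _ (Equiv.swap_mul_self a b)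
  rw [h1]
  rfl

/-- the strands of the word `ℓ` -/
def mkStrands (h : TwoN D RJ e q) :
    Strands D ℓ (sc fun a => RJ (ℓ a)) (tenRep fun a => RJ (ℓ a)) where
  hcs := sc_surj _ fun a => h.cusp (ℓ a)
  hρ := ten_smooth _ fun a => (h.cusp (ℓ a)).1
  hi := ten_irr _ fun a => h.cusp (ℓ a)
  hc := ten_cusp _ fun a => h.cusp (ℓ a)
  S := mkS ℓ h
  sy := mkSym ℓ RJ
  he w a b _ := by
    show (e (ℓ ((w : Equiv.Perm (Fin n)) a)) (ℓ ((w : Equiv.Perm (Fin n)) b))).subst _ =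
      MvPowerSeries.rename _ ((e (ℓ a) (ℓ b)).subst _)
    rw [stab_let ℓ w a, stab_let ℓ w b]
    exact (PA.rename_subst (w : Equiv.Perm (Fin n)).toEmbedding (e (ℓ a) (ℓ b))).symm
  hq a b _ := by
    show (q (ℓ a) (ℓ b)).subst (MvPowerSeries.X a - MvPowerSeries.X b : MvPowerSeries (Fin n) ℂ) = _
    rw [h.hq, ← PowerSeries.coe_substAlgHom (PA.Deriv_hasSubst a b)]
    unfold PA.QQ
    split_ifs
    · rw [map_one]
    · rw [PowerSeries.coe_substAlgHom, PowerSeries.subst_X (PA.Deriv_hasSubst a b)]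
    · rw [map_neg, PowerSeries.coe_substAlgHom, PowerSeries.subst_X (PA.Deriv_hasSubst a b),
        neg_sub]
    · rw [map_one]
  hs a b hab hl t ht := by
    intro τ τ' hτ h1 h2 L hL hL' f hf x hx
    have hτ' : Function.Injective τ' := by
      rw [h1]
      exact swO_inj _ hτ _ _
    have h3 : τ' b < τ' a := by
      rw [h1]
      show τ (Equiv.swap a b b) < τ (Equiv.swap a b a)
      rw [Equiv.swap_apply_right, Equiv.swap_apply_left]
      exact h2
    obtain ⟨t₀, ht₀, t', ht', hl₀, hl', hc, hsame⟩ := PS_all RJ ℓ e q h.cusp h.ps a b hab (mrg a b)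
      (pairB_mrg' a b) τ τ' hτ hτ' h2 h3
    have h4 : L = t₀ := X1_ext _ (sc_surj _ fun a => h.cusp (ℓ a)) _ τ τ' hτ hτ' _
      (ten_smooth _ fun a => (h.cusp (ℓ a)).1) (ten_irr _ fun a => h.cusp (ℓ a))
      (ten_cusp _ fun a => h.cusp (ℓ a)) L t₀ hL ht₀ _ hL' hl₀
    rw [h4, hsame hl f hf]
    exact mk_same ℓ RJ a b hl _ _ _ hτ t ht f x hx
  hst w ω hw hl A hA := by
    funext a
    have h1 := ten_conj_isom (fun a => RJ (ℓ a)) (fun a => h.cusp (ℓ a)) w ω hw hl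
      ⟨A, hA⟩ a
    exact (h.inj _ _ h1).symm
  hu a b hab hl := mk_subst_unit _ (h.hu _ _ hl) a b
  hu' a b hab hl := by
    obtain ⟨u, hu, he⟩ := h.hu' (ℓ a)
    refine ⟨_, mk_subst_unit u hu a b, ?_⟩
    show (e (ℓ a) (ℓ b)).subst (MvPowerSeries.X a - MvPowerSeries.X b : MvPowerSeries (Fin n) ℂ) = _
    rw [← hl, he, PowerSeries.subst_mul (PA.Deriv_hasSubst a b),
      PowerSeries.subst_X (PA.Deriv_hasSubst a b)]

end

end Pool.Agent.Lib.MP_ca1492_al.D5
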